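import Pool.Agent.BMM.Par

open Finset

namespace BMM

theorem ba_le_one {a : ℕ} (ha : 1 ≤ a) {s : Finset ℕ} {μ : ℕ → ℝ} (h0 : ∀ i, 0 ≤ μ i)
    (h1 : ∑ i ∈ s, μ i ^ a ≤ 1) {i : ℕ} (hi : i ∈ s) : μ i ≤ 1 := by
  by_contra hcon
  push Not at hcon
  have h2 : 1 < μ i ^ a := one_lt_pow₀ hcon (by omega)
  have h3 : μ i ^ a ≤ ∑ i ∈ s, μ i ^ a :=
    Finset.single_le_sum (f := fun i => μ i ^ a) (fun j _ => pow_nonneg (h0 j) a) hi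
  linarith

theorem dn_bdd {a : ℕ} (ha : 1 ≤ a) (s : Finset ℕ) (β : ℕ → ℝ) :
    BddAbove {r : ℝ | ∃ μ : ℕ → ℝ, (∀ i, 0 ≤ μ i) ∧ ∑ i ∈ s, μ i ^ a ≤ 1 ∧
      r = ∑ i ∈ s, μ i * β i} := by
  refine ⟨∑ i ∈ s, |β i|, ?_⟩
  rintro r ⟨μ, h0, h1, rfl⟩
  refine Finset.sum_le_sum (fun i hi => ?_)
  have h2 := ba_le_one ha h0 h1 hi
  calc μ i * β i ≤ μ i * |β i| := mul_le_mul_of_nonneg_left (le_abs_self _) (h0 i)
    _ ≤ 1 * |β i| := mul_le_mul_of_nonneg_right h2 (abs_nonneg _)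
    _ = |β i| := one_mul _

theorem le_dn {a : ℕ} (ha : 1 ≤ a) {s : Finset ℕ} {β μ : ℕ → ℝ} (h0 : ∀ i, 0 ≤ μ i)
    (h1 : ∑ i ∈ s, μ i ^ a ≤ 1) : ∑ i ∈ s, μ i * β i ≤ dn a s β :=
  le_csSup (dn_bdd ha s β) ⟨μ, h0, h1, rfl⟩

theorem ba_nonempty {a : ℕ} (ha : 1 ≤ a) (s : Finset ℕ) (β : ℕ → ℝ) :
    {r : ℝ | ∃ μ : ℕ → ℝ, (∀ i, 0 ≤ μ i) ∧ ∑ i ∈ s, μ i ^ a ≤ 1 ∧
      r = ∑ i ∈ s, μ i * β i}.Nonempty := by
  refine ⟨0, fun _ => 0, fun _ => le_rfl, ?_, ?_⟩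
  · simp [zero_pow (show a ≠ 0 by omega)]
  · simp

theorem dn_le {a : ℕ} {s : Finset ℕ} {β : ℕ → ℝ} {C : ℝ} (ha : 1 ≤ a)
    (h : ∀ μ : ℕ → ℝ, (∀ i, 0 ≤ μ i) → ∑ i ∈ s, μ i ^ a ≤ 1 → ∑ i ∈ s, μ i * β i ≤ C) :
    dn a s β ≤ C := by
  refine csSup_le (ba_nonempty ha s β) ?_
  rintro r ⟨μ, h0, h1, rfl⟩
  exact h μ h0 h1

theorem exists_lt_dn {a : ℕ} {s : Finset ℕ} {β : ℕ → ℝ} {c : ℝ} (ha : 1 ≤ a)
    (h : c < dn a s β) : ∃ μ : ℕ → ℝ, (∀ i, 0 ≤ μ i) ∧ (∀ i ∈ s, μ i ≤ 1) ∧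
      ∑ i ∈ s, μ i ^ a ≤ 1 ∧ c < ∑ i ∈ s, μ i * β i := by
  obtain ⟨r, ⟨μ, h0, h1, rfl⟩, hr⟩ := exists_lt_of_lt_csSup (ba_nonempty ha s β) h
  exact ⟨μ, h0, fun i hi => ba_le_one ha h0 h1 hi, h1, hr⟩

theorem dn_nonneg {a : ℕ} (ha : 1 ≤ a) (s : Finset ℕ) (β : ℕ → ℝ) : 0 ≤ dn a s β := by
  have h := le_dn ha (s := s) (β := β) (μ := fun _ => 0) (fun _ => le_rfl)
    (by simp [zero_pow (show a ≠ 0 by omega)])
  simpa using h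

theorem le_dn_apply {a : ℕ} (ha : 1 ≤ a) {s : Finset ℕ} {β : ℕ → ℝ}
    {i : ℕ} (hi : i ∈ s) : β i ≤ dn a s β := by
  have h := le_dn ha (s := s) (β := β) (μ := fun j => if j = i then 1 else 0)
    (fun j => by split_ifs <;> norm_num)
    (by
      have h1 : ∀ j ∈ s, (if j = i then (1 : ℝ) else 0) ^ a = if j = i then 1 else 0 := by
        intro j _
        split_ifs
        · simp
        · exact zero_pow (by omega)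
      rw [Finset.sum_congr rfl h1, Finset.sum_ite_eq' s i]
      simp [hi])
  have h2 : ∑ j ∈ s, (if j = i then (1 : ℝ) else 0) * β j = β i := by
    simp [Finset.sum_ite_eq', hi]
  rw [h2] at h
  exact h

theorem dn_scale {a : ℕ} (ha : 1 ≤ a) {s : Finset ℕ} {β ν : ℕ → ℝ} {c : ℝ} (hc : 0 ≤ c)
    (h0 : ∀ i, 0 ≤ ν i) (h1 : ∑ i ∈ s, ν i ^ a ≤ c ^ a) :
    ∑ i ∈ s, ν i * β i ≤ c * dn a s β := by
  rcases hc.eq_or_lt with hc | hc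
  · subst hc
    have h2 : ∀ i ∈ s, ν i = 0 := by
      intro i hi
      have h3 : ν i ^ a ≤ ∑ i ∈ s, ν i ^ a :=
        Finset.single_le_sum (f := fun i => ν i ^ a) (fun j _ => pow_nonneg (h0 j) a) hi
      rw [zero_pow (show a ≠ 0 by omega)] at h1
      have h4 : ν i ^ a = 0 := le_antisymm (h3.trans h1) (pow_nonneg (h0 i) a)
      exact pow_eq_zero_iff (show a ≠ 0 by omega) |>.mp h4
    rw [Finset.sum_eq_zero (fun i hi => by rw [h2 i hi, zero_mul]), zero_mul]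
  · have h2 := le_dn ha (s := s) (β := β) (μ := fun i => ν i / c)
      (fun i => div_nonneg (h0 i) hc.le) (by
        simp only [div_pow]
        rw [← Finset.sum_div]
        exact (div_le_one (pow_pos hc a)).mpr h1)
    have h3 : ∑ i ∈ s, ν i * β i = c * ∑ i ∈ s, (ν i / c) * β i := by
      rw [Finset.mul_sum]
      refine Finset.sum_congr rfl (fun i _ => ?_)
      field_simp
    rw [h3]
    exact mul_le_mul_of_nonneg_left h2 hc.le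

theorem sum_le_dn {a R : ℕ} (ha : 1 ≤ a) {s : Finset ℕ} {β : ℕ → ℝ} (hs : s.card ≤ R ^ a) :
    ∑ i ∈ s, β i ≤ (R : ℝ) * dn a s β := by
  have h := dn_scale ha (s := s) (β := β) (ν := fun _ => 1) (c := (R : ℝ)) (Nat.cast_nonneg R)
    (fun _ => zero_le_one) (by
      simp only [one_pow, Finset.sum_const, nsmul_eq_mul, mul_one]
      exact_mod_cast hs)
  simpa using h

theorem dn_congr {a : ℕ} {s : Finset ℕ} {β β' : ℕ → ℝ} (h : ∀ i ∈ s, β i = β' i) :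
    dn a s β = dn a s β' := by
  unfold dn
  congr 1
  ext r
  have h1 : ∀ μ : ℕ → ℝ, ∑ i ∈ s, μ i * β i = ∑ i ∈ s, μ i * β' i := fun μ =>
    Finset.sum_congr rfl (fun i hi => by rw [h i hi])
  simp only [Set.mem_ofPred_eq, h1]

end BMM
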