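import Pool.Agent.BMM.Par

open Finset

namespace BMM

theorem BB_sum_mul (L n : ℕ) (G : ℕ → ℝ) :
    ∑ i ∈ range (L * n), G i = ∑ l ∈ range L, ∑ s ∈ range n, G (l * n + s) := by
  induction L with
  | zero => simp
  | succ L ih =>
    rw [Nat.succ_mul, Finset.sum_range_add, ih, Finset.sum_range_succ]

theorem BB_off_succ (m : ℕ) : off (m + 1) = off m + LL m * nn m := rfl

theorem BB_bo_succ (m : ℕ) : bo (m + 1) = bo m + LL m := rfl

/-- Summation over a group of the piece layout. -/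
theorem sum_off (m : ℕ) (F : ℕ → ℝ) :
    ∑ i ∈ Ico (off m) (off (m + 1)), F i =
      ∑ l ∈ Ico (bo m) (bo (m + 1)), ∑ s ∈ range (nn m), F (off m + (l - bo m) * nn m + s) := by
  rw [Finset.sum_Ico_eq_sum_range, Finset.sum_Ico_eq_sum_range, BB_off_succ, BB_bo_succ,
    Nat.add_sub_cancel_left, Nat.add_sub_cancel_left, BB_sum_mul]
  refine Finset.sum_congr rfl fun l _ => Finset.sum_congr rfl fun s _ => ?_
  rw [Nat.add_sub_cancel_left, Nat.add_assoc]

theorem pz_apply (β : ℕ → ℝ) (m : ℕ) {l s : ℕ} (hl : l ∈ Ico (bo m) (bo (m + 1)))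
    (hs : s < nn m) : pz β m (off m + (l - bo m) * nn m + s) =
      ((mm m : ℝ) / (nn m : ℝ)) * β l := by
  rw [Finset.mem_Ico, BB_bo_succ] at hl
  have h1 : (l - bo m) + 1 ≤ LL m := by omega
  have h2 : ((l - bo m) + 1) * nn m ≤ LL m * nn m := Nat.mul_le_mul_right _ h1
  have h3 : off m + (l - bo m) * nn m + s < off (m + 1) := by
    rw [BB_off_succ]
    have : ((l - bo m) + 1) * nn m = (l - bo m) * nn m + nn m := Nat.succ_mul _ _
    omega
  have h4 : off m ≤ off m + (l - bo m) * nn m + s := by omega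
  unfold pz
  rw [if_pos ⟨h4, h3⟩]
  have h5 : (off m + (l - bo m) * nn m + s - off m) / nn m = l - bo m := by
    have : off m + (l - bo m) * nn m + s - off m = s + nn m * (l - bo m) := by
      rw [Nat.mul_comm (nn m)]
      omega
    rw [this, Nat.add_mul_div_left _ _ (by omega), Nat.div_eq_of_lt hs, Nat.zero_add]
  rw [h5]
  congr 2
  omega

theorem pz_supp {β : ℕ → ℝ} {m i : ℕ} (h : pz β m i ≠ 0) : off m ≤ i ∧ i < off (m + 1) := by
  by_contra hc
  apply h
  unfold pz
  rw [if_neg hc]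

theorem pz_fsn {β : ℕ → ℝ} (hβ : ∀ i, 0 ≤ β i) (m : ℕ) : Fsn (pz β m) := by
  refine ⟨fun i => ?_, off (m + 1), fun i hi => ?_⟩
  · unfold pz
    split_ifs
    · exact mul_nonneg (div_nonneg (Nat.cast_nonneg _) (Nat.cast_nonneg _)) (hβ _)
    · exact le_rfl
  · by_contra hc
    have := (pz_supp hc).2
    omega

theorem pz_sum (β : ℕ → ℝ) (m : ℕ) :
    ∑ i ∈ Ico (off m) (off (m + 1)), pz β m i =
      (mm m : ℝ) * ∑ l ∈ Ico (bo m) (bo (m + 1)), β l := by
  rw [sum_off, Finset.mul_sum]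
  refine Finset.sum_congr rfl fun l hl => ?_
  have h1 : ∀ s ∈ range (nn m), pz β m (off m + (l - bo m) * nn m + s) =
      ((mm m : ℝ) / (nn m : ℝ)) * β l := fun s hs => pz_apply β m hl (Finset.mem_range.1 hs)
  rw [Finset.sum_congr rfl h1, Finset.sum_const, Finset.card_range, nsmul_eq_mul]
  have h2 : (nn m : ℝ) ≠ 0 := by
    have := nn_pos m
    positivity
  field_simp

end BMM
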