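import Pool.Agent.BMM.KC

open Finset

namespace BMM

theorem KD_sum_eq {f z : ℕ → ℝ} {M₀ M : ℕ} (hM₀ : ∀ i, M₀ ≤ i → z i = 0) (h : M₀ ≤ M) :
    ∑ i ∈ range M, f i * z i = ∑ i ∈ range M₀, f i * z i := by
  symm
  refine Finset.sum_subset (Finset.range_subset_range.2 h) ?_
  intro i _ hi
  rw [Finset.mem_range, not_lt] at hi
  rw [hM₀ i hi, mul_zero]

theorem KD_sum_le {f z : ℕ → ℝ} (hf : ∀ i, 0 ≤ f i) (hz : ∀ i, 0 ≤ z i) {M₀ : ℕ}
    (hM₀ : ∀ i, M₀ ≤ i → z i = 0) (M : ℕ) :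
    ∑ i ∈ range M, f i * z i ≤ ∑ i ∈ range M₀, f i * z i := by
  rw [← KD_sum_eq (f := f) hM₀ (le_max_right M M₀)]
  refine Finset.sum_le_sum_of_subset_of_nonneg (Finset.range_subset_range.2 (le_max_left _ _)) ?_
  intro i _ _
  exact mul_nonneg (hf i) (hz i)

theorem KD_sum_le_sum {k : ℕ} {f z : ℕ → ℝ} (hf : KS k f) (hz : ∀ i, 0 ≤ z i) {M₀ : ℕ}
    (hM₀ : ∀ i, M₀ ≤ i → z i = 0) (M : ℕ) :
    ∑ i ∈ range M, f i * z i ≤ ∑ i ∈ range M₀, z i := by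
  refine (KD_sum_le (fun i => KS_nonneg hf i) hz hM₀ M).trans ?_
  refine Finset.sum_le_sum fun i _ => ?_
  exact mul_le_of_le_one_left (hz i) (KS_le_one hf i)

theorem NN_set_nonempty (k : ℕ) (z : ℕ → ℝ) :
    {r : ℝ | ∃ f : ℕ → ℝ, KS k f ∧ ∃ M : ℕ, r = ∑ i ∈ range M, f i * z i}.Nonempty :=
  ⟨_, _, KS_zero k, 0, rfl⟩

theorem NN_bdd {z : ℕ → ℝ} (hz : Fsn z) (k : ℕ) :
    BddAbove {r : ℝ | ∃ f : ℕ → ℝ, KS k f ∧ ∃ M : ℕ, r = ∑ i ∈ range M, f i * z i} := by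
  obtain ⟨hz0, M₀, hM₀⟩ := hz
  refine ⟨∑ i ∈ range M₀, z i, ?_⟩
  rintro r ⟨f, hf, M, rfl⟩
  exact KD_sum_le_sum hf hz0 hM₀ M

theorem le_NN {z : ℕ → ℝ} (hz : Fsn z) {k : ℕ} {f : ℕ → ℝ} (hf : KS k f) (M : ℕ) :
    ∑ i ∈ range M, f i * z i ≤ NN k z :=
  le_csSup (NN_bdd hz k) ⟨f, hf, M, rfl⟩

theorem NN_le {k : ℕ} {z : ℕ → ℝ} {C : ℝ}
    (h : ∀ f, KS k f → ∀ M, ∑ i ∈ range M, f i * z i ≤ C) : NN k z ≤ C := by
  refine csSup_le (NN_set_nonempty k z) ?_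
  rintro r ⟨f, hf, M, rfl⟩
  exact h f hf M

theorem exists_lt_NN {k : ℕ} {z : ℕ → ℝ} {c : ℝ} (h : c < NN k z) :
    ∃ f, KS k f ∧ ∃ M, c < ∑ i ∈ range M, f i * z i := by
  obtain ⟨r, ⟨f, hf, M, rfl⟩, hr⟩ := exists_lt_of_lt_csSup (NN_set_nonempty k z) h
  exact ⟨f, hf, M, hr⟩

/-- A norming functional whose support is inside the support of `z`; the sum may be taken over
any range containing the support of `z`. -/
theorem exists_lt_NN' {k : ℕ} {z : ℕ → ℝ} (hz : Fsn z) {c : ℝ} (h : c < NN k z) {M₀ : ℕ}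
    (hM₀ : ∀ i, M₀ ≤ i → z i = 0) :
    ∃ f, KS k f ∧ (∀ i, f i ≠ 0 → z i ≠ 0) ∧ c < ∑ i ∈ range M₀, f i * z i := by
  obtain ⟨f, hf, M, hr⟩ := exists_lt_NN h
  refine ⟨Set.indicator {i | z i ≠ 0} f, KS_ind hf _, ?_, ?_⟩
  · intro i hi hzi
    refine hi (Set.indicator_of_notMem ?_ f)
    intro k
    exact k hzi
  · have e : ∑ i ∈ range M₀, Set.indicator {i | z i ≠ 0} f i * z i = ∑ i ∈ range M₀, f i * z i := by
      refine Finset.sum_congr rfl fun i _ => ?_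
      by_cases hzi : z i = 0
      · rw [hzi, mul_zero, mul_zero]
      · rw [Set.indicator_of_mem (show i ∈ {i | z i ≠ 0} from hzi)]
    rw [e]
    exact hr.trans_le (KD_sum_le (fun i => KS_nonneg hf i) hz.1 hM₀ M)

theorem NN_nonneg {k : ℕ} {z : ℕ → ℝ} (hz : Fsn z) : 0 ≤ NN k z := by
  have h := le_NN hz (KS_zero k) 0
  rwa [Finset.range_zero, Finset.sum_empty] at h

theorem KD_fsn_zero : Fsn (fun _ => 0) := ⟨fun _ => le_rfl, 0, fun _ _ => rfl⟩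

theorem NN_zero (k : ℕ) : NN k (fun _ => 0) = 0 := by
  refine le_antisymm (NN_le fun f _ M => ?_) (NN_nonneg KD_fsn_zero)
  simp

theorem NN_mono {k : ℕ} {z w : ℕ → ℝ} (hz : Fsn z) (hw : Fsn w) (h : ∀ i, z i ≤ w i) :
    NN k z ≤ NN k w := by
  have _ := hz
  refine NN_le fun f hf M => ?_
  refine (Finset.sum_le_sum fun i _ => ?_).trans (le_NN hw hf M)
  exact mul_le_mul_of_nonneg_left (h i) (KS_nonneg hf i)

theorem NN_anti {k k' : ℕ} (hk : k' ≤ k) {z : ℕ → ℝ} (hz : Fsn z) : NN k z ≤ NN k' z :=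
  NN_le fun _ hf M => le_NN hz (KS_anti hk hf) M

theorem Fsn_smul {z : ℕ → ℝ} (hz : Fsn z) {c : ℝ} (hc : 0 ≤ c) : Fsn (fun i => c * z i) := by
  obtain ⟨hz0, M₀, hM₀⟩ := hz
  exact ⟨fun i => mul_nonneg hc (hz0 i), M₀, fun i hi => by
    change c * z i = 0
    rw [hM₀ i hi, mul_zero]⟩

theorem NN_smul {k : ℕ} {z : ℕ → ℝ} (hz : Fsn z) {c : ℝ} (hc : 0 ≤ c) :
    NN k (fun i => c * z i) = c * NN k z := by
  have key : ∀ (f : ℕ → ℝ) (M : ℕ), ∑ i ∈ range M, f i * (c * z i) = c * ∑ i ∈ range M, f i * z i := by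
    intro f M
    rw [Finset.mul_sum]
    exact Finset.sum_congr rfl fun i _ => by ring
  refine le_antisymm (NN_le fun f hf M => ?_) ?_
  · rw [key]
    exact mul_le_mul_of_nonneg_left (le_NN hz hf M) hc
  · rcases hc.eq_or_lt with h0 | h0
    · rw [← h0, zero_mul]
      have h := NN_nonneg (k := k) (Fsn_smul hz (c := c) hc)
      rw [← h0] at h
      exact h
    · have h1 : NN k z ≤ NN k (fun i => c * z i) / c := by
        refine NN_le fun f hf M => ?_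
        rw [le_div_iff₀ h0, mul_comm, ← key]
        exact le_NN (Fsn_smul hz hc) hf M
      rw [le_div_iff₀ h0] at h1
      linarith

theorem Fsn_add {z w : ℕ → ℝ} (hz : Fsn z) (hw : Fsn w) : Fsn (fun i => z i + w i) := by
  obtain ⟨hz0, M₀, hM₀⟩ := hz
  obtain ⟨hw0, M₁, hM₁⟩ := hw
  refine ⟨fun i => add_nonneg (hz0 i) (hw0 i), max M₀ M₁, fun i hi => ?_⟩
  change z i + w i = 0
  rw [hM₀ i ((le_max_left _ _).trans hi), hM₁ i ((le_max_right _ _).trans hi), add_zero]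

theorem NN_add_le {k : ℕ} {z w : ℕ → ℝ} (hz : Fsn z) (hw : Fsn w) :
    NN k (fun i => z i + w i) ≤ NN k z + NN k w := by
  refine NN_le fun f hf M => ?_
  have e : ∑ i ∈ range M, f i * (z i + w i) = ∑ i ∈ range M, f i * z i + ∑ i ∈ range M, f i * w i := by
    rw [← Finset.sum_add_distrib]
    exact Finset.sum_congr rfl fun i _ => mul_add _ _ _
  rw [e]
  exact add_le_add (le_NN hz hf M) (le_NN hw hf M)

theorem le_NN_apply {k : ℕ} {z : ℕ → ℝ} (hz : Fsn z) (i : ℕ) : z i ≤ NN k z := by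
  have h := le_NN hz (KS.leaf k i) (i + 1)
  rw [Finset.sum_eq_single i] at h
  · rwa [Pi.single_eq_same, one_mul] at h
  · intro b _ hb
    rw [Pi.single_eq_of_ne hb, zero_mul]
  · intro h'
    exact absurd (Finset.mem_range.2 (Nat.lt_succ_self i)) h'

theorem NN_le_sum {k : ℕ} {z : ℕ → ℝ} (hz : Fsn z) {M₀ : ℕ} (hM₀ : ∀ i, M₀ ≤ i → z i = 0) :
    NN k z ≤ ∑ i ∈ range M₀, z i :=
  NN_le fun _ hf M => KD_sum_le_sum hf hz.1 hM₀ M

theorem Fsn_ind {z : ℕ → ℝ} (hz : Fsn z) (S : Set ℕ) : Fsn (S.indicator z) := by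
  obtain ⟨hz0, M₀, hM₀⟩ := hz
  refine ⟨fun i => Set.indicator_nonneg (fun j _ => hz0 j) i, M₀, fun i hi => ?_⟩
  by_cases h : i ∈ S
  · rw [Set.indicator_of_mem h, hM₀ i hi]
  · exact Set.indicator_of_notMem h z

theorem Fsn_sum {ι : Type} (s : Finset ι) {z : ι → ℕ → ℝ} (hz : ∀ t ∈ s, Fsn (z t)) :
    Fsn (fun i => ∑ t ∈ s, z t i) := by
  classical
  induction s using Finset.induction_on with
  | empty => exact ⟨fun i => by simp, 0, fun i _ => by simp⟩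
  | insert a s ha ih =>
    have h1 := Fsn_add (hz a (Finset.mem_insert_self a s)) (ih fun t ht => hz t (Finset.mem_insert_of_mem ht))
    have e : (fun i => ∑ t ∈ insert a s, z t i) = fun i => z a i + ∑ t ∈ s, z t i := by
      funext i
      exact Finset.sum_insert ha
    rw [e]
    exact h1

theorem NN_ind_le {k : ℕ} {z : ℕ → ℝ} (hz : Fsn z) (S : Set ℕ) :
    NN k (S.indicator z) ≤ NN k z :=
  NN_mono (Fsn_ind hz S) hz fun i => Set.indicator_le_self' (fun j _ => hz.1 j) i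

theorem NN_pos {k : ℕ} {z : ℕ → ℝ} (hz : Fsn z) (h : z ≠ 0) : 0 < NN k z := by
  obtain ⟨i, hi⟩ := Function.ne_iff.1 h
  exact ((hz.1 i).lt_of_ne' hi).trans_le (le_NN_apply hz i)

/-- The lower estimate. -/
theorem NN_lower {k j : ℕ} (hkj : k ≤ j) {ι : Type} [Fintype ι] {lam : ι → ℝ} {z : ι → ℕ → ℝ}
    (hl : Adm j lam) (hz : ∀ t, Fsn (z t)) (hs : Sep z) :
    ∑ t, lam t * NN k (z t) ≤ NN k (fun i => ∑ t, z t i) := by
  have hsum : Fsn (fun i => ∑ t, z t i) := Fsn_sum univ fun t _ => hz t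
  obtain ⟨M₀, hM₀⟩ := hsum.2
  have hM : ∀ t i, M₀ ≤ i → z t i = 0 := by
    intro t i hi
    have h1 : ∑ t, z t i = 0 := hM₀ i hi
    exact (Finset.sum_eq_zero_iff_of_nonneg fun t _ => (hz t).1 i).1 h1 t (Finset.mem_univ t)
  have hS : 0 ≤ ∑ t, lam t := Finset.sum_nonneg fun t _ => hl.1 t
  refine le_of_forall_pos_le_add fun ε hε => ?_
  have hδ : 0 < ε / (∑ t, lam t + 1) := by positivity
  have hch : ∀ t, ∃ f, KS k f ∧ (∀ i, f i ≠ 0 → z t i ≠ 0) ∧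
      NN k (z t) - ε / (∑ t, lam t + 1) < ∑ i ∈ range M₀, f i * z t i := fun t =>
    exists_lt_NN' (hz t) (by linarith) (hM t)
  choose f hf hfz hfl using hch
  have hsf : Sep f := by
    intro s t hst
    rcases hs s t hst with h1 | h1
    · exact Or.inl fun i j hi hj => h1 i j (hfz s i hi) (hfz t j hj)
    · exact Or.inr fun i j hi hj => h1 i j (hfz t i hi) (hfz s j hj)
  have hF := KS_closed hkj hl hf hsf
  have h1 := le_NN hsum hF M₀
  have h2 : ∑ t, lam t * ∑ i ∈ range M₀, f t i * z t i ≤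
      ∑ i ∈ range M₀, (∑ t, lam t * f t i) * ∑ t, z t i := by
    have e : ∑ t, lam t * ∑ i ∈ range M₀, f t i * z t i =
        ∑ i ∈ range M₀, ∑ t, lam t * f t i * z t i := by
      rw [Finset.sum_comm]
      refine Finset.sum_congr rfl fun t _ => ?_
      rw [Finset.mul_sum]
      exact Finset.sum_congr rfl fun i _ => by ring
    rw [e]
    refine Finset.sum_le_sum fun i _ => ?_
    rw [Finset.sum_mul]
    refine Finset.sum_le_sum fun t _ => ?_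
    refine mul_le_mul_of_nonneg_left ?_ (mul_nonneg (hl.1 t) (KS_nonneg (hf t) i))
    exact Finset.single_le_sum (f := fun t => z t i) (fun s _ => (hz s).1 i) (Finset.mem_univ t)
  have h3 : ∑ t, lam t * NN k (z t) - ∑ t, lam t * (ε / (∑ t, lam t + 1)) ≤
      ∑ t, lam t * ∑ i ∈ range M₀, f t i * z t i := by
    rw [← Finset.sum_sub_distrib]
    refine Finset.sum_le_sum fun t _ => ?_
    rw [← mul_sub]
    exact mul_le_mul_of_nonneg_left (hfl t).le (hl.1 t)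
  have h4 : ∑ t, lam t * (ε / (∑ t, lam t + 1)) ≤ ε := by
    rw [← Finset.sum_mul, mul_div_assoc', div_le_iff₀ (by linarith)]
    nlinarith
  linarith

end BMM
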