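import Pool.Agent.BMM.BA
import Pool.Agent.BMM.BB
import Pool.Agent.BMM.KD

open Finset

namespace BMM

/-- The index of the copy `s` of the coordinate `l`. -/
def BC_idx (m l s : ℕ) : ℕ := off m + (l - bo m) * nn m + s

theorem BC_idx_inj {m l s l' s' : ℕ} (hl : bo m ≤ l) (hl' : bo m ≤ l') (hs : s < nn m)
    (hs' : s' < nn m) (h : BC_idx m l s = BC_idx m l' s') : l = l' ∧ s = s' := by
  unfold BC_idx at h
  have h1 : (l - bo m) * nn m + s = (l' - bo m) * nn m + s' := by omega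
  have hn : 0 < nn m := nn_pos m
  have e1 : ((l - bo m) * nn m + s) / nn m = l - bo m := by
    rw [add_comm, Nat.add_mul_div_right _ _ hn, Nat.div_eq_of_lt hs, zero_add]
  have e2 : ((l' - bo m) * nn m + s') / nn m = l' - bo m := by
    rw [add_comm, Nat.add_mul_div_right _ _ hn, Nat.div_eq_of_lt hs', zero_add]
  have e3 : l - bo m = l' - bo m := by rw [← e1, ← e2, h1]
  have e4 : s = s' := by
    rw [e3] at h1
    omega
  exact ⟨by omega, e4⟩

theorem BC_card (m : ℕ) : (Ico (bo m) (bo (m + 1))).card = LL m := by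
  rw [Nat.card_Ico]
  simp [bo]

/-- Lower estimate for a piece: a norming functional of type exactly `m`. -/
theorem pz_lower {β : ℕ → ℝ} (hβ : ∀ i, 0 ≤ β i) (m : ℕ) {ε : ℝ} (hε : 0 < ε) :
    ∃ g, KS m g ∧ dn (aa m) (Ico (bo m) (bo (m + 1))) β - ε ≤
      ∑ i ∈ Ico (off m) (off (m + 1)), g i * pz β m i := by
  classical
  have ha : 1 ≤ aa m := by
    have := aa_ge m
    omega
  obtain ⟨μ, h0, h1, hsum, hlt⟩ := exists_lt_dn (a := aa m) (s := Ico (bo m) (bo (m + 1)))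
    (β := β) (c := dn (aa m) (Ico (bo m) (bo (m + 1))) β - ε) ha (by linarith)
  have hmm : (0 : ℝ) < (mm m : ℝ) := by
    have := mm_ge m
    exact_mod_cast (by omega : 0 < mm m)
  have hnn : (0 : ℝ) < (nn m : ℝ) := by exact_mod_cast (nn_pos m)
  let S := Ico (bo m) (bo (m + 1))
  let lam : (↥S × Fin (nn m)) → ℝ := fun t => μ t.1 / (mm m : ℝ)
  let f : (↥S × Fin (nn m)) → ℕ → ℝ := fun t => Pi.single (BC_idx m t.1 t.2) (1 : ℝ)
  have hlow : ∀ t : ↥S, bo m ≤ (t : ℕ) := fun t => (mem_Ico.1 t.2).1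
  have hAdm : Adm m lam := by
    refine ⟨fun t => div_nonneg (h0 _) hmm.le, fun t => ?_, ?_⟩
    · show (mm m : ℝ) * (μ t.1 / (mm m : ℝ)) ≤ 1
      rw [mul_div_cancel₀ _ hmm.ne']
      exact h1 _ t.1.2
    · have e : ∀ t : (↥S × Fin (nn m)), ((mm m : ℝ) * lam t) ^ (aa m) = μ t.1 ^ (aa m) := by
        intro t
        show ((mm m : ℝ) * (μ t.1 / (mm m : ℝ))) ^ (aa m) = μ t.1 ^ (aa m)
        rw [mul_div_cancel₀ _ hmm.ne']
      rw [sum_congr rfl (fun t _ => e t), Fintype.sum_prod_type]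
      have e2 : ∀ x : ↥S, ∑ y : Fin (nn m), μ (x, y).1 ^ (aa m) = (nn m : ℝ) * μ x ^ (aa m) := by
        intro x
        simp
      rw [sum_congr rfl (fun t _ => e2 t), ← mul_sum]
      have e3 : ∑ x : ↥S, μ x ^ (aa m) = ∑ x ∈ S, μ x ^ (aa m) :=
        sum_coe_sort S (fun x => μ x ^ (aa m))
      rw [e3]
      calc (nn m : ℝ) * ∑ x ∈ S, μ x ^ (aa m) ≤ (nn m : ℝ) * 1 :=
            mul_le_mul_of_nonneg_left hsum hnn.le
        _ = (nn m : ℝ) := mul_one _
  have hinj : ∀ t t' : (↥S × Fin (nn m)), BC_idx m t.1 t.2 = BC_idx m t'.1 t'.2 → t = t' := by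
    intro t t' h
    obtain ⟨a, b⟩ := BC_idx_inj (hlow t.1) (hlow t'.1) t.2.2 t'.2.2 h
    exact Prod.ext (Subtype.ext a) (Fin.ext b)
  have hSep : Sep f := by
    intro t t' hne
    have hne' : BC_idx m t.1 t.2 ≠ BC_idx m t'.1 t'.2 := fun h => hne (hinj t t' h)
    have key : ∀ (a i : ℕ), (Pi.single a (1 : ℝ) : ℕ → ℝ) i ≠ 0 → i = a := by
      intro a i h
      by_contra hc
      exact h (by simp [Pi.single_apply, hc])
    rcases lt_or_gt_of_ne hne' with h | h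
    · left
      intro i j hi hj
      rw [key _ _ hi, key _ _ hj]
      exact h
    · right
      intro i j hi hj
      rw [key _ _ hi, key _ _ hj]
      exact h
  refine ⟨fun i => ∑ t, lam t * f t i,
    KS.node m m le_rfl _ inferInstance lam f hAdm (fun t => KS.leaf _ _) hSep, ?_⟩
  have hg : ∀ l ∈ S, ∀ s < nn m, ∑ t, lam t * f t (BC_idx m l s) = μ l / (mm m : ℝ) := by
    intro l hl s hs
    rw [sum_eq_single ((⟨l, hl⟩, ⟨s, hs⟩) : (↥S × Fin (nn m)))]
    · simp [lam, f]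
    · intro t _ hne
      have : BC_idx m t.1 t.2 ≠ BC_idx m l s := fun h => hne (hinj t (⟨l, hl⟩, ⟨s, hs⟩) h)
      show lam t * (Pi.single (BC_idx m t.1 t.2) (1 : ℝ) : ℕ → ℝ) (BC_idx m l s) = 0
      rw [Pi.single_apply, if_neg (fun h => this h.symm), mul_zero]
    · intro h
      exact absurd (mem_univ _) h
  have hfin : ∑ i ∈ Ico (off m) (off (m + 1)), (∑ t, lam t * f t i) * pz β m i =
      ∑ l ∈ S, μ l * β l := by
    rw [sum_off m (fun i => (∑ t, lam t * f t i) * pz β m i)]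
    apply sum_congr rfl
    intro l hl
    have : ∀ s ∈ range (nn m), (∑ t, lam t * f t (off m + (l - bo m) * nn m + s)) *
        pz β m (off m + (l - bo m) * nn m + s) = μ l * β l / (nn m : ℝ) := by
      intro s hs
      rw [mem_range] at hs
      rw [pz_apply β m hl hs]
      have e := hg l hl s hs
      unfold BC_idx at e
      rw [e]
      field_simp
    rw [sum_congr rfl this, sum_const, card_range, nsmul_eq_mul]
    field_simp
  rw [hfin]
  exact hlt.le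

/-- (R3) for a piece. -/
theorem pz_r3 {β : ℕ → ℝ} (hβ : ∀ i, 0 ≤ β i) (m : ℕ) :
    ∑ i ∈ Ico (off m) (off (m + 1)), pz β m i ≤
      (1 / 2 ^ (m + 1)) * dn (aa m) (Ico (bo m) (bo (m + 1))) β * (mm (m + 1) : ℝ) := by
  have ha : 1 ≤ aa m := by
    have := aa_ge m
    omega
  rw [pz_sum]
  have h1 : ∑ l ∈ Ico (bo m) (bo (m + 1)), β l ≤
      (RR m : ℝ) * dn (aa m) (Ico (bo m) (bo (m + 1))) β :=
    sum_le_dn ha (by rw [BC_card]; exact LL_le_pow m)
  have h2 : (2 : ℝ) ^ (m + 1) * (mm m : ℝ) * (RR m : ℝ) ≤ (mm (m + 1) : ℝ) := by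
    exact_mod_cast mm_step m
  have h3 := dn_nonneg ha (Ico (bo m) (bo (m + 1))) β
  have h4 : (0 : ℝ) < 2 ^ (m + 1) := by positivity
  calc (mm m : ℝ) * ∑ l ∈ Ico (bo m) (bo (m + 1)), β l
      ≤ (mm m : ℝ) * ((RR m : ℝ) * dn (aa m) (Ico (bo m) (bo (m + 1))) β) :=
        mul_le_mul_of_nonneg_left h1 (Nat.cast_nonneg _)
    _ = (1 / 2 ^ (m + 1)) * dn (aa m) (Ico (bo m) (bo (m + 1))) β *
        ((2 : ℝ) ^ (m + 1) * (mm m : ℝ) * (RR m : ℝ)) := by field_simp
    _ ≤ (1 / 2 ^ (m + 1)) * dn (aa m) (Ico (bo m) (bo (m + 1))) β * (mm (m + 1) : ℝ) := by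
        apply mul_le_mul_of_nonneg_left h2
        apply mul_nonneg (by positivity) h3

end BMM
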