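import Pool.Agent.BMM.BC

open Finset

namespace BMM

/-- Total value of at most `T_m` separated leaf families of type `m` on a piece. -/
theorem pz_leaf_bound {β : ℕ → ℝ} (hβ : ∀ i, 0 ≤ β i) (m : ℕ) {mu : ℕ → ℝ}
    (h0 : ∀ i, 0 ≤ mu i)
    (h1 : ∑ i ∈ Ico (off m) (off (m + 1)), ((mm m : ℝ) * mu i) ^ (aa m) ≤ (TT m : ℝ) * (nn m : ℝ)) :
    ∑ i ∈ Ico (off m) (off (m + 1)), mu i * pz β m i ≤
      2 * dn (aa m) (Ico (bo m) (bo (m + 1))) β := by
  have hnn : (0 : ℝ) < (nn m : ℝ) := by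
    have := nn_pos m
    exact_mod_cast this
  have hmm : (0 : ℝ) ≤ (mm m : ℝ) := Nat.cast_nonneg _
  have ha : 1 ≤ aa m := by have := aa_ge m; omega
  set ν : ℕ → ℝ := fun l => ∑ s ∈ range (nn m), (1 / (nn m : ℝ)) * ((mm m : ℝ) * mu (off m + (l - bo m) * nn m + s))
    with hν
  have hν0 : ∀ l, 0 ≤ ν l := by
    intro l
    apply Finset.sum_nonneg
    intro s _
    exact mul_nonneg (by positivity) (mul_nonneg hmm (h0 _))
  have hs1 : ∑ i ∈ Ico (off m) (off (m + 1)), mu i * pz β m i =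
      ∑ l ∈ Ico (bo m) (bo (m + 1)), ν l * β l := by
    rw [sum_off]
    apply Finset.sum_congr rfl
    intro l hl
    rw [hν]
    simp only
    rw [Finset.sum_mul]
    apply Finset.sum_congr rfl
    intro s hs
    rw [pz_apply β m hl (Finset.mem_range.1 hs)]
    ring
  rw [hs1]
  apply dn_scale ha (by norm_num) hν0
  have hpow : ∀ l, ν l ^ (aa m) ≤
      ∑ s ∈ range (nn m), (1 / (nn m : ℝ)) * ((mm m : ℝ) * mu (off m + (l - bo m) * nn m + s)) ^ (aa m) := by
    intro l
    apply Real.pow_arith_mean_le_arith_mean_pow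
    · intro s _
      positivity
    · rw [Finset.sum_const, Finset.card_range, nsmul_eq_mul]
      field_simp
    · intro s _
      exact mul_nonneg hmm (h0 _)
  have h2 : ∑ l ∈ Ico (bo m) (bo (m + 1)), ν l ^ (aa m) ≤
      (1 / (nn m : ℝ)) * ∑ i ∈ Ico (off m) (off (m + 1)), ((mm m : ℝ) * mu i) ^ (aa m) := by
    rw [sum_off m (fun i => ((mm m : ℝ) * mu i) ^ (aa m)), Finset.mul_sum]
    apply Finset.sum_le_sum
    intro l _
    rw [Finset.mul_sum]
    exact hpow l
  have h3 : (1 / (nn m : ℝ)) * ∑ i ∈ Ico (off m) (off (m + 1)), ((mm m : ℝ) * mu i) ^ (aa m) ≤ (TT m : ℝ) := by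
    calc (1 / (nn m : ℝ)) * ∑ i ∈ Ico (off m) (off (m + 1)), ((mm m : ℝ) * mu i) ^ (aa m)
        ≤ (1 / (nn m : ℝ)) * ((TT m : ℝ) * (nn m : ℝ)) := mul_le_mul_of_nonneg_left h1 (by positivity)
      _ = (TT m : ℝ) := by field_simp
  have h4 : (TT m : ℝ) ≤ (2 : ℝ) ^ aa m := by exact_mod_cast TT_le_pow m
  exact h2.trans (h3.trans h4)

theorem BD_one {ι : Type} [Fintype ι] {c : ι → ℝ} (hu : ∀ s t, c s ≠ 0 → c t ≠ 0 → s = t) :
    (∑ t, c t = 0) ∨ ∃ t, ∑ s, c s = c t := by
  by_cases h : ∑ t, c t = 0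
  · exact Or.inl h
  · obtain ⟨t, _, ht⟩ := Finset.exists_ne_zero_of_sum_ne_zero h
    refine Or.inr ⟨t, ?_⟩
    apply Fintype.sum_eq_single
    intro s hs
    by_contra hc
    exact hs (hu s t hc ht)

/-- Decomposition of a member of `K_m`: leaf part, type-`m` leaf coefficients, small part. -/
theorem KS_split {m : ℕ} {f : ℕ → ℝ} (hf : KS m f) (M : ℕ) :
    ∃ (l : ℕ → ℝ) (mu : ℕ → ℝ) (r : ℕ → ℝ), (∀ i, f i = l i + mu i + r i) ∧
      (l = 0 ∨ ∃ i0, l = Pi.single i0 1) ∧ (∀ i, 0 ≤ mu i) ∧ (∀ i, 0 ≤ r i) ∧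
      (∑ i ∈ range M, ((mm m : ℝ) * mu i) ^ (aa m) ≤ (nn m : ℝ)) ∧
      (∀ i, (mm (m + 1) : ℝ) * r i ≤ 1) := by
  classical
  have ha : aa m ≠ 0 := by have := aa_ge m; omega
  have hmm : (0 : ℝ) ≤ (mm m : ℝ) := Nat.cast_nonneg _
  rcases KS_cases3 hf with ⟨l0, hl0⟩ | ⟨ι, inst, lam, g, hA, hg, hS, hfe⟩ | hsm
  · refine ⟨f, 0, 0, ?_, Or.inr ⟨l0, hl0⟩, ?_, ?_, ?_, ?_⟩
    · intro i; simp
    · intro i; simp
    · intro i; simp
    · simp [ha]
    · intro i; simp
  · set lf : ι → Prop := fun t => ∃ l, g t = Pi.single l 1 with hlf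
    set c : ι → ℕ → ℝ := fun t i => if lf t then lam t * g t i else 0 with hc
    set d : ι → ℕ → ℝ := fun t i => if lf t then 0 else lam t * g t i with hd
    have hg0 : ∀ t i, 0 ≤ g t i := fun t i => KS_nonneg (hg t) i
    have hc0 : ∀ t i, 0 ≤ c t i := by
      intro t i
      simp only [hc]
      split_ifs
      · exact mul_nonneg (hA.1 t) (hg0 t i)
      · exact le_rfl
    have hd0 : ∀ t i, 0 ≤ d t i := by
      intro t i
      simp only [hd]
      split_ifs
      · exact le_rfl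
      · exact mul_nonneg (hA.1 t) (hg0 t i)
    have hcu : ∀ i s t, c s i ≠ 0 → c t i ≠ 0 → s = t := by
      intro i s t h1 h2
      have e1 : g s i ≠ 0 := by
        intro e; apply h1; simp [hc, e]
      have e2 : g t i ≠ 0 := by
        intro e; apply h2; simp [hc, e]
      exact Sep_unique hS e1 e2
    have hdu : ∀ i s t, d s i ≠ 0 → d t i ≠ 0 → s = t := by
      intro i s t h1 h2
      have e1 : g s i ≠ 0 := by
        intro e; apply h1; simp [hd, e]
      have e2 : g t i ≠ 0 := by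
        intro e; apply h2; simp [hd, e]
      exact Sep_unique hS e1 e2
    refine ⟨0, fun i => ∑ t, c t i, fun i => ∑ t, d t i, ?_, Or.inl rfl, ?_, ?_, ?_, ?_⟩
    · intro i
      rw [hfe]
      simp only [Pi.zero_apply, zero_add]
      rw [← Finset.sum_add_distrib]
      apply Finset.sum_congr rfl
      intro t _
      simp only [hc, hd]
      split_ifs <;> ring
    · intro i
      exact Finset.sum_nonneg fun t _ => hc0 t i
    · intro i
      exact Finset.sum_nonneg fun t _ => hd0 t i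
    · have h1 : ∀ i, ((mm m : ℝ) * ∑ t, c t i) ^ (aa m) ≤ ∑ t, ((mm m : ℝ) * c t i) ^ (aa m) := by
        intro i
        rcases BD_one (c := fun t => c t i) (hcu i) with h | ⟨t, h⟩
        · rw [h, mul_zero, zero_pow ha]
          exact Finset.sum_nonneg fun t _ => pow_nonneg (mul_nonneg hmm (hc0 t i)) _
        · rw [h]
          exact Finset.single_le_sum (f := fun t => ((mm m : ℝ) * c t i) ^ (aa m))
            (fun s _ => pow_nonneg (mul_nonneg hmm (hc0 s i)) _) (Finset.mem_univ t)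
      have h2 : ∀ t, ∑ i ∈ range M, ((mm m : ℝ) * c t i) ^ (aa m) ≤ ((mm m : ℝ) * lam t) ^ (aa m) := by
        intro t
        have hr : 0 ≤ ((mm m : ℝ) * lam t) ^ (aa m) := pow_nonneg (mul_nonneg hmm (hA.1 t)) _
        by_cases ht : lf t
        · obtain ⟨l, hl⟩ := id ht
          have h3 : ∀ i, ((mm m : ℝ) * c t i) ^ (aa m) = if i = l then ((mm m : ℝ) * lam t) ^ (aa m) else 0 := by
            intro i
            simp only [hc, if_pos ht]
            rw [hl]
            by_cases hi : i = l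
            · subst hi
              simp
            · rw [if_neg hi, Pi.single_eq_of_ne hi, mul_zero, mul_zero, zero_pow ha]
          simp only [h3]
          rw [Finset.sum_ite_eq']
          split_ifs
          · exact le_rfl
          · exact hr
        · have h3 : ∀ i, ((mm m : ℝ) * c t i) ^ (aa m) = 0 := by
            intro i
            simp only [hc, if_neg ht]
            rw [mul_zero, zero_pow ha]
          simp only [h3]
          rw [Finset.sum_const_zero]
          exact hr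
      calc ∑ i ∈ range M, ((mm m : ℝ) * ∑ t, c t i) ^ (aa m)
          ≤ ∑ i ∈ range M, ∑ t, ((mm m : ℝ) * c t i) ^ (aa m) := Finset.sum_le_sum fun i _ => h1 i
        _ = ∑ t, ∑ i ∈ range M, ((mm m : ℝ) * c t i) ^ (aa m) := Finset.sum_comm
        _ ≤ ∑ t, ((mm m : ℝ) * lam t) ^ (aa m) := Finset.sum_le_sum fun t _ => h2 t
        _ ≤ (nn m : ℝ) := hA.2.2
    · intro i
      show (mm (m + 1) : ℝ) * (∑ t, d t i) ≤ 1
      rcases BD_one (c := fun t => d t i) (hdu i) with h | ⟨t, h⟩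
      · rw [h, mul_zero]
        exact zero_le_one
      · rw [h]
        simp only [hd]
        split_ifs with ht
        · rw [mul_zero]; exact zero_le_one
        · rcases KS_leaf_or (hg t) with hl | hl
          · exact absurd hl ht
          · have e1 : lam t ≤ 1 := Adm_le_one hA t
            have e2 := hl i
            have e3 : 0 ≤ (mm (m + 1) : ℝ) * g t i := mul_nonneg (Nat.cast_nonneg _) (hg0 t i)
            calc (mm (m + 1) : ℝ) * (lam t * g t i) = lam t * ((mm (m + 1) : ℝ) * g t i) := by ring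
              _ ≤ 1 := mul_le_one₀ e1 e3 e2
  · refine ⟨0, 0, f, ?_, Or.inl rfl, ?_, ?_, ?_, hsm⟩
    · intro i; simp
    · intro i; simp
    · intro i; exact KS_nonneg hf i
    · simp [ha]

end BMM
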