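import Pool.Agent.BMM.BD

open Finset

namespace BMM

theorem BE_range {a b : ℕ} (F : ℕ → ℝ) (h : ∀ i, i < a → F i = 0) (hab : a ≤ b) :
    ∑ i ∈ range b, F i = ∑ i ∈ Ico a b, F i := by
  rw [Finset.range_eq_Ico, ← Finset.sum_Ico_consecutive F (Nat.zero_le a) hab]
  have : ∑ i ∈ Ico 0 a, F i = 0 :=
    Finset.sum_eq_zero (fun i hi => h i (Finset.mem_Ico.1 hi).2)
  rw [this, zero_add]

theorem BE_pz_le {β : ℕ → ℝ} (hβ : ∀ i, 0 ≤ β i) (m i : ℕ) :
    pz β m i ≤ ((mm m : ℝ) / (nn m : ℝ)) * dn (aa m) (Ico (bo m) (bo (m + 1))) β := by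
  have hD : 0 ≤ dn (aa m) (Ico (bo m) (bo (m + 1))) β :=
    dn_nonneg (le_trans (by norm_num) (aa_ge m)) _ _
  have hq : (0 : ℝ) ≤ (mm m : ℝ) / (nn m : ℝ) := by positivity
  unfold pz
  split_ifs with h
  · apply mul_le_mul_of_nonneg_left _ hq
    apply le_dn_apply (le_trans (by norm_num) (aa_ge m))
    rw [Finset.mem_Ico]
    refine ⟨Nat.le_add_right _ _, ?_⟩
    have h1 : off (m + 1) = off m + LL m * nn m := rfl
    have h2 : bo (m + 1) = bo m + LL m := rfl
    rw [h2]
    have h3 : (i - off m) / nn m < LL m := by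
      rw [Nat.div_lt_iff_lt_mul (nn_pos m)]
      omega
    omega
  · exact mul_nonneg hq hD

theorem BE_one {ι : Type} [Fintype ι] {E : ι → Set ℕ} (hE : SepSet E) {g : ι → ℝ} {i : ℕ}
    (hg : ∀ t, i ∉ E t → g t = 0) : (∀ t, g t = 0) ∨ ∃ t0, ∀ t, t ≠ t0 → g t = 0 := by
  classical
  by_cases h : ∃ t0, i ∈ E t0
  · obtain ⟨t0, ht0⟩ := h
    right
    refine ⟨t0, fun t ht => hg t (fun hit => ?_)⟩
    rcases hE t t0 ht with h | h
    · exact lt_irrefl _ (h i hit i ht0)
    · exact lt_irrefl _ (h i hit i ht0)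
  · left
    push Not at h
    exact fun t => hg t (h t)

/-- (R2) for a piece. -/
theorem pz_r2 {β : ℕ → ℝ} (hβ : ∀ i, 0 ≤ β i) (m : ℕ) (ι : Type) [Fintype ι]
    (E : ι → Set ℕ) (hE : SepSet E) (hc : Fintype.card ι ≤ TT m) :
    ∑ t, NN m ((E t).indicator (pz β m)) ≤
      4 * dn (aa m) (Ico (bo m) (bo (m + 1))) β := by
  classical
  have haa : 1 ≤ aa m := le_trans (by norm_num) (aa_ge m)
  obtain ⟨D, hDdef⟩ : ∃ D, D = dn (aa m) (Ico (bo m) (bo (m + 1))) β := ⟨_, rfl⟩
  have hD : 0 ≤ D := by rw [hDdef]; exact dn_nonneg haa _ _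
  rw [← hDdef]
  have hz : Fsn (pz β m) := pz_fsn hβ m
  have hoff : off m ≤ off (m + 1) := (off_strictMono (Nat.lt_succ_self m)).le
  have hzK : ∀ i, off (m + 1) ≤ i → pz β m i = 0 := by
    intro i hi
    by_contra hcon
    exact absurd (pz_supp hcon).2 (not_lt.2 hi)
  have hzl : ∀ i, i < off m → pz β m i = 0 := by
    intro i hi
    by_contra hcon
    exact absurd (pz_supp hcon).1 (not_le.2 hi)
  have hcard : (Fintype.card ι : ℝ) ≤ (TT m : ℝ) := by exact_mod_cast hc
  have hmm : (0 : ℝ) < (mm m : ℝ) := by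
    have := mm_ge m
    exact_mod_cast (by omega : 0 < mm m)
  have hTT : (0 : ℝ) < (TT m : ℝ) := by
    have := TT_pos m
    exact_mod_cast (by omega : 0 < TT m)
  have hmm1 : (0 : ℝ) < (mm (m + 1) : ℝ) := by
    have := mm_ge (m + 1)
    exact_mod_cast (by omega : 0 < mm (m + 1))
  apply le_of_forall_pos_le_add
  intro ε hε
  obtain ⟨δ, hδdef⟩ : ∃ δ, δ = ε / ((Fintype.card ι : ℝ) + 1) := ⟨_, rfl⟩
  have hδ : 0 < δ := by rw [hδdef]; positivity
  have hex : ∀ t, ∃ f, KS m f ∧ (∀ i, f i ≠ 0 → (E t).indicator (pz β m) i ≠ 0) ∧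
      NN m ((E t).indicator (pz β m)) - δ <
        ∑ i ∈ range (off (m + 1)), f i * (E t).indicator (pz β m) i := by
    intro t
    apply exists_lt_NN' (Fsn_ind hz (E t)) (by linarith)
    intro i hi
    by_cases h : i ∈ E t
    · rw [Set.indicator_of_mem h, hzK i hi]
    · rw [Set.indicator_of_notMem h]
  choose f hf hfs hfv using hex
  have hsp := fun t => KS_split (hf t) (off (m + 1))
  choose l mu r hsum hl hmu hr hmusum hrle using hsp
  have hl0 : ∀ t i, 0 ≤ l t i := by
    intro t i
    rcases hl t with h | ⟨i0, h⟩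
    · rw [h]; exact le_rfl
    · rw [h]
      by_cases hi : i = i0
      · subst hi; simp
      · rw [Pi.single_eq_of_ne hi]
  have hf0 : ∀ t i, i ∉ E t → f t i = 0 := by
    intro t i hi
    by_contra hcon
    exact hfs t i hcon (Set.indicator_of_notMem hi _)
  have hmu0 : ∀ t i, i ∉ E t → mu t i = 0 := by
    intro t i hi
    have h1 := hsum t i
    rw [hf0 t i hi] at h1
    have h2 := hl0 t i
    have h3 := hmu t i
    have h4 := hr t i
    linarith
  have hr0 : ∀ t i, i ∉ E t → r t i = 0 := by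
    intro t i hi
    have h1 := hsum t i
    rw [hf0 t i hi] at h1
    have h2 := hl0 t i
    have h3 := hmu t i
    have h4 := hr t i
    linarith
  -- the value of f t
  have hval : ∀ t, ∑ i ∈ range (off (m + 1)), f t i * (E t).indicator (pz β m) i =
      ∑ i ∈ range (off (m + 1)), l t i * pz β m i +
        ∑ i ∈ range (off (m + 1)), mu t i * pz β m i +
        ∑ i ∈ range (off (m + 1)), r t i * pz β m i := by
    intro t
    rw [← Finset.sum_add_distrib, ← Finset.sum_add_distrib]
    apply Finset.sum_congr rfl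
    intro i _
    have h1 : f t i * (E t).indicator (pz β m) i = f t i * pz β m i := by
      by_cases h : i ∈ E t
      · rw [Set.indicator_of_mem h]
      · rw [hf0 t i h]; ring
    rw [h1, hsum t i]
    ring
  -- the leaf parts
  have hL : ∑ t, ∑ i ∈ range (off (m + 1)), l t i * pz β m i ≤ D := by
    have h1 : ∀ t, ∑ i ∈ range (off (m + 1)), l t i * pz β m i ≤
        ((mm m : ℝ) / (nn m : ℝ)) * D := by
      intro t
      have hq : (0 : ℝ) ≤ ((mm m : ℝ) / (nn m : ℝ)) * D := by positivity
      rcases hl t with h | ⟨i0, h⟩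
      · rw [h]
        simpa using hq
      · rw [h]
        by_cases hi0 : i0 ∈ range (off (m + 1))
        · rw [Finset.sum_eq_single i0]
          · rw [Pi.single_eq_same, one_mul, hDdef]
            exact BE_pz_le hβ m i0
          · intro i _ hi
            rw [Pi.single_eq_of_ne hi, zero_mul]
          · intro h'
            exact absurd hi0 h'
        · rw [Finset.sum_eq_zero]
          · exact hq
          · intro i hi
            have hne : i ≠ i0 := by
              rintro rfl
              exact hi0 hi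
            rw [Pi.single_eq_of_ne hne, zero_mul]
    have h2 : ∑ t, ∑ i ∈ range (off (m + 1)), l t i * pz β m i ≤
        (Fintype.card ι : ℝ) * (((mm m : ℝ) / (nn m : ℝ)) * D) := by
      have := Finset.sum_le_sum (s := Finset.univ) (fun t _ => h1 t)
      simpa [Finset.sum_const, nsmul_eq_mul] using this
    have h3 : (TT m : ℝ) * (((mm m : ℝ) / (nn m : ℝ)) * D) = D := by
      have : (nn m : ℝ) = (mm m : ℝ) * (TT m : ℝ) := by
        unfold nn
        push_cast
        ring
      rw [this]
      field_simp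
    refine h2.trans ?_
    calc (Fintype.card ι : ℝ) * (((mm m : ℝ) / (nn m : ℝ)) * D)
        ≤ (TT m : ℝ) * (((mm m : ℝ) / (nn m : ℝ)) * D) := by
          apply mul_le_mul_of_nonneg_right hcard
          positivity
      _ = D := h3
  -- the small parts
  have hR : ∑ t, ∑ i ∈ range (off (m + 1)), r t i * pz β m i ≤ D / 2 := by
    rw [Finset.sum_comm]
    have h1 : ∀ i, ∑ t, r t i ≤ 1 / (mm (m + 1) : ℝ) := by
      intro i
      rcases BE_one hE (g := fun t => r t i) (i := i) (fun t ht => hr0 t i ht) with h | ⟨t0, h⟩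
      · rw [Finset.sum_eq_zero (fun t _ => h t)]
        positivity
      · rw [Finset.sum_eq_single t0 (fun t _ ht => h t ht)
          (fun h' => absurd (Finset.mem_univ _) h')]
        rw [le_div_iff₀ hmm1]
        linarith [hrle t0 i]
    have h2 : ∑ i ∈ range (off (m + 1)), ∑ t, r t i * pz β m i ≤
        ∑ i ∈ range (off (m + 1)), (1 / (mm (m + 1) : ℝ)) * pz β m i := by
      apply Finset.sum_le_sum
      intro i _
      rw [← Finset.sum_mul]
      exact mul_le_mul_of_nonneg_right (h1 i) (hz.1 i)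
    rw [← Finset.mul_sum, BE_range _ hzl hoff] at h2
    have h3 := pz_r3 hβ m
    rw [← hDdef] at h3
    have h4 : (1 / (mm (m + 1) : ℝ)) * ∑ i ∈ Ico (off m) (off (m + 1)), pz β m i ≤
        (1 / (mm (m + 1) : ℝ)) * ((1 / 2 ^ (m + 1)) * D * (mm (m + 1) : ℝ)) := by
      apply mul_le_mul_of_nonneg_left h3
      positivity
    have h5 : (1 / (mm (m + 1) : ℝ)) * ((1 / 2 ^ (m + 1)) * D * (mm (m + 1) : ℝ)) =
        (1 / 2 ^ (m + 1)) * D := by
      field_simp
    have h6 : ((1 : ℝ) / 2 ^ (m + 1)) ≤ 1 / 2 := by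
      apply one_div_le_one_div_of_le (by norm_num)
      calc (2 : ℝ) = 2 ^ 1 := by norm_num
        _ ≤ 2 ^ (m + 1) := pow_le_pow_right₀ (by norm_num) (by omega)
    have h7 : ((1 : ℝ) / 2 ^ (m + 1)) * D ≤ 1 / 2 * D := mul_le_mul_of_nonneg_right h6 hD
    linarith
  -- the type m leaves
  have hM : ∑ t, ∑ i ∈ range (off (m + 1)), mu t i * pz β m i ≤ 2 * D := by
    rw [Finset.sum_comm]
    have h1 : ∑ i ∈ range (off (m + 1)), ∑ t, mu t i * pz β m i =
        ∑ i ∈ Ico (off m) (off (m + 1)), (∑ t, mu t i) * pz β m i := by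
      rw [BE_range _ _ hoff]
      · apply Finset.sum_congr rfl
        intro i _
        rw [Finset.sum_mul]
      · intro i hi
        rw [← Finset.sum_mul, hzl i hi, mul_zero]
    rw [h1, hDdef]
    apply pz_leaf_bound hβ m
    · intro i
      exact Finset.sum_nonneg (fun t _ => hmu t i)
    · have h2 : ∀ i, ((mm m : ℝ) * ∑ t, mu t i) ^ (aa m) =
          ∑ t, ((mm m : ℝ) * mu t i) ^ (aa m) := by
        intro i
        have hne : aa m ≠ 0 := by omega
        rcases BE_one hE (g := fun t => mu t i) (i := i) (fun t ht => hmu0 t i ht) with h | ⟨t0, h⟩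
        · rw [Finset.sum_eq_zero (fun t _ => h t), mul_zero, zero_pow hne]
          rw [Finset.sum_eq_zero]
          intro t _
          have : mu t i = 0 := h t
          rw [this, mul_zero, zero_pow hne]
        · rw [Finset.sum_eq_single t0 (fun t _ ht => h t ht)
            (fun h' => absurd (Finset.mem_univ _) h')]
          rw [Finset.sum_eq_single t0]
          · intro t _ ht
            have : mu t i = 0 := h t ht
            rw [this, mul_zero, zero_pow hne]
          · intro h'
            exact absurd (Finset.mem_univ _) h'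
      calc ∑ i ∈ Ico (off m) (off (m + 1)), ((mm m : ℝ) * ∑ t, mu t i) ^ (aa m)
          ≤ ∑ i ∈ range (off (m + 1)), ((mm m : ℝ) * ∑ t, mu t i) ^ (aa m) := by
            apply Finset.sum_le_sum_of_subset_of_nonneg
            · intro i hi
              exact Finset.mem_range.2 (Finset.mem_Ico.1 hi).2
            · intro i _ _
              exact pow_nonneg (mul_nonneg hmm.le
                (Finset.sum_nonneg (fun t _ => hmu t i))) _
        _ = ∑ t, ∑ i ∈ range (off (m + 1)), ((mm m : ℝ) * mu t i) ^ (aa m) := by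
            rw [Finset.sum_congr rfl (fun i _ => h2 i), Finset.sum_comm]
        _ ≤ ∑ _t : ι, (nn m : ℝ) := Finset.sum_le_sum (fun t _ => hmusum t)
        _ = (Fintype.card ι : ℝ) * (nn m : ℝ) := by
            rw [Finset.sum_const, nsmul_eq_mul, Finset.card_univ]
        _ ≤ (TT m : ℝ) * (nn m : ℝ) := by
            apply mul_le_mul_of_nonneg_right hcard
            positivity
  have hfin : ∑ t, (NN m ((E t).indicator (pz β m)) - δ) ≤ D + 2 * D + D / 2 := by
    calc ∑ t, (NN m ((E t).indicator (pz β m)) - δ)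
        ≤ ∑ t, ∑ i ∈ range (off (m + 1)), f t i * (E t).indicator (pz β m) i :=
          Finset.sum_le_sum (fun t _ => (hfv t).le)
      _ = ∑ t, ∑ i ∈ range (off (m + 1)), l t i * pz β m i +
          ∑ t, ∑ i ∈ range (off (m + 1)), mu t i * pz β m i +
          ∑ t, ∑ i ∈ range (off (m + 1)), r t i * pz β m i := by
          rw [Finset.sum_congr rfl (fun t _ => hval t), Finset.sum_add_distrib,
            Finset.sum_add_distrib]
      _ ≤ D + 2 * D + D / 2 := by linarith
  rw [Finset.sum_sub_distrib, Finset.sum_const, nsmul_eq_mul, Finset.card_univ] at hfin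
  have hδ2 : (Fintype.card ι : ℝ) * δ ≤ ε := by
    rw [hδdef, ← mul_div_assoc, div_le_iff₀ (by positivity)]
    nlinarith [Nat.cast_nonneg (α := ℝ) (Fintype.card ι)]
  linarith

end BMM
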