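import Pool.Agent.BMM.KD

open Finset

namespace BMM

/-- The small part: if `0 ≤ mu_t`, `∑ mu_t^{A_κ} ≤ 1` and `mm κ * mu_t * 2^(κ+1) ≤ 1` for all `t`
then `2^(κ+1) mu` is admissible of type `κ`. -/
theorem Adm_small {ι : Type} [Fintype ι] {κ : ℕ} {mu : ι → ℝ} (h0 : ∀ t, 0 ≤ mu t)
    (h1 : ∑ t, mu t ^ (aA κ) ≤ 1) (h2 : ∀ t, (mm κ : ℝ) * (2 ^ (κ + 1) * mu t) ≤ 1) :
    Adm κ (fun t => 2 ^ (κ + 1) * mu t) := by
  have hm : (0 : ℝ) ≤ (mm κ : ℝ) := Nat.cast_nonneg _
  refine ⟨fun t => mul_nonneg (by positivity) (h0 t), h2, ?_⟩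
  calc ∑ t, ((mm κ : ℝ) * (2 ^ (κ + 1) * mu t)) ^ (aa κ)
      ≤ ∑ t, ((mm κ : ℝ) * (2 ^ (κ + 1) * mu t)) ^ (aA κ) := by
        refine Finset.sum_le_sum fun t _ => ?_
        exact pow_le_pow_of_le_one (mul_nonneg hm (mul_nonneg (by positivity) (h0 t))) (h2 t)
          (aA_le_aa κ)
    _ = (TT κ : ℝ) * ∑ t, mu t ^ (aA κ) := by
        rw [Finset.mul_sum]
        refine Finset.sum_congr rfl fun t _ => ?_
        rw [show (mm κ : ℝ) * (2 ^ (κ + 1) * mu t) = (2 ^ (κ + 1) * (mm κ : ℝ)) * mu t by ring,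
          mul_pow]
        congr 1
        unfold TT
        push_cast
        rfl
    _ ≤ (TT κ : ℝ) * 1 := mul_le_mul_of_nonneg_left h1 (Nat.cast_nonneg _)
    _ ≤ (nn κ : ℝ) := by
        rw [mul_one]
        exact_mod_cast TT_le_nn κ

/-- The large part: at most `T_κ` coefficients are larger than `1/(2^(κ+1) m_κ)`. -/
theorem card_large {ι : Type} [Fintype ι] {κ : ℕ} {mu : ι → ℝ} (h0 : ∀ t, 0 ≤ mu t)
    (h1 : ∑ t, mu t ^ (aA κ) ≤ 1) (s : Finset ι)
    (hs : ∀ t ∈ s, 1 < (mm κ : ℝ) * (2 ^ (κ + 1) * mu t)) : s.card ≤ TT κ := by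
  have hT : ∀ t ∈ s, (1 : ℝ) ≤ (TT κ : ℝ) * mu t ^ (aA κ) := by
    intro t ht
    have h := hs t ht
    have h' : (1 : ℝ) ≤ ((mm κ : ℝ) * (2 ^ (κ + 1) * mu t)) ^ (aA κ) := one_le_pow₀ h.le
    rw [show (mm κ : ℝ) * (2 ^ (κ + 1) * mu t) = (2 ^ (κ + 1) * (mm κ : ℝ)) * mu t by ring,
      mul_pow] at h'
    have e : (TT κ : ℝ) = (2 ^ (κ + 1) * (mm κ : ℝ)) ^ (aA κ) := by
      unfold TT
      push_cast
      rfl
    rw [e]
    exact h'
  have h3 : (s.card : ℝ) ≤ TT κ := by
    calc (s.card : ℝ) = ∑ t ∈ s, (1 : ℝ) := by simp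
      _ ≤ ∑ t ∈ s, (TT κ : ℝ) * mu t ^ (aA κ) := Finset.sum_le_sum hT
      _ ≤ ∑ t, (TT κ : ℝ) * mu t ^ (aA κ) :=
          Finset.sum_le_univ_sum_of_nonneg
            (fun t => mul_nonneg (Nat.cast_nonneg _) (pow_nonneg (h0 t) _))
      _ = (TT κ : ℝ) * ∑ t, mu t ^ (aA κ) := (Finset.mul_sum _ _ _).symm
      _ ≤ (TT κ : ℝ) * 1 := mul_le_mul_of_nonneg_left h1 (Nat.cast_nonneg _)
      _ = TT κ := mul_one _
  exact_mod_cast h3

/-- The upper bound for one index `i` of the RIS lemma. -/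
theorem ris_one {κ b : ℕ → ℕ} {z : ℕ → ℕ → ℝ} {al : ℕ → ℝ} {C : ℝ} (hC : 0 ≤ C)
    (H : RisHyp κ b z al C) {f : ℕ → ℝ} {W : ℕ → ℝ} (i : ℕ) (hW : 0 ≤ W i)
    (hc : CutAt κ b i W f) (M : ℕ) :
    ∑ l ∈ range M, f l * z i l ≤ C * al i * W i + (1 + C) * (1 / 2 ^ (κ i + 1)) * al i := by
  classical
  obtain ⟨ι, inst, mu, g, hmu, hmus, hg, hsep, hf, hcase⟩ := hc
  have hz0 : ∀ l, 0 ≤ z i l := (H.fsn i).1
  have hg0 : ∀ t l, 0 ≤ g t l := fun t l => KS_nonneg (hg t) l
  have hal : 0 ≤ al i := H.al_nonneg i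
  have hmK' : (0 : ℝ) < (mm (κ (i + 1)) : ℝ) := by
    have := mm_ge (κ (i + 1))
    exact_mod_cast (by omega : 0 < mm (κ (i + 1)))
  have h2K : (0 : ℝ) < 2 ^ (κ i + 1) := by positivity
  let v : ι → ℝ := fun t => ∑ l ∈ range M, (mu t * g t l) * z i l
  have hv : ∀ t, v t = ∑ l ∈ range M, (mu t * g t l) * z i l := fun _ => rfl
  have hsum : ∑ l ∈ range M, f l * z i l = ∑ t, v t := by
    simp only [hv]
    rw [Finset.sum_comm]
    refine Finset.sum_congr rfl fun l _ => ?_
    rw [hf, Finset.sum_mul]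
  let p : ι → Prop := fun t => ∀ l, (mm (κ (i + 1)) : ℝ) * g t l ≤ 1
  let q : ι → Prop := fun t => (mm (κ i) : ℝ) * (2 ^ (κ i + 1) * mu t) ≤ 1
  let A : Finset ι := univ.filter p
  let B : Finset ι := (univ.filter fun t => ¬ p t).filter q
  let D : Finset ι := (univ.filter fun t => ¬ p t).filter fun t => ¬ q t
  have hpart : ∑ t, v t = ∑ t ∈ A, v t + (∑ t ∈ B, v t + ∑ t ∈ D, v t) := by
    rw [← Finset.sum_filter_add_sum_filter_not univ p v,
      ← Finset.sum_filter_add_sum_filter_not (univ.filter fun t => ¬ p t) q v]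
  -- the part of high type
  have hA : ∑ t ∈ A, v t ≤ (1 / 2 ^ (κ i + 1)) * al i := by
    have e1 : ∑ t ∈ A, v t = ∑ l ∈ range M, (∑ t ∈ A, mu t * g t l) * z i l := by
      simp only [hv]
      rw [Finset.sum_comm]
      refine Finset.sum_congr rfl fun l _ => ?_
      rw [Finset.sum_mul]
    have e2 : ∀ l, ∑ t ∈ A, mu t * g t l ≤ 1 / (mm (κ (i + 1)) : ℝ) := by
      intro l
      by_cases h : ∃ t ∈ A, g t l ≠ 0
      · obtain ⟨t0, ht0, hne⟩ := h
        have e3 : ∑ t ∈ A, mu t * g t l = mu t0 * g t0 l := by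
          refine Finset.sum_eq_single_of_mem t0 ht0 fun t _ hne' => ?_
          have e4 : g t l = 0 := by
            by_contra hh
            exact hne' (Sep_unique hsep hh hne)
          rw [e4, mul_zero]
        rw [e3]
        have e5 : (mm (κ (i + 1)) : ℝ) * g t0 l ≤ 1 := (Finset.mem_filter.1 ht0).2 l
        have e6 : g t0 l ≤ 1 / (mm (κ (i + 1)) : ℝ) := by
          rw [le_div_iff₀ hmK', mul_comm]
          exact e5
        calc mu t0 * g t0 l ≤ 1 * g t0 l := mul_le_mul_of_nonneg_right (hmu t0).2 (hg0 t0 l)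
          _ = g t0 l := one_mul _
          _ ≤ _ := e6
      · push Not at h
        have e3 : ∑ t ∈ A, mu t * g t l = 0 :=
          Finset.sum_eq_zero fun t ht => by rw [h t ht, mul_zero]
        rw [e3]
        positivity
    have e7 : ∑ l ∈ range M, z i l ≤ ∑ l ∈ Ico (b i) (b (i + 1)), z i l := by
      have e8 : ∑ l ∈ range M, z i l
          = ∑ l ∈ (range M).filter (fun l => l ∈ Ico (b i) (b (i + 1))), z i l := by
        symm
        refine Finset.sum_filter_of_ne fun l _ hne => ?_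
        exact Finset.mem_Ico.2 (H.supp i l hne)
      rw [e8]
      refine Finset.sum_le_sum_of_subset_of_nonneg ?_ fun l _ _ => hz0 l
      intro l hl
      exact (Finset.mem_filter.1 hl).2
    calc ∑ t ∈ A, v t = ∑ l ∈ range M, (∑ t ∈ A, mu t * g t l) * z i l := e1
      _ ≤ ∑ l ∈ range M, (1 / (mm (κ (i + 1)) : ℝ)) * z i l :=
          Finset.sum_le_sum fun l _ => mul_le_mul_of_nonneg_right (e2 l) (hz0 l)
      _ = (1 / (mm (κ (i + 1)) : ℝ)) * ∑ l ∈ range M, z i l := (Finset.mul_sum _ _ _).symm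
      _ ≤ (1 / (mm (κ (i + 1)) : ℝ)) *
          ((1 / 2 ^ (κ i + 1)) * al i * (mm (κ (i + 1)) : ℝ)) :=
          mul_le_mul_of_nonneg_left (e7.trans (H.r3 i)) (by positivity)
      _ = (1 / 2 ^ (κ i + 1)) * al i := by
          field_simp
  -- the small part
  have hB : ∑ t ∈ B, v t ≤ C * (1 / 2 ^ (κ i + 1)) * al i := by
    let mu' : ι → ℝ := fun t => if t ∈ B then mu t else 0
    have hmu'B : ∀ t, t ∈ B → mu' t = mu t := fun t ht => if_pos ht
    have hmu'n : ∀ t, t ∉ B → mu' t = 0 := fun t ht => if_neg ht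
    have hmu'0 : ∀ t, 0 ≤ mu' t := by
      intro t
      by_cases ht : t ∈ B
      · rw [hmu'B t ht]
        exact (hmu t).1
      · rw [hmu'n t ht]
    have hadm : Adm (κ i) (fun t => 2 ^ (κ i + 1) * mu' t) := by
      refine Adm_small hmu'0 ?_ ?_
      · refine le_trans (Finset.sum_le_sum fun t _ => ?_) hmus
        refine pow_le_pow_left₀ (hmu'0 t) ?_ _
        by_cases ht : t ∈ B
        · rw [hmu'B t ht]
        · rw [hmu'n t ht]
          exact (hmu t).1
      · intro t
        by_cases ht : t ∈ B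
        · rw [hmu'B t ht]
          exact (Finset.mem_filter.1 ht).2
        · rw [hmu'n t ht, mul_zero, mul_zero]
          exact zero_le_one
    have hKS : KS (κ i) (fun l => ∑ t, (2 ^ (κ i + 1) * mu' t) * g t l) :=
      KS_closed le_rfl hadm hg hsep
    have e1 := le_NN (H.fsn i) hKS M
    have e2 : NN (κ i) (z i) ≤ C * al i := by
      have h := H.r2 i Unit (fun _ => Set.univ)
        (by
          intro s t hst
          exact absurd (Subsingleton.elim s t) hst) (by simpa using TT_pos (κ i))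
      simpa using h
    have e3 : ∑ t ∈ B, v t = (1 / 2 ^ (κ i + 1)) *
        ∑ l ∈ range M, (∑ t, (2 ^ (κ i + 1) * mu' t) * g t l) * z i l := by
      have e4 : ∑ t ∈ B, v t = ∑ t, ∑ l ∈ range M, (mu' t * g t l) * z i l := by
        rw [← Finset.sum_filter_add_sum_filter_not univ (fun t => t ∈ B)
          (fun t => ∑ l ∈ range M, (mu' t * g t l) * z i l)]
        have e5 : ∑ t ∈ univ.filter (fun t => t ∉ B), ∑ l ∈ range M, (mu' t * g t l) * z i l
            = 0 := by
          refine Finset.sum_eq_zero fun t ht => Finset.sum_eq_zero fun l _ => ?_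
          rw [hmu'n t (Finset.mem_filter.1 ht).2, zero_mul, zero_mul]
        rw [e5, add_zero]
        have e6 : univ.filter (fun t => t ∈ B) = B := by
          ext t
          simp
        rw [e6]
        refine Finset.sum_congr rfl fun t ht => ?_
        rw [hv, hmu'B t ht]
      rw [e4, Finset.sum_comm, Finset.mul_sum]
      refine Finset.sum_congr rfl fun l _ => ?_
      rw [← Finset.sum_mul, ← mul_assoc, Finset.mul_sum]
      congr 1
      refine Finset.sum_congr rfl fun t _ => ?_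
      field_simp
    rw [e3]
    calc (1 / 2 ^ (κ i + 1)) * ∑ l ∈ range M, (∑ t, (2 ^ (κ i + 1) * mu' t) * g t l) * z i l
        ≤ (1 / 2 ^ (κ i + 1)) * (C * al i) :=
          mul_le_mul_of_nonneg_left (e1.trans e2) (by positivity)
      _ = C * (1 / 2 ^ (κ i + 1)) * al i := by ring
  -- the large part
  have hD : ∑ t ∈ D, v t ≤ C * al i * W i := by
    let D' : Finset ι := D.filter fun t => Touch b (g t) i
    have hDv : ∑ t ∈ D, v t = ∑ t ∈ D', v t := by
      symm
      refine Finset.sum_filter_of_ne fun t ht hne => ?_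
      by_contra hT
      apply hne
      rw [hv]
      refine Finset.sum_eq_zero fun l _ => ?_
      by_cases h1 : z i l = 0
      · rw [h1, mul_zero]
      · have h2 := H.supp i l h1
        have h3 : g t l = 0 := by
          by_contra h3
          exact hT ⟨l, h2.1, h2.2, h3⟩
        rw [h3, mul_zero, zero_mul]
    let E : ι → Set ℕ := fun t => {l | g t l ≠ 0}
    have hvt : ∀ t ∈ D', v t ≤ W i * NN (κ i) ((E t).indicator (z i)) := by
      intro t ht
      have ht1 := Finset.mem_filter.1 ht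
      have ht2 := Finset.mem_filter.1 ht1.1
      have ht3 := (Finset.mem_filter.1 ht2.1).2
      have hmuW : mu t ≤ W i := by
        rcases hcase t with h | h | h
        · exact absurd h ht3
        · exact absurd ht1.2 h
        · exact h
      have e1 : v t = mu t * ∑ l ∈ range M, g t l * (E t).indicator (z i) l := by
        rw [hv, Finset.mul_sum]
        refine Finset.sum_congr rfl fun l _ => ?_
        by_cases h : g t l = 0
        · rw [h, mul_zero, zero_mul, zero_mul, mul_zero]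
        · rw [Set.indicator_of_mem (show l ∈ E t from h), mul_assoc]
      have e2 := le_NN (Fsn_ind (H.fsn i) (E t)) (hg t) M
      rw [e1]
      calc mu t * ∑ l ∈ range M, g t l * (E t).indicator (z i) l
          ≤ mu t * NN (κ i) ((E t).indicator (z i)) :=
            mul_le_mul_of_nonneg_left e2 (hmu t).1
        _ ≤ W i * NN (κ i) ((E t).indicator (z i)) :=
            mul_le_mul_of_nonneg_right hmuW (NN_nonneg (Fsn_ind (H.fsn i) (E t)))
    have hcard : D'.card ≤ TT (κ i) := by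
      refine card_large (fun t => (hmu t).1) hmus D' fun t ht => ?_
      have ht1 := Finset.mem_filter.1 ht
      exact not_le.1 (Finset.mem_filter.1 ht1.1).2
    have hr2 := H.r2 i D' (fun t => E t.1) (by
      intro s t hst
      have hne : s.1 ≠ t.1 := fun h => hst (Subtype.ext h)
      rcases hsep s.1 t.1 hne with h | h
      · exact Or.inl fun x hx y hy => h x y hx hy
      · exact Or.inr fun x hx y hy => h y x hy hx) (by
      rw [Fintype.card_coe]
      exact hcard)
    have e3 : ∑ t : D', NN (κ i) ((E t.1).indicator (z i))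
        = ∑ t ∈ D', NN (κ i) ((E t).indicator (z i)) :=
      Finset.sum_coe_sort D' (fun t => NN (κ i) ((E t).indicator (z i)))
    rw [e3] at hr2
    rw [hDv]
    calc ∑ t ∈ D', v t ≤ ∑ t ∈ D', W i * NN (κ i) ((E t).indicator (z i)) :=
          Finset.sum_le_sum hvt
      _ = W i * ∑ t ∈ D', NN (κ i) ((E t).indicator (z i)) := (Finset.mul_sum _ _ _).symm
      _ ≤ W i * (C * al i) := mul_le_mul_of_nonneg_left hr2 hW
      _ = C * al i * W i := by ring
  rw [hsum, hpart]
  calc ∑ t ∈ A, v t + (∑ t ∈ B, v t + ∑ t ∈ D, v t)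
      ≤ (1 / 2 ^ (κ i + 1)) * al i + (C * (1 / 2 ^ (κ i + 1)) * al i + C * al i * W i) :=
        add_le_add hA (add_le_add hB hD)
    _ = C * al i * W i + (1 + C) * (1 / 2 ^ (κ i + 1)) * al i := by ring

end BMM
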