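import Pool.Agent.BMM.RC
import Pool.Agent.BMM.RD

open Finset

namespace BMM

theorem RE_fsn {al : ℕ → ℝ} (hal : ∀ i, 0 ≤ al i) (M : ℕ) : Fsn (fun i => if i < M then al i else 0) := by
  refine ⟨fun i => ?_, M, fun i hi => if_neg (not_lt.2 hi)⟩
  dsimp only
  split_ifs
  · exact hal i
  · exact le_rfl

theorem RE_geom (M : ℕ) : ∑ i ∈ range M, (1 : ℝ) / 2 ^ (i + 1) = 1 - 1 / 2 ^ M := by
  induction M with
  | zero => simp
  | succ M ih =>
    rw [Finset.sum_range_succ, ih, pow_succ]
    have h : (2 : ℝ) ^ M ≠ 0 := by positivity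
    field_simp
    ring

/-- The RIS lemma, upper estimate. -/
theorem ris_upper {κ b : ℕ → ℕ} (hκ : StrictMono κ) (hb : Monotone b) {z : ℕ → ℕ → ℝ}
    {al : ℕ → ℝ} {C : ℝ} (hC : 1 ≤ C) (H : RisHyp κ b z al C) (M : ℕ) :
    NN 0 (fun l => ∑ i ∈ range M, z i l) ≤
      (4 * C + 1) * NN 0 (fun i => if i < M then al i else 0) := by
  have hα := RE_fsn H.al_nonneg M
  set A : ℝ := NN 0 (fun i => if i < M then al i else 0) with hA
  have hA0 : 0 ≤ A := NN_nonneg hα
  have hC0 : 0 ≤ C := zero_le_one.trans hC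
  refine NN_le fun f hf M' => ?_
  obtain ⟨W, hW0, -, hcut, w, g, hw, hg, -, hWle⟩ := ris_struct κ b hκ hb hf
  have e1 : ∑ l ∈ range M', f l * (∑ i ∈ range M, z i l)
      = ∑ i ∈ range M, ∑ l ∈ range M', f l * z i l := by
    rw [Finset.sum_comm]
    exact Finset.sum_congr rfl fun l _ => Finset.mul_sum _ _ _
  have hsum : ∀ v : ℕ → ℝ, KS 0 v → ∑ i ∈ range M, al i * v i ≤ A := by
    intro v hv
    have h := le_NN hα hv M
    refine le_trans (le_of_eq ?_) h
    refine Finset.sum_congr rfl fun i hi => ?_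
    rw [if_pos (Finset.mem_range.1 hi), mul_comm]
  have hwKS : KS 0 w := by
    rcases hw with h | ⟨i0, h⟩
    · rw [h]
      exact KS_zero 0
    · rw [h]
      exact KS.leaf 0 i0
  have e2 : ∑ i ∈ range M, al i * W i ≤ 3 * A := by
    calc ∑ i ∈ range M, al i * W i ≤ ∑ i ∈ range M, (al i * w i + 2 * (al i * g i)) := by
          refine Finset.sum_le_sum fun i _ => ?_
          have h := hWle i
          rw [rho_zero] at h
          calc al i * W i ≤ al i * (w i + 2 * g i) := mul_le_mul_of_nonneg_left h (H.al_nonneg i)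
            _ = al i * w i + 2 * (al i * g i) := by ring
      _ = ∑ i ∈ range M, al i * w i + 2 * ∑ i ∈ range M, al i * g i := by
          rw [Finset.sum_add_distrib, Finset.mul_sum]
      _ ≤ A + 2 * A := by
          have h1 := hsum w hwKS
          have h2 := hsum g hg
          linarith
      _ = 3 * A := by ring
  have e3 : ∑ i ∈ range M, (1 / 2 ^ (κ i + 1)) * al i ≤ A := by
    calc ∑ i ∈ range M, (1 / 2 ^ (κ i + 1)) * al i ≤ ∑ i ∈ range M, (1 / 2 ^ (i + 1)) * A := by
          refine Finset.sum_le_sum fun i hi => ?_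
          have h1 : al i ≤ A := by
            have h := le_NN_apply (k := 0) hα i
            rwa [if_pos (Finset.mem_range.1 hi)] at h
          have h2 : (1 : ℝ) / 2 ^ (κ i + 1) ≤ 1 / 2 ^ (i + 1) := by
            have h3 : i ≤ κ i := hκ.le_apply
            exact one_div_le_one_div_of_le (by positivity)
              (pow_le_pow_right₀ one_le_two (by omega))
          exact mul_le_mul h2 h1 (H.al_nonneg i) (by positivity)
      _ = (∑ i ∈ range M, (1 : ℝ) / 2 ^ (i + 1)) * A := (Finset.sum_mul _ _ _).symm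
      _ = (1 - 1 / 2 ^ M) * A := by rw [RE_geom]
      _ ≤ 1 * A := by
          refine mul_le_mul_of_nonneg_right ?_ hA0
          have : (0 : ℝ) ≤ 1 / 2 ^ M := by positivity
          linarith
      _ = A := one_mul _
  rw [e1]
  calc ∑ i ∈ range M, ∑ l ∈ range M', f l * z i l
      ≤ ∑ i ∈ range M, (C * al i * W i + (1 + C) * (1 / 2 ^ (κ i + 1)) * al i) :=
        Finset.sum_le_sum fun i _ => ris_one hC0 H i (hW0 i) (hcut i) M'
    _ = C * ∑ i ∈ range M, al i * W i + (1 + C) * ∑ i ∈ range M, (1 / 2 ^ (κ i + 1)) * al i := by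
        rw [Finset.sum_add_distrib, Finset.mul_sum, Finset.mul_sum]
        congr 1
        · exact Finset.sum_congr rfl fun i _ => mul_assoc _ _ _
        · exact Finset.sum_congr rfl fun i _ => mul_assoc _ _ _
    _ ≤ C * (3 * A) + (1 + C) * A :=
        add_le_add (mul_le_mul_of_nonneg_left e2 hC0)
          (mul_le_mul_of_nonneg_left e3 (by linarith))
    _ = (4 * C + 1) * A := by ring

/-- The RIS lemma, lower estimate. -/
theorem ris_lower {b : ℕ → ℕ} (hb : Monotone b) {z : ℕ → ℕ → ℝ} {al : ℕ → ℝ}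
    (hz : ∀ i, Fsn (z i)) (hzs : ∀ i l, z i l ≠ 0 → b i ≤ l ∧ l < b (i + 1))
    (hal : ∀ i, 0 ≤ al i)
    (H : ∀ i, ∀ ε : ℝ, 0 < ε → ∃ g, KS 0 g ∧ al i - ε ≤ ∑ l ∈ Ico (b i) (b (i + 1)), g l * z i l)
    (M : ℕ) :
    NN 0 (fun i => if i < M then al i else 0) ≤ NN 0 (fun l => ∑ i ∈ range M, z i l) := by
  classical
  refine NN_le fun f hf M' => ?_
  have hf0 : ∀ i, 0 ≤ f i := fun i => KS_nonneg hf i
  have hf1 : ∀ i, f i ≤ 1 := fun i => KS_le_one hf i
  have hZ : Fsn (fun l => ∑ i ∈ range M, z i l) := Fsn_sum (range M) fun i _ => hz i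
  -- restriction of the sum
  have e1 : ∑ i ∈ range M', f i * (if i < M then al i else 0) ≤ ∑ i ∈ range M, f i * al i := by
    have e2 : ∑ i ∈ range M', f i * (if i < M then al i else 0)
        = ∑ i ∈ (range M').filter (fun i => i < M), f i * al i := by
      rw [Finset.sum_filter]
      refine Finset.sum_congr rfl fun i _ => ?_
      split_ifs
      · rfl
      · rw [mul_zero]
    rw [e2]
    refine Finset.sum_le_sum_of_subset_of_nonneg ?_ fun i _ _ => mul_nonneg (hf0 i) (hal i)
    intro i hi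
    exact Finset.mem_range.2 (Finset.mem_filter.1 hi).2
  refine e1.trans ?_
  refine le_of_forall_pos_le_add fun δ hδ => ?_
  set ε : ℝ := δ / (M + 1) with hε
  have hε0 : 0 < ε := by positivity
  choose g hg hgle using fun i => H i ε hε0
  let G : ℕ → ℕ → ℝ := fun i => (Set.Ico (b i) (b (i + 1))).indicator (g i)
  have hG : ∀ i, KS 0 (G i) := fun i => KS_ind (hg i) _
  have hGs : ∀ i l, G i l ≠ 0 → b i ≤ l ∧ l < b (i + 1) := by
    intro i l h
    by_contra hcon
    have hl : l ∉ Set.Ico (b i) (b (i + 1)) := fun hl => hcon hl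
    exact h (Set.indicator_of_notMem hl _)
  have hGb : ∀ i j, i < j → Before (G i) (G j) := by
    intro i j hij l l' hl hl'
    have h1 := hGs i l hl
    have h2 := hGs j l' hl'
    have h3 : b (i + 1) ≤ b j := hb hij
    omega
  have hF := KS_subst hf G hG hGb M
  have h1 := le_NN hZ hF (b M)
  have hdiag : ∀ i ∈ range M, f i * (al i - ε) ≤ ∑ l ∈ range (b M), f i * G i l * z i l := by
    intro i hi
    have hi' := Finset.mem_range.1 hi
    have e2 : ∑ l ∈ Ico (b i) (b (i + 1)), g i l * z i l = ∑ l ∈ range (b M), G i l * z i l := by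
      have e3 : ∑ l ∈ Ico (b i) (b (i + 1)), g i l * z i l
          = ∑ l ∈ Ico (b i) (b (i + 1)), G i l * z i l := by
        refine Finset.sum_congr rfl fun l hl => ?_
        have hl' : l ∈ Set.Ico (b i) (b (i + 1)) := Finset.mem_Ico.1 hl
        have h : G i l = g i l := Set.indicator_of_mem hl' _
        rw [h]
      rw [e3]
      refine Finset.sum_subset ?_ fun l _ hl => ?_
      · intro l hl
        have h3 : b (i + 1) ≤ b M := hb hi'
        exact Finset.mem_range.2 (lt_of_lt_of_le (Finset.mem_Ico.1 hl).2 h3)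
      · have h4 : G i l = 0 := by
          by_contra hne
          exact hl (Finset.mem_Ico.2 (hGs i l hne))
        rw [h4, zero_mul]
    calc f i * (al i - ε) ≤ f i * ∑ l ∈ Ico (b i) (b (i + 1)), g i l * z i l :=
          mul_le_mul_of_nonneg_left (hgle i) (hf0 i)
      _ = ∑ l ∈ range (b M), f i * G i l * z i l := by
          rw [e2, Finset.mul_sum]
          exact Finset.sum_congr rfl fun l _ => (mul_assoc _ _ _).symm
  have hG0 : ∀ i l, 0 ≤ G i l := fun i l => KS_nonneg (hG i) l
  have h2 : ∑ i ∈ range M, ∑ l ∈ range (b M), f i * G i l * z i l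
      ≤ ∑ l ∈ range (b M), (∑ i ∈ range M, f i * G i l) * (∑ i ∈ range M, z i l) := by
    rw [Finset.sum_comm]
    refine Finset.sum_le_sum fun l _ => ?_
    rw [Finset.sum_mul]
    refine Finset.sum_le_sum fun i hi => ?_
    refine mul_le_mul_of_nonneg_left ?_ (mul_nonneg (hf0 i) (hG0 i l))
    exact Finset.single_le_sum (f := fun i => z i l) (fun j _ => (hz j).1 l) hi
  have h3 : ∑ i ∈ range M, f i * al i ≤ ∑ i ∈ range M, f i * (al i - ε) + δ := by
    have e2 : ∑ i ∈ range M, f i * al i = ∑ i ∈ range M, f i * (al i - ε) + ε * ∑ i ∈ range M, f i := by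
      rw [Finset.mul_sum, ← Finset.sum_add_distrib]
      exact Finset.sum_congr rfl fun i _ => by ring
    have e3 : ∑ i ∈ range M, f i ≤ M := by
      calc ∑ i ∈ range M, f i ≤ ∑ i ∈ range M, (1 : ℝ) := Finset.sum_le_sum fun i _ => hf1 i
        _ = M := by simp
    have e4 : ε * ∑ i ∈ range M, f i ≤ δ := by
      calc ε * ∑ i ∈ range M, f i ≤ ε * (M + 1) :=
            mul_le_mul_of_nonneg_left (by linarith) hε0.le
        _ = δ := by
            rw [hε]
            field_simp
    rw [e2]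
    linarith
  calc ∑ i ∈ range M, f i * al i ≤ ∑ i ∈ range M, f i * (al i - ε) + δ := h3
    _ ≤ ∑ i ∈ range M, ∑ l ∈ range (b M), f i * G i l * z i l + δ := by
        have := Finset.sum_le_sum hdiag
        linarith
    _ ≤ NN 0 (fun l => ∑ i ∈ range M, z i l) + δ := by linarith

end BMM
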