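import Pool.Agent.BMM.BE
import Pool.Agent.BMM.RE

open Finset

namespace BMM

theorem BF_ris {β : ℕ → ℝ} (hβ : ∀ i, 0 ≤ β i) :
    RisHyp (fun m => m) off (pz β) (fun m => dn (aa m) (Ico (bo m) (bo (m + 1))) β) 4 where
  fsn := fun i => pz_fsn hβ i
  supp := fun i l h => pz_supp h
  al_nonneg := fun i => dn_nonneg (le_trans (by norm_num) (aa_ge i)) _ _
  r2 := fun i ι _ E hE hc => pz_r2 hβ i ι E hE hc
  r3 := fun i => pz_r3 hβ i

/-- Theorem B: the pieces. -/
theorem thmB {β : ℕ → ℝ} (hβ : ∀ i, 0 ≤ β i) (M : ℕ) :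
    NN 0 (fun m => if m < M then dn (aa m) (Ico (bo m) (bo (m + 1))) β else 0) ≤
      NN 0 (fun i => ∑ m ∈ range M, pz β m i) ∧
    NN 0 (fun i => ∑ m ∈ range M, pz β m i) ≤
      17 * NN 0 (fun m => if m < M then dn (aa m) (Ico (bo m) (bo (m + 1))) β else 0) := by
  refine ⟨?_, ?_⟩
  · refine ris_lower (b := off) (z := pz β)
      (al := fun m => dn (aa m) (Ico (bo m) (bo (m + 1))) β) off_strictMono.monotone
      (fun i => pz_fsn hβ i) (fun i l h => pz_supp h)
      (fun i => dn_nonneg (le_trans (by norm_num) (aa_ge i)) _ _) ?_ M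
    intro i ε hε
    obtain ⟨g, hg, h⟩ := pz_lower hβ i hε
    exact ⟨g, KS_anti (Nat.zero_le i) hg, h⟩
  · have h := ris_upper (κ := fun m => m) (b := off) (z := pz β)
      (al := fun m => dn (aa m) (Ico (bo m) (bo (m + 1))) β) (C := 4)
      (fun a b h => h) off_strictMono.monotone (by norm_num) (BF_ris hβ) M
    have h17 : (4 * 4 + 1 : ℝ) = 17 := by norm_num
    rw [h17] at h
    exact h

end BMM
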