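import Mathlib

/-! # Block-minimal space with meager isomorphism relation: basic definitions -/

open Finset

namespace BMM

/-! ## Parameters -/

/-- `aA 0 = 1`, `aA (k+1) = 4 (k+1)^2 aA k`. -/
def aA : ℕ → ℕ
  | 0 => 1
  | k + 1 => 4 * (k + 1) ^ 2 * aA k

/-- The exponent `a_k = aA (k+1)`. -/
def aa (k : ℕ) : ℕ := aA (k + 1)

/-- `m_k = 8^((k+1)^2)`. -/
def mm (k : ℕ) : ℕ := 8 ^ ((k + 1) ^ 2)

/-- `T_k = (2^(k+1) m_k)^(A_k)`. -/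
def TT (k : ℕ) : ℕ := (2 ^ (k + 1) * mm k) ^ (aA k)

/-- `n_k = m_k T_k`. -/
def nn (k : ℕ) : ℕ := mm k * TT k

/-- `h_k = 2 (k+1) a_k`. -/
def hh (k : ℕ) : ℕ := 2 * (k + 1) * aa k

/-- `N_k = 2^{h_k}`. -/
def Nn (k : ℕ) : ℕ := 2 ^ (hh k)

/-- `L_k = 2 N_k`: the dimension of the `k`-th group. -/
def LL (k : ℕ) : ℕ := 2 * Nn k

/-- `R_k = 2 * 4^(k+1)`. -/
def RR (k : ℕ) : ℕ := 2 * 4 ^ (k + 1)

/-- `p_k = 2 a_k / (a_k - 1)`. -/
noncomputable def pp (k : ℕ) : ℝ := 2 * (aa k : ℝ) / ((aa k : ℝ) - 1)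

/-- Start of the `k`-th group of coordinates of the space: the group is `[bo k, bo (k+1))`. -/
def bo : ℕ → ℕ
  | 0 => 0
  | k + 1 => bo k + LL k

/-- Start of the `k`-th group of the piece layout: `[off k, off (k+1))`, of length `L_k n_k`. -/
def off : ℕ → ℕ
  | 0 => 0
  | k + 1 => off k + LL k * nn k

/-! ## Norming sets -/

/-- All indices of the support of `f` are smaller than all indices of the support of `g`. -/
def Before (f g : ℕ → ℝ) : Prop := ∀ i j, f i ≠ 0 → g j ≠ 0 → i < j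

/-- A family with pairwise separated supports. -/
def Sep {ι : Type} (f : ι → ℕ → ℝ) : Prop :=
  ∀ s t, s ≠ t → Before (f s) (f t) ∨ Before (f t) (f s)

/-- Admissible coefficient families of type `j`. -/
def Adm {ι : Type} [Fintype ι] (j : ℕ) (lam : ι → ℝ) : Prop :=
  (∀ t, 0 ≤ lam t) ∧ (∀ t, (mm j : ℝ) * lam t ≤ 1) ∧
    ∑ t, ((mm j : ℝ) * lam t) ^ (aa j) ≤ (nn j : ℝ)

/-- The norming sets `K_k`: types strictly increase downwards. -/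
inductive KS : ℕ → (ℕ → ℝ) → Prop
  | leaf (k l : ℕ) : KS k (Pi.single l 1)
  | node (k j : ℕ) (hkj : k ≤ j) (ι : Type) (inst : Fintype ι) (lam : ι → ℝ) (f : ι → ℕ → ℝ)
      (hl : Adm j lam) (hf : ∀ t, KS (j + 1) (f t)) (hs : Sep f) :
      KS k (fun i => ∑ t, lam t * f t i)

/-- The norm `N_k` (on nonnegative finitely supported sequences). -/
noncomputable def NN (k : ℕ) (z : ℕ → ℝ) : ℝ :=
  sSup {r : ℝ | ∃ f : ℕ → ℝ, KS k f ∧ ∃ M : ℕ, r = ∑ i ∈ range M, f i * z i}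

/-- Nonnegative and finitely supported. -/
def Fsn (z : ℕ → ℝ) : Prop := (∀ i, 0 ≤ z i) ∧ ∃ M, ∀ i, M ≤ i → z i = 0

/-- `f` is a sum `∑ mu_t g_t` of separated members of `K_κ` with `∑ mu_t^{A_κ} ≤ 1`. -/
def Flat (κ : ℕ) (f : ℕ → ℝ) : Prop :=
  ∃ (ι : Type) (_ : Fintype ι) (mu : ι → ℝ) (g : ι → ℕ → ℝ),
    (∀ t, 0 ≤ mu t ∧ mu t ≤ 1) ∧ ∑ t, mu t ^ (aA κ) ≤ 1 ∧ (∀ t, KS κ (g t)) ∧ Sep g ∧
      f = fun i => ∑ t, mu t * g t i

/-! ## The RIS lemma -/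

/-- `f` touches the interval `[b i, b (i+1))`. -/
def Touch (b : ℕ → ℕ) (f : ℕ → ℝ) (i : ℕ) : Prop := ∃ l, b i ≤ l ∧ l < b (i + 1) ∧ f l ≠ 0

/-- `rho_k = 2^{2^{-k}}`. -/
noncomputable def rho (k : ℕ) : ℝ := (2 : ℝ) ^ ((1 / 2 : ℝ) ^ k)

/-- The cut of `f` at the index `i` with weight bound `W i`. -/
def CutAt (κ b : ℕ → ℕ) (i : ℕ) (W : ℕ → ℝ) (f : ℕ → ℝ) : Prop :=
  ∃ (ι : Type) (_ : Fintype ι) (mu : ι → ℝ) (g : ι → ℕ → ℝ),
    (∀ t, 0 ≤ mu t ∧ mu t ≤ 1) ∧ ∑ t, mu t ^ (aA (κ i)) ≤ 1 ∧ (∀ t, KS (κ i) (g t)) ∧ Sep g ∧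
      f = (fun l => ∑ t, mu t * g t l) ∧
      ∀ t, (∀ l, (mm (κ (i + 1)) : ℝ) * g t l ≤ 1) ∨ ¬ Touch b (g t) i ∨ mu t ≤ W i

/-- Separated family of sets of indices. -/
def SepSet {ι : Type} (E : ι → Set ℕ) : Prop :=
  ∀ s t, s ≠ t → (∀ x ∈ E s, ∀ y ∈ E t, x < y) ∨ (∀ x ∈ E s, ∀ y ∈ E t, y < x)

/-- The hypotheses of the RIS lemma. -/
structure RisHyp (κ b : ℕ → ℕ) (z : ℕ → ℕ → ℝ) (al : ℕ → ℝ) (C : ℝ) : Prop where
  fsn : ∀ i, Fsn (z i)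
  supp : ∀ i l, z i l ≠ 0 → b i ≤ l ∧ l < b (i + 1)
  al_nonneg : ∀ i, 0 ≤ al i
  r2 : ∀ i, ∀ (ι : Type) [Fintype ι] (E : ι → Set ℕ), SepSet E → Fintype.card ι ≤ TT (κ i) →
    ∑ t, NN (κ i) ((E t).indicator (z i)) ≤ C * al i
  r3 : ∀ i, ∑ l ∈ Ico (b i) (b (i + 1)), z i l ≤ (1 / 2 ^ (κ i + 1)) * al i * (mm (κ (i + 1)) : ℝ)

/-! ## Pieces -/

/-- The dual norm of `ℓ_a` over a finite set of indices. -/
noncomputable def dn (a : ℕ) (s : Finset ℕ) (β : ℕ → ℝ) : ℝ :=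
  sSup {r : ℝ | ∃ μ : ℕ → ℝ, (∀ i, 0 ≤ μ i) ∧ ∑ i ∈ s, μ i ^ a ≤ 1 ∧ r = ∑ i ∈ s, μ i * β i}

/-- The piece layout: `pz β m` lives on `[off m, off (m+1))`, and each coordinate `l` of the group
`[bo m, bo (m+1))` is replaced by `n_m` coordinates with the value `(m_m / n_m) β`. -/
noncomputable def pz (β : ℕ → ℝ) (m : ℕ) : ℕ → ℝ := fun i =>
  if off m ≤ i ∧ i < off (m + 1) then
    ((mm m : ℝ) / (nn m : ℝ)) * β (bo m + (i - off m) / nn m) else 0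

/-! ## The norm of the space -/

/-- The `ℓ_{p_m}` norm over the `m`-th group. -/
noncomputable def gn (m : ℕ) (x : ℕ → ℝ) : ℝ :=
  (∑ i ∈ Ico (bo m) (bo (m + 1)), |x i| ^ (pp m)) ^ (1 / pp m)

/-- The norm of the space on finitely supported sequences. -/
noncomputable def nX (x : ℕ → ℝ) : ℝ := √(NN 0 (fun m => (gn m x) ^ 2))

/-- Finitely supported. -/
def Fs (x : ℕ → ℝ) : Prop := ∃ M, ∀ i, M ≤ i → x i = 0

/-! ## Walsh functions and the basis -/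

/-- Walsh function number `j` at the point `i` (level `h`). -/
noncomputable def wal (h j i : ℕ) : ℝ :=
  ∏ b ∈ range h, if (j.testBit b && i.testBit b) = true then (-1 : ℝ) else 1

/-- The group of an index. -/
noncomputable def grp (k : ℕ) : ℕ := sInf {m | k < bo (m + 1)}

/-- The basis vectors: in the group `m`, `evec (bo m + 2 j) = θ_{bo m + j}` and
`evec (bo m + 2 j + 1) = ∑_i N^{-1/2} w_j(i) θ_{bo m + N + i}`. -/
noncomputable def evec (k : ℕ) : ℕ → ℝ :=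
  if (k - bo (grp k)) % 2 = 0 then Pi.single (bo (grp k) + (k - bo (grp k)) / 2) 1
  else fun i => if bo (grp k) + Nn (grp k) ≤ i ∧ i < bo (grp k + 1) then
    wal (hh (grp k)) ((k - bo (grp k)) / 2) (i - (bo (grp k) + Nn (grp k))) / √(Nn (grp k)) else 0

/-- Finite combination of the basis vectors with coefficients `c` over the finite set `s`. -/
noncomputable def cmb (s : Finset ℕ) (c : ℕ → ℝ) : ℕ → ℝ := fun i => ∑ k ∈ s, c k * evec k i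

/-- The vectors `f_r = u_r + v_r` of the group `n`. -/
noncomputable def fvec (n r : ℕ) : ℕ → ℝ := fun i =>
  evec (bo n + 2 * r) i + evec (bo n + 2 * r + 1) i

/-- The norm of `F_n`. -/
noncomputable def nF (n : ℕ) (a : Fin (Nn n) → ℝ) : ℝ :=
  gn n (fun i => ∑ r : Fin (Nn n), a r * fvec n r i)

end BMM
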