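import Pool.Agent.BMM.Par

open Finset

namespace BMM

theorem EA_bo (m : ℕ) : bo (m + 1) = bo m + 2 * Nn m := rfl

theorem grp_eq {m k : ℕ} (h1 : bo m ≤ k) (h2 : k < bo (m + 1)) : grp k = m := by
  unfold grp
  refine le_antisymm (Nat.sInf_le h2) ?_
  have hne : {m | k < bo (m + 1)}.Nonempty := ⟨m, h2⟩
  have h3 : k < bo (sInf {m | k < bo (m + 1)} + 1) := Nat.sInf_mem hne
  by_contra h4
  push Not at h4
  have h5 : bo (sInf {m | k < bo (m + 1)} + 1) ≤ bo m := bo_strictMono.monotone h4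
  omega

theorem grp_spec (k : ℕ) : bo (grp k) ≤ k ∧ k < bo (grp k + 1) := by
  have hne : {m | k < bo (m + 1)}.Nonempty := by
    refine ⟨k, ?_⟩
    have h1 : k + 1 ≤ bo (k + 1) := bo_strictMono.le_apply
    show k < bo (k + 1)
    omega
  have h3 : k < bo (grp k + 1) := Nat.sInf_mem hne
  refine ⟨?_, h3⟩
  rcases Nat.eq_zero_or_pos (grp k) with h0 | h0
  · rw [h0]
    exact Nat.zero_le _
  · by_contra h4
    push Not at h4
    have h5 : grp k - 1 ∈ {m | k < bo (m + 1)} := by
      show k < bo (grp k - 1 + 1)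
      rw [Nat.sub_add_cancel h0]
      exact h4
    have h6 : grp k ≤ grp k - 1 := Nat.sInf_le h5
    omega

theorem evec_even {m j : ℕ} (hj : j < Nn m) : evec (bo m + 2 * j) = Pi.single (bo m + j) 1 := by
  have hb := EA_bo m
  have hg : grp (bo m + 2 * j) = m := grp_eq (by omega) (by omega)
  unfold evec
  rw [hg]
  have h1 : bo m + 2 * j - bo m = 2 * j := by omega
  have h2 : 2 * j % 2 = 0 := by omega
  have h3 : 2 * j / 2 = j := by omega
  rw [h1, if_pos h2, h3]

theorem evec_odd {m j : ℕ} (hj : j < Nn m) : evec (bo m + 2 * j + 1) = fun i =>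
    if bo m + Nn m ≤ i ∧ i < bo (m + 1) then
      wal (hh m) j (i - (bo m + Nn m)) / √(Nn m) else 0 := by
  have hb := EA_bo m
  have hg : grp (bo m + 2 * j + 1) = m := grp_eq (by omega) (by omega)
  unfold evec
  rw [hg]
  have h1 : bo m + 2 * j + 1 - bo m = 2 * j + 1 := by omega
  have h2 : ¬ ((2 * j + 1) % 2 = 0) := by omega
  have h3 : (2 * j + 1) / 2 = j := by omega
  rw [h1, if_neg h2, h3]

theorem EA_parity (k : ℕ) : ∃ j, j < Nn (grp k) ∧
    (k = bo (grp k) + 2 * j ∨ k = bo (grp k) + 2 * j + 1) := by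
  obtain ⟨h1, h2⟩ := grp_spec k
  have hb := EA_bo (grp k)
  refine ⟨(k - bo (grp k)) / 2, by omega, by omega⟩

theorem evec_supp {k i : ℕ} (h : evec k i ≠ 0) : bo (grp k) ≤ i ∧ i < bo (grp k + 1) := by
  obtain ⟨j, hj, hk⟩ := EA_parity k
  have hb := EA_bo (grp k)
  rcases hk with hk | hk
  · have h1 := evec_even hj
    rw [← hk] at h1
    rw [h1] at h
    by_cases hi : i = bo (grp k) + j
    · omega
    · rw [Pi.single_eq_of_ne hi] at h
      exact absurd rfl h
  · have h1 := evec_odd hj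
    rw [← hk] at h1
    rw [h1] at h
    by_cases hi : bo (grp k) + Nn (grp k) ≤ i ∧ i < bo (grp k + 1)
    · omega
    · simp only [if_neg hi] at h
      exact absurd rfl h

theorem EA_grp {k i m : ℕ} (h1 : bo m ≤ i) (h2 : i < bo (m + 1)) (h : evec k i ≠ 0) :
    grp k = m := by
  obtain ⟨h3, h4⟩ := evec_supp h
  rw [← grp_eq h1 h2]
  exact (grp_eq h3 h4).symm

theorem EA_first {m i : ℕ} (h1 : bo m ≤ i) (h2 : i < bo m + Nn m) (k : ℕ) :
    evec k i = if k = bo m + 2 * (i - bo m) then 1 else 0 := by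
  have hb := EA_bo m
  split_ifs with hk
  · rw [hk, evec_even (by omega)]
    have h3 : bo m + (i - bo m) = i := by omega
    rw [h3, Pi.single_eq_same]
  · by_contra h0
    have hg := EA_grp h1 (by omega) h0
    obtain ⟨j, hj, hk'⟩ := EA_parity k
    rw [hg] at hj hk'
    rcases hk' with hk' | hk'
    · rw [hk', evec_even hj] at h0
      apply h0
      rw [Pi.single_eq_of_ne]
      omega
    · rw [hk', evec_odd hj] at h0
      apply h0
      exact if_neg (by omega)

/-- First half of the group `m`. -/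
theorem cmb_first {m i : ℕ} (h1 : bo m ≤ i) (h2 : i < bo m + Nn m) (s : Finset ℕ) (c : ℕ → ℝ) :
    cmb s c i = if bo m + 2 * (i - bo m) ∈ s then c (bo m + 2 * (i - bo m)) else 0 := by
  unfold cmb
  have h3 : ∀ k ∈ s, c k * evec k i = if k = bo m + 2 * (i - bo m) then c k else 0 := by
    intro k _
    rw [EA_first h1 h2 k]
    split_ifs
    · rw [mul_one]
    · rw [mul_zero]
  rw [Finset.sum_congr rfl h3, Finset.sum_ite_eq' s (bo m + 2 * (i - bo m)) c]

/-- Second half of the group `m`. -/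
theorem cmb_second {m i : ℕ} (h1 : bo m + Nn m ≤ i) (h2 : i < bo (m + 1)) (s : Finset ℕ)
    (c : ℕ → ℝ) :
    cmb s c i = ∑ j ∈ range (Nn m), if bo m + 2 * j + 1 ∈ s then
      c (bo m + 2 * j + 1) * (wal (hh m) j (i - (bo m + Nn m)) / √(Nn m)) else 0 := by
  have hb := EA_bo m
  unfold cmb
  rw [← Finset.sum_filter]
  symm
  refine Finset.sum_of_injOn (fun j => bo m + 2 * j + 1) ?_ ?_ ?_ ?_
  · intro a _ b _ hab
    have hab' : bo m + 2 * a + 1 = bo m + 2 * b + 1 := hab
    omega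
  · intro j hj
    exact (Finset.mem_filter.mp hj).2
  · intro k hk hk'
    by_contra h0
    have h0' : evec k i ≠ 0 := right_ne_zero_of_mul h0
    have hg := EA_grp (by omega) h2 h0'
    obtain ⟨j, hj, hkj⟩ := EA_parity k
    rw [hg] at hj hkj
    rcases hkj with hkj | hkj
    · rw [hkj, evec_even hj] at h0'
      apply h0'
      rw [Pi.single_eq_of_ne]
      omega
    · apply hk'
      refine ⟨j, ?_, hkj.symm⟩
      rw [Finset.mem_coe, Finset.mem_filter, Finset.mem_range]
      refine ⟨hj, ?_⟩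
      rw [← hkj]
      exact hk
  · intro j hj
    have hj' := Finset.mem_range.mp (Finset.mem_filter.mp hj).1
    show _ = c (bo m + 2 * j + 1) * evec (bo m + 2 * j + 1) i
    rw [evec_odd hj']
    simp only [if_pos (And.intro h1 h2)]

/-- Only the indices of the group `m` matter on the group `m`. -/
theorem cmb_grp {m i : ℕ} (h1 : bo m ≤ i) (h2 : i < bo (m + 1)) (s : Finset ℕ) (c : ℕ → ℝ) :
    cmb s c i = cmb (s ∩ Ico (bo m) (bo (m + 1))) c i := by
  unfold cmb
  symm
  refine Finset.sum_subset Finset.inter_subset_left (fun k hk hk' => ?_)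
  by_contra h0
  have h0' : evec k i ≠ 0 := right_ne_zero_of_mul h0
  have hg := EA_grp h1 h2 h0'
  have h3 := grp_spec k
  rw [hg] at h3
  apply hk'
  rw [Finset.mem_inter, Finset.mem_Ico]
  exact ⟨hk, h3⟩

theorem cmb_fs (s : Finset ℕ) (c : ℕ → ℝ) : Fs (cmb s c) := by
  refine ⟨∑ k ∈ s, bo (grp k + 1), fun i hi => ?_⟩
  unfold cmb
  refine Finset.sum_eq_zero (fun k hk => ?_)
  have h1 : bo (grp k + 1) ≤ ∑ k ∈ s, bo (grp k + 1) :=
    Finset.single_le_sum (f := fun k => bo (grp k + 1)) (fun _ _ => Nat.zero_le _) hk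
  by_contra h0
  have h0' : evec k i ≠ 0 := right_ne_zero_of_mul h0
  have h2 := (evec_supp h0').2
  omega

end BMM
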