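import Pool.Agent.BMM.WC

open Finset MeasureTheory

namespace BMM

/-- Interpolation between `ℓ_2` and `ℓ_∞`. -/
theorem interp {N : ℕ} (T : (Fin N → ℝ) →ₗ[ℝ] (Fin N → ℝ)) {Λ p : ℝ} (hΛ : 1 ≤ Λ) (hp : 2 < p)
    (h2 : ∀ x, ∑ i, (T x i) ^ 2 ≤ ∑ i, (x i) ^ 2)
    (hinf : ∀ x C, 0 ≤ C → (∀ i, |x i| ≤ C) → ∀ i, |T x i| ≤ Λ * C) (x : Fin N → ℝ) :
    ∑ i, |T x i| ^ p ≤ Λ ^ (p - 2) * ∑ i, |x i| ^ p := by
  obtain ⟨c, hc, hint⟩ := int_scale hp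
  have hΛ0 : 0 < Λ := lt_of_lt_of_le one_pos hΛ
  have hA : ∀ i, IntegrableOn (fun τ : ℝ => τ ^ (p - 3) * (max (|T x i| / Λ - τ) 0) ^ 2) (Set.Ioi 0) ∧
      ∫ τ in Set.Ioi (0 : ℝ), τ ^ (p - 3) * (max (|T x i| / Λ - τ) 0) ^ 2 = c * (|T x i| / Λ) ^ p :=
    fun i => hint _ (by positivity)
  have hB : ∀ i, IntegrableOn (fun τ : ℝ => τ ^ (p - 3) * (max (|x i| - τ) 0) ^ 2) (Set.Ioi 0) ∧
      ∫ τ in Set.Ioi (0 : ℝ), τ ^ (p - 3) * (max (|x i| - τ) 0) ^ 2 = c * |x i| ^ p :=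
    fun i => hint _ (abs_nonneg _)
  have key : ∫ τ in Set.Ioi (0 : ℝ), Λ ^ 2 * ∑ i, τ ^ (p - 3) * (max (|T x i| / Λ - τ) 0) ^ 2 ≤
      ∫ τ in Set.Ioi (0 : ℝ), ∑ i, τ ^ (p - 3) * (max (|x i| - τ) 0) ^ 2 := by
    apply setIntegral_mono_on
    · exact (integrable_finsetSum _ fun i _ => (hA i).1).const_mul _
    · exact integrable_finsetSum _ fun i _ => (hB i).1
    · exact measurableSet_Ioi
    · intro τ hτ
      have hτ0 : (0 : ℝ) < τ := hτ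
      have h3 := trunc_le T hΛ0.le h2 hinf x hτ0.le
      have h4 : ∀ i, (max (|T x i| - Λ * τ) 0) ^ 2 = Λ ^ 2 * (max (|T x i| / Λ - τ) 0) ^ 2 := by
        intro i
        have h5 : max (|T x i| - Λ * τ) 0 = Λ * max (|T x i| / Λ - τ) 0 := by
          rw [mul_max_of_nonneg _ _ hΛ0.le, mul_zero]
          congr 1
          field_simp
        rw [h5, mul_pow]
      simp only [h4] at h3
      rw [← Finset.mul_sum, ← Finset.mul_sum]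
      rw [← Finset.mul_sum] at h3
      have h6 : 0 ≤ τ ^ (p - 3) := Real.rpow_nonneg hτ0.le _
      calc Λ ^ 2 * (τ ^ (p - 3) * ∑ i, (max (|T x i| / Λ - τ) 0) ^ 2)
          = τ ^ (p - 3) * (Λ ^ 2 * ∑ i, (max (|T x i| / Λ - τ) 0) ^ 2) := by ring
        _ ≤ τ ^ (p - 3) * ∑ i, (max (|x i| - τ) 0) ^ 2 := mul_le_mul_of_nonneg_left h3 h6
  rw [integral_const_mul, integral_finsetSum _ (fun i _ => (hA i).1),
    integral_finsetSum _ (fun i _ => (hB i).1)] at key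
  simp only [(hA _).2, (hB _).2] at key
  rw [← Finset.mul_sum, ← Finset.mul_sum] at key
  have h7 : ∀ i, (|T x i| / Λ) ^ p = |T x i| ^ p / Λ ^ p := fun i =>
    Real.div_rpow (abs_nonneg _) hΛ0.le p
  simp only [h7] at key
  rw [← Finset.sum_div] at key
  have hΛp : 0 < Λ ^ p := Real.rpow_pos_of_pos hΛ0 p
  have h8 : Λ ^ (p - 2) = Λ ^ p / Λ ^ 2 := by
    rw [Real.rpow_sub hΛ0]
    norm_num
  rw [h8]
  have h9 : Λ ^ 2 * ((∑ i, |T x i| ^ p) / Λ ^ p) ≤ ∑ i, |x i| ^ p := by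
    have : c * (Λ ^ 2 * ((∑ i, |T x i| ^ p) / Λ ^ p)) ≤ c * ∑ i, |x i| ^ p := by
      calc c * (Λ ^ 2 * ((∑ i, |T x i| ^ p) / Λ ^ p)) = Λ ^ 2 * (c * ((∑ i, |T x i| ^ p) / Λ ^ p)) := by ring
        _ ≤ _ := key
    exact le_of_mul_le_mul_left this hc
  have h10 : ∑ i, |T x i| ^ p = Λ ^ p / Λ ^ 2 * (Λ ^ 2 * ((∑ i, |T x i| ^ p) / Λ ^ p)) := by
    field_simp
  rw [h10]
  exact mul_le_mul_of_nonneg_left h9 (by positivity)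

end BMM
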