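import Pool.Agent.BMM.WB
import Pool.Agent.BMM.WD

open Finset

namespace BMM

/-- Extension by zero. -/
noncomputable def WE_ext (N : ℕ) (x : Fin N → ℝ) : ℕ → ℝ := fun n => if h : n < N then x ⟨n, h⟩ else 0

theorem WE_ext_val {N : ℕ} (x : Fin N → ℝ) (i : Fin N) : WE_ext N x i = x i := by
  unfold WE_ext
  rw [dif_pos i.2]

theorem WE_ext_lt {N : ℕ} (x : Fin N → ℝ) {n : ℕ} (h : n < N) : WE_ext N x n = x ⟨n, h⟩ := by
  unfold WE_ext
  rw [dif_pos h]

theorem WE_congr (h r : ℕ) {x y : ℕ → ℝ} (hxy : ∀ i < 2 ^ h, x i = y i) : wS h r x = wS h r y := by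
  funext i
  unfold wS
  refine Finset.sum_congr rfl (fun j _ => ?_)
  have h1 : ∑ i' ∈ range (2 ^ h), wal h j i' * x i' = ∑ i' ∈ range (2 ^ h), wal h j i' * y i' :=
    Finset.sum_congr rfl (fun i' hi' => by rw [hxy i' (Finset.mem_range.mp hi')])
  rw [h1]

/-- The partial sum operator on `Fin (2 ^ h) → ℝ`. -/
noncomputable def WE_T (h r : ℕ) : (Fin (2 ^ h) → ℝ) →ₗ[ℝ] (Fin (2 ^ h) → ℝ) where
  toFun x := fun i => wS h r (WE_ext _ x) i
  map_add' x y := by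
    funext i
    have h1 : WE_ext (2 ^ h) (x + y) = fun n => WE_ext _ x n + WE_ext _ y n := by
      funext n
      unfold WE_ext
      by_cases hn : n < 2 ^ h
      · rw [dif_pos hn, dif_pos hn, dif_pos hn, Pi.add_apply]
      · rw [dif_neg hn, dif_neg hn, dif_neg hn, add_zero]
    show wS h r (WE_ext (2 ^ h) (x + y)) i = wS h r (WE_ext _ x) i + wS h r (WE_ext _ y) i
    rw [h1, wS_add]
  map_smul' c x := by
    funext i
    have h1 : WE_ext (2 ^ h) (c • x) = fun n => c * WE_ext _ x n := by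
      funext n
      unfold WE_ext
      by_cases hn : n < 2 ^ h
      · rw [dif_pos hn, dif_pos hn, Pi.smul_apply, smul_eq_mul]
      · rw [dif_neg hn, dif_neg hn, mul_zero]
    show wS h r (WE_ext (2 ^ h) (c • x)) i = c * wS h r (WE_ext _ x) i
    rw [h1, wS_smul]

theorem WE_aux {h r : ℕ} (hr : r ≤ 2 ^ h) {p : ℝ} (hp : 2 < p) (x : ℕ → ℝ) :
    ∑ i ∈ range (2 ^ h), |wS h r x i| ^ p ≤
      ((h : ℝ) + 1) ^ (p - 2) * ∑ i ∈ range (2 ^ h), |x i| ^ p := by
  have hΛ : (1 : ℝ) ≤ (h : ℝ) + 1 := by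
    have : (0 : ℝ) ≤ (h : ℝ) := Nat.cast_nonneg h
    linarith
  have h1 := interp (WE_T h r) hΛ hp (fun y => by
    have e1 := wS_l2 hr (WE_ext (2 ^ h) y)
    rw [← Fin.sum_univ_eq_sum_range (fun i => (wS h r (WE_ext (2 ^ h) y) i) ^ 2),
      ← Fin.sum_univ_eq_sum_range (fun i => (WE_ext (2 ^ h) y i) ^ 2)] at e1
    have e2 : ∀ i : Fin (2 ^ h), (WE_ext (2 ^ h) y i) ^ 2 = (y i) ^ 2 := fun i => by
      rw [WE_ext_val]
    rw [Finset.sum_congr rfl (fun i _ => e2 i)] at e1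
    exact e1) (fun y C hC hy i => by
    have e1 := wS_sup hr hC (x := WE_ext (2 ^ h) y) (fun n hn => by
      rw [WE_ext_lt y hn]
      exact hy _) i i.2
    exact e1) (fun i => x i)
  have h2 : ∀ n < 2 ^ h, WE_ext (2 ^ h) (fun i : Fin (2 ^ h) => x i) n = x n := by
    intro n hn
    rw [WE_ext_lt _ hn]
  have h3 : ∀ i : Fin (2 ^ h), WE_T h r (fun i => x i) i = wS h r x i := by
    intro i
    show wS h r (WE_ext (2 ^ h) (fun i : Fin (2 ^ h) => x i)) i = wS h r x i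
    rw [WE_congr h r h2]
  rw [Finset.sum_congr rfl (fun i _ => by rw [h3 i])] at h1
  rw [Fin.sum_univ_eq_sum_range (fun i => |wS h r x i| ^ p),
    Fin.sum_univ_eq_sum_range (fun i => |x i| ^ p)] at h1
  exact h1

/-- The partial sum operators are bounded by `2` on `ℓ_{p_m}`. -/
theorem wS_lp (m : ℕ) {r : ℕ} (hr : r ≤ Nn m) (x : ℕ → ℝ) :
    ∑ i ∈ range (Nn m), |wS (hh m) r x i| ^ (pp m) ≤
      2 ^ (pp m) * ∑ i ∈ range (Nn m), |x i| ^ (pp m) := by
  have hp := pp_gt_two m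
  have h1 := WE_aux (h := hh m) (r := r) hr hp x
  have hN : Nn m = 2 ^ hh m := rfl
  rw [hN]
  refine h1.trans (mul_le_mul_of_nonneg_right ?_ ?_)
  · have h2 : ((hh m : ℝ) + 1) ≤ (2 : ℝ) ^ ((aa m : ℕ) : ℝ) := by
      rw [Real.rpow_natCast]
      exact_mod_cast hh_le_pow m
    have h3 : (0 : ℝ) ≤ (hh m : ℝ) + 1 := by positivity
    have ha : (4 : ℝ) ≤ (aa m : ℝ) := by exact_mod_cast aa_ge m
    refine (Real.rpow_le_rpow h3 h2 (by linarith)).trans (le_of_eq ?_)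
    rw [← Real.rpow_mul (by norm_num)]
    congr 1
    rw [pp_sub_two]
    unfold pp
    have h4 : (aa m : ℝ) - 1 ≠ 0 := by linarith
    field_simp
  · exact Finset.sum_nonneg (fun i _ => Real.rpow_nonneg (abs_nonneg _) _)

end BMM
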