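import Pool.Agent.BMM.EA
import Pool.Agent.BMM.WE

open Finset

namespace BMM

/-- Number of Walsh functions of the group `m` among the first `M` basis vectors. -/
def EB_R (m M : ℕ) : ℕ := min (Nn m) ((M - bo m) / 2)

theorem EB_R_le (m M : ℕ) : EB_R m M ≤ Nn m := min_le_left _ _

theorem EB_R_mono (m : ℕ) {r M : ℕ} (h : r ≤ M) : EB_R m r ≤ EB_R m M := by
  unfold EB_R
  refine min_le_min le_rfl (Nat.div_le_div_right ?_)
  omega

theorem EB_second (m M : ℕ) (c : ℕ → ℝ) {i' : ℕ} (hi : i' < Nn m) :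
    cmb (range M) c (bo m + Nn m + i') =
      ∑ j ∈ range (EB_R m M), (c (bo m + 2 * j + 1) / √(Nn m)) * wal (hh m) j i' := by
  have hbo : bo (m + 1) = bo m + 2 * Nn m := rfl
  rw [cmb_second (m := m) (by omega) (by omega)]
  have h1 : bo m + Nn m + i' - (bo m + Nn m) = i' := by omega
  rw [h1, ← Finset.sum_filter]
  have h2 : Finset.filter (fun j => bo m + 2 * j + 1 ∈ range M) (range (Nn m)) = range (EB_R m M) := by
    ext j
    simp only [Finset.mem_filter, Finset.mem_range, EB_R, lt_min_iff]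
    constructor
    · rintro ⟨h3, h4⟩
      exact ⟨h3, by omega⟩
    · rintro ⟨h3, h4⟩
      exact ⟨h3, by omega⟩
  rw [h2]
  refine Finset.sum_congr rfl fun j _ => ?_
  ring

theorem EB_sum (m : ℕ) (F : ℕ → ℝ) : ∑ i ∈ Ico (bo m) (bo (m + 1)), F i =
    ∑ i ∈ range (Nn m), F (bo m + i) + ∑ i ∈ range (Nn m), F (bo m + Nn m + i) := by
  have hbo : bo (m + 1) = bo m + 2 * Nn m := rfl
  rw [← Finset.sum_Ico_consecutive F (n := bo m + Nn m) (by omega) (by omega),
    Finset.sum_Ico_eq_sum_range, Finset.sum_Ico_eq_sum_range]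
  have h1 : bo m + Nn m - bo m = Nn m := by omega
  have h2 : bo (m + 1) - (bo m + Nn m) = Nn m := by omega
  rw [h1, h2]

/-- Partial sums are bounded by `2` in each group. -/
theorem gn_partial (m : ℕ) {r M : ℕ} (h : r ≤ M) (c : ℕ → ℝ) :
    gn m (cmb (range r) c) ≤ 2 * gn m (cmb (range M) c) := by
  have hp2 := pp_gt_two m
  have hp0 : 0 < pp m := by linarith
  have hfirst : ∑ i ∈ range (Nn m), |cmb (range r) c (bo m + i)| ^ (pp m) ≤
      2 ^ (pp m) * ∑ i ∈ range (Nn m), |cmb (range M) c (bo m + i)| ^ (pp m) := by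
    rw [Finset.mul_sum]
    refine Finset.sum_le_sum fun i hi => ?_
    have hi' : i < Nn m := Finset.mem_range.mp hi
    have h1 : |cmb (range r) c (bo m + i)| ≤ |cmb (range M) c (bo m + i)| := by
      rw [cmb_first (m := m) (by omega) (by omega), cmb_first (m := m) (by omega) (by omega)]
      by_cases h2 : bo m + 2 * (bo m + i - bo m) ∈ range r
      · have h3 : bo m + 2 * (bo m + i - bo m) ∈ range M :=
          Finset.mem_range.mpr (lt_of_lt_of_le (Finset.mem_range.mp h2) h)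
        rw [if_pos h2, if_pos h3]
      · rw [if_neg h2, abs_zero]
        exact abs_nonneg _
    have h4 : |cmb (range r) c (bo m + i)| ^ (pp m) ≤ |cmb (range M) c (bo m + i)| ^ (pp m) :=
      Real.rpow_le_rpow (abs_nonneg _) h1 hp0.le
    have h5 : (1 : ℝ) ≤ 2 ^ (pp m) := Real.one_le_rpow (by norm_num) hp0.le
    have h6 : 0 ≤ |cmb (range M) c (bo m + i)| ^ (pp m) := Real.rpow_nonneg (abs_nonneg _) _
    nlinarith
  have hsecond : ∑ i ∈ range (Nn m), |cmb (range r) c (bo m + Nn m + i)| ^ (pp m) ≤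
      2 ^ (pp m) * ∑ i ∈ range (Nn m), |cmb (range M) c (bo m + Nn m + i)| ^ (pp m) := by
    have h1 := wS_lp m (EB_R_le m r)
      (fun i' => ∑ j ∈ range (EB_R m M), (c (bo m + 2 * j + 1) / √(Nn m)) * wal (hh m) j i')
    have h2 : ∀ i ∈ range (Nn m), |cmb (range M) c (bo m + Nn m + i)| ^ (pp m) =
        |∑ j ∈ range (EB_R m M), (c (bo m + 2 * j + 1) / √(Nn m)) * wal (hh m) j i| ^ (pp m) := by
      intro i hi
      rw [EB_second m M c (Finset.mem_range.mp hi)]
    have h3 : ∀ i ∈ range (Nn m), |cmb (range r) c (bo m + Nn m + i)| ^ (pp m) =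
        |wS (hh m) (EB_R m r) (fun i' => ∑ j ∈ range (EB_R m M),
          (c (bo m + 2 * j + 1) / √(Nn m)) * wal (hh m) j i') i| ^ (pp m) := by
      intro i hi
      rw [EB_second m r c (Finset.mem_range.mp hi),
        wS_poly (EB_R_mono m h) (EB_R_le m M) (fun j => c (bo m + 2 * j + 1) / √(Nn m)) i]
    rw [Finset.sum_congr rfl h2, Finset.sum_congr rfl h3]
    exact h1
  have hall : ∑ i ∈ Ico (bo m) (bo (m + 1)), |cmb (range r) c i| ^ (pp m) ≤
      2 ^ (pp m) * ∑ i ∈ Ico (bo m) (bo (m + 1)), |cmb (range M) c i| ^ (pp m) := by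
    rw [EB_sum m (fun i => |cmb (range r) c i| ^ (pp m)), EB_sum m (fun i => |cmb (range M) c i| ^ (pp m)),
      mul_add]
    exact add_le_add hfirst hsecond
  unfold gn
  have h0 : 0 ≤ ∑ i ∈ Ico (bo m) (bo (m + 1)), |cmb (range r) c i| ^ (pp m) :=
    Finset.sum_nonneg fun i _ => Real.rpow_nonneg (abs_nonneg _) _
  have h0' : 0 ≤ ∑ i ∈ Ico (bo m) (bo (m + 1)), |cmb (range M) c i| ^ (pp m) :=
    Finset.sum_nonneg fun i _ => Real.rpow_nonneg (abs_nonneg _) _
  refine (Real.rpow_le_rpow h0 hall (by positivity)).trans ?_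
  rw [Real.mul_rpow (Real.rpow_nonneg (by norm_num) _) h0', ← Real.rpow_mul (by norm_num),
    mul_one_div_cancel hp0.ne', Real.rpow_one]

end BMM
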