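import Pool.Agent.BMM.NA
import Pool.Agent.BMM.KD

open Finset

namespace BMM

theorem Fs_add {x y : ℕ → ℝ} (hx : Fs x) (hy : Fs y) : Fs (fun i => x i + y i) := by
  obtain ⟨M, hM⟩ := hx
  obtain ⟨L, hL⟩ := hy
  refine ⟨max M L, fun i hi => ?_⟩
  show x i + y i = 0
  rw [hM i (le_trans (le_max_left _ _) hi), hL i (le_trans (le_max_right _ _) hi), add_zero]

theorem Fs_smul {x : ℕ → ℝ} (hx : Fs x) (c : ℝ) : Fs (fun i => c * x i) := by
  obtain ⟨M, hM⟩ := hx
  exact ⟨M, fun i hi => by show c * x i = 0; rw [hM i hi, mul_zero]⟩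

theorem Fs_sum {ι : Type} (s : Finset ι) {x : ι → ℕ → ℝ} (hx : ∀ t ∈ s, Fs (x t)) :
    Fs (fun i => ∑ t ∈ s, x t i) := by
  classical
  induction s using Finset.induction_on with
  | empty => exact ⟨0, fun i _ => by simp⟩
  | insert a s ha ih =>
    have h1 : (fun i => ∑ t ∈ insert a s, x t i) = fun i => x a i + (fun i => ∑ t ∈ s, x t i) i := by
      funext i
      rw [Finset.sum_insert ha]
    rw [h1]
    exact Fs_add (hx a (Finset.mem_insert_self _ _)) (ih fun t ht => hx t (Finset.mem_insert_of_mem ht))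

theorem nX_nonneg (x : ℕ → ℝ) : 0 ≤ nX x := Real.sqrt_nonneg _

theorem nX_sq {x : ℕ → ℝ} (hx : Fs x) : nX x ^ 2 = NN 0 (fun m => (gn m x) ^ 2) :=
  Real.sq_sqrt (NN_nonneg (Fsn_gn hx))

theorem nX_zero : nX (fun _ => 0) = 0 := by
  unfold nX
  have h1 : (fun m => (gn m (fun _ => 0)) ^ 2) = fun _ => (0 : ℝ) := by
    funext m
    rw [gn_zero]
    norm_num
  rw [h1, NN_zero, Real.sqrt_zero]

theorem nX_smul {x : ℕ → ℝ} (hx : Fs x) (c : ℝ) : nX (fun i => c * x i) = |c| * nX x := by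
  unfold nX
  have h1 : (fun m => (gn m (fun i => c * x i)) ^ 2) = fun m => c ^ 2 * (gn m x) ^ 2 := by
    funext m
    rw [gn_smul, mul_pow, sq_abs]
  rw [h1, NN_smul (Fsn_gn hx) (sq_nonneg c), Real.sqrt_mul (sq_nonneg c), Real.sqrt_sq_eq_abs]

theorem nX_add_le {x y : ℕ → ℝ} (hx : Fs x) (hy : Fs y) :
    nX (fun i => x i + y i) ≤ nX x + nX y := by
  have h1 : NN 0 (fun m => (gn m (fun i => x i + y i)) ^ 2) ≤ (nX x + nX y) ^ 2 := by
    apply NN_le
    intro f hf M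
    have hfn := KS_nonneg hf
    obtain ⟨A, hA⟩ : ∃ A, A = ∑ i ∈ range M, f i * (gn i x) ^ 2 := ⟨_, rfl⟩
    obtain ⟨B, hB⟩ : ∃ B, B = ∑ i ∈ range M, f i * (gn i y) ^ 2 := ⟨_, rfl⟩
    have hA1 : A ≤ nX x ^ 2 := by
      rw [hA, nX_sq hx]
      exact le_NN (Fsn_gn hx) hf M
    have hB1 : B ≤ nX y ^ 2 := by
      rw [hB, nX_sq hy]
      exact le_NN (Fsn_gn hy) hf M
    have hA0 : 0 ≤ A := by
      rw [hA]
      exact Finset.sum_nonneg (fun i _ => mul_nonneg (hfn i) (sq_nonneg _))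
    have hB0 : 0 ≤ B := by
      rw [hB]
      exact Finset.sum_nonneg (fun i _ => mul_nonneg (hfn i) (sq_nonneg _))
    have hC : (∑ i ∈ range M, f i * (gn i x * gn i y)) ^ 2 ≤ A * B := by
      have h3 := Finset.sum_mul_sq_le_sq_mul_sq (range M) (fun i => √(f i) * gn i x)
        (fun i => √(f i) * gn i y)
      have h4 : ∀ i, √(f i) * gn i x * (√(f i) * gn i y) = f i * (gn i x * gn i y) := by
        intro i
        have := Real.mul_self_sqrt (hfn i)
        calc _ = (√(f i) * √(f i)) * (gn i x * gn i y) := by ring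
          _ = _ := by rw [this]
      have h5 : ∀ i, (√(f i) * gn i x) ^ 2 = f i * (gn i x) ^ 2 := by
        intro i
        rw [mul_pow, Real.sq_sqrt (hfn i)]
      have h6 : ∀ i, (√(f i) * gn i y) ^ 2 = f i * (gn i y) ^ 2 := by
        intro i
        rw [mul_pow, Real.sq_sqrt (hfn i)]
      simp only [h4, h5, h6] at h3
      rw [hA, hB]
      exact h3
    have hC0 : ∑ i ∈ range M, f i * (gn i x * gn i y) ≤ nX x * nX y := by
      refine le_trans (le_abs_self _) (abs_le_of_sq_le_sq ?_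
        (mul_nonneg (nX_nonneg x) (nX_nonneg y)))
      calc _ ≤ A * B := hC
        _ ≤ nX x ^ 2 * nX y ^ 2 := mul_le_mul hA1 hB1 hB0 (sq_nonneg _)
        _ = _ := by ring
    calc ∑ i ∈ range M, f i * (gn i (fun i => x i + y i)) ^ 2
        ≤ ∑ i ∈ range M, f i * (gn i x + gn i y) ^ 2 := by
          apply Finset.sum_le_sum
          intro i _
          apply mul_le_mul_of_nonneg_left _ (hfn i)
          exact pow_le_pow_left₀ (gn_nonneg _ _) (gn_add_le i x y) 2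
      _ = A + 2 * (∑ i ∈ range M, f i * (gn i x * gn i y)) + B := by
          rw [hA, hB, Finset.mul_sum, ← Finset.sum_add_distrib, ← Finset.sum_add_distrib]
          refine Finset.sum_congr rfl (fun i _ => ?_)
          ring
      _ ≤ nX x ^ 2 + 2 * (nX x * nX y) + nX y ^ 2 := by linarith
      _ = _ := by ring
  have h2 : 0 ≤ nX x + nX y := add_nonneg (nX_nonneg x) (nX_nonneg y)
  calc nX (fun i => x i + y i) ≤ √((nX x + nX y) ^ 2) := Real.sqrt_le_sqrt h1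
    _ = nX x + nX y := Real.sqrt_sq h2

theorem gn_le_nX {x : ℕ → ℝ} (hx : Fs x) (m : ℕ) : gn m x ≤ nX x := by
  have h1 : (gn m x) ^ 2 ≤ NN 0 (fun m => (gn m x) ^ 2) := le_NN_apply (Fsn_gn hx) m
  calc gn m x = √((gn m x) ^ 2) := (Real.sqrt_sq (gn_nonneg m x)).symm
    _ ≤ _ := Real.sqrt_le_sqrt h1

theorem NB_exists_grp (i : ℕ) : ∃ m, bo m ≤ i ∧ i < bo (m + 1) := by
  have hge : ∀ m, m ≤ bo m := fun m => bo_strictMono.id_le m
  have hex : ∃ m, i < bo (m + 1) := ⟨i, lt_of_lt_of_le (Nat.lt_succ_self i) (hge (i + 1))⟩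
  classical
  obtain ⟨m, hm, hmin⟩ : ∃ m, i < bo (m + 1) ∧ ∀ k < m, ¬ i < bo (k + 1) :=
    ⟨Nat.find hex, Nat.find_spec hex, fun k hk => Nat.find_min hex hk⟩
  refine ⟨m, ?_, hm⟩
  cases m with
  | zero => exact Nat.zero_le _
  | succ k => exact not_lt.1 (hmin k (Nat.lt_succ_self k))

theorem nX_eq_zero {x : ℕ → ℝ} (hx : Fs x) (h : nX x = 0) : x = fun _ => 0 := by
  funext i
  obtain ⟨m, h1, h2⟩ := NB_exists_grp i
  have h3 : gn m x = 0 := le_antisymm (h ▸ gn_le_nX hx m) (gn_nonneg m x)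
  exact gn_eq_zero h3 i (Finset.mem_Ico.mpr ⟨h1, h2⟩)

/-- Monotonicity in the group norms. -/
theorem nX_mono {x y : ℕ → ℝ} (hx : Fs x) (hy : Fs y) {C : ℝ} (hC : 0 ≤ C)
    (h : ∀ m, gn m x ≤ C * gn m y) : nX x ≤ C * nX y := by
  have h1 : C * nX y = nX (fun i => C * y i) := by rw [nX_smul hy, abs_of_nonneg hC]
  rw [h1]
  unfold nX
  apply Real.sqrt_le_sqrt
  refine NN_mono (Fsn_gn hx) (Fsn_gn (Fs_smul hy C)) (fun m => ?_)
  refine pow_le_pow_left₀ (gn_nonneg m x) ?_ 2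
  rw [gn_smul, abs_of_nonneg hC]
  exact h m

end BMM
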