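import Pool.Agent.BMM.EB
import Pool.Agent.BMM.NB

open Finset

namespace BMM

theorem EC_split {r r' : ℕ} (h : r ≤ r') (c : ℕ → ℝ) :
    cmb (Ico r r') c = fun i => cmb (range r') c i + (-1) * cmb (range r) c i := by
  funext i
  have h1 : ∑ k ∈ Ico r r', c k * evec k i = ∑ k ∈ range r', c k * evec k i - ∑ k ∈ range r, c k * evec k i :=
    Finset.sum_Ico_eq_sub _ h
  show ∑ k ∈ Ico r r', c k * evec k i = ∑ k ∈ range r', c k * evec k i + (-1) * ∑ k ∈ range r, c k * evec k i
  rw [h1]
  ring

/-- Interval projections are bounded by `4` in each group. -/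
theorem gn_interval (m : ℕ) {r r' M : ℕ} (h : r ≤ r') (h' : r' ≤ M) (c : ℕ → ℝ) :
    gn m (cmb (Ico r r') c) ≤ 4 * gn m (cmb (range M) c) := by
  rw [EC_split h c]
  have h1 := gn_add_le m (cmb (range r') c) (fun i => (-1) * cmb (range r) c i)
  have h2 := gn_smul m (-1) (cmb (range r) c)
  have h3 := gn_partial m h' c
  have h4 := gn_partial m (h.trans h') c
  rw [h2, abs_neg, abs_one, one_mul] at h1
  linarith

theorem nX_partial {r M : ℕ} (h : r ≤ M) (c : ℕ → ℝ) :
    nX (cmb (range r) c) ≤ 2 * nX (cmb (range M) c) :=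
  nX_mono (cmb_fs _ _) (cmb_fs _ _) (by norm_num) (fun m => gn_partial m h c)

theorem nX_interval {r r' M : ℕ} (h : r ≤ r') (h' : r' ≤ M) (c : ℕ → ℝ) :
    nX (cmb (Ico r r') c) ≤ 4 * nX (cmb (range M) c) :=
  nX_mono (cmb_fs _ _) (cmb_fs _ _) (by norm_num) (fun m => gn_interval m h h' c)

theorem EC_bo_succ (m : ℕ) : bo (m + 1) = bo m + 2 * Nn m := rfl

theorem evec_ne_zero (k : ℕ) : evec k ≠ fun _ => 0 := by
  intro h0
  obtain ⟨h1, h2⟩ := grp_spec k
  set m := grp k with hm
  rw [EC_bo_succ] at h2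
  have hN := Nn_pos m
  obtain ⟨j, hj | hj⟩ : ∃ j, k = bo m + 2 * j ∨ k = bo m + 2 * j + 1 := by
    refine ⟨(k - bo m) / 2, ?_⟩
    omega
  · have hjN : j < Nn m := by omega
    rw [hj, evec_even hjN] at h0
    have := congrFun h0 (bo m + j)
    simp at this
  · have hjN : j < Nn m := by omega
    rw [hj, evec_odd hjN] at h0
    have h3 := congrFun h0 (bo m + Nn m)
    have h4 : bo m + Nn m ≤ bo m + Nn m ∧ bo m + Nn m < bo (m + 1) := by
      rw [EC_bo_succ]; omega
    simp only [if_pos h4] at h3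
    have h5 := wal_abs (hh m) j (bo m + Nn m - (bo m + Nn m))
    have h6 : (0 : ℝ) < √(Nn m : ℝ) := Real.sqrt_pos.mpr (by exact_mod_cast hN)
    rw [div_eq_zero_iff] at h3
    rcases h3 with h3 | h3
    · rw [h3, abs_zero] at h5
      exact zero_ne_one h5
    · exact h6.ne' h3

/-- Linear independence. -/
theorem cmb_eq_zero {M : ℕ} {c : ℕ → ℝ} (h : cmb (range M) c = fun _ => 0) :
    ∀ k < M, c k = 0 := by
  intro k hk
  have h1 := nX_interval (r := k) (r' := k + 1) (M := M) (Nat.le_succ k) hk c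
  rw [h, nX_zero, mul_zero] at h1
  have h2 : nX (cmb (Ico k (k + 1)) c) = 0 := le_antisymm h1 (nX_nonneg _)
  have h3 := nX_eq_zero (cmb_fs _ _) h2
  by_contra hck
  apply evec_ne_zero k
  funext i
  have h4 := congrFun h3 i
  unfold cmb at h4
  rw [Nat.Ico_succ_singleton, Finset.sum_singleton] at h4
  rcases mul_eq_zero.mp h4 with h5 | h5
  · exact (hck h5).elim
  · exact h5

theorem EC_sqrt (m : ℕ) : √(Nn m : ℝ) * √(Nn m : ℝ) = (2 : ℝ) ^ (hh m) := by
  rw [Real.mul_self_sqrt (by positivity)]
  unfold Nn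
  push_cast
  rfl

/-- The vectors `evec k` span the finitely supported sequences. -/
theorem evec_span (i : ℕ) : ∃ (M : ℕ) (c : ℕ → ℝ), cmb (range M) c = Pi.single i 1 := by
  obtain ⟨h1, h2⟩ := grp_spec i
  set m := grp i with hm
  have hbs := EC_bo_succ m
  have hN := Nn_pos m
  by_cases hi : i < bo m + Nn m
  · refine ⟨bo m + 2 * (i - bo m) + 1, Pi.single (bo m + 2 * (i - bo m)) 1, ?_⟩
    have hj : i - bo m < Nn m := by omega
    funext l
    unfold cmb
    rw [Finset.sum_eq_single (bo m + 2 * (i - bo m))]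
    · rw [Pi.single_eq_same, one_mul, evec_even hj]
      congr 2
      omega
    · intro b _ hb
      rw [Pi.single_eq_of_ne hb, zero_mul]
    · intro h
      exfalso
      apply h
      rw [Finset.mem_range]
      omega
  · push Not at hi
    set t := i - (bo m + Nn m) with ht
    have htN : t < Nn m := by omega
    have hit : i = bo m + Nn m + t := by omega
    obtain ⟨c, hc⟩ : ∃ c : ℕ → ℝ, c = fun k => if bo m ≤ k ∧ k < bo (m + 1) ∧ (k - bo m) % 2 = 1 then
      wal (hh m) ((k - bo m) / 2) t / √(Nn m) else 0 := ⟨_, rfl⟩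
    have hcodd : ∀ j, j < Nn m → c (bo m + 2 * j + 1) = wal (hh m) j t / √(Nn m) := by
      intro j hj
      rw [hc]
      have e1 : (bo m + 2 * j + 1 - bo m) / 2 = j := by omega
      have e2 : bo m ≤ bo m + 2 * j + 1 ∧ bo m + 2 * j + 1 < bo (m + 1) ∧
          (bo m + 2 * j + 1 - bo m) % 2 = 1 := by omega
      simp only [if_pos e2, e1]
    have hceven : ∀ j, c (bo m + 2 * j) = 0 := by
      intro j
      rw [hc]
      have e2 : ¬ (bo m ≤ bo m + 2 * j ∧ bo m + 2 * j < bo (m + 1) ∧ (bo m + 2 * j - bo m) % 2 = 1) := by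
        omega
      simp only [if_neg e2]
    have hcout : ∀ k, ¬ (bo m ≤ k ∧ k < bo (m + 1)) → c k = 0 := by
      intro k hk
      rw [hc]
      have e2 : ¬ (bo m ≤ k ∧ k < bo (m + 1) ∧ (k - bo m) % 2 = 1) := fun h => hk ⟨h.1, h.2.1⟩
      simp only [if_neg e2]
    refine ⟨bo (m + 1), c, ?_⟩
    funext l
    by_cases hl : bo m ≤ l ∧ l < bo (m + 1)
    · by_cases hl2 : l < bo m + Nn m
      · rw [cmb_first hl.1 hl2, hceven, ite_self, Pi.single_eq_of_ne]
        omega
      · push Not at hl2
        rw [cmb_second hl2 hl.2]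
        set s := l - (bo m + Nn m) with hs
        have hsN : s < Nn m := by omega
        have h3 : ∀ j ∈ range (Nn m), (if bo m + 2 * j + 1 ∈ range (bo (m + 1)) then
            c (bo m + 2 * j + 1) * (wal (hh m) j s / √(Nn m)) else 0) =
            (wal (hh m) t j * wal (hh m) s j) / (2 : ℝ) ^ (hh m) := by
          intro j hj
          have hjN := Finset.mem_range.mp hj
          rw [if_pos (Finset.mem_range.mpr (by omega)), hcodd j hjN, wal_symm (hh m) j t,
            wal_symm (hh m) j s, ← EC_sqrt m, div_mul_div_comm]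
        rw [Finset.sum_congr rfl h3, ← Finset.sum_div]
        have h4 := wal_orth (h := hh m) (j := t) (j' := s) htN hsN
        have h5 : range (Nn m) = range (2 ^ (hh m)) := rfl
        rw [h5, h4]
        by_cases hts : t = s
        · rw [if_pos hts, div_self (by positivity)]
          have : l = i := by omega
          rw [this, Pi.single_eq_same]
        · rw [if_neg hts, zero_div, Pi.single_eq_of_ne]
          omega
    · have h3 : cmb (range (bo (m + 1))) c l = 0 := by
        unfold cmb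
        refine Finset.sum_eq_zero (fun k _ => ?_)
        by_cases hk : bo m ≤ k ∧ k < bo (m + 1)
        · by_cases he : evec k l = 0
          · rw [he, mul_zero]
          · exfalso
            apply hl
            have := evec_supp he
            rwa [grp_eq hk.1 hk.2] at this
        · rw [hcout k hk, zero_mul]
      rw [h3, Pi.single_eq_of_ne]
      rintro rfl
      exact hl ⟨h1, h2⟩

end BMM
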