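import Pool.Agent.BMM.EA
import Pool.Agent.BMM.BB

/-!
MODULE FSt (difficulty 2). The start `stt l` of the piece of the index `l` in the piece layout.
`stt_succ`: let `m = grp l`. If `l + 1 < bo (m+1)` then `grp (l+1) = m` (`grp_eq`) and
`stt (l+1) = stt l + nn m`. Otherwise `l + 1 = bo (m+1)`, `grp (l+1) = m + 1` and
`stt (l+1) = off (m+1) = off m + LL m * nn m`, where `bo (m+1) = bo m + LL m`, i.e.
`l - bo m = LL m - 1`.
`pz_total`: `i` lies in `[off m, off (m+1))` for `m = grp l` (from `stt_succ` and the bound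
`(l - bo m + 1) * nn m ≤ LL m * nn m`), all other pieces vanish at `i` (`pz_supp`, the intervals are
disjoint by `off_strictMono`), `m < M` because `bo m ≤ l < bo M`, and
`(i - off m) / nn m = l - bo m`.
`sum_blocks`: induction on `b` (`Finset.sum_Ico_consecutive`, `Finset.sum_Ico_succ_top`).
`sum_stt`: `Finset.range_eq_Ico` and `sum_blocks` read with `v = stt`, `stt 0 = 0`,
`stt (bo M) = off M`.
-/

open Finset

namespace BMM

/-- Start of the piece of the index `l`. -/
noncomputable def stt (l : ℕ) : ℕ := off (grp l) + (l - bo (grp l)) * nn (grp l)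

theorem FSt_bo_succ (m : ℕ) : bo (m + 1) = bo m + LL m := rfl

theorem FSt_off_succ (m : ℕ) : off (m + 1) = off m + LL m * nn m := rfl

theorem stt_succ (l : ℕ) : stt (l + 1) = stt l + nn (grp l) := by
  obtain ⟨h1, h2⟩ := grp_spec l
  set m := grp l with hm
  by_cases h : l + 1 < bo (m + 1)
  · have hg : grp (l + 1) = m := grp_eq (by omega) h
    unfold stt
    rw [hg, ← hm]
    have e : l + 1 - bo m = (l - bo m) + 1 := by omega
    rw [e, Nat.add_mul, Nat.one_mul, Nat.add_assoc]
  · have e1 : l + 1 = bo (m + 1) := by omega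
    have h3 : bo (m + 1) < bo (m + 1 + 1) := bo_strictMono (Nat.lt_succ_self _)
    have hg : grp (l + 1) = m + 1 := grp_eq (by omega) (by omega)
    unfold stt
    rw [hg, ← hm]
    have e2 : l + 1 - bo (m + 1) = 0 := by omega
    have e3 := FSt_bo_succ m
    have e4 := LL_pos m
    have e5 : LL m = (l - bo m) + 1 := by omega
    rw [e2, Nat.zero_mul, Nat.add_zero, FSt_off_succ, e5, Nat.add_mul, Nat.one_mul, Nat.add_assoc]

theorem stt_bo (m : ℕ) : stt (bo m) = off m := by
  have hg : grp (bo m) = m := grp_eq le_rfl (bo_strictMono (Nat.lt_succ_self _))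
  unfold stt
  rw [hg, Nat.sub_self, Nat.zero_mul, Nat.add_zero]

theorem stt_lt (l : ℕ) : stt l < stt (l + 1) := by
  rw [stt_succ]
  have := nn_pos (grp l)
  omega

theorem stt_strictMono : StrictMono stt := strictMono_nat_of_lt_succ stt_lt

theorem FSt_range (l : ℕ) : off (grp l) ≤ stt l ∧ stt (l + 1) ≤ off (grp l + 1) := by
  obtain ⟨h1, h2⟩ := grp_spec l
  rw [stt_succ]
  have e3 := FSt_bo_succ (grp l)
  have h4 : (l - bo (grp l) + 1) * nn (grp l) ≤ LL (grp l) * nn (grp l) := Nat.mul_le_mul_right _ (by omega)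
  rw [Nat.add_mul, Nat.one_mul] at h4
  rw [FSt_off_succ]
  unfold stt
  constructor
  · exact Nat.le_add_right _ _
  · omega

theorem pz_total (β : ℕ → ℝ) {l M i : ℕ} (hl : l < bo M) (hi : i ∈ Ico (stt l) (stt (l + 1))) :
    ∑ m ∈ range M, pz β m i = ((mm (grp l) : ℝ) / (nn (grp l) : ℝ)) * β l := by
  obtain ⟨h1, h2⟩ := grp_spec l
  obtain ⟨h3, h4⟩ := FSt_range l
  rw [mem_Ico] at hi
  have hM : grp l < M := bo_strictMono.lt_iff_lt.mp (lt_of_le_of_lt h1 hl)
  rw [Finset.sum_eq_single (grp l)]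
  · have h5 := pz_apply β (grp l) (l := l) (s := i - stt l) (mem_Ico.mpr ⟨h1, h2⟩) (by
      have := stt_succ l
      omega)
    have e : off (grp l) + (l - bo (grp l)) * nn (grp l) + (i - stt l) = i := by
      have : off (grp l) + (l - bo (grp l)) * nn (grp l) = stt l := rfl
      omega
    rw [e] at h5
    exact h5
  · intro m _ hm
    by_contra hne
    obtain ⟨h5, h6⟩ := pz_supp hne
    rcases Nat.lt_or_gt_of_ne hm with h | h
    · have := off_strictMono.monotone (show m + 1 ≤ grp l from h)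
      omega
    · have := off_strictMono.monotone (show grp l + 1 ≤ m from h)
      omega
  · intro h
    exact (h (mem_range.mpr hM)).elim

theorem pz_total_zero (β : ℕ → ℝ) {M i : ℕ} (hi : off M ≤ i) :
    ∑ m ∈ range M, pz β m i = 0 := by
  refine Finset.sum_eq_zero fun m hm => ?_
  by_contra hne
  obtain ⟨h5, h6⟩ := pz_supp hne
  have := off_strictMono.monotone (show m + 1 ≤ M from mem_range.mp hm)
  omega

theorem sum_blocks {v : ℕ → ℕ} (hv : StrictMono v) (F : ℕ → ℝ) {a b : ℕ} (hab : a ≤ b) :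
    ∑ i ∈ Ico a b, ∑ s ∈ Ico (v i) (v (i + 1)), F s = ∑ s ∈ Ico (v a) (v b), F s := by
  induction b, hab using Nat.le_induction with
  | base => simp
  | succ b hab ih =>
    rw [Finset.sum_Ico_succ_top hab, ih,
      Finset.sum_Ico_consecutive _ (hv.monotone hab) (hv.monotone (Nat.le_succ b))]

theorem sum_stt (F : ℕ → ℝ) (M : ℕ) :
    ∑ i ∈ range (off M), F i = ∑ l ∈ range (bo M), ∑ i ∈ Ico (stt l) (stt (l + 1)), F i := by
  have h0 : stt 0 = 0 := stt_bo 0
  rw [Finset.range_eq_Ico, Finset.range_eq_Ico, sum_blocks stt_strictMono F (Nat.zero_le _), h0, stt_bo]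

end BMM
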