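import Pool.Agent.BMM.EC
import Pool.Agent.BMM.FSt
import Pool.Agent.EBM.Bas

/-!
MODULE FEa (difficulty 3). Coefficients of the blocks.
`cmb_support`: the summands outside the support vanish. `cmb_comb`: `comb_apply`, exchange of two
finite sums (write both sides over a common `range M`, e.g. with `cmb_support`).
`cmb_ne`: `cmb_support` and `cmb_eq_zero`.
`dd_apply_of`: `Finset.sum_apply`, `Finsupp.single_apply`, `hu.injective`.
`dd_block`: `dd l ≠ 0` because there is an `s` in `Ico (v (stt l)) (v (stt l + 1))` with `cf s ≠ 0`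
(hypothesis `h0`), `v (stt l + 1) ≤ v (stt (l+1))` and `rho l > 0`; the support of `dd l` is contained
in the image of `Ico (v (stt l)) (v (stt (l+1)))` under the strictly increasing map `u`.
`dd_cmb`: `cmb_comb` twice, or directly: `comb (dd u cf v) b = ∑ l ∈ range (bo M), b l • dd u cf v l`,
`comb c` is linear and maps `single k r` to `r • c k`.
-/

open Finset Finsupp Pool.Agent.EBM

namespace BMM

theorem FEa_bound (a : ℕ →₀ ℝ) : ∃ M, ∀ i, M ≤ i → a i = 0 := by
  refine ⟨a.support.sup id + 1, fun i hi => ?_⟩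
  by_contra h
  have h1 : i ∈ a.support := Finsupp.mem_support_iff.mpr h
  have h2 : i ≤ a.support.sup id := Finset.le_sup (f := id) h1
  omega

theorem FEa_cmb_subset (a : ℕ →₀ ℝ) {s : Finset ℕ} (hs : a.support ⊆ s) :
    cmb a.support a = cmb s a := by
  funext i
  unfold cmb
  apply Finset.sum_subset hs
  intro k _ hk
  rw [Finsupp.notMem_support_iff.mp hk, zero_mul]

/-- The sum may be taken over any range containing the support. -/
theorem cmb_support (a : ℕ →₀ ℝ) {M : ℕ} (hM : ∀ i, M ≤ i → a i = 0) :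
    cmb a.support a = cmb (range M) a := by
  apply FEa_cmb_subset
  intro k hk
  rw [Finset.mem_range]
  by_contra h
  exact (Finsupp.mem_support_iff.mp hk) (hM k (not_lt.mp h))

/-- `cmb` is linear in the coefficients. -/
theorem cmb_comb (c : ℕ → (ℕ →₀ ℝ)) (a : ℕ →₀ ℝ) :
    cmb (comb c a).support (comb c a) = fun i => ∑ k ∈ a.support, a k * cmb (c k).support (c k) i := by
  classical
  have h1 : (comb c a).support ⊆ (comb c a).support ∪ a.support.biUnion (fun k => (c k).support) :=
    Finset.subset_union_left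
  have h2 : ∀ k ∈ a.support, (c k).support ⊆
      (comb c a).support ∪ a.support.biUnion (fun k => (c k).support) := fun k hk =>
    (Finset.subset_biUnion_of_mem (fun k => (c k).support) hk).trans Finset.subset_union_right
  rw [FEa_cmb_subset _ h1]
  funext i
  have h3 : ∑ k ∈ a.support, a k * cmb (c k).support (c k) i =
      ∑ k ∈ a.support, a k * cmb ((comb c a).support ∪ a.support.biUnion (fun k => (c k).support)) (c k) i := by
    refine Finset.sum_congr rfl fun k hk => ?_
    rw [FEa_cmb_subset _ (h2 k hk)]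
  rw [h3]
  unfold cmb
  simp only [comb_apply, Finset.mul_sum, Finset.sum_mul]
  rw [Finset.sum_comm]
  refine Finset.sum_congr rfl fun k _ => Finset.sum_congr rfl fun j _ => ?_
  ring

theorem cmb_ne {a : ℕ →₀ ℝ} (ha : a ≠ 0) : cmb a.support a ≠ fun _ => 0 := by
  intro h
  obtain ⟨M, hM⟩ := FEa_bound a
  rw [cmb_support a hM] at h
  apply ha
  ext k
  by_cases hk : k < M
  · exact cmb_eq_zero h k hk
  · exact hM k (not_lt.mp hk)

/-- The weight of the piece of the index `l`. -/
noncomputable def rhol (l : ℕ) : ℝ := √((mm (grp l) : ℝ) / (nn (grp l) : ℝ))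

theorem rhol_pos (l : ℕ) : 0 < rhol l := by
  unfold rhol
  apply Real.sqrt_pos.mpr
  have h1 : (8 : ℝ) ≤ (mm (grp l) : ℝ) := by exact_mod_cast mm_ge (grp l)
  have h2 : (1 : ℝ) ≤ (nn (grp l) : ℝ) := by exact_mod_cast nn_pos (grp l)
  exact div_pos (by linarith) (by linarith)

/-- The coefficients of the blocks equivalent to the unit vectors. -/
noncomputable def dd (u : ℕ → ℕ) (cf : ℕ → ℝ) (v : ℕ → ℕ) (l : ℕ) : ℕ →₀ ℝ :=
  ∑ s ∈ Ico (v (stt l)) (v (stt (l + 1))), single (u s) (rhol l * √(cf s))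

theorem dd_apply_of {u : ℕ → ℕ} (hu : StrictMono u) (cf : ℕ → ℝ) {v : ℕ → ℕ} {l s : ℕ}
    (hs : s ∈ Ico (v (stt l)) (v (stt (l + 1)))) : dd u cf v l (u s) = rhol l * √(cf s) := by
  unfold dd
  rw [Finsupp.finsetSum_apply, Finset.sum_eq_single s]
  · exact Finsupp.single_eq_same
  · intro t _ ht
    exact Finsupp.single_eq_of_ne (fun h => ht (hu.injective h.symm))
  · intro h
    exact absurd hs h

theorem dd_support {u : ℕ → ℕ} (cf : ℕ → ℝ) {v : ℕ → ℕ} {l k : ℕ}
    (hk : k ∈ (dd u cf v l).support) : ∃ s ∈ Ico (v (stt l)) (v (stt (l + 1))), k = u s := by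
  by_contra hcon
  push Not at hcon
  apply Finsupp.mem_support_iff.mp hk
  unfold dd
  rw [Finsupp.finsetSum_apply]
  refine Finset.sum_eq_zero fun s hs => ?_
  exact Finsupp.single_eq_of_ne (hcon s hs)

theorem dd_block {u : ℕ → ℕ} (hu : StrictMono u) {cf : ℕ → ℝ} (hcf : ∀ s, 0 ≤ cf s) {v : ℕ → ℕ}
    (hv : StrictMono v) (h0 : ∀ i, ∃ s ∈ Ico (v i) (v (i + 1)), cf s ≠ 0) :
    Block (dd u cf v) := by
  constructor
  · intro l hl
    obtain ⟨s, hs, hs0⟩ := h0 (stt l)
    have hs' : s ∈ Ico (v (stt l)) (v (stt (l + 1))) := by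
      rw [Finset.mem_Ico] at hs ⊢
      exact ⟨hs.1, lt_of_lt_of_le hs.2 (hv.monotone (stt_lt l))⟩
    have h1 := dd_apply_of hu cf hs'
    rw [hl] at h1
    have h2 : 0 < rhol l * √(cf s) :=
      mul_pos (rhol_pos l) (Real.sqrt_pos.mpr (lt_of_le_of_ne (hcf s) (Ne.symm hs0)))
    rw [← h1] at h2
    exact lt_irrefl _ h2
  · intro l i hi j hj
    obtain ⟨s, hs, rfl⟩ := dd_support cf hi
    obtain ⟨t, ht, rfl⟩ := dd_support cf hj
    rw [Finset.mem_Ico] at hs ht
    exact hu (lt_of_lt_of_le hs.2 ht.1)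

theorem dd_cmb (c : ℕ → (ℕ →₀ ℝ)) (u : ℕ → ℕ) (cf : ℕ → ℝ) (v : ℕ → ℕ) (b : ℕ →₀ ℝ) {M : ℕ}
    (hM : ∀ l, bo M ≤ l → b l = 0) :
    cmb (comb c (comb (dd u cf v) b)).support (comb c (comb (dd u cf v) b)) = fun i =>
      ∑ l ∈ range (bo M), ∑ s ∈ Ico (v (stt l)) (v (stt (l + 1))),
        (b l * rhol l * √(cf s)) * cmb (c (u s)).support (c (u s)) i := by
  rw [cmb_comb]
  funext i
  have h1 : ∑ k ∈ (comb (dd u cf v) b).support, (comb (dd u cf v) b) k * cmb (c k).support (c k) i =
      Finsupp.linearCombination ℝ (fun k => cmb (c k).support (c k) i) (comb (dd u cf v) b) := by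
    rw [Finsupp.linearCombination_apply]
    rfl
  have h2 : comb (dd u cf v) b = ∑ l ∈ range (bo M), b l • dd u cf v l := by
    rw [comb_eq_sum]
    apply Finset.sum_subset
    · intro l hl
      rw [Finset.mem_range]
      by_contra h
      exact (Finsupp.mem_support_iff.mp hl) (hM l (not_lt.mp h))
    · intro l _ hl
      rw [Finsupp.notMem_support_iff.mp hl, zero_smul]
  rw [h1, h2, map_sum]
  refine Finset.sum_congr rfl fun l _ => ?_
  rw [map_smul]
  unfold dd
  rw [map_sum, smul_eq_mul, Finset.mul_sum]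
  refine Finset.sum_congr rfl fun s _ => ?_
  rw [Finsupp.linearCombination_single, smul_eq_mul]
  ring

end BMM
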