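import Pool.Agent.BMM.KD

open Finset

namespace BMM

theorem JC_sum_le {κ : ℕ} {w : ℕ → ℕ → ℝ} (hw : ∀ r, Fsn (w r)) (S : Set ℕ) (N : ℕ) :
    NN κ (S.indicator (fun l => ∑ r ∈ range N, w r l)) ≤
      ∑ r ∈ range N, NN κ (S.indicator (w r)) := by
  induction N with
  | zero =>
    have : (S.indicator (fun l => ∑ r ∈ range 0, w r l)) = fun _ => 0 := by
      funext l
      simp
    rw [this, NN_zero]
    simp
  | succ n ih =>
    have h1 : Fsn (fun l => ∑ r ∈ range n, w r l) := Fsn_sum (range n) (fun t _ => hw t)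
    have : (S.indicator (fun l => ∑ r ∈ range (n + 1), w r l)) =
        fun l => (S.indicator (fun l => ∑ r ∈ range n, w r l)) l + (S.indicator (w n)) l := by
      funext l
      by_cases hl : l ∈ S
      · simp [hl, sum_range_succ]
      · simp [hl]
    rw [this, sum_range_succ]
    exact (NN_add_le (Fsn_ind h1 S) (Fsn_ind (hw n) S)).trans (by linarith)

/-- Sums of norms of pieces of a sum of `N` successive vectors of norm at most one. -/
theorem avg_r2 {κ N : ℕ} {w : ℕ → ℕ → ℝ} (hw : ∀ r, Fsn (w r))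
    (hs : ∀ r t, r < t → t < N → Before (w r) (w t)) (h1 : ∀ r < N, NN κ (w r) ≤ 1)
    {ι : Type} [Fintype ι] (E : ι → Set ℕ) (hE : SepSet E) :
    ∑ t, NN κ ((E t).indicator (fun l => ∑ r ∈ range N, w r l)) ≤
      (N : ℝ) + (Fintype.card ι : ℝ) := by
  classical
  set P : Finset (ι × ℕ) := ((univ : Finset ι) ×ˢ range N).filter
    (fun p => ∃ l ∈ E p.1, w p.2 l ≠ 0) with hP
  have hstep1 : ∑ t, NN κ ((E t).indicator (fun l => ∑ r ∈ range N, w r l)) ≤
      ∑ t, ∑ r ∈ range N, NN κ ((E t).indicator (w r)) :=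
    sum_le_sum (fun t _ => JC_sum_le hw (E t) N)
  have hstep2 : ∑ t, ∑ r ∈ range N, NN κ ((E t).indicator (w r)) ≤
      ∑ p ∈ (univ : Finset ι) ×ˢ range N, (if ∃ l ∈ E p.1, w p.2 l ≠ 0 then (1 : ℝ) else 0) := by
    rw [sum_product]
    apply sum_le_sum
    intro t _
    apply sum_le_sum
    intro r hr
    by_cases hm : ∃ l ∈ E t, w r l ≠ 0
    · simp only [hm, if_true]
      exact (NN_ind_le (hw r) (E t)).trans (h1 r (mem_range.1 hr))
    · simp only [hm, if_false]
      have : (E t).indicator (w r) = fun _ => 0 := by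
        funext l
        by_cases hl : l ∈ E t
        · have : w r l = 0 := by
            by_contra hne
            exact hm ⟨l, hl, hne⟩
          simp [this]
        · simp [hl]
      rw [this, NN_zero]
  have hstep3 : ∑ p ∈ (univ : Finset ι) ×ˢ range N,
      (if ∃ l ∈ E p.1, w p.2 l ≠ 0 then (1 : ℝ) else 0) = (P.card : ℝ) := by
    rw [← sum_filter, sum_const, nsmul_eq_mul, mul_one]
  let φ : ι × ℕ → ι ⊕ ℕ := fun p =>
    if ∃ x, w p.2 x ≠ 0 ∧ ∀ y ∈ E p.1, x < y ∧ ∃ t', x ∈ E t' then Sum.inl p.1 else Sum.inr p.2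
  have hcard : P.card ≤ ((univ : Finset ι).disjSum (range N)).card := by
    apply card_le_card_of_injOn φ
    · intro p hp
      have hp' : p ∈ P := hp
      rw [hP, mem_filter, mem_product] at hp'
      show φ p ∈ _
      simp only [φ]
      split_ifs
      · simp
      · simpa using hp'.1.2
    · rintro ⟨t, r⟩ hp ⟨t', r'⟩ hp' heq
      have hp1 : (t, r) ∈ P := hp
      have hp2 : (t', r') ∈ P := hp'
      rw [hP, mem_filter, mem_product] at hp1 hp2
      obtain ⟨⟨-, hr⟩, y, hy, hwy⟩ := hp1
      obtain ⟨⟨-, hr'⟩, y', hy', hwy'⟩ := hp2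
      simp only [mem_range] at hr hr'
      simp only at hy hwy hy' hwy'
      simp only [φ] at heq
      split_ifs at heq with c1 c2 c2
      · obtain ⟨x, hx, hx2⟩ := c1
        obtain ⟨x', hx', hx2'⟩ := c2
        have htt : t = t' := Sum.inl.inj heq
        subst htt
        rcases lt_trichotomy r r' with h | h | h
        · have e1 := hs r r' h hr' y x' hwy hx'
          have e2 := (hx2' y hy).1
          omega
        · rw [h]
        · have e1 := hs r' r h hr y' x hwy' hx
          have e2 := (hx2 y' hy').1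
          omega
      · have hrr : r = r' := Sum.inr.inj heq
        subst hrr
        by_contra hne
        have htt : t ≠ t' := fun h => hne (by rw [h])
        rcases hE t t' htt with h | h
        · exact c2 ⟨y, hwy, fun z hz => ⟨h y hy z hz, t, hy⟩⟩
        · exact c1 ⟨y', hwy', fun z hz => ⟨h z hz y' hy', t', hy'⟩⟩
  have hc2 : ((univ : Finset ι).disjSum (range N)).card = Fintype.card ι + N := by
    rw [card_disjSum, card_range]
    rfl
  rw [hc2] at hcard
  have : (P.card : ℝ) ≤ (N : ℝ) + (Fintype.card ι : ℝ) := by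
    have : (P.card : ℝ) ≤ ((Fintype.card ι + N : ℕ) : ℝ) := by exact_mod_cast hcard
    push_cast at this
    linarith
  linarith

end BMM
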