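import Pool.Agent.BMM.JB
import Pool.Agent.BMM.JC

open Finset

namespace BMM

/-- Blocks of a sequence. -/
noncomputable def blk (x : ℕ → ℕ → ℝ) (c : ℕ → ℝ) (s t : ℕ) : ℕ → ℝ :=
  fun l => ∑ r ∈ Ico s t, c r * x r l

/-- The properties of an average: (R2) with constant `6` and a norming functional. -/
def IsAvg (κ : ℕ) (z : ℕ → ℝ) : Prop :=
  (∀ (ι : Type) [Fintype ι] (E : ι → Set ℕ), SepSet E → Fintype.card ι ≤ TT κ →
      ∑ t, NN κ ((E t).indicator z) ≤ 6) ∧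
    ∃ g, KS κ g ∧ ∃ M, 1 ≤ ∑ l ∈ range M, g l * z l

theorem JD_tele (f : ℕ → ℝ) (u : ℕ → ℕ) (hu : ∀ r, u r < u (r + 1)) (N : ℕ) :
    ∑ r ∈ range N, ∑ s ∈ Ico (u r) (u (r + 1)), f s = ∑ s ∈ Ico (u 0) (u N), f s := by
  induction N with
  | zero => simp
  | succ n ih =>
    rw [Finset.sum_range_succ, ih]
    have hm : StrictMono u := strictMono_nat_of_lt_succ hu
    exact Finset.sum_Ico_consecutive f (hm.monotone (Nat.zero_le n)) (hu n).le

theorem JD_before {x : ℕ → ℕ → ℝ} (hs : ∀ r t, r < t → Before (x r) (x t)) (c : ℕ → ℝ)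
    {A B C D : ℕ} (hBC : B ≤ C) :
    Before (fun l => ∑ s ∈ Ico A B, c s * x s l) (fun l => ∑ s ∈ Ico C D, c s * x s l) := by
  intro i j hi hj
  obtain ⟨s, hs1, hs2⟩ := Finset.exists_ne_zero_of_sum_ne_zero hi
  obtain ⟨t, ht1, ht2⟩ := Finset.exists_ne_zero_of_sum_ne_zero hj
  rw [Finset.mem_Ico] at hs1 ht1
  exact hs s t (by omega) i j (right_ne_zero_of_mul hs2) (right_ne_zero_of_mul ht2)

theorem avg_exists (κ s₀ : ℕ) {x : ℕ → ℕ → ℝ} (hx : ∀ r, Fsn (x r)) (h0 : ∀ r, x r ≠ 0)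
    (hs : ∀ r t, r < t → Before (x r) (x t)) :
    ∃ (c : ℕ → ℝ) (s₁ : ℕ), s₀ < s₁ ∧ (∀ s, 0 ≤ c s) ∧ IsAvg κ (blk x c s₀ s₁) := by
  classical
  obtain ⟨b, hb⟩ : ∃ b : ℕ, b = TT κ := ⟨_, rfl⟩
  obtain ⟨N, hN⟩ : ∃ N : ℕ, N = 2 ^ b := ⟨_, rfl⟩
  have hbN : TT κ ≤ N := by
    rw [hN, ← hb]
    exact Nat.lt_two_pow_self.le
  have hN0 : 0 < N := by rw [hN]; positivity
  have hNR : (0 : ℝ) < (N : ℝ) := by exact_mod_cast hN0
  have hNc : (2 : ℝ) ^ b = (N : ℝ) := by rw [hN]; push_cast; rfl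
  obtain ⟨c', u, hc', hu, hu1, hu2⟩ := james (κ := κ) (b := b) (x := fun r => x (s₀ + r))
    (fun r => hx _) (fun r => h0 _) (fun r t hrt => hs _ _ (by omega))
  have hum : StrictMono u := strictMono_nat_of_lt_succ hu
  obtain ⟨w, hw⟩ : ∃ w : ℕ → ℕ → ℝ, w = fun r l =>
    ∑ s ∈ Ico (u r) (u (r + 1)), c' s * x (s₀ + s) l := ⟨_, rfl⟩
  have hwF : ∀ r, Fsn (w r) := by
    intro r
    rw [hw]
    exact Fsn_sum (Ico (u r) (u (r + 1))) (fun t _ => Fsn_smul (hx (s₀ + t)) (hc' t))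
  have hwS : ∀ r t, r < t → t < N → Before (w r) (w t) := by
    intro r t hrt _
    rw [hw]
    exact JD_before (x := fun r => x (s₀ + r)) (fun r t hrt => hs _ _ (by omega)) c'
      (hum.monotone (by omega))
  have hw1 : ∀ r < N, NN κ (w r) ≤ 1 := by
    intro r hr
    have := hu1 r (by rw [← hN]; exact hr)
    rw [hw]
    exact this
  have hwsum : (fun l => ∑ r ∈ range N, w r l) =
      fun l => ∑ s ∈ Ico (u 0) (u N), c' s * x (s₀ + s) l := by
    funext l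
    rw [hw]
    exact JD_tele (fun s => c' s * x (s₀ + s) l) u hu N
  obtain ⟨c, hc⟩ : ∃ c : ℕ → ℝ, c = fun s =>
    if s₀ + u 0 ≤ s then (3 / (N : ℝ)) * c' (s - s₀) else 0 := ⟨_, rfl⟩
  have hblk : blk x c s₀ (s₀ + u N) = fun l => (3 / (N : ℝ)) * ∑ r ∈ range N, w r l := by
    have h1 : ∀ l, (∑ r ∈ range N, w r l) = ∑ s ∈ Ico (u 0) (u N), c' s * x (s₀ + s) l :=
      fun l => congrFun hwsum l
    funext l
    rw [h1]
    unfold blk
    have h2 : s₀ ≤ s₀ + u 0 := by omega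
    have h3 : s₀ + u 0 ≤ s₀ + u N := by
      have := hum.monotone (Nat.zero_le N)
      omega
    rw [← Finset.sum_Ico_consecutive _ h2 h3]
    have h4 : ∑ i ∈ Ico s₀ (s₀ + u 0), c i * x i l = 0 := by
      apply Finset.sum_eq_zero
      intro i hi
      rw [Finset.mem_Ico] at hi
      rw [hc]
      simp only
      rw [if_neg (by omega), zero_mul]
    rw [h4, zero_add, Finset.mul_sum]
    have h5 : Ico (s₀ + u 0) (s₀ + u N) = (Ico (u 0) (u N)).map (addLeftEmbedding s₀) := by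
      rw [Finset.map_add_left_Ico]
    rw [h5, Finset.sum_map]
    apply Finset.sum_congr rfl
    intro s hs'
    rw [Finset.mem_Ico] at hs'
    simp only [addLeftEmbedding_apply]
    rw [hc]
    simp only
    rw [if_pos (by omega), Nat.add_sub_cancel_left]
    ring
  have hWF : Fsn (fun l => ∑ r ∈ range N, w r l) := Fsn_sum (range N) (fun t _ => hwF t)
  have h3N : (0 : ℝ) ≤ 3 / (N : ℝ) := by positivity
  refine ⟨c, s₀ + u N, ?_, ?_, ?_, ?_⟩
  · have := hum hN0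
    omega
  · intro s
    rw [hc]
    simp only
    split_ifs
    · exact mul_nonneg h3N (hc' _)
    · exact le_refl _
  · intro ι _ E hE hcard
    have h6 := avg_r2 (κ := κ) (N := N) hwF hwS hw1 E hE
    have h7 : ∀ t, NN κ ((E t).indicator (blk x c s₀ (s₀ + u N))) =
        (3 / (N : ℝ)) * NN κ ((E t).indicator (fun l => ∑ r ∈ range N, w r l)) := by
      intro t
      rw [hblk, ← NN_smul (Fsn_ind hWF (E t)) h3N]
      congr 1
      funext l
      by_cases hl : l ∈ E t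
      · simp [Set.indicator_of_mem hl]
      · simp [Set.indicator_of_notMem hl]
    calc ∑ t, NN κ ((E t).indicator (blk x c s₀ (s₀ + u N)))
        = (3 / (N : ℝ)) * ∑ t, NN κ ((E t).indicator (fun l => ∑ r ∈ range N, w r l)) := by
          rw [Finset.mul_sum]
          exact Finset.sum_congr rfl (fun t _ => h7 t)
      _ ≤ (3 / (N : ℝ)) * ((N : ℝ) + (Fintype.card ι : ℝ)) := mul_le_mul_of_nonneg_left h6 h3N
      _ ≤ (3 / (N : ℝ)) * ((N : ℝ) + (N : ℝ)) := by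
          apply mul_le_mul_of_nonneg_left _ h3N
          have : (Fintype.card ι : ℝ) ≤ (N : ℝ) := by exact_mod_cast hcard.trans hbN
          linarith
      _ = 6 := by field_simp; norm_num
  · have h8 : (1 : ℝ) < NN κ (blk x c s₀ (s₀ + u N)) := by
      rw [hblk, NN_smul hWF h3N]
      have h9 : (N : ℝ) / 2 < NN κ (fun l => ∑ r ∈ range N, w r l) := by
        rw [hwsum, ← hNc]
        rw [hN]
        exact hu2
      have h10 := mul_lt_mul_of_pos_left h9 (by positivity : (0 : ℝ) < 3 / (N : ℝ))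
      have h11 : 3 / (N : ℝ) * ((N : ℝ) / 2) = 3 / 2 := by field_simp
      linarith
    obtain ⟨f, hf, M, hM⟩ := exists_lt_NN h8
    exact ⟨f, hf, M, hM.le⟩

end BMM
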