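import Pool.Agent.BMM.FG
import Pool.Agent.BMM.FSt
import Pool.Agent.BMM.FEa
import Pool.Agent.BMM.JD

/-!
MODULE FEb (difficulty 3). The group norms of a combination of the blocks.
Apply `gn_disj` with `ι = ℕ × ℕ` (or the sigma type) and the finite set of the pairs `(l, s)`,
`l < bo M`, `s ∈ Ico (v (stt l)) (v (stt (l+1)))` (`Finset.sum_sigma'`), `w (l, s) = Y s`. Two different
pairs have different `s` (the intervals for different `l` are disjoint, `stt_strictMono`, `hv`), and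
then one of the group norms vanishes (`hY`). So
  `gn m G ^ 2 = ∑ l ∈ range (bo M), ∑ s ∈ Ico .. .., (b l * rhol l * √(cf s))^2 * gn m (Y s)^2`
  `= ∑ l ∈ range (bo M), (b l)^2 * (rhol l)^2 * ∑ s ∈ Ico (v (stt l)) (v (stt (l+1))), cf s * gn m (Y s)^2`
  `= ∑ l ∈ range (bo M), ∑ i ∈ Ico (stt l) (stt (l+1)), ((b l)^2 * (rhol l)^2) * blk x cf (v i) (v (i+1)) m`
(`sum_blocks` for the function `s ↦ cf s * gn m (Y s)^2`), where `x s m = gn m (Y s)^2`; use `pz_total` for
`(b l)^2 * (rhol l)^2 = ∑ m' ∈ range M, pz (fun j => (b j)^2) m' i` for `i ∈ Ico (stt l) (stt (l+1))`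
(`(rhol l)^2 = mm/nn` by `Real.sq_sqrt`), and `sum_stt`.
-/

open Finset Finsupp Pool.Agent.EBM

namespace BMM

theorem gn_blocks {Y : ℕ → ℕ → ℝ}
    (hY : ∀ m, ∀ r t, r < t → gn m (Y r) = 0 ∨ gn m (Y t) = 0) {cf : ℕ → ℝ}
    (hcf : ∀ s, 0 ≤ cf s) {v : ℕ → ℕ} (hv : StrictMono v) (b : ℕ → ℝ) (M m : ℕ) :
    gn m (fun i => ∑ l ∈ range (bo M), ∑ s ∈ Ico (v (stt l)) (v (stt (l + 1))),
        (b l * rhol l * √(cf s)) * Y s i) ^ 2 =
      ∑ i ∈ range (off M), (∑ m' ∈ range M, pz (fun j => (b j) ^ 2) m' i) *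
        blk (fun s m => (gn m (Y s)) ^ 2) cf (v i) (v (i + 1)) m := by
  have hrel : (fun i => ∑ l ∈ range (bo M), ∑ s ∈ Ico (v (stt l)) (v (stt (l + 1))),
        (b l * rhol l * √(cf s)) * Y s i) =
      fun i => ∑ p ∈ (range (bo M)).sigma (fun l => Ico (v (stt l)) (v (stt (l + 1)))),
        (b p.1 * rhol p.1 * √(cf p.2)) * Y p.2 i := by
    funext i
    rw [Finset.sum_sigma]
  rw [hrel, gn_disj m ((range (bo M)).sigma (fun l => Ico (v (stt l)) (v (stt (l + 1)))))
    (fun p : (_ : ℕ) × ℕ => Y p.2) (fun p => b p.1 * rhol p.1 * √(cf p.2))]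
  · rw [Finset.sum_sigma, sum_stt]
    apply Finset.sum_congr rfl
    intro l hl
    rw [Finset.mem_range] at hl
    have h1 : ∀ i ∈ Ico (stt l) (stt (l + 1)), (∑ m' ∈ range M, pz (fun j => (b j) ^ 2) m' i) *
        blk (fun s m => (gn m (Y s)) ^ 2) cf (v i) (v (i + 1)) m =
        (((mm (grp l) : ℝ) / (nn (grp l) : ℝ)) * (b l) ^ 2) *
          ∑ s ∈ Ico (v i) (v (i + 1)), cf s * gn m (Y s) ^ 2 := by
      intro i hi
      rw [pz_total _ hl hi]
      rfl
    rw [Finset.sum_congr rfl h1, ← Finset.mul_sum,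
      sum_blocks hv (fun s => cf s * gn m (Y s) ^ 2) (stt_lt l).le, Finset.mul_sum]
    apply Finset.sum_congr rfl
    intro s _
    have h2 : rhol l ^ 2 = (mm (grp l) : ℝ) / (nn (grp l) : ℝ) := by
      unfold rhol
      rw [Real.sq_sqrt]
      positivity
    have h3 : √(cf s) ^ 2 = cf s := Real.sq_sqrt (hcf s)
    show (b l * rhol l * √(cf s)) ^ 2 * gn m (Y s) ^ 2 = _
    rw [mul_pow, mul_pow, h2, h3]
    ring
  · rintro ⟨l, s⟩ hp ⟨l', s'⟩ hp' hne
    rw [Finset.mem_sigma] at hp hp'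
    simp only [Finset.mem_Ico, Finset.mem_range] at hp hp'
    have hss : s ≠ s' := by
      rintro rfl
      have hl : l ≠ l' := by
        rintro rfl
        exact hne rfl
      rcases lt_or_gt_of_ne hl with h | h
      · have := hv.monotone (stt_strictMono.monotone (Nat.succ_le_of_lt h))
        simp only [Nat.succ_eq_add_one] at this
        omega
      · have := hv.monotone (stt_strictMono.monotone (Nat.succ_le_of_lt h))
        simp only [Nat.succ_eq_add_one] at this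
        omega
    rcases lt_or_gt_of_ne hss with h | h
    · exact hY m s s' h
    · exact (hY m s' s h).symm

end BMM
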