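import Pool.Agent.BMM.JE
import Pool.Agent.BMM.RE

open Finset

namespace BMM

theorem JF_blk_nonneg {x : ℕ → ℕ → ℝ} (hx : ∀ r, Fsn (x r)) {c : ℕ → ℝ} (hc : ∀ s, 0 ≤ c s)
    (s t l : ℕ) : 0 ≤ blk x c s t l :=
  Finset.sum_nonneg (fun r _ => mul_nonneg (hc r) ((hx r).1 l))

theorem JF_blk_fsn {x : ℕ → ℕ → ℝ} (hx : ∀ r, Fsn (x r)) {c : ℕ → ℝ} (hc : ∀ s, 0 ≤ c s)
    (s t : ℕ) : Fsn (blk x c s t) := by
  have h := Fsn_sum (Ico s t) (z := fun r => fun l => c r * x r l)
    (fun r _ => Fsn_smul (hx r) (hc r))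
  exact h

theorem JF_blk_supp {x : ℕ → ℕ → ℝ} {c : ℕ → ℝ} {s t l : ℕ} (h : blk x c s t l ≠ 0) :
    ∃ r, s ≤ r ∧ r < t ∧ x r l ≠ 0 := by
  obtain ⟨r, hr, hne⟩ := Finset.exists_ne_zero_of_sum_ne_zero h
  rw [Finset.mem_Ico] at hr
  exact ⟨r, hr.1, hr.2, right_ne_zero_of_mul hne⟩

/-- Theorem A: every sequence of successive nonzero vectors has a block sequence equivalent to the
unit vector basis. -/
theorem thmA {x : ℕ → ℕ → ℝ} (hx : ∀ r, Fsn (x r)) (h0 : ∀ r, x r ≠ 0)
    (hs : ∀ r t, r < t → Before (x r) (x t)) :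
    ∃ (c : ℕ → ℝ) (u : ℕ → ℕ), StrictMono u ∧ (∀ s, 0 ≤ c s) ∧
      (∀ i, blk x c (u i) (u (i + 1)) ≠ 0) ∧
      ∀ β : ℕ → ℝ, (∀ i, 0 ≤ β i) → ∀ M,
        NN 0 (fun i => if i < M then β i else 0) ≤
          NN 0 (fun l => ∑ i ∈ range M, β i * blk x c (u i) (u (i + 1)) l) ∧
        NN 0 (fun l => ∑ i ∈ range M, β i * blk x c (u i) (u (i + 1)) l) ≤
          25 * NN 0 (fun i => if i < M then β i else 0) := by
  obtain ⟨κ, u, c, hκ, hu, hc, havg, hsum⟩ := ris_seq hx h0 hs
  have hne : ∀ r, ∃ l, x r l ≠ 0 := by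
    intro r
    by_contra hcon
    push_neg at hcon
    exact h0 r (funext hcon)
  have hbx : ∀ i, x (u i) (sInf {l | x (u i) l ≠ 0}) ≠ 0 := fun i => Nat.sInf_mem (hne (u i))
  obtain ⟨b, hb⟩ : ∃ b : ℕ → ℕ, b = fun i => sInf {l | x (u i) l ≠ 0} := ⟨_, rfl⟩
  have hbx' : ∀ i, x (u i) (b i) ≠ 0 := by
    intro i
    rw [hb]
    exact hbx i
  have hbmin : ∀ i l, x (u i) l ≠ 0 → b i ≤ l := by
    intro i l hl
    rw [hb]
    exact Nat.sInf_le hl
  have hbmono : Monotone b := by
    apply monotone_nat_of_le_succ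
    intro i
    exact (hs (u i) (u (i + 1)) (hu (Nat.lt_succ_self i)) (b i) (b (i + 1)) (hbx' i)
      (hbx' (i + 1))).le
  have hsupp : ∀ i l, blk x c (u i) (u (i + 1)) l ≠ 0 → b i ≤ l ∧ l < b (i + 1) := by
    intro i l hl
    obtain ⟨r, hr1, hr2, hr3⟩ := JF_blk_supp hl
    refine ⟨?_, hs r (u (i + 1)) hr2 l (b (i + 1)) hr3 (hbx' (i + 1))⟩
    rcases eq_or_lt_of_le hr1 with h | h
    · rw [← h] at hr3
      exact hbmin i l hr3
    · exact (hs (u i) r h (b i) l (hbx' i) hr3).le
  refine ⟨c, u, hu, hc, ?_, ?_⟩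
  · intro i hzero
    obtain ⟨-, g, -, M, hM⟩ := havg i
    rw [hzero] at hM
    simp at hM
    linarith
  · intro β hβ M
    constructor
    · refine ris_lower (b := b) (z := fun i l => β i * blk x c (u i) (u (i + 1)) l) hbmono
        (fun i => Fsn_smul (JF_blk_fsn hx hc _ _) (hβ i)) ?_ hβ ?_ M
      · intro i l hl
        exact hsupp i l (right_ne_zero_of_mul hl)
      · intro i ε hε
        obtain ⟨-, g, hg, M', hM'⟩ := havg i
        refine ⟨g, KS_anti (Nat.zero_le _) hg, ?_⟩
        have h1 : ∑ l ∈ range M', g l * blk x c (u i) (u (i + 1)) l ≤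
            ∑ l ∈ Ico (b i) (b (i + 1)), g l * blk x c (u i) (u (i + 1)) l := by
          have h2 : ∑ l ∈ range M', g l * blk x c (u i) (u (i + 1)) l =
              ∑ l ∈ range M' with l ∈ Ico (b i) (b (i + 1)),
                g l * blk x c (u i) (u (i + 1)) l := by
            rw [Finset.sum_filter]
            apply Finset.sum_congr rfl
            intro l _
            split_ifs with h
            · rfl
            · have : blk x c (u i) (u (i + 1)) l = 0 := by
                by_contra hcon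
                exact h (Finset.mem_Ico.2 (hsupp i l hcon))
              rw [this, mul_zero]
          rw [h2]
          apply Finset.sum_le_sum_of_subset_of_nonneg
          · intro l hl
            exact (Finset.mem_filter.1 hl).2
          · intro l _ _
            exact mul_nonneg (KS_nonneg hg l) (JF_blk_nonneg hx hc _ _ l)
        have h3 : ∑ l ∈ Ico (b i) (b (i + 1)), g l * (β i * blk x c (u i) (u (i + 1)) l) =
            β i * ∑ l ∈ Ico (b i) (b (i + 1)), g l * blk x c (u i) (u (i + 1)) l := by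
          rw [Finset.mul_sum]
          apply Finset.sum_congr rfl
          intro l _
          ring
        show β i - ε ≤ ∑ l ∈ Ico (b i) (b (i + 1)), g l * (β i * blk x c (u i) (u (i + 1)) l)
        rw [h3]
        have h4 : β i * 1 ≤
            β i * ∑ l ∈ Ico (b i) (b (i + 1)), g l * blk x c (u i) (u (i + 1)) l :=
          mul_le_mul_of_nonneg_left (hM'.trans h1) (hβ i)
        linarith
    · have H : RisHyp κ b (fun i l => β i * blk x c (u i) (u (i + 1)) l) β 6 := by
        refine ⟨fun i => Fsn_smul (JF_blk_fsn hx hc _ _) (hβ i), ?_, hβ, ?_, ?_⟩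
        · intro i l hl
          exact hsupp i l (right_ne_zero_of_mul hl)
        · intro i ι _ E hE hcard
          have h1 : ∀ t, NN (κ i) ((E t).indicator
              (fun l => β i * blk x c (u i) (u (i + 1)) l)) =
              β i * NN (κ i) ((E t).indicator (blk x c (u i) (u (i + 1)))) := by
            intro t
            rw [← NN_smul (Fsn_ind (JF_blk_fsn hx hc _ _) (E t)) (hβ i)]
            congr 1
            funext l
            by_cases hl : l ∈ E t
            · simp [Set.indicator_of_mem hl]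
            · simp [Set.indicator_of_notMem hl]
          rw [Finset.sum_congr rfl (fun t _ => h1 t), ← Finset.mul_sum]
          have h2 := (havg i).1 ι E hE hcard
          have h3 := mul_le_mul_of_nonneg_left h2 (hβ i)
          linarith
        · intro i
          have h1 := hsum i (b (i + 1))
          have h2 : ∑ l ∈ Ico (b i) (b (i + 1)), blk x c (u i) (u (i + 1)) l ≤
              ∑ l ∈ range (b (i + 1)), blk x c (u i) (u (i + 1)) l := by
            apply Finset.sum_le_sum_of_subset_of_nonneg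
            · intro l hl
              exact Finset.mem_range.2 (Finset.mem_Ico.1 hl).2
            · intro l _ _
              exact JF_blk_nonneg hx hc _ _ l
          have h3 := mul_le_mul_of_nonneg_left (h2.trans h1) (hβ i)
          rw [← Finset.mul_sum]
          refine h3.trans (le_of_eq ?_)
          ring
      have h := ris_upper hκ hbmono (by norm_num : (1 : ℝ) ≤ 6) H M
      have h25 : (4 * (6 : ℝ) + 1) = 25 := by norm_num
      rw [h25] at h
      exact h

end BMM
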