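import Pool.Agent.BMM.NA
import Pool.Agent.BMM.BA

open Finset

namespace BMM

theorem NC_conj (m : ℕ) : Real.HolderConjugate (aa m : ℝ) (pp m / 2) := by
  have ha : (4 : ℝ) ≤ (aa m : ℝ) := by exact_mod_cast aa_ge m
  have hp := pp_gt_two m
  have h := one_sub_two_div_pp m
  rw [Real.holderConjugate_iff]
  refine ⟨by linarith, ?_⟩
  rw [inv_div, ← one_div, ← h]
  ring

theorem NC_mul (m : ℕ) : (pp m - 2) * (aa m : ℝ) = pp m := by
  have ha : (4 : ℝ) ≤ (aa m : ℝ) := by exact_mod_cast aa_ge m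
  have hp := pp_gt_two m
  have h := one_sub_two_div_pp m
  have hp0 : pp m ≠ 0 := by positivity
  have ha0 : (aa m : ℝ) ≠ 0 := by positivity
  field_simp at h
  linarith

theorem NC_sq (m : ℕ) (x : ℝ) : (x ^ 2) ^ (pp m / 2) = |x| ^ (pp m) := by
  rw [← sq_abs, ← Real.rpow_natCast, ← Real.rpow_mul (abs_nonneg _)]
  congr 1
  push_cast
  ring

theorem NC_gn_sq (m : ℕ) (x : ℕ → ℝ) :
    (gn m x) ^ 2 = (∑ i ∈ Ico (bo m) (bo (m + 1)), |x i| ^ (pp m)) ^ (2 / pp m) := by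
  unfold gn
  rw [← Real.rpow_natCast, ← Real.rpow_mul (NA_sum_nonneg m x)]
  congr 1
  push_cast
  ring

/-- `dn` of the squares is the square of the group norm (Hölder duality, exponents `a_m` and
`q_m = p_m / 2`). -/
theorem dn_sq (m : ℕ) (x : ℕ → ℝ) :
    dn (aa m) (Ico (bo m) (bo (m + 1))) (fun i => (x i) ^ 2) = (gn m x) ^ 2 := by
  have ha4 : 4 ≤ aa m := aa_ge m
  have ha1 : 1 ≤ aa m := by omega
  have haR : (4 : ℝ) ≤ (aa m : ℝ) := by exact_mod_cast ha4
  have ha0 : (aa m : ℝ) ≠ 0 := by positivity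
  have hp := pp_gt_two m
  have hp0 : 0 < pp m := by linarith
  have hS0 := NA_sum_nonneg m x
  rw [NC_gn_sq]
  apply le_antisymm
  · refine dn_le ha1 (fun μ h0 h1 => ?_)
    have h2 := Real.inner_le_Lp_mul_Lq_of_nonneg (Ico (bo m) (bo (m + 1))) (f := μ) (g := fun i => (x i) ^ 2)
      (NC_conj m) (fun i _ => h0 i) (fun i _ => sq_nonneg _)
    refine h2.trans ?_
    have h3 : ∑ i ∈ Ico (bo m) (bo (m + 1)), μ i ^ ((aa m : ℕ) : ℝ) ≤ 1 := by
      simpa [Real.rpow_natCast] using h1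
    have h4 : (∑ i ∈ Ico (bo m) (bo (m + 1)), μ i ^ ((aa m : ℕ) : ℝ)) ^ (1 / ((aa m : ℕ) : ℝ)) ≤ 1 :=
      Real.rpow_le_one (Finset.sum_nonneg (fun i _ => Real.rpow_nonneg (h0 i) _)) h3 (by positivity)
    have h5 : (∑ i ∈ Ico (bo m) (bo (m + 1)), ((x i) ^ 2) ^ (pp m / 2)) ^ (1 / (pp m / 2)) =
        (∑ i ∈ Ico (bo m) (bo (m + 1)), |x i| ^ (pp m)) ^ (2 / pp m) := by
      rw [Finset.sum_congr rfl (fun i _ => NC_sq m (x i))]
      congr 1
      field_simp
    rw [h5]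
    calc _ ≤ 1 * (∑ i ∈ Ico (bo m) (bo (m + 1)), |x i| ^ (pp m)) ^ (2 / pp m) :=
          mul_le_mul_of_nonneg_right h4 (Real.rpow_nonneg hS0 _)
      _ = _ := one_mul _
  · set S := ∑ i ∈ Ico (bo m) (bo (m + 1)), |x i| ^ (pp m) with hS
    rcases hS0.eq_or_lt with h | hpos
    · rw [← h, Real.zero_rpow (by positivity)]
      exact dn_nonneg ha1 _ _
    · have hSr : 0 < S ^ (1 / (aa m : ℝ)) := Real.rpow_pos_of_pos hpos _
      have h1 : ∀ i, (|x i| ^ (pp m - 2) / S ^ (1 / (aa m : ℝ))) ^ (aa m) = |x i| ^ (pp m) / S := by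
        intro i
        rw [div_pow, ← Real.rpow_natCast, ← Real.rpow_mul (abs_nonneg _), NC_mul,
          ← Real.rpow_natCast, ← Real.rpow_mul hpos.le, one_div_mul_cancel ha0, Real.rpow_one]
      have h2 : ∀ i, (|x i| ^ (pp m - 2) / S ^ (1 / (aa m : ℝ))) * (x i) ^ 2 =
          |x i| ^ (pp m) / S ^ (1 / (aa m : ℝ)) := by
        intro i
        rw [div_mul_eq_mul_div]
        congr 1
        by_cases hx : x i = 0
        · rw [hx]
          simp [Real.zero_rpow hp0.ne']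
        · have hx' : 0 < |x i| := abs_pos.mpr hx
          rw [← sq_abs, ← Real.rpow_natCast, ← Real.rpow_add hx']
          congr 1
          push_cast
          ring
      have h3 := le_dn ha1 (s := Ico (bo m) (bo (m + 1))) (β := fun i => (x i) ^ 2)
        (μ := fun i => |x i| ^ (pp m - 2) / S ^ (1 / (aa m : ℝ)))
        (fun i => div_nonneg (Real.rpow_nonneg (abs_nonneg _) _) hSr.le) (by
          rw [Finset.sum_congr rfl (fun i _ => h1 i), ← Finset.sum_div, ← hS, div_self hpos.ne'])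
      rw [Finset.sum_congr rfl (fun i _ => h2 i), ← Finset.sum_div, ← hS] at h3
      refine le_trans (le_of_eq ?_) h3
      have h4 : (2 / pp m : ℝ) = 1 - 1 / (aa m : ℝ) := by
        rw [← one_sub_two_div_pp m]; ring
      rw [h4, Real.rpow_sub hpos, Real.rpow_one]

end BMM
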