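import Pool.Agent.BMM.FU
import Pool.Agent.BMM.FEa
import Pool.Agent.BMM.FEb
import Pool.Agent.BMM.JF
import Pool.Agent.BMM.BF
import Pool.Agent.BMM.NC

/-!
MODULE FEq (difficulty 4). Section 5.3 of the text: every block sequence has a further block
sequence equivalent to the unit vectors.

Write `Y s = cmb (c (u s)).support (c (u s))`, `u` from `exists_sub hc`, and
`x s m = (gn m (Y s))^2`. `Fsn (x s)` is `Fsn_gn (cmb_fs _ _)`; `x s ≠ 0` because `c (u s) ≠ 0`
(if all group norms vanish, then `Y s` is zero by `gn_eq_zero` and `grp_spec`, against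
`cmb_ne`); `Before (x r) (x t)` for `r < t` from `exists_sub`. Let `cf, v` be given by `thmA`
(called `c, u` there); `dd u cf v` is a block sequence by `dd_block`: the hypothesis `h0` follows from
`blk x cf (v i) (v (i+1)) ≠ 0`. Let `b : ℕ →₀ ℝ`, choose `M` with `b l = 0` for `l ≥ bo M`
(`bo_strictMono.id_le`). By `dd_cmb` and `gn_blocks` (with this `Y`), for
`G = cmb (comb c (comb d b)).support (comb c (comb d b))` and all `m`
  `gn m G ^ 2 = ∑ i ∈ range (off M), β i * blk x cf (v i) (v (i+1)) m`,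
  `β i = ∑ m' ∈ range M, pz (b^2) m' i ≥ 0` (`pz_fsn`).
`nX_sq` (`G` is finitely supported, `cmb_fs`), `thmA` with `β` and `off M`: the square of `nX G` is
between `NN 0 (i ↦ if i < off M then β i else 0)` and `25` times it; the restriction is `β` by
`pz_total_zero`; by `thmB` (for the function `b^2`) it is between `NN 0 (m ↦ if m < M then dn .. else 0)` and
`17` times it; by `dn_sq` and `gn m b = 0` for `m ≥ M` (`gn_congr`, `gn_zero`) this is `nX b ^ 2`.
`25 * 17 = 425 ≤ 21^2`. Take square roots (`abs_le_of_sq_le_sq`).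
-/

open Finset Finsupp Pool.Agent.EBM

namespace BMM

theorem block_equiv {c : ℕ → (ℕ →₀ ℝ)} (hc : Block c) :
    ∃ d : ℕ → (ℕ →₀ ℝ), Block d ∧ ∀ b : ℕ →₀ ℝ,
      nX b ≤ nX (cmb (comb c (comb d b)).support (comb c (comb d b))) ∧
      nX (cmb (comb c (comb d b)).support (comb c (comb d b))) ≤ 21 * nX b := by
  obtain ⟨u, hu, hub⟩ := exists_sub hc
  obtain ⟨Y, hY⟩ : ∃ Y : ℕ → ℕ → ℝ, Y = fun s => cmb (c (u s)).support (c (u s)) := ⟨_, rfl⟩
  have hYs : ∀ s, cmb (c (u s)).support (c (u s)) = Y s := fun s => by rw [hY]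
  simp only [hYs] at hub
  obtain ⟨x, hx⟩ : ∃ x : ℕ → ℕ → ℝ, x = fun s m => (gn m (Y s)) ^ 2 := ⟨_, rfl⟩
  have hYfs : ∀ s, Fs (Y s) := fun s => by rw [← hYs]; exact cmb_fs _ _
  have hxf : ∀ s, Fsn (x s) := fun s => by rw [hx]; exact Fsn_gn (hYfs s)
  have hx0 : ∀ s, x s ≠ 0 := by
    intro s h
    have h1 : ∀ m, gn m (Y s) = 0 := fun m => by
      have h2 := congrFun h m
      rw [hx] at h2
      exact pow_eq_zero_iff (two_ne_zero) |>.mp h2
    apply cmb_ne (hc.1 (u s))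
    rw [hYs]
    funext i
    exact gn_eq_zero (h1 (grp i)) i (Finset.mem_Ico.mpr (grp_spec i))
  have hxb : ∀ r t, r < t → Before (x r) (x t) := by
    intro r t hrt m m' hm hm'
    rw [hx] at hm hm'
    exact hub r t hrt m m' (fun h => hm (by show (gn m (Y r)) ^ 2 = 0; rw [h]; norm_num))
      (fun h => hm' (by show (gn m' (Y t)) ^ 2 = 0; rw [h]; norm_num))
  obtain ⟨cf, v, hv, hcf, hblk, hA⟩ := thmA hxf hx0 hxb
  have h0 : ∀ i, ∃ s ∈ Ico (v i) (v (i + 1)), cf s ≠ 0 := by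
    intro i
    by_contra hcon
    push Not at hcon
    apply hblk i
    funext l
    exact Finset.sum_eq_zero (fun s hs => by rw [hcon s hs, zero_mul])
  refine ⟨dd u cf v, dd_block hu hcf hv h0, fun b => ?_⟩
  obtain ⟨M, hM⟩ : ∃ M, ∀ l, bo M ≤ l → b l = 0 := by
    obtain ⟨M, hM⟩ := FEa_bound b
    exact ⟨M, fun l hl => hM l ((bo_strictMono.id_le M).trans hl)⟩
  have hG := dd_cmb c u cf v b hM
  simp only [hYs] at hG
  obtain ⟨G, hGdef⟩ : ∃ G : ℕ → ℝ,
      G = cmb (comb c (comb (dd u cf v) b)).support (comb c (comb (dd u cf v) b)) := ⟨_, rfl⟩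
  have hGfs : Fs G := by rw [hGdef]; exact cmb_fs _ _
  rw [← hGdef] at hG ⊢
  obtain ⟨β, hβ⟩ : ∃ β : ℕ → ℝ, β = fun i => ∑ m' ∈ range M, pz (fun j => (b j) ^ 2) m' i := ⟨_, rfl⟩
  have hβ0 : ∀ i, 0 ≤ β i := fun i => by
    rw [hβ]
    exact Finset.sum_nonneg fun m' _ => (pz_fsn (fun j => sq_nonneg (b j)) m').1 i
  have hgn : ∀ m, gn m G ^ 2 = ∑ i ∈ range (off M), β i * blk x cf (v i) (v (i + 1)) m := by
    intro m
    rw [hG, hβ, hx]
    refine gn_blocks (Y := Y) ?_ hcf hv b M m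
    intro m r t hrt
    by_contra hcon
    push Not at hcon
    exact lt_irrefl _ (hub r t hrt m m hcon.1 hcon.2)
  have hGsq : nX G ^ 2 = NN 0 (fun m => ∑ i ∈ range (off M), β i * blk x cf (v i) (v (i + 1)) m) := by
    rw [nX_sq hGfs]
    congr 1
    funext m
    exact hgn m
  obtain ⟨hA1, hA2⟩ := hA β hβ0 (off M)
  have hres : (fun i => if i < off M then β i else 0) = fun i => ∑ m ∈ range M, pz (fun j => (b j) ^ 2) m i := by
    funext i
    by_cases hi : i < off M
    · rw [if_pos hi, hβ]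
    · rw [if_neg hi, pz_total_zero _ (not_lt.mp hi)]
  rw [hres] at hA1 hA2
  obtain ⟨hB1, hB2⟩ := thmB (β := fun j => (b j) ^ 2) (fun j => sq_nonneg (b j)) M
  have hbfs : Fs (b : ℕ → ℝ) := ⟨bo M, hM⟩
  have hdn : (fun m => if m < M then dn (aa m) (Ico (bo m) (bo (m + 1))) (fun j => (b j) ^ 2) else 0) =
      fun m => (gn m b) ^ 2 := by
    funext m
    by_cases hm : m < M
    · rw [if_pos hm]
      exact dn_sq m b
    · rw [if_neg hm]
      have h1 : gn m b = 0 := by
        rw [← gn_zero m]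
        apply gn_congr
        intro i hi
        rw [Finset.mem_Ico] at hi
        exact hM i ((bo_strictMono.monotone (not_lt.mp hm)).trans hi.1)
      rw [h1]
      norm_num
  rw [hdn] at hB1 hB2
  rw [← nX_sq hbfs] at hB1 hB2
  rw [← hGsq] at hA1 hA2
  have hbn := nX_nonneg b
  have hGn := nX_nonneg G
  constructor
  · refine le_trans (le_abs_self _) (abs_le_of_sq_le_sq (hB1.trans hA1) hGn)
  · refine le_trans (le_abs_self _) (abs_le_of_sq_le_sq ?_ (by positivity))
    have h3 : 0 ≤ nX b ^ 2 := sq_nonneg _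
    calc nX G ^ 2 ≤ 25 * NN 0 (fun i => ∑ m ∈ range M, pz (fun j => (b j) ^ 2) m i) := hA2
      _ ≤ 25 * (17 * nX b ^ 2) := by linarith
      _ ≤ (21 * nX b) ^ 2 := by nlinarith

end BMM
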