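import Pool.Agent.BMM.NA

/-!
MODULE FG (difficulty 1). If at most one of the vectors `w t` is nonzero on the group `m`
(`gn_eq_zero`), then the sum equals `b t0 • w t0` on the group (`gn_congr`, `gn_smul`, `sq_abs`),
or it is zero on the group (`gn_congr`, `gn_zero`) if there is no such `t0`.
-/

open Finset

namespace BMM

theorem gn_disj (m : ℕ) {ι : Type} (s : Finset ι) (w : ι → ℕ → ℝ) (b : ι → ℝ)
    (h : ∀ t ∈ s, ∀ t' ∈ s, t ≠ t' → gn m (w t) = 0 ∨ gn m (w t') = 0) :
    gn m (fun i => ∑ t ∈ s, b t * w t i) ^ 2 = ∑ t ∈ s, (b t) ^ 2 * gn m (w t) ^ 2 := by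
  by_cases hex : ∃ t0 ∈ s, gn m (w t0) ≠ 0
  · obtain ⟨t0, ht0, hne⟩ := hex
    have hz : ∀ t ∈ s, t ≠ t0 → gn m (w t) = 0 := by
      intro t ht htt
      rcases h t ht t0 ht0 htt with h1 | h1
      · exact h1
      · exact absurd h1 hne
    rw [gn_congr (y := fun i => b t0 * w t0 i), gn_smul, mul_pow, sq_abs,
      Finset.sum_eq_single_of_mem t0 ht0]
    · intro t ht htt
      rw [hz t ht htt]
      ring
    · intro i hi
      apply Finset.sum_eq_single_of_mem t0 ht0
      intro t ht htt
      rw [gn_eq_zero (hz t ht htt) i hi, mul_zero]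
  · push Not at hex
    rw [gn_congr (y := fun _ => 0), gn_zero]
    · rw [Finset.sum_eq_zero]
      · ring
      · intro t ht
        rw [hex t ht]
        ring
    · intro i hi
      apply Finset.sum_eq_zero
      intro t ht
      rw [gn_eq_zero (hex t ht) i hi, mul_zero]

end BMM
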