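import Pool.Agent.EBM.Fil
import Pool.Agent.BMM.Defs

/-!
Generic pairs of block sequences: the first contains the whole run of a group, the second skips
that group.
-/

namespace BMM

open Finsupp Filter Topology Pool.Agent.EBM

noncomputable section

/-- The coefficients of `fvec n r` with respect to the basis. -/
def fco (n r : ℕ) : ℕ →₀ ℝ := single (bo n + 2 * r) 1 + single (bo n + 2 * r + 1) 1

section
variable {X : Type*} [NormedAddCommGroup X] [NormedSpace ℝ X]

/-- The sequence contains the run of the group `n`. -/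
def RunAt {e : ℕ → X} {Q : Subfield ℝ} (n : ℕ) (y : bX e Q) : Prop :=
  ∃ k, ∀ r < Nn n, ∃ t : ℝ, 0 < t ∧ (y.1 (k + r)).1 = t • fco n r

/-- The sequence skips the group `n`. -/
def SkipAt {e : ℕ → X} {Q : Subfield ℝ} (n : ℕ) (z : bX e Q) : Prop :=
  ∀ i, (∀ l ∈ (z.1 i).1.support, l < bo n) ∨ (∀ l ∈ (z.1 i).1.support, bo (n + 1) ≤ l)

theorem ftop_le_bo (n : ℕ) : n ≤ bo n := by
  induction n with
  | zero => exact Nat.zero_le _
  | succ n ih =>
    have h1 : bo (n + 1) = bo n + LL n := rfl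
    have h2 : 0 < LL n := by
      unfold LL Nn
      positivity
    omega

theorem ftop_bo_succ (n : ℕ) : bo (n + 1) = bo n + 2 * Nn n := rfl

theorem ftop_Nn_pos (n : ℕ) : 0 < Nn n := by
  unfold Nn
  positivity

theorem ftop_support_fco (n r : ℕ) :
    ∀ l ∈ (fco n r).support, l = bo n + 2 * r ∨ l = bo n + 2 * r + 1 := by
  intro l hl
  by_contra hne
  push Not at hne
  rw [Finsupp.mem_support_iff] at hl
  apply hl
  unfold fco
  rw [Finsupp.add_apply, Finsupp.single_eq_of_ne hne.1, Finsupp.single_eq_of_ne hne.2, add_zero]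

theorem ftop_fco_ne (n r : ℕ) : fco n r ≠ 0 := by
  intro h
  have h1 := DFunLike.congr_fun h (bo n + 2 * r)
  unfold fco at h1
  rw [Finsupp.add_apply, Finsupp.single_eq_same,
    Finsupp.single_eq_of_ne (by omega), Finsupp.zero_apply] at h1
  norm_num at h1

theorem ftop_fco_mem (Q : Subfield ℝ) (n r i : ℕ) : fco n r i ∈ Q := by
  unfold fco
  rw [Finsupp.add_apply]
  refine Q.add_mem ?_ ?_
  · rw [Finsupp.single_apply]
    split_ifs
    · exact Q.one_mem
    · exact Q.zero_mem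
  · rw [Finsupp.single_apply]
    split_ifs
    · exact Q.one_mem
    · exact Q.zero_mem

theorem ftop_index_le {e : ℕ → X} {Q : Subfield ℝ} (z : bX e Q) :
    ∀ i, ∀ l ∈ (z.1 i).1.support, i ≤ l := by
  intro i
  induction i with
  | zero => intro l _; exact Nat.zero_le _
  | succ i ih =>
    intro l hl
    have hne : (z.1 i).1 ≠ 0 := z.2.1 i
    obtain ⟨l', hl'⟩ := Finsupp.support_nonempty_iff.2 hne
    have h1 := ih l' hl'
    have h2 := z.2.2 i l' hl' l hl
    omega

theorem ftop_normalize {e : ℕ → X} (he : Pool.Agent.EBM.SchauderBasis ℝ e) {Q : Subfield ℝ}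
    (hQn : ∀ c : ℕ →₀ ℝ, (∀ i, c i ∈ Q) → ((‖vec e c‖ : ℝ) : ℝ) ∈ Q) (c : ℕ →₀ ℝ)
    (hc : ∀ i, c i ∈ Q) (h0 : c ≠ 0) : ∃ u : Q0 e Q, ∃ t : ℝ, 0 < t ∧ u.1 = t • c := by
  have hpos : 0 < ‖vec e c‖ := norm_pos_iff.2 (fun h => h0 (he.vec_inj h))
  refine ⟨⟨(‖vec e c‖)⁻¹ • c, ?_, ?_⟩, (‖vec e c‖)⁻¹, inv_pos.2 hpos, rfl⟩
  · intro i
    rw [Finsupp.smul_apply, smul_eq_mul]
    exact Q.mul_mem (Q.inv_mem (hQn c hc)) (hc i)
  · rw [vec_smul, norm_smul, norm_inv, norm_norm, inv_mul_cancel₀ hpos.ne']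

/-- The dense open sets. -/
def OO (e : ℕ → X) (Q : Subfield ℝ) (r : ℕ) : Set (bX e Q × bX e Q) :=
  {p | ∃ n, r ≤ n ∧ RunAt n p.1 ∧ SkipAt n p.2}

theorem ftop_open (e : ℕ → X) (Q : Subfield ℝ) (r : ℕ) : IsOpen (OO e Q r) := by
  rw [isOpen_iff_mem_nhds]
  rintro p ⟨n, hn, ⟨k, hk⟩, hs⟩
  have hopen := isOpen_cylP p (k + Nn n + (bo (n + 1) + 1))
  refine mem_of_superset (hopen.mem_nhds (fun i _ => ⟨rfl, rfl⟩)) ?_
  intro q hq
  refine ⟨n, hn, ⟨k, ?_⟩, ?_⟩
  · intro r' hr'
    obtain ⟨t, ht, h⟩ := hk r' hr'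
    refine ⟨t, ht, ?_⟩
    rw [(hq (k + r') (by omega)).1]
    exact h
  · intro i
    by_cases hi : i < k + Nn n + (bo (n + 1) + 1)
    · rw [(hq i hi).2]
      exact hs i
    · right
      intro l hl
      have := ftop_index_le q.2 i l hl
      omega

theorem ftop_dense {e : ℕ → X} (he : Pool.Agent.EBM.SchauderBasis ℝ e) {Q : Subfield ℝ}
    (hQn : ∀ c : ℕ →₀ ℝ, (∀ i, c i ∈ Q) → ((‖vec e c‖ : ℝ) : ℝ) ∈ Q) (r : ℕ) :
    Dense (OO e Q r) := by
  rw [dense_iff_inter_open]
  rintro U hU ⟨p, hp⟩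
  obtain ⟨m, hm⟩ := exists_cylP hU hp
  obtain ⟨n, hnr, hT⟩ : ∃ n, r ≤ n ∧ ∀ k < m, (∀ i ∈ (p.1.1 k).1.support, i < bo n) ∧
      (∀ i ∈ (p.2.1 k).1.support, i < bo n) := by
    obtain ⟨T, hTd⟩ : ∃ T, T = (Finset.range m).sup (fun k => (p.1.1 k).1.support.sup id) +
      (Finset.range m).sup (fun k => (p.2.1 k).1.support.sup id) + 1 := ⟨_, rfl⟩
    refine ⟨r + T, Nat.le_add_right _ _, ?_⟩
    intro k hk
    have h0 := ftop_le_bo (r + T)
    constructor
    · intro i hi
      have h1 : i ≤ (p.1.1 k).1.support.sup id := Finset.le_sup (f := id) hi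
      have h2 : (p.1.1 k).1.support.sup id ≤
          (Finset.range m).sup (fun k => (p.1.1 k).1.support.sup id) :=
        Finset.le_sup (f := fun k => (p.1.1 k).1.support.sup id) (Finset.mem_range.mpr hk)
      omega
    · intro i hi
      have h1 : i ≤ (p.2.1 k).1.support.sup id := Finset.le_sup (f := id) hi
      have h2 : (p.2.1 k).1.support.sup id ≤
          (Finset.range m).sup (fun k => (p.2.1 k).1.support.sup id) :=
        Finset.le_sup (f := fun k => (p.2.1 k).1.support.sup id) (Finset.mem_range.mpr hk)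
      omega
  have hf : ∀ r', ∃ u : Q0 e Q, ∃ t : ℝ, 0 < t ∧ u.1 = t • fco n r' := fun r' =>
    ftop_normalize he hQn (fco n r') (ftop_fco_mem Q n r') (ftop_fco_ne n r')
  choose u t ht hu using hf
  have husupp : ∀ r', ∀ l ∈ (u r').1.support, l = bo n + 2 * r' ∨ l = bo n + 2 * r' + 1 := by
    intro r' l hl
    rw [hu] at hl
    exact ftop_support_fco n r' l (Finsupp.support_smul hl)
  obtain ⟨v, hv⟩ := exists_unit he hQn (bo (n + 1))
  obtain ⟨y', hy'⟩ := extend_block he hQn (m + Nn n)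
    (fun k => if k < m then p.1.1 k else u (k - m)) (by
      intro k hk i hi j hj
      by_cases h1 : k + 1 < m
      · simp only [h1, if_true] at hj
        simp only [show k < m by omega, if_true] at hi
        exact p.1.2.2 k i hi j hj
      · simp only [h1, if_false] at hj
        have h3 := husupp _ j hj
        by_cases h2 : k < m
        · simp only [h2, if_true] at hi
          have := (hT k h2).1 i hi
          omega
        · simp only [h2, if_false] at hi
          have h4 := husupp _ i hi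
          omega)
  obtain ⟨z', hz'⟩ := extend_block he hQn (m + 1)
    (fun k => if k < m then p.2.1 k else v) (by
      intro k hk i hi j hj
      by_cases h1 : k + 1 < m
      · simp only [h1, if_true] at hj
        simp only [show k < m by omega, if_true] at hi
        exact p.2.2.2 k i hi j hj
      · simp only [h1, if_false] at hj
        rw [hv, Finset.mem_singleton] at hj
        have h2 : k < m := by omega
        simp only [h2, if_true] at hi
        have := (hT k h2).2 i hi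
        have h5 := ftop_bo_succ n
        omega)
  refine ⟨(y', z'), hm ?_, n, hnr, ⟨m, ?_⟩, ?_⟩
  · intro k hk
    constructor
    · show y'.1 k = p.1.1 k
      rw [hy' k (by omega)]
      simp only [hk, if_true]
    · show z'.1 k = p.2.1 k
      rw [hz' k (by omega)]
      simp only [hk, if_true]
  · intro r' hr'
    refine ⟨t r', ht r', ?_⟩
    show (y'.1 (m + r')).1 = t r' • fco n r'
    rw [hy' (m + r') (by omega)]
    simp only [show ¬ (m + r' < m) by omega, if_false]
    rw [show m + r' - m = r' by omega]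
    exact hu r'
  · intro i
    show (∀ l ∈ (z'.1 i).1.support, l < bo n) ∨ (∀ l ∈ (z'.1 i).1.support, bo (n + 1) ≤ l)
    rcases lt_trichotomy i m with h | h | h
    · left
      rw [hz' i (by omega)]
      simp only [h, if_true]
      exact (hT i h).2
    · right
      rw [hz' i (by omega)]
      simp only [show ¬ (i < m) by omega, if_false]
      intro l hl
      rw [hv, Finset.mem_singleton] at hl
      omega
    · right
      intro l hl
      have h1 : bo (n + 1) ∈ (z'.1 m).1.support := by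
        rw [hz' m (by omega)]
        simp only [lt_irrefl, if_false]
        rw [hv]
        exact Finset.mem_singleton_self _
      exact (Block.lt z'.2 h h1 hl).le

theorem meagre_of {e : ℕ → X} (he : Pool.Agent.EBM.SchauderBasis ℝ e) (Q : Subfield ℝ)
    (hQn : ∀ c : ℕ →₀ ℝ, (∀ i, c i ∈ Q) → ((‖vec e c‖ : ℝ) : ℝ) ∈ Q)
    (H : ∀ K : ℝ, ∃ n0, ∀ n ≥ n0, ∀ y z : bX e Q, RunAt n y → SkipAt n z →
      ∀ T : cspan ℝ (seqOf e (fun k => (y.1 k).1)) ≃L[ℝ] cspan ℝ (seqOf e (fun k => (z.1 k).1)),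
        K < (‖(T : cspan ℝ (seqOf e (fun k => (y.1 k).1)) →L[ℝ]
          cspan ℝ (seqOf e (fun k => (z.1 k).1)))‖ + 1) *
        ‖(T.symm : cspan ℝ (seqOf e (fun k => (z.1 k).1)) →L[ℝ]
          cspan ℝ (seqOf e (fun k => (y.1 k).1)))‖) :
    IsMeagre (IsRel e Q) := by
  have hres : (⋂ r, OO e Q r) ∈ residual (bX e Q × bX e Q) := by
    rw [countable_iInter_mem]
    intro r
    exact residual_of_dense_open (ftop_open e Q r) (ftop_dense he hQn r)
  show (IsRel e Q)ᶜ ∈ residual _
  refine mem_of_superset hres ?_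
  rintro p hp ⟨T⟩
  obtain ⟨n0, hn0⟩ := H ((‖(T : cspan ℝ (seqOf e (fun k => (p.1.1 k).1)) →L[ℝ]
          cspan ℝ (seqOf e (fun k => (p.2.1 k).1)))‖ + 1) *
        ‖(T.symm : cspan ℝ (seqOf e (fun k => (p.2.1 k).1)) →L[ℝ]
          cspan ℝ (seqOf e (fun k => (p.1.1 k).1)))‖)
  rw [Set.mem_iInter] at hp
  obtain ⟨n, hn, h1, h2⟩ := hp n0
  exact lt_irrefl _ (hn0 n hn p.1 p.2 h1 h2 T)

end

end

end BMM
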