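import Pool.Agent.BMM.FSp
import Pool.Agent.BMM.FTop

/-!
Vectors of the run of the group `n`.
-/

open Finset Finsupp Pool.Agent.EBM UniformSpace

namespace BMM

theorem cmb_lc (a : ℕ →₀ ℝ) : cmb a.support a = Finsupp.linearCombination ℝ evec a := by
  funext i
  rw [Finsupp.linearCombination_apply, Finsupp.sum, Finset.sum_apply]
  rfl

/-- Summation over a group in pairs. -/
theorem sum_pairs (n : ℕ) (F : ℕ → ℝ) :
    ∑ k ∈ Ico (bo n) (bo (n + 1)), F k =
      ∑ r : Fin (Nn n), (F (bo n + 2 * r) + F (bo n + 2 * r + 1)) := by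
  have h : ∀ N, ∑ k ∈ Ico (bo n) (bo n + 2 * N), F k =
      ∑ r ∈ range N, (F (bo n + 2 * r) + F (bo n + 2 * r + 1)) := by
    intro N
    induction N with
    | zero => simp
    | succ N ih =>
      rw [Finset.sum_range_succ, ← ih]
      rw [show bo n + 2 * (N + 1) = bo n + 2 * N + 1 + 1 by ring]
      rw [Finset.sum_Ico_succ_top (by omega), Finset.sum_Ico_succ_top (by omega)]
      ring
  have h1 : bo (n + 1) = bo n + 2 * Nn n := ftop_bo_succ n
  rw [h1, h (Nn n)]
  exact (Fin.sum_univ_eq_sum_range (fun r => F (bo n + 2 * r) + F (bo n + 2 * r + 1)) (Nn n)).symm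

theorem fvec_supp {n r i : ℕ} (hr : r < Nn n) (h : fvec n r i ≠ 0) :
    bo n ≤ i ∧ i < bo (n + 1) := by
  have h1 : bo (n + 1) = bo n + 2 * Nn n := ftop_bo_succ n
  by_contra hne
  apply h
  have hg1 : grp (bo n + 2 * r) = n := grp_eq (by omega) (by omega)
  have hg2 : grp (bo n + 2 * r + 1) = n := grp_eq (by omega) (by omega)
  have h2 : evec (bo n + 2 * r) i = 0 := by
    by_contra h3
    have := evec_supp h3
    rw [hg1] at this
    exact hne this
  have h4 : evec (bo n + 2 * r + 1) i = 0 := by
    by_contra h3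
    have := evec_supp h3
    rw [hg2] at this
    exact hne this
  show evec (bo n + 2 * r) i + evec (bo n + 2 * r + 1) i = 0
  rw [h2, h4, add_zero]

theorem nX_single_group {x : ℕ → ℝ} {n : ℕ} (hs : ∀ i, x i ≠ 0 → bo n ≤ i ∧ i < bo (n + 1)) :
    nX x = gn n x := by
  have hx : Fs x := ⟨bo (n + 1), fun i hi => by
    by_contra hne
    have := (hs i hne).2
    omega⟩
  have hz : ∀ m, m ≠ n → gn m x = 0 := by
    intro m hm
    rw [← gn_zero m]
    apply gn_congr
    intro i hi
    rw [Finset.mem_Ico] at hi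
    by_contra hne
    have h4 := hs i hne
    rcases lt_or_gt_of_ne hm with h | h
    · have h5 : bo (m + 1) ≤ bo n := bo_strictMono.monotone h
      omega
    · have h5 : bo (n + 1) ≤ bo m := bo_strictMono.monotone h
      omega
  apply le_antisymm _ (gn_le_nX hx n)
  have h1 : NN 0 (fun m => (gn m x) ^ 2) ≤ (gn n x) ^ 2 := by
    have h2 := NN_le_sum (k := 0) (Fsn_gn hx) (M₀ := n + 1) (fun m hm => by
      rw [hz m (by omega)]
      norm_num)
    rw [Finset.sum_range_succ, Finset.sum_eq_zero, zero_add] at h2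
    · exact h2
    · intro m hm
      rw [Finset.mem_range] at hm
      rw [hz m (by omega)]
      norm_num
  calc nX x ≤ √((gn n x) ^ 2) := Real.sqrt_le_sqrt h1
    _ = _ := Real.sqrt_sq (gn_nonneg n x)

/-- The vectors `f_r` in the space. -/
noncomputable def fX (n r : ℕ) : XX := vec eX (fco n r)

theorem lc_fco (n r : ℕ) : Finsupp.linearCombination ℝ evec (fco n r) = fvec n r := by
  unfold fco
  rw [map_add, Finsupp.linearCombination_single, Finsupp.linearCombination_single, one_smul,
    one_smul]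
  rfl

theorem norm_sum_fX (n : ℕ) (a : Fin (Nn n) → ℝ) : ‖∑ r, a r • fX n r‖ = nF n a := by
  obtain ⟨q, hq⟩ : ∃ q : ℕ →₀ ℝ, q = ∑ r : Fin (Nn n), a r • fco n r := ⟨_, rfl⟩
  have h1 : ∑ r, a r • fX n r = vec eX q := by
    rw [hq]
    unfold vec
    rw [map_sum]
    refine Finset.sum_congr rfl (fun r _ => ?_)
    rw [map_smul]
    rfl
  have h2 : cmb q.support q = fun i => ∑ r : Fin (Nn n), a r * fvec n r i := by
    rw [cmb_lc, hq, map_sum]
    funext i
    rw [Finset.sum_apply]
    refine Finset.sum_congr rfl (fun r _ => ?_)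
    rw [map_smul, lc_fco]
    rfl
  rw [h1, norm_vec_eX, h2]
  unfold nF
  apply nX_single_group
  intro i hi
  obtain ⟨r, _, hr⟩ := Finset.exists_ne_zero_of_sum_ne_zero hi
  exact fvec_supp r.2 (right_ne_zero_of_mul hr)

theorem fvec_first {n r r' : ℕ} (hr : r < Nn n) (hr' : r' < Nn n) :
    fvec n r' (bo n + r) = if r = r' then 1 else 0 := by
  have h1 : bo (n + 1) = bo n + 2 * Nn n := ftop_bo_succ n
  have h5 : evec (bo n + 2 * r' + 1) (bo n + r) = 0 := by
    rw [evec_odd hr']
    exact if_neg (by omega)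
  show evec (bo n + 2 * r') (bo n + r) + evec (bo n + 2 * r' + 1) (bo n + r) = _
  rw [h5, evec_even hr', add_zero]
  by_cases h : r = r'
  · subst h
    rw [Pi.single_eq_same, if_pos rfl]
  · rw [Pi.single_eq_of_ne (by omega), if_neg h]

theorem abs_le_nF (n : ℕ) (a : Fin (Nn n) → ℝ) (r : Fin (Nn n)) : |a r| ≤ nF n a := by
  have h1 : bo (n + 1) = bo n + 2 * Nn n := ftop_bo_succ n
  have hr := r.2
  have h2 : ∑ r' : Fin (Nn n), a r' * fvec n r' (bo n + r) = a r := by
    rw [Finset.sum_eq_single r]
    · rw [fvec_first hr hr, if_pos rfl, mul_one]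
    · intro r' _ hne
      rw [fvec_first hr r'.2, if_neg, mul_zero]
      intro h
      apply hne
      exact Fin.ext h.symm
    · intro h
      exact absurd (Finset.mem_univ _) h
  have h4 := le_gn (m := n) (i := bo n + r) (Finset.mem_Ico.2 ⟨by omega, by omega⟩)
    (fun i => ∑ r' : Fin (Nn n), a r' * fvec n r' i)
  simp only [h2] at h4
  exact h4

theorem nF_le_of_pairs {n : ℕ} {q : ℕ →₀ ℝ}
    (hq : ∀ r < Nn n, q (bo n + 2 * r + 1) = q (bo n + 2 * r)) :
    nF n (fun r => q (bo n + 2 * r)) ≤ nX (cmb q.support q) := by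
  have h1 : nF n (fun r => q (bo n + 2 * r)) = gn n (cmb q.support q) := by
    unfold nF
    apply gn_congr
    intro i hi
    rw [Finset.mem_Ico] at hi
    rw [cmb_grp hi.1 hi.2]
    have h2 : cmb (q.support ∩ Ico (bo n) (bo (n + 1))) q i =
        ∑ k ∈ Ico (bo n) (bo (n + 1)), q k * evec k i := by
      unfold cmb
      apply Finset.sum_subset Finset.inter_subset_right
      intro k hk hk'
      have h3 : q k = 0 := by
        by_contra hne
        exact hk' (Finset.mem_inter.2 ⟨Finsupp.mem_support_iff.2 hne, hk⟩)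
      rw [h3, zero_mul]
    rw [h2, sum_pairs]
    refine Finset.sum_congr rfl (fun r _ => ?_)
    rw [hq r r.2]
    unfold fvec
    ring
  rw [h1]
  exact gn_le_nX (cmb_fs _ _) n

theorem continuous_nF (n : ℕ) : Continuous (nF n) := by
  unfold nF gn
  have hp := pp_gt_two n
  apply Continuous.rpow_const
  · apply continuous_finsetSum
    intro i _
    apply Continuous.rpow_const
    · apply Continuous.abs
      apply continuous_finsetSum
      intro r _
      exact (continuous_apply r).mul continuous_const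
    · intro x
      right
      linarith
  · intro x
    right
    positivity

end BMM
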