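import Pool.Agent.BMM.FSp
import Pool.Agent.BMM.FEq

/-!
The space is block-minimal.
-/

open Finsupp Pool.Agent.EBM UniformSpace

namespace BMM

theorem equiv_tX {c : ℕ → (ℕ →₀ ℝ)} (hc : Block c) :
    ∃ d : ℕ → (ℕ →₀ ℝ), Block d ∧ Equivalent ℝ (seqOf (seqOf eX c) d) tX := by
  obtain ⟨d, hd, h⟩ := block_equiv hc
  refine ⟨d, hd, 21, by norm_num, fun a => ?_⟩
  rw [vec_seqOf, vec_seqOf, norm_vec_eX, norm_vec_tX]
  obtain ⟨h1, h2⟩ := h a
  refine ⟨h2, h1.trans ?_⟩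
  have := nX_nonneg (cmb (comb c (comb d a)).support (comb c (comb d a)))
  linarith

theorem blockMinimal_eX : BlockMinimal ℝ eX := by
  intro c hc
  obtain ⟨d, hd, h⟩ := equiv_tX hc
  refine ⟨d, hd, ?_⟩
  obtain ⟨φ⟩ := cspan_equiv h
  exact ⟨((LinearIsometryEquiv.ofTop XX (cspan ℝ tX)
    cspan_tX).symm.toContinuousLinearEquiv).trans φ.symm⟩

end BMM
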