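import Pool.Agent.EBM.Bas

/-!
There is a countable field containing the norms of all its finite combinations of the basis.
-/

open Finsupp Pool.Agent.EBM

namespace BMM

section
variable {X : Type*} [NormedAddCommGroup X] [NormedSpace ℝ X]

/-- One step of the construction. -/
noncomputable def fqStep (e : ℕ → X) (F : Subfield ℝ) : Subfield ℝ :=
  Subfield.closure ((F : Set ℝ) ∪ {r | ∃ c : ℕ →₀ ℝ, (∀ i, c i ∈ F) ∧ r = ‖vec e c‖})

/-- The iteration. -/
noncomputable def fqF (e : ℕ → X) : ℕ → Subfield ℝ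
  | 0 => Subfield.closure ∅
  | n + 1 => fqStep e (fqF e n)

theorem fq_countable_closure {s : Set ℝ} (hs : s.Countable) :
    (Subfield.closure s : Set ℝ).Countable := by
  rw [← Cardinal.le_aleph0_iff_set_countable]
  refine (Subfield.cardinalMk_closure_le_max s).trans ?_
  exact max_le (Cardinal.le_aleph0_iff_set_countable.2 hs) le_rfl

theorem fq_countable (e : ℕ → X) (n : ℕ) : (fqF e n : Set ℝ).Countable := by
  induction n with
  | zero => exact fq_countable_closure Set.countable_empty
  | succ n ih =>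
    apply fq_countable_closure
    refine ih.union ?_
    have : Countable (fqF e n) := ih.to_subtype
    have h : {r | ∃ c : ℕ →₀ ℝ, (∀ i, c i ∈ fqF e n) ∧ r = ‖vec e c‖} ⊆
        Set.range (fun c : ℕ →₀ (fqF e n) =>
          ‖vec e (Finsupp.mapRange (fun x : fqF e n => (x : ℝ)) rfl c)‖) := by
      rintro r ⟨c, hc, rfl⟩
      refine ⟨⟨c.support, fun i => ⟨c i, hc i⟩, ?_⟩, ?_⟩
      · intro i
        rw [Finsupp.mem_support_iff]
        constructor
        · intro h1 h2
          exact h1 (congrArg Subtype.val h2)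
        · intro h1 h2
          exact h1 (Subtype.ext h2)
      · show ‖vec e _‖ = ‖vec e c‖
        congr 2
        ext i
        rfl
    exact (Set.countable_range _).mono h

theorem fq_mono (e : ℕ → X) : Monotone (fqF e) := by
  apply monotone_nat_of_le_succ
  intro n x hx
  exact Subfield.subset_closure (Set.mem_union_left _ hx)

theorem exists_Q (e : ℕ → X) :
    ∃ Q : Subfield ℝ, Countable Q ∧
      ∀ c : ℕ →₀ ℝ, (∀ i, c i ∈ Q) → (‖vec e c‖ : ℝ) ∈ Q := by
  have hdir : Directed (· ≤ ·) (fqF e) := (fq_mono e).directed_le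
  have hmem : ∀ x, x ∈ (⨆ n, fqF e n) ↔ ∃ n, x ∈ fqF e n := fun x =>
    Subfield.mem_iSup_of_directed hdir
  refine ⟨⨆ n, fqF e n, ?_, ?_⟩
  · have h1 : ((⨆ n, fqF e n : Subfield ℝ) : Set ℝ) ⊆ ⋃ n, (fqF e n : Set ℝ) := by
      intro x hx
      rw [Set.mem_iUnion]
      exact (hmem x).1 hx
    exact ((Set.countable_iUnion (fq_countable e)).mono h1).to_subtype
  · intro c hc
    have h1 : ∀ i, ∃ n, c i ∈ fqF e n := fun i => (hmem _).1 (hc i)
    choose f hf using h1
    obtain ⟨N, hN⟩ : ∃ N, ∀ i ∈ c.support, f i ≤ N :=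
      ⟨c.support.sup f, fun i hi => Finset.le_sup hi⟩
    have h2 : ∀ i, c i ∈ fqF e N := by
      intro i
      by_cases hi : i ∈ c.support
      · exact fq_mono e (hN i hi) (hf i)
      · rw [Finsupp.notMem_support_iff.1 hi]
        exact (fqF e N).zero_mem
    rw [hmem]
    refine ⟨N + 1, Subfield.subset_closure (Set.mem_union_right _ ⟨c, h2, rfl⟩)⟩

end

end BMM
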