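import Mathlib

/-!
A Schauder basis of the completion of a normed space, from uniformly bounded partial sums.
-/

namespace BMM

open Finsupp Filter Topology UniformSpace

section
variable {W : Type*} [NormedAddCommGroup W] [NormedSpace ℝ W]

theorem fsb_partial (e : ℕ → W) (a : ℕ →₀ ℝ) (n : ℕ) (hn : ∀ i ∈ a.support, i < n) :
    ∑ i ∈ Finset.range n, a i • e i = Finsupp.linearCombination ℝ e a := by
  rw [Finsupp.linearCombination_apply, Finsupp.sum]
  symm
  apply Finset.sum_subset
  · intro i hi
    exact Finset.mem_range.2 (hn i hi)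
  · intro i _ hi
    rw [Finsupp.notMem_support_iff.1 hi, zero_smul]

theorem fsb_li (e : ℕ → W) (h0 : ∀ i, e i ≠ 0) (K : ℝ)
    (hK : ∀ (a : ℕ →₀ ℝ) (n : ℕ),
      ‖∑ i ∈ Finset.range n, a i • e i‖ ≤ K * ‖Finsupp.linearCombination ℝ e a‖) :
    LinearIndependent ℝ e := by
  rw [linearIndependent_iff]
  intro a ha
  have h1 : ∀ n, ∑ i ∈ Finset.range n, a i • e i = 0 := by
    intro n
    have := hK a n
    rw [ha, norm_zero, mul_zero] at this
    exact norm_le_zero_iff.1 this
  ext i
  have h2 := h1 (i + 1)
  rw [Finset.sum_range_succ, h1 i, zero_add] at h2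
  simpa [h0 i] using h2

theorem completion_basis (e : ℕ → W)
    (hs : Submodule.span ℝ (Set.range e) = ⊤) (h0 : ∀ i, e i ≠ 0) (K : ℝ)
    (hK : ∀ (a : ℕ →₀ ℝ) (n : ℕ),
      ‖∑ i ∈ Finset.range n, a i • e i‖ ≤ K * ‖Finsupp.linearCombination ℝ e a‖) :
    ∃ b : _root_.SchauderBasis ℝ (Completion W),
      b.basis = fun i => ((e i : W) : Completion W) := by
  have hli := fsb_li e h0 K hK
  have hB : ∃ B : Module.Basis ℕ ℝ W, ∀ i, B i = e i :=
    ⟨Module.Basis.mk hli (by rw [hs]), fun i => Module.Basis.mk_apply _ _ i⟩
  obtain ⟨B, hBe⟩ := hB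
  have hBe' : (B : ℕ → W) = e := funext hBe
  have hrep : ∀ x : W, Finsupp.linearCombination ℝ e (B.repr x) = x := by
    intro x
    rw [← hBe']
    exact B.linearCombination_repr x
  have hP : ∀ (x : W) (n : ℕ), ‖∑ i ∈ Finset.range n, B.repr x i • e i‖ ≤ K * ‖x‖ := by
    intro x n
    have := hK (B.repr x) n
    rwa [hrep] at this
  have hcoord : ∀ i, ∃ f : StrongDual ℝ W, ∀ x, f x = B.repr x i := by
    intro i
    have hb : ∀ x : W, ‖(B.coord i) x‖ ≤ (2 * K / ‖e i‖) * ‖x‖ := by
      intro x
      have h1 : B.repr x i • e i = (∑ j ∈ Finset.range (i + 1), B.repr x j • e j) -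
          ∑ j ∈ Finset.range i, B.repr x j • e j := by
        rw [Finset.sum_range_succ]
        abel
      have h2 : ‖B.repr x i • e i‖ ≤ 2 * K * ‖x‖ := by
        rw [h1]
        refine (norm_sub_le _ _).trans ?_
        have h3 := hP x (i + 1)
        have h4 := hP x i
        linarith
      rw [norm_smul] at h2
      have h5 : 0 < ‖e i‖ := norm_pos_iff.2 (h0 i)
      rw [div_mul_eq_mul_div, le_div_iff₀ h5]
      exact h2
    exact ⟨(B.coord i).mkContinuous _ hb, fun x => rfl⟩
  choose f hf using hcoord
  have hdense : DenseRange (Completion.toComplL : W →L[ℝ] Completion W) :=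
    Completion.denseRange_coe
  have hui : IsUniformInducing (Completion.toComplL : W →L[ℝ] Completion W) :=
    Completion.isUniformInducing_coe W
  obtain ⟨c, hc⟩ : ∃ c : ℕ → StrongDual ℝ (Completion W), ∀ i (x : W),
      c i (x : Completion W) = B.repr x i := by
    refine ⟨fun i => (f i).extend Completion.toComplL, fun i x => ?_⟩
    rw [← hf i x]
    exact ContinuousLinearMap.extend_eq (f i) hdense hui x
  have hPc : ∀ (x : Completion W) (n : ℕ),
      ‖∑ i ∈ Finset.range n, c i x • ((e i : W) : Completion W)‖ ≤ K * ‖x‖ := by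
    intro x n
    induction x using Completion.induction_on with
    | hp =>
      apply isClosed_le
      · fun_prop
      · fun_prop
    | ih x =>
      have h1 : ∑ i ∈ Finset.range n, c i (x : Completion W) • ((e i : W) : Completion W) =
          ((∑ i ∈ Finset.range n, B.repr x i • e i : W) : Completion W) := by
        have h2 : ((∑ i ∈ Finset.range n, B.repr x i • e i : W) : Completion W) =
            (Completion.toComplL : W →L[ℝ] Completion W)
              (∑ i ∈ Finset.range n, B.repr x i • e i) := rfl
        rw [h2, map_sum]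
        refine Finset.sum_congr rfl (fun i _ => ?_)
        rw [map_smul, hc]
        rfl
      rw [h1, Completion.norm_coe, Completion.norm_coe]
      exact hP x n
  have hK0 : 0 ≤ K := by
    have h1 := hK (single 0 1) 1
    rw [Finset.sum_range_one, Finsupp.linearCombination_single, Finsupp.single_eq_same,
      one_smul] at h1
    have h5 : 0 < ‖e 0‖ := norm_pos_iff.2 (h0 0)
    nlinarith
  refine ⟨⟨fun i => ((e i : W) : Completion W), c, ?_, ?_⟩, rfl⟩
  · intro i j
    rw [hc, ← hBe j, B.repr_self]
    by_cases h : i = j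
    · subst h
      simp
    · rw [Finsupp.single_eq_of_ne h]
      simp [h]
  · intro x
    unfold HasSum
    rw [SummationFilter.conditional_filter_eq_map_range, tendsto_map'_iff]
    rw [Metric.tendsto_atTop]
    intro ε hε
    have hδ : 0 < ε / (K + 2) := div_pos hε (by linarith)
    have hx := (Completion.denseRange_coe (α := W)) x
    rw [Metric.mem_closure_iff] at hx
    obtain ⟨_, ⟨w, rfl⟩, hw⟩ := hx _ hδ
    refine ⟨(B.repr w).support.sup id + 1, fun n hn => ?_⟩
    have h1 : ∑ i ∈ Finset.range n, c i (w : Completion W) • ((e i : W) : Completion W) =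
        (w : Completion W) := by
      have h2 : ((∑ i ∈ Finset.range n, B.repr w i • e i : W) : Completion W) =
          (Completion.toComplL : W →L[ℝ] Completion W)
            (∑ i ∈ Finset.range n, B.repr w i • e i) := rfl
      have h3 : (∑ i ∈ Finset.range n, B.repr w i • e i : W) = w := by
        rw [fsb_partial e (B.repr w) n, hrep]
        intro i hi
        have h4 : i ≤ (B.repr w).support.sup id := Finset.le_sup (f := id) hi
        omega
      rw [map_sum, h3] at h2
      refine Eq.trans ?_ h2.symm
      refine Finset.sum_congr rfl (fun i _ => ?_)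
      rw [map_smul, hc]
      rfl
    show dist (∑ i ∈ Finset.range n, c i x • ((e i : W) : Completion W)) x < ε
    have h2 : ∑ i ∈ Finset.range n, c i x • ((e i : W) : Completion W) - x =
        ∑ i ∈ Finset.range n, c i (x - (w : Completion W)) • ((e i : W) : Completion W) -
          (x - (w : Completion W)) := by
      have h3 : ∑ i ∈ Finset.range n, c i (x - (w : Completion W)) •
          ((e i : W) : Completion W) =
          ∑ i ∈ Finset.range n, c i x • ((e i : W) : Completion W) -
          ∑ i ∈ Finset.range n, c i (w : Completion W) • ((e i : W) : Completion W) := by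
        rw [← Finset.sum_sub_distrib]
        refine Finset.sum_congr rfl (fun i _ => ?_)
        rw [map_sub, sub_smul]
      rw [h3, h1]
      abel
    rw [dist_eq_norm, h2]
    have h4 := hPc (x - (w : Completion W)) n
    have h5 : ‖x - (w : Completion W)‖ < ε / (K + 2) := by
      rw [← dist_eq_norm]
      exact hw
    calc _ ≤ ‖∑ i ∈ Finset.range n, c i (x - (w : Completion W)) •
          ((e i : W) : Completion W)‖ + ‖x - (w : Completion W)‖ := norm_sub_le _ _
      _ ≤ K * ‖x - (w : Completion W)‖ + ‖x - (w : Completion W)‖ := by gcongr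
      _ = (K + 1) * ‖x - (w : Completion W)‖ := by ring
      _ ≤ (K + 1) * (ε / (K + 2)) := by gcongr
      _ < (K + 2) * (ε / (K + 2)) := by
        apply mul_lt_mul_of_pos_right _ hδ
        linarith
      _ = ε := by field_simp

end

end BMM
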