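import Pool.Agent.BMM.EC
import Pool.Agent.BMM.NB
import Pool.Agent.BMM.FSb
import Pool.Agent.BMM.FEa
import Pool.Agent.EBM.Iso
import Pool.Agent.EBM.U5

/-!
The space: finitely supported sequences with the norm `nX`, and its completion.
-/

open Finsupp Pool.Agent.EBM UniformSpace

namespace BMM

/-- The finitely supported sequences, with the norm `nX`. -/
def VV : Type := ℕ →₀ ℝ

noncomputable instance : AddCommGroup VV := inferInstanceAs (AddCommGroup (ℕ →₀ ℝ))

noncomputable instance : Module ℝ VV := inferInstanceAs (Module ℝ (ℕ →₀ ℝ))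

/-- The coordinates. -/
def cf (x : VV) : ℕ → ℝ := fun i => (show ℕ →₀ ℝ from x) i

theorem cf_fs (x : VV) : Fs (cf x) := by
  refine ⟨(show ℕ →₀ ℝ from x).support.sup id + 1, fun i hi => ?_⟩
  by_contra hne
  have h1 : i ∈ (show ℕ →₀ ℝ from x).support := Finsupp.mem_support_iff.2 hne
  have h2 : i ≤ (show ℕ →₀ ℝ from x).support.sup id := Finset.le_sup (f := id) h1
  omega

theorem cf_add (x y : VV) : cf (x + y) = fun i => cf x i + cf y i := rfl

theorem cf_smul (r : ℝ) (x : VV) : cf (r • x) = fun i => r * cf x i := rfl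

theorem cf_zero : cf (0 : VV) = fun _ => 0 := rfl

theorem cf_inj {x y : VV} (h : cf x = cf y) : x = y := Finsupp.ext (fun i => congrFun h i)

noncomputable instance : Norm VV := ⟨fun x => nX (cf x)⟩

theorem VV_norm (x : VV) : ‖x‖ = nX (cf x) := rfl

theorem VV_core : NormedSpace.Core ℝ VV where
  norm_nonneg x := nX_nonneg _
  norm_smul r x := by
    rw [VV_norm, VV_norm, cf_smul, nX_smul (cf_fs x), Real.norm_eq_abs]
  norm_triangle x y := by
    rw [VV_norm, VV_norm, VV_norm, cf_add]
    exact nX_add_le (cf_fs x) (cf_fs y)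
  norm_eq_zero_iff x := by
    constructor
    · intro h
      apply cf_inj
      rw [VV_norm] at h
      rw [nX_eq_zero (cf_fs x) h]
      rfl
    · intro h
      rw [h, VV_norm, cf_zero, nX_zero]

noncomputable instance : NormedAddCommGroup VV := NormedAddCommGroup.ofCore VV_core

noncomputable instance : NormedSpace ℝ VV := NormedSpace.ofCore VV_core

theorem norm_VV (x : VV) : ‖x‖ = nX (cf x) := rfl

/-- The vector with given coordinates. -/
noncomputable def mkV (f : ℕ → ℝ) (hf : Fs f) : VV :=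
  Finsupp.ofSupportFinite f (by
    obtain ⟨M, hM⟩ := hf
    refine (Set.finite_lt_nat M).subset ?_
    intro i hi
    by_contra hne
    exact hi (hM i (not_lt.1 hne)))

theorem cf_mkV (f : ℕ → ℝ) (hf : Fs f) : cf (mkV f hf) = f := rfl

theorem evec_fs (k : ℕ) : Fs (evec k) := by
  refine ⟨bo (grp k + 1), fun i hi => ?_⟩
  by_contra hne
  have := (evec_supp hne).2
  omega

theorem single_fs (i : ℕ) : Fs (Pi.single i (1 : ℝ)) := by
  refine ⟨i + 1, fun j hj => ?_⟩
  rw [Pi.single_eq_of_ne (by omega)]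

/-- The basis vectors. -/
noncomputable def eV (k : ℕ) : VV := mkV (evec k) (evec_fs k)

/-- The unit vectors. -/
noncomputable def tV (i : ℕ) : VV := mkV (Pi.single i 1) (single_fs i)

theorem cf_sum {ι : Type*} (s : Finset ι) (f : ι → VV) :
    cf (∑ t ∈ s, f t) = fun i => ∑ t ∈ s, cf (f t) i := by
  classical
  induction s using Finset.induction_on with
  | empty =>
    rw [Finset.sum_empty, cf_zero]
    funext i
    rw [Finset.sum_empty]
  | insert a s ha ih =>
    rw [Finset.sum_insert ha, cf_add, ih]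
    funext i
    rw [Finset.sum_insert ha]

theorem cf_comb_e (s : Finset ℕ) (a : ℕ → ℝ) : cf (∑ k ∈ s, a k • eV k) = cmb s a := by
  rw [cf_sum]
  rfl

theorem cf_lc (a : ℕ →₀ ℝ) : cf (Finsupp.linearCombination ℝ eV a) = cmb a.support a := by
  rw [Finsupp.linearCombination_apply, Finsupp.sum, cf_comb_e]

theorem cf_lct (a : ℕ →₀ ℝ) : cf (Finsupp.linearCombination ℝ tV a) = a := by
  rw [Finsupp.linearCombination_apply, Finsupp.sum, cf_sum]
  funext i
  have h1 : ∀ t ∈ a.support, cf (a t • tV t) i = if t = i then a t else 0 := by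
    intro t _
    rw [cf_smul]
    show a t * (Pi.single t (1 : ℝ) : ℕ → ℝ) i = _
    by_cases h : t = i
    · subst h
      rw [Pi.single_eq_same, if_pos rfl, mul_one]
    · rw [Pi.single_eq_of_ne (Ne.symm h), if_neg h, mul_zero]
  rw [Finset.sum_congr rfl h1, Finset.sum_ite_eq' a.support i (fun t => a t)]
  split_ifs with h
  · rfl
  · exact (Finsupp.notMem_support_iff.1 h).symm

theorem tV_span : Submodule.span ℝ (Set.range tV) = ⊤ := by
  rw [eq_top_iff]
  intro x _
  have h : Finsupp.linearCombination ℝ tV (show ℕ →₀ ℝ from x) = x := cf_inj (cf_lct _)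
  rw [← h]
  rw [← Finsupp.range_linearCombination]
  exact LinearMap.mem_range_self _ _

theorem eV_span : Submodule.span ℝ (Set.range eV) = ⊤ := by
  rw [eq_top_iff, ← tV_span, Submodule.span_le]
  rintro _ ⟨i, rfl⟩
  obtain ⟨M, c, h⟩ := evec_span i
  have h1 : tV i = ∑ k ∈ Finset.range M, c k • eV k := by
    apply cf_inj
    rw [cf_comb_e, h]
    rfl
  show tV i ∈ _
  rw [h1]
  exact Submodule.sum_mem _ (fun k _ => Submodule.smul_mem _ _ (Submodule.subset_span ⟨k, rfl⟩))

theorem eV_ne (k : ℕ) : eV k ≠ 0 := by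
  intro h
  apply evec_ne_zero k
  have h1 : cf (eV k) = cf 0 := by rw [h]
  exact h1

theorem VV_partial (a : ℕ →₀ ℝ) (n : ℕ) :
    ‖∑ i ∈ Finset.range n, a i • eV i‖ ≤ 2 * ‖Finsupp.linearCombination ℝ eV a‖ := by
  rw [norm_VV, norm_VV, cf_comb_e, cf_lc]
  obtain ⟨M, hM⟩ : ∃ M, ∀ i, M ≤ i → a i = 0 := by
    refine ⟨a.support.sup id + 1, fun i hi => ?_⟩
    by_contra hne
    have h1 : i ∈ a.support := Finsupp.mem_support_iff.2 hne
    have h2 : i ≤ a.support.sup id := Finset.le_sup (f := id) h1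
    omega
  rw [cmb_support a (M := max n M) (fun i hi => hM i (le_trans (le_max_right _ _) hi))]
  exact nX_partial (le_max_left _ _) a

/-- The space. -/
abbrev XX : Type := Completion VV

/-- The basis of the space. -/
noncomputable def eX (k : ℕ) : XX := ((eV k : VV) : XX)

/-- The unit vectors of the space. -/
noncomputable def tX (k : ℕ) : XX := ((tV k : VV) : XX)

theorem basis_XX : ∃ b : _root_.SchauderBasis ℝ XX, b.basis = eX :=
  completion_basis eV eV_span eV_ne 2 VV_partial

theorem vec_coe (x : ℕ → VV) (a : ℕ →₀ ℝ) :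
    vec (fun k => ((x k : VV) : XX)) a = ((Finsupp.linearCombination ℝ x a : VV) : XX) := by
  rw [vec_eq_sum, Finsupp.linearCombination_apply, Finsupp.sum]
  have h : ((∑ i ∈ a.support, a i • x i : VV) : XX) =
      (Completion.toComplL : VV →L[ℝ] XX) (∑ i ∈ a.support, a i • x i) := rfl
  rw [h, map_sum]
  refine Finset.sum_congr rfl (fun i _ => ?_)
  rw [map_smul]
  rfl

theorem norm_vec_eX (a : ℕ →₀ ℝ) : ‖vec eX a‖ = nX (cmb a.support a) := by
  have h := vec_coe eV a
  show ‖vec (fun k => ((eV k : VV) : XX)) a‖ = _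
  rw [h, Completion.norm_coe, norm_VV, cf_lc]

theorem norm_vec_tX (a : ℕ →₀ ℝ) : ‖vec tX a‖ = nX a := by
  have h := vec_coe tV a
  show ‖vec (fun k => ((tV k : VV) : XX)) a‖ = _
  rw [h, Completion.norm_coe, norm_VV, cf_lct]

theorem cspan_tX : cspan ℝ tX = ⊤ := by
  rw [eq_top_iff]
  intro x _
  have h1 : x ∈ closure (Set.range ((↑) : VV → XX)) := Completion.denseRange_coe x
  refine closure_mono ?_ h1
  rintro _ ⟨w, rfl⟩
  have h2 : w ∈ Submodule.span ℝ (Set.range tV) := by
    rw [tV_span]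
    trivial
  rw [← Finsupp.range_linearCombination] at h2
  obtain ⟨a, rfl⟩ := h2
  rw [← vec_coe tV a, vec_eq_sum]
  exact Submodule.sum_mem _ (fun k _ => Submodule.smul_mem _ _ (Submodule.subset_span ⟨k, rfl⟩))

theorem schauder_eX : Pool.Agent.EBM.SchauderBasis ℝ eX := by
  obtain ⟨b, hb⟩ := basis_XX
  rw [← hb]
  exact schauder_of b

end BMM
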