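import Pool.Agent.BMM.Par

open Finset

namespace BMM

theorem Par2_bo (n : ℕ) : 2 ^ (n + 1) * bo n ≤ Nn n := by
  induction n with
  | zero =>
    show 2 ^ (0 + 1) * 0 ≤ Nn 0
    omega
  | succ n ih =>
    have h1 : bo n ≤ Nn n := by
      have h2 : 1 ≤ 2 ^ (n + 1) := Nat.one_le_two_pow
      nlinarith [Nat.zero_le (bo n)]
    have h3 : bo (n + 1) ≤ 4 * Nn n := by
      show bo n + 2 * Nn n ≤ 4 * Nn n
      omega
    have h4 : 2 ^ (n + 4) * Nn n ≤ Nn (n + 1) := by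
      unfold Nn
      rw [← pow_add]
      refine Nat.pow_le_pow_right (by norm_num) ?_
      have := Par_hh_step n
      omega
    calc 2 ^ (n + 1 + 1) * bo (n + 1) ≤ 2 ^ (n + 1 + 1) * (4 * Nn n) := Nat.mul_le_mul_left _ h3
      _ = 2 ^ (n + 4) * Nn n := by ring
      _ ≤ Nn (n + 1) := h4

theorem Par2_Nn (n : ℕ) : 16 ≤ Nn n := by
  unfold Nn
  have h1 : 4 ≤ hh n := by
    unfold hh
    nlinarith [aa_ge n, Nat.zero_le n]
  calc 16 = 2 ^ 4 := by norm_num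
    _ ≤ 2 ^ hh n := Nat.pow_le_pow_right (by norm_num) h1

/-- (P9): the asymptotic inequality used for the final contradiction. -/
theorem par_asym (C K : ℝ) (hC : 0 ≤ C) (hK : 0 ≤ K) :
    ∃ n₀ : ℕ, ∀ n, n₀ ≤ n →
      (4 * (bo n : ℝ) + C * (Nn n : ℝ) / √(2 ^ (n + 1))) * K < (Nn n : ℝ) - 1 := by
  obtain ⟨n₀, hn₀⟩ := pow_unbounded_of_one_lt ((2 * K * (4 + C)) ^ 2) (one_lt_two : (1 : ℝ) < 2)
  refine ⟨n₀, fun n hn => ?_⟩
  set q : ℝ := √(2 ^ (n + 1)) with hq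
  have hp1 : (1 : ℝ) ≤ 2 ^ (n + 1) := one_le_pow₀ (by norm_num)
  have hq1 : 1 ≤ q := by
    rw [hq, Real.one_le_sqrt]
    exact hp1
  have hq2 : q * q = 2 ^ (n + 1) := Real.mul_self_sqrt (by positivity)
  have hq3 : 2 * K * (4 + C) < q := by
    rw [hq]
    apply Real.lt_sqrt_of_sq_lt
    refine hn₀.trans_le ?_
    exact pow_le_pow_right₀ (by norm_num) (by omega)
  set x : ℝ := (Nn n : ℝ) with hx
  have hx1 : (16 : ℝ) ≤ x := by
    rw [hx]
    exact_mod_cast Par2_Nn n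
  have hb : (2 : ℝ) ^ (n + 1) * (bo n : ℝ) ≤ x := by
    rw [hx]
    exact_mod_cast Par2_bo n
  have hb0 : (0 : ℝ) ≤ (bo n : ℝ) := Nat.cast_nonneg _
  have hb2 : (bo n : ℝ) ≤ x / q := by
    rw [le_div_iff₀ (by linarith)]
    have h1 : q ≤ 2 ^ (n + 1) := by rw [← hq2]; nlinarith
    nlinarith
  have h2 : (4 * (bo n : ℝ) + C * x / q) * K ≤ (2 * K * (4 + C)) / q * (x / 2) := by
    have h3 : (4 * (bo n : ℝ) + C * x / q) ≤ (4 + C) * (x / q) := by
      have : C * x / q = C * (x / q) := by ring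
      rw [this]
      linarith
    have h4 := mul_le_mul_of_nonneg_right h3 hK
    refine h4.trans (le_of_eq ?_)
    ring
  have h5 : (2 * K * (4 + C)) / q ≤ 1 := by
    rw [div_le_one (by linarith)]
    exact hq3.le
  have h6 : (2 * K * (4 + C)) / q * (x / 2) ≤ 1 * (x / 2) := mul_le_mul_of_nonneg_right h5 (by linarith)
  linarith

end BMM
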