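import Pool.Agent.BMM.TZ
import Pool.Agent.EBM.Defs

open Finset

namespace BMM

theorem TY_cmb_subset {s t : Finset ℕ} (h : s ⊆ t) {c : ℕ → ℝ} (h0 : ∀ k ∈ t, k ∉ s → c k = 0) :
    cmb s c = cmb t c := by
  funext i
  unfold cmb
  apply Finset.sum_subset h
  intro k hk hks
  rw [h0 k hk hks, zero_mul]

theorem TY_cmb_congr {s : Finset ℕ} {c d : ℕ → ℝ} (h : ∀ k ∈ s, c k = d k) : cmb s c = cmb s d := by
  funext i
  unfold cmb
  apply Finset.sum_congr rfl
  intro k hk
  rw [h k hk]

theorem TY_ne (c : ℕ →₀ ℝ) (hc : c ≠ 0) : cmb c.support c ≠ fun _ => 0 := by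
  intro h
  have hsub : c.support ⊆ range (c.support.sup id + 1) := by
    intro k hk
    rw [mem_range]
    have : id k ≤ c.support.sup id := Finset.le_sup hk
    exact Nat.lt_succ_of_le this
  have h1 : cmb c.support c = cmb (range (c.support.sup id + 1)) c := by
    apply TY_cmb_subset hsub
    intro k _ hk
    exact Finsupp.notMem_support_iff.1 hk
  rw [h1] at h
  have h2 := cmb_eq_zero h
  apply hc
  ext k
  by_cases hk : k ∈ c.support
  · exact h2 k (mem_range.1 (hsub hk))
  · exact Finsupp.notMem_support_iff.1 hk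

/-- The trace inequality for block sequences given by finitely supported coefficients. -/
theorem trace_ineq' : ∃ C : ℝ, 0 ≤ C ∧ ∀ (n M : ℕ) (c : ℕ → (ℕ →₀ ℝ)),
    Pool.Agent.EBM.Block c →
    (∀ i, (∀ l ∈ (c i).support, l < bo n) ∨ (∀ l ∈ (c i).support, bo (n + 1) ≤ l)) →
    ∀ (A B : ℕ → Fin (Nn n) → ℝ) (K1 K2 : ℝ), 0 ≤ K1 → 0 ≤ K2 →
    (∀ a : Fin (Nn n) → ℝ, nX (fun l => ∑ i ∈ range M,
      (∑ r, A i r * a r) * cmb (c i).support (c i) l) ≤ K1 * nF n a) →
    (∀ t : ℕ → ℝ, nF n (fun r => ∑ i ∈ range M, t i * B i r) ≤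
      K2 * nX (fun l => ∑ i ∈ range M, t i * cmb (c i).support (c i) l)) →
    |∑ i ∈ range M, ∑ r, A i r * B i r| ≤
      (4 * (bo n : ℝ) + C * (Nn n : ℝ) / √(2 ^ (n + 1))) * (K1 * K2) := by
  obtain ⟨C, hC0, hC⟩ := trace_ineq
  refine ⟨C, hC0, ?_⟩
  intro n M c hb hsup A B K1 K2 hK1 hK2 hA hB
  have hne : ∀ i, (c i).support.Nonempty := fun i => Finsupp.support_nonempty_iff.2 (hb.1 i)
  set u : ℕ → ℕ := fun i => (c i).support.min' (hne i) with hu
  have humem : ∀ i, u i ∈ (c i).support := fun i => Finset.min'_mem _ _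
  have hule : ∀ i, ∀ l ∈ (c i).support, u i ≤ l := fun i l hl => Finset.min'_le _ _ hl
  have hlt : ∀ i, ∀ l ∈ (c i).support, l < u (i + 1) := fun i l hl => hb.2 i l hl _ (humem (i + 1))
  have hmono : StrictMono u := strictMono_nat_of_lt_succ fun i => hlt i _ (humem i)
  have hid : ∀ i, i ≤ u i := fun i => hmono.le_apply
  have hzero : ∀ i j l, u i ≤ l → l < u (i + 1) → j ≠ i → c j l = 0 := by
    intro i j l h1 h2 hj
    by_contra hc
    have hl : l ∈ (c j).support := Finsupp.mem_support_iff.2 hc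
    rcases lt_or_gt_of_ne hj with h | h
    · have h3 : u (j + 1) ≤ u i := hmono.monotone h
      have h4 := hlt j l hl
      omega
    · have h3 : u (i + 1) ≤ u j := hmono.monotone h
      have h4 := hule j l hl
      omega
  set d : ℕ → ℝ := fun l => ∑ i ∈ range (l + 1), c i l with hd
  have hdeq : ∀ i l, u i ≤ l → l < u (i + 1) → d l = c i l := by
    intro i l h1 h2
    rw [hd]
    apply Finset.sum_eq_single i
    · intro j _ hj
      exact hzero i j l h1 h2 hj
    · intro hi
      exfalso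
      apply hi
      rw [mem_range]
      have := hid i
      omega
  have hcmb : ∀ i, cmb (Ico (u i) (u (i + 1))) d = cmb (c i).support (c i) := by
    intro i
    have h1 : cmb (Ico (u i) (u (i + 1))) d = cmb (Ico (u i) (u (i + 1))) (c i) := by
      apply TY_cmb_congr
      intro k hk
      rw [mem_Ico] at hk
      exact hdeq i k hk.1 hk.2
    rw [h1]
    symm
    apply TY_cmb_subset
    · intro k hk
      rw [mem_Ico]
      exact ⟨hule i k hk, hlt i k hk⟩
    · intro k _ hk
      exact Finsupp.notMem_support_iff.1 hk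
  have hex : ∃ i, bo (n + 1) ≤ u i := ⟨bo (n + 1), hid _⟩
  classical
  have key := hC n M (Nat.find hex) u d hmono
    (by
      intro i hi
      have h1 := Nat.find_min hex hi
      rcases hsup i with h | h
      · exact h _ (humem i)
      · exact absurd (h _ (humem i)) h1)
    (Nat.find_spec hex)
    (by
      intro i
      rw [hcmb i]
      exact TY_ne _ (hb.1 i))
    A B K1 K2 hK1 hK2
  simp only [hcmb] at key
  exact key hA hB

end BMM
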