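import Pool.Agent.BMM.FLn
import Pool.Agent.BMM.TY
import Pool.Agent.BMM.Par2

/-!
An isomorphism between the span of a sequence with the run of the group `n` and the span of a
sequence which skips this group has a large distortion.
-/

open Finset Finsupp Pool.Agent.EBM UniformSpace Topology

namespace BMM

theorem fco_first {n r r' : ℕ} : fco n r' (bo n + 2 * r) = if r = r' then 1 else 0 := by
  unfold fco
  rw [Finsupp.add_apply]
  by_cases h : r = r'
  · subst h
    rw [Finsupp.single_eq_same, Finsupp.single_eq_of_ne (by omega), add_zero, if_pos rfl]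
  · rw [Finsupp.single_eq_of_ne (by omega), Finsupp.single_eq_of_ne (by omega), add_zero,
      if_neg h]

theorem fco_second {n r r' : ℕ} : fco n r' (bo n + 2 * r + 1) = if r = r' then 1 else 0 := by
  unfold fco
  rw [Finsupp.add_apply]
  by_cases h : r = r'
  · subst h
    rw [Finsupp.single_eq_of_ne (by omega), Finsupp.single_eq_same, zero_add, if_pos rfl]
  · rw [Finsupp.single_eq_of_ne (by omega), Finsupp.single_eq_of_ne (by omega), add_zero,
      if_neg h]

theorem run_pairs {Q : Subfield ℝ} {n : ℕ} {y : bX eX Q} (hy : RunAt n y) (i : ℕ) :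
    ∀ r < Nn n, (y.1 i).1 (bo n + 2 * r + 1) = (y.1 i).1 (bo n + 2 * r) := by
  obtain ⟨k, hk⟩ := hy
  have hN := ftop_Nn_pos n
  intro r hr
  rcases lt_or_ge i k with h | h
  · obtain ⟨t, ht, h0⟩ := hk 0 hN
    rw [Nat.add_zero] at h0
    have h1 : bo n ∈ (y.1 k).1.support := by
      rw [h0, Finsupp.mem_support_iff, Finsupp.smul_apply, smul_eq_mul]
      have h2 := fco_first (n := n) (r := 0) (r' := 0)
      rw [if_pos rfl, Nat.mul_zero, Nat.add_zero] at h2
      rw [h2, mul_one]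
      exact ht.ne'
    have h3 : ∀ l, bo n ≤ l → (y.1 i).1 l = 0 := by
      intro l hl
      by_contra hne
      have h4 := Block.lt y.2 h (Finsupp.mem_support_iff.2 hne) h1
      omega
    rw [h3 _ (by omega), h3 _ (by omega)]
  · rcases lt_or_ge i (k + Nn n) with h' | h'
    · obtain ⟨t, ht, h0⟩ := hk (i - k) (by omega)
      rw [show k + (i - k) = i by omega] at h0
      rw [h0, Finsupp.smul_apply, Finsupp.smul_apply, fco_first, fco_second]
    · obtain ⟨t, ht, h0⟩ := hk (Nn n - 1) (by omega)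
      have h1 : bo n + 2 * (Nn n - 1) + 1 ∈ (y.1 (k + (Nn n - 1))).1.support := by
        rw [h0, Finsupp.mem_support_iff, Finsupp.smul_apply, smul_eq_mul, fco_second,
          if_pos rfl, mul_one]
        exact ht.ne'
      have h3 : ∀ l, l ≤ bo n + 2 * (Nn n - 1) + 1 → (y.1 i).1 l = 0 := by
        intro l hl
        by_contra hne
        have h4 := Block.lt y.2 (show k + (Nn n - 1) < i by omega) h1
          (Finsupp.mem_support_iff.2 hne)
        omega
      rw [h3 _ (by omega), h3 _ (by omega)]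

theorem coord_vec (b : _root_.SchauderBasis ℝ XX) (hb : b.basis = eX) (q : ℕ →₀ ℝ) (k : ℕ) :
    b.coord k (vec eX q) = q k := by
  rw [← hb]
  classical
  rw [vec_eq_sum, map_sum]
  simp only [map_smul, b.ortho, Pi.single_apply, smul_eq_mul, mul_ite, mul_one, mul_zero]
  by_cases h : k ∈ q.support
  · rw [Finset.sum_ite_eq]
    simp [h]
  · rw [Finset.sum_ite_eq]
    simp only [h, if_false]
    simpa using (Finsupp.notMem_support_iff.mp h).symm

theorem cspan_nF (b : _root_.SchauderBasis ℝ XX) (hb : b.basis = eX) {Q : Subfield ℝ} {n : ℕ}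
    {y : bX eX Q} (hy : RunAt n y) (v : XX)
    (hv : v ∈ cspan ℝ (seqOf eX (fun k => (y.1 k).1))) :
    nF n (fun r => b.coord (bo n + 2 * r) v) ≤ ‖v‖ := by
  have hclosed : IsClosed {v : XX | nF n (fun r => b.coord (bo n + 2 * r) v) ≤ ‖v‖} := by
    apply isClosed_le
    · apply (continuous_nF n).comp
      apply continuous_pi
      intro r
      exact (b.coord (bo n + 2 * r)).continuous
    · exact continuous_norm
  have hsub : ((Submodule.span ℝ (Set.range (seqOf eX (fun k => (y.1 k).1))) :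
      Submodule ℝ XX) : Set XX) ⊆ {v : XX | nF n (fun r => b.coord (bo n + 2 * r) v) ≤ ‖v‖} := by
    intro w hw
    rw [SetLike.mem_coe, ← Finsupp.range_linearCombination] at hw
    obtain ⟨a, ha⟩ := hw
    have hw2 : w = vec eX (comb (fun k => (y.1 k).1) a) := by
      rw [← ha]
      exact vec_seqOf eX (fun k => (y.1 k).1) a
    show nF n (fun r => b.coord (bo n + 2 * r) w) ≤ ‖w‖
    rw [hw2, norm_vec_eX]
    simp only [coord_vec b hb]
    apply nF_le_of_pairs
    intro r hr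
    rw [comb_apply, comb_apply]
    refine Finset.sum_congr rfl (fun i _ => ?_)
    rw [run_pairs hy i r hr]
  exact closure_minimal hsub hclosed hv

theorem fX_mem {Q : Subfield ℝ} {n : ℕ} {y : bX eX Q} (hy : RunAt n y) {r : ℕ} (hr : r < Nn n) :
    fX n r ∈ cspan ℝ (seqOf eX (fun k => (y.1 k).1)) := by
  obtain ⟨k, hk⟩ := hy
  obtain ⟨t, ht, h0⟩ := hk r hr
  have h1 : fX n r = t⁻¹ • seqOf eX (fun k => (y.1 k).1) (k + r) := by
    show vec eX (fco n r) = t⁻¹ • vec eX (y.1 (k + r)).1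
    rw [h0, vec_smul, smul_smul, inv_mul_cancel₀ ht.ne', one_smul]
  rw [h1]
  exact Submodule.smul_mem _ _
    (Submodule.le_topologicalClosure _ (Submodule.subset_span (Set.mem_range_self _)))

theorem distortion : ∀ K : ℝ, ∃ n0, ∀ n ≥ n0, ∀ (Q : Subfield ℝ) (y z : bX eX Q),
    RunAt n y → SkipAt n z →
      ∀ T : cspan ℝ (seqOf eX (fun k => (y.1 k).1)) ≃L[ℝ] cspan ℝ (seqOf eX (fun k => (z.1 k).1)),
        K < (‖(T : cspan ℝ (seqOf eX (fun k => (y.1 k).1)) →L[ℝ]
          cspan ℝ (seqOf eX (fun k => (z.1 k).1)))‖ + 1) *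
        ‖(T.symm : cspan ℝ (seqOf eX (fun k => (z.1 k).1)) →L[ℝ]
          cspan ℝ (seqOf eX (fun k => (y.1 k).1)))‖ := by
  obtain ⟨C, hC, htr⟩ := trace_ineq'
  obtain ⟨b, hb⟩ := basis_XX
  intro K
  obtain ⟨n0, hn0⟩ := par_asym C (max K 0) hC (le_max_right _ _)
  refine ⟨n0, fun n hn Q y z hy hz T => ?_⟩
  by_contra hcon
  push Not at hcon
  obtain ⟨K1, hK1⟩ : ∃ K1, K1 = ‖(T : cspan ℝ (seqOf eX (fun k => (y.1 k).1)) →L[ℝ]
          cspan ℝ (seqOf eX (fun k => (z.1 k).1)))‖ + 1 := ⟨_, rfl⟩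
  obtain ⟨K2, hK2⟩ : ∃ K2, K2 = ‖(T.symm : cspan ℝ (seqOf eX (fun k => (z.1 k).1)) →L[ℝ]
          cspan ℝ (seqOf eX (fun k => (y.1 k).1)))‖ := ⟨_, rfl⟩
  rw [← hK1, ← hK2] at hcon
  have hK2nn : 0 ≤ K2 := by
    rw [hK2]
    exact ContinuousLinearMap.opNorm_nonneg _
  have hK1nn : 0 ≤ K1 := by
    rw [hK1]
    exact add_nonneg (ContinuousLinearMap.opNorm_nonneg _) zero_le_one
  have hT : ∀ v : cspan ℝ (seqOf eX (fun k => (y.1 k).1)), ‖T v‖ ≤ (K1 - 1) * ‖v‖ := by
    intro v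
    rw [hK1, add_sub_cancel_right]
    exact (T : cspan ℝ (seqOf eX (fun k => (y.1 k).1)) →L[ℝ]
          cspan ℝ (seqOf eX (fun k => (z.1 k).1))).le_opNorm v
  have hTs : ∀ v : cspan ℝ (seqOf eX (fun k => (z.1 k).1)), ‖T.symm v‖ ≤ K2 * ‖v‖ := by
    intro v
    rw [hK2]
    exact (T.symm : cspan ℝ (seqOf eX (fun k => (z.1 k).1)) →L[ℝ]
          cspan ℝ (seqOf eX (fun k => (y.1 k).1))).le_opNorm v
  have hNpos : (0 : ℝ) < Nn n := by exact_mod_cast ftop_Nn_pos n
  obtain ⟨δ, hδ⟩ : ∃ δ, δ = 1 / ((Nn n : ℝ) * (K2 + 1)) := ⟨_, rfl⟩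
  have hδ0 : 0 < δ := by rw [hδ]; positivity
  have hδ1 : (Nn n : ℝ) * δ ≤ 1 := by
    rw [hδ, mul_one_div, div_le_one (by positivity)]
    nlinarith
  have hδ2 : (Nn n : ℝ) * (K2 * δ) ≤ 1 := by
    rw [hδ]
    have h1 : (Nn n : ℝ) * (K2 * (1 / ((Nn n : ℝ) * (K2 + 1)))) = K2 / (K2 + 1) := by
      field_simp
    rw [h1, div_le_one (by positivity)]
    linarith
  -- approximations of the images of the run
  have happ : ∀ r : Fin (Nn n), ∃ a : ℕ →₀ ℝ,
      ‖T ⟨fX n r, fX_mem hy r.2⟩ - isoMap (seqOf eX (fun k => (z.1 k).1)) a‖ ≤ δ := by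
    intro r
    have h1 := isoMap_dense (𝕜 := ℝ) (seqOf eX (fun k => (z.1 k).1))
      (T ⟨fX n r, fX_mem hy r.2⟩)
    rw [Metric.mem_closure_iff] at h1
    obtain ⟨_, ⟨a, rfl⟩, ha⟩ := h1 δ hδ0
    rw [dist_eq_norm] at ha
    exact ⟨a, ha.le⟩
  choose a ha using happ
  obtain ⟨M, hM⟩ : ∃ M, ∀ r i, M ≤ i → a r i = 0 := by
    refine ⟨(Finset.univ : Finset (Fin (Nn n))).sup (fun r => (a r).support.sup id) + 1,
      fun r i hi => ?_⟩
    by_contra hne
    have h1 : i ∈ (a r).support := Finsupp.mem_support_iff.2 hne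
    have h2 : i ≤ (a r).support.sup id := Finset.le_sup (f := id) h1
    have h3 : (a r).support.sup id ≤
        (Finset.univ : Finset (Fin (Nn n))).sup (fun r => (a r).support.sup id) :=
      Finset.le_sup (f := fun r => (a r).support.sup id) (Finset.mem_univ r)
    omega
  have hzmem : ∀ i, vec eX (z.1 i).1 ∈ cspan ℝ (seqOf eX (fun k => (z.1 k).1)) := fun i =>
    Submodule.le_topologicalClosure _ (Submodule.subset_span ⟨i, rfl⟩)
  have hiso : ∀ r, (isoMap (seqOf eX (fun k => (z.1 k).1)) (a r) :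
      cspan ℝ (seqOf eX (fun k => (z.1 k).1))) =
      ∑ i ∈ range M, a r i • (⟨vec eX (z.1 i).1, hzmem i⟩ :
        cspan ℝ (seqOf eX (fun k => (z.1 k).1))) := by
    intro r
    apply Subtype.ext
    rw [isoMap_coe]
    rw [Submodule.coe_sum, vec_eq_sum]
    have h1 : ∑ i ∈ (a r).support, a r i • seqOf eX (fun k => (z.1 k).1) i =
        ∑ i ∈ range M, a r i • seqOf eX (fun k => (z.1 k).1) i := by
      apply Finset.sum_subset
      · intro i hi
        rw [Finset.mem_range]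
        by_contra hne
        exact Finsupp.mem_support_iff.1 hi (hM r i (not_lt.1 hne))
      · intro i _ hi
        rw [Finsupp.notMem_support_iff.1 hi, zero_smul]
    rw [h1]
    rfl
  -- the matrices
  obtain ⟨A, hA⟩ : ∃ A : ℕ → Fin (Nn n) → ℝ, A = fun i r => a r i := ⟨_, rfl⟩
  obtain ⟨B, hB⟩ : ∃ B : ℕ → Fin (Nn n) → ℝ, B = fun (i : ℕ) (r : Fin (Nn n)) =>
    b.coord (bo n + 2 * r) (T.symm ⟨vec eX (z.1 i).1, hzmem i⟩ : XX) := ⟨_, rfl⟩
  have hnorm : ∀ t : ℕ → ℝ,
      ‖∑ i ∈ range M, t i • (⟨vec eX (z.1 i).1, hzmem i⟩ :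
        cspan ℝ (seqOf eX (fun k => (z.1 k).1)))‖ =
      nX (fun l => ∑ i ∈ range M, t i * cmb (z.1 i).1.support (z.1 i).1 l) := by
    intro t
    have h1 : ‖∑ i ∈ range M, t i • (⟨vec eX (z.1 i).1, hzmem i⟩ :
        cspan ℝ (seqOf eX (fun k => (z.1 k).1)))‖ =
        ‖((∑ i ∈ range M, t i • (⟨vec eX (z.1 i).1, hzmem i⟩ :
        cspan ℝ (seqOf eX (fun k => (z.1 k).1))) :
          cspan ℝ (seqOf eX (fun k => (z.1 k).1))) : XX)‖ := rfl
    rw [h1, Submodule.coe_sum]
    obtain ⟨q, hq⟩ : ∃ q : ℕ →₀ ℝ, q = ∑ i ∈ range M, t i • (z.1 i).1 := ⟨_, rfl⟩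
    have h2 : ∑ i ∈ range M, ((t i • (⟨vec eX (z.1 i).1, hzmem i⟩ :
        cspan ℝ (seqOf eX (fun k => (z.1 k).1))) :
          cspan ℝ (seqOf eX (fun k => (z.1 k).1))) : XX) = vec eX q := by
      rw [hq]
      unfold vec
      rw [map_sum]
      refine Finset.sum_congr rfl (fun i _ => ?_)
      rw [map_smul]
      rfl
    have h3 : cmb q.support q = fun l => ∑ i ∈ range M, t i * cmb (z.1 i).1.support (z.1 i).1 l := by
      rw [cmb_lc, hq, map_sum]
      funext l
      rw [Finset.sum_apply]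
      refine Finset.sum_congr rfl (fun i _ => ?_)
      rw [map_smul, cmb_lc]
      rfl
    rw [h2, norm_vec_eX, h3]
  have hmain := htr n M (fun i => (z.1 i).1) z.2
    (fun i => hz i) A B K1 K2 hK1nn hK2nn ?_ ?_
  · -- the trace is at least N - 1
    have hsum : ∑ i ∈ range M, ∑ r, A i r * B i r = ∑ r : Fin (Nn n),
        b.coord (bo n + 2 * r) (T.symm (isoMap (seqOf eX (fun k => (z.1 k).1)) (a r)) : XX) := by
      rw [Finset.sum_comm]
      refine Finset.sum_congr rfl (fun r _ => ?_)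
      rw [hiso r, map_sum, Submodule.coe_sum, map_sum]
      refine Finset.sum_congr rfl (fun i _ => ?_)
      rw [map_smul, Submodule.coe_smul, map_smul, hA, hB]
      rfl
    have hone : ∀ r : Fin (Nn n), 1 - K2 * δ ≤
        b.coord (bo n + 2 * r) (T.symm (isoMap (seqOf eX (fun k => (z.1 k).1)) (a r)) : XX) := by
      intro r
      obtain ⟨e, he⟩ : ∃ e, e = isoMap (seqOf eX (fun k => (z.1 k).1)) (a r) -
        T ⟨fX n r, fX_mem hy r.2⟩ := ⟨_, rfl⟩
      have h1 : T.symm (isoMap (seqOf eX (fun k => (z.1 k).1)) (a r)) =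
          ⟨fX n r, fX_mem hy r.2⟩ + T.symm e := by
        rw [he, map_sub, ContinuousLinearEquiv.symm_apply_apply]
        abel
      have h2 : ‖e‖ ≤ δ := by
        rw [he, norm_sub_rev]
        exact ha r
      have h3 : |b.coord (bo n + 2 * r) (T.symm e : XX)| ≤ K2 * δ := by
        have h4 := abs_le_nF n (fun r => b.coord (bo n + 2 * r) (T.symm e : XX)) r
        have h5 := cspan_nF b hb hy (T.symm e : XX) (T.symm e).2
        have h6 : ‖(T.symm e : XX)‖ ≤ K2 * ‖e‖ := hTs e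
        calc _ ≤ _ := h4
          _ ≤ _ := h5
          _ ≤ K2 * ‖e‖ := h6
          _ ≤ K2 * δ := by gcongr
      have h4 : b.coord (bo n + 2 * r) (fX n r) = 1 := by
        unfold fX
        rw [coord_vec b hb, fco_first, if_pos rfl]
      rw [h1, Submodule.coe_add, map_add, h4]
      have := (abs_le.1 h3).1
      linarith
    have hge : (Nn n : ℝ) - 1 ≤ ∑ i ∈ range M, ∑ r, A i r * B i r := by
      rw [hsum]
      calc (Nn n : ℝ) - 1 ≤ (Nn n : ℝ) * (1 - K2 * δ) := by linarith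
        _ = ∑ _r : Fin (Nn n), (1 - K2 * δ) := by
          rw [Finset.sum_const, Finset.card_univ, Fintype.card_fin, nsmul_eq_mul]
        _ ≤ _ := Finset.sum_le_sum (fun r _ => hone r)
    have h7 := hn0 n hn
    have h8 := le_trans hge (le_trans (le_abs_self _) hmain)
    have h9 : (4 * (bo n : ℝ) + C * (Nn n : ℝ) / √(2 ^ (n + 1))) * (K1 * K2) ≤
        (4 * (bo n : ℝ) + C * (Nn n : ℝ) / √(2 ^ (n + 1))) * max K 0 := by
      apply mul_le_mul_of_nonneg_left (le_trans hcon (le_max_left _ _))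
      positivity
    linarith
  · -- the bound for A
    intro x
    have h1 : nX (fun l => ∑ i ∈ range M, (∑ r, A i r * x r) * cmb (z.1 i).1.support (z.1 i).1 l) =
        ‖∑ r, x r • isoMap (seqOf eX (fun k => (z.1 k).1)) (a r)‖ := by
      rw [← hnorm]
      congr 1
      simp only [hiso, Finset.smul_sum]
      rw [Finset.sum_comm]
      refine Finset.sum_congr rfl (fun i _ => ?_)
      rw [Finset.sum_smul]
      refine Finset.sum_congr rfl (fun r _ => ?_)
      rw [smul_smul, hA, mul_comm]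
    rw [h1]
    have h2 : ∑ r, x r • isoMap (seqOf eX (fun k => (z.1 k).1)) (a r) =
        T (∑ r, x r • ⟨fX n r, fX_mem hy r.2⟩) +
        ∑ r, x r • (isoMap (seqOf eX (fun k => (z.1 k).1)) (a r) -
          T ⟨fX n r, fX_mem hy r.2⟩) := by
      rw [map_sum, ← Finset.sum_add_distrib]
      refine Finset.sum_congr rfl (fun r _ => ?_)
      rw [map_smul, smul_sub]
      abel
    have h3 : ‖∑ r, x r • (⟨fX n r, fX_mem hy r.2⟩ :
        cspan ℝ (seqOf eX (fun k => (y.1 k).1)))‖ = nF n x := by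
      rw [← norm_sum_fX]
      have h4 : ‖∑ r, x r • (⟨fX n r, fX_mem hy r.2⟩ :
        cspan ℝ (seqOf eX (fun k => (y.1 k).1)))‖ = ‖((∑ r, x r • (⟨fX n r, fX_mem hy r.2⟩ :
        cspan ℝ (seqOf eX (fun k => (y.1 k).1))) :
          cspan ℝ (seqOf eX (fun k => (y.1 k).1))) : XX)‖ := rfl
      rw [h4, Submodule.coe_sum]
      rfl
    have h5 : 0 ≤ nF n x := by
      unfold nF
      exact gn_nonneg _ _
    have h6 : ‖∑ r, x r • (isoMap (seqOf eX (fun k => (z.1 k).1)) (a r) -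
          T ⟨fX n r, fX_mem hy r.2⟩)‖ ≤ nF n x := by
      calc _ ≤ ∑ r, ‖x r • (isoMap (seqOf eX (fun k => (z.1 k).1)) (a r) -
          T ⟨fX n r, fX_mem hy r.2⟩)‖ := norm_sum_le _ _
        _ ≤ ∑ _r : Fin (Nn n), nF n x * δ := by
          apply Finset.sum_le_sum
          intro r _
          rw [norm_smul, Real.norm_eq_abs]
          have h7 := abs_le_nF n x r
          have h8 := ha r
          rw [norm_sub_rev] at h8
          exact mul_le_mul h7 h8 (norm_nonneg _) h5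
        _ = nF n x * ((Nn n : ℝ) * δ) := by
          rw [Finset.sum_const, Finset.card_univ, Fintype.card_fin, nsmul_eq_mul]
          ring
        _ ≤ nF n x * 1 := by gcongr
        _ = nF n x := mul_one _
    rw [h2]
    calc _ ≤ ‖T (∑ r, x r • ⟨fX n r, fX_mem hy r.2⟩)‖ +
        ‖∑ r, x r • (isoMap (seqOf eX (fun k => (z.1 k).1)) (a r) -
          T ⟨fX n r, fX_mem hy r.2⟩)‖ := norm_add_le _ _
      _ ≤ (K1 - 1) * nF n x + nF n x := by
        rw [← h3] at h6 ⊢
        exact add_le_add (hT _) h6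
      _ = K1 * nF n x := by ring
  · -- the bound for B
    intro t
    have h1 : (fun r : Fin (Nn n) => ∑ i ∈ range M, t i * B i r) = fun r : Fin (Nn n) =>
        b.coord (bo n + 2 * r) (T.symm (∑ i ∈ range M, t i • (⟨vec eX (z.1 i).1, hzmem i⟩ :
        cspan ℝ (seqOf eX (fun k => (z.1 k).1)))) : XX) := by
      funext r
      rw [map_sum, Submodule.coe_sum, map_sum]
      refine Finset.sum_congr rfl (fun i _ => ?_)
      rw [map_smul, Submodule.coe_smul, map_smul, hB]
      rfl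
    rw [h1, ← hnorm]
    exact (cspan_nF b hb hy _ (T.symm _).2).trans (hTs _)

theorem isMeagre_IsRel (Q : Subfield ℝ)
    (hQn : ∀ c : ℕ →₀ ℝ, (∀ i, c i ∈ Q) → ((‖vec eX c‖ : ℝ) : ℝ) ∈ Q) :
    IsMeagre (IsRel eX Q) := by
  apply meagre_of schauder_eX Q hQn
  intro K
  obtain ⟨n0, h⟩ := distortion K
  exact ⟨n0, fun n hn y z hy hz T => h n hn Q y z hy hz T⟩

end BMM
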