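import Pool.Agent.BMM.EA
import Pool.Agent.BMM.NB
import Pool.Agent.EBM.Bas

/-!
MODULE FU (difficulty 2). A subsequence of a block sequence with successive ranges of groups.
Write `y k = cmb (c k).support (c k)`.
1. If `gn m (y k) ≠ 0` there is `j ∈ (c k).support` with `bo m ≤ j < bo (m+1)` (otherwise `y k`
   is zero on the group `m`: `cmb_grp`, the intersection is empty, `gn_congr`, `gn_zero`).
2. All `j ∈ (c l).support` satisfy `l ≤ j` (induction on `l`, from `Block`; or copy
   `ftop_index_le`). Let `J` be a bound for the support of `c k`. If `gn m (y k) ≠ 0` then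
   `bo m ≤ J`, so `m ≤ J` (`bo_strictMono.id_le`); for `l ≥ bo (J+1)` and `gn m' (y l) ≠ 0` we get
   `bo (J+1) ≤ l ≤ j < bo (m'+1)`, so `J + 1 < m' + 1`, `m ≤ J < m'`.
3. So for every `k` there is `g k > k` such that all `l ≥ g k` work; `u 0 = 0`,
   `u (s+1) = g (u s)` (Nat.rec); for `r < t` we have `g (u r) = u (r+1) ≤ u t`.
-/

open Finset

namespace BMM

theorem fu_index_le {c : ℕ → (ℕ →₀ ℝ)} (hc : Pool.Agent.EBM.Block c) :
    ∀ i, ∀ l ∈ (c i).support, i ≤ l := by
  intro i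
  induction i with
  | zero => intro l _; exact Nat.zero_le _
  | succ i ih =>
    intro l hl
    have hne : c i ≠ 0 := hc.1 i
    obtain ⟨l', hl'⟩ := Finsupp.support_nonempty_iff.2 hne
    have h1 := ih l' hl'
    have h2 := hc.2 i l' hl' l hl
    omega

theorem fu_exists {m : ℕ} {s : Finset ℕ} {c : ℕ → ℝ} (h : gn m (cmb s c) ≠ 0) :
    ∃ j ∈ s, bo m ≤ j ∧ j < bo (m + 1) := by
  by_contra hcon
  push Not at hcon
  apply h
  have hemp : s ∩ Ico (bo m) (bo (m + 1)) = ∅ := by
    rw [Finset.eq_empty_iff_forall_notMem]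
    intro j hj
    rw [Finset.mem_inter, Finset.mem_Ico] at hj
    have := hcon j hj.1 hj.2.1
    omega
  rw [gn_congr (y := fun _ => 0), gn_zero]
  intro i hi
  rw [Finset.mem_Ico] at hi
  rw [cmb_grp hi.1 hi.2, hemp]
  simp [cmb]

theorem exists_sub {c : ℕ → (ℕ →₀ ℝ)} (hc : Pool.Agent.EBM.Block c) :
    ∃ u : ℕ → ℕ, StrictMono u ∧ ∀ r t, r < t → ∀ m m',
      gn m (cmb (c (u r)).support (c (u r))) ≠ 0 →
      gn m' (cmb (c (u t)).support (c (u t))) ≠ 0 → m < m' := by
  have hstep : ∀ k : ℕ, ∃ g : ℕ, k < g ∧ ∀ l, g ≤ l → ∀ m m',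
      gn m (cmb (c k).support (c k)) ≠ 0 → gn m' (cmb (c l).support (c l)) ≠ 0 → m < m' := by
    intro k
    refine ⟨k + 1 + bo ((c k).support.sup id + 1), by omega, ?_⟩
    intro l hl m m' h1 h2
    obtain ⟨j, hj, hj1, hj2⟩ := fu_exists h1
    obtain ⟨j', hj', hj1', hj2'⟩ := fu_exists h2
    have hJ : j ≤ (c k).support.sup id := Finset.le_sup (f := id) hj
    have hm : m ≤ bo m := bo_strictMono.le_apply
    have hlj := fu_index_le hc l j' hj'
    have h3 : bo ((c k).support.sup id + 1) < bo (m' + 1) := by omega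
    have h4 := bo_strictMono.lt_iff_lt.1 h3
    omega
  choose g hg1 hg2 using hstep
  refine ⟨fun n => Nat.rec 0 (fun _ x => g x) n, ?_, ?_⟩
  · apply strictMono_nat_of_lt_succ
    intro n
    exact hg1 _
  · intro r t hrt m m' h1 h2
    refine hg2 _ _ ?_ m m' h1 h2
    have hmono : StrictMono (fun n : ℕ => (Nat.rec 0 (fun _ x => g x) n : ℕ)) := by
      apply strictMono_nat_of_lt_succ
      intro n
      exact hg1 _
    exact hmono.monotone (Nat.succ_le_of_lt hrt)

end BMM
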