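import Pool.Agent.BMM.KD

open Finset

namespace BMM

/-- Growth of long flat sums (lower estimate with the type `j`). -/
theorem james_lower {κ b j s : ℕ} (hj : κ ≤ j) {x : ℕ → ℕ → ℝ} (hx : ∀ r, Fsn (x r))
    (hs : ∀ r t, r < t → Before (x r) (x t)) (h1 : ∀ r, 1 ≤ NN κ (x r)) :
    ((2 : ℝ) ^ b) ^ (aa j * s) ≤ (mm j : ℝ) * 2 ^ (b * s) *
      NN κ (fun l => ∑ r ∈ range ((2 ^ b) ^ (aa j * s)), x r l) := by
  obtain ⟨M, hM⟩ : ∃ M : ℕ, M = (2 ^ b) ^ (aa j * s) := ⟨_, rfl⟩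
  have hMr : (M : ℝ) = ((2 : ℝ) ^ b) ^ (aa j * s) := by rw [hM]; push_cast; rfl
  rw [← hM, ← hMr]
  have hm : (0 : ℝ) < (mm j : ℝ) := by
    have := mm_ge j
    have h2 : 0 < mm j := by omega
    exact_mod_cast h2
  have hp : (0 : ℝ) < (2 : ℝ) ^ (b * s) := by positivity
  have hD : (0 : ℝ) < (mm j : ℝ) * 2 ^ (b * s) := mul_pos hm hp
  have hadm : Adm j (fun _ : Fin M => 1 / ((mm j : ℝ) * 2 ^ (b * s))) := by
    have e1 : (mm j : ℝ) * (1 / ((mm j : ℝ) * 2 ^ (b * s))) = 1 / 2 ^ (b * s) := by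
      field_simp
    refine ⟨fun _ => by positivity, fun _ => ?_, ?_⟩
    · rw [e1]
      rw [div_le_one hp]
      exact one_le_pow₀ (by norm_num)
    · simp only [e1]
      rw [Finset.sum_const, Finset.card_univ, Fintype.card_fin, nsmul_eq_mul, hMr, div_pow, one_pow,
        ← pow_mul, ← pow_mul]
      have e2 : b * (aa j * s) = b * s * aa j := by ring
      rw [e2, mul_one_div_cancel (by positivity)]
      exact_mod_cast nn_pos j
  have hsep : Sep (fun t : Fin M => x t.val) := by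
    intro s' t' hne
    rcases lt_trichotomy s'.val t'.val with h | h | h
    · exact Or.inl (hs _ _ h)
    · exact absurd (Fin.ext h) hne
    · exact Or.inr (hs _ _ h)
  have h2 := NN_lower hj hadm (fun t => hx t.val) hsep
  have h3 : (M : ℝ) * (1 / ((mm j : ℝ) * 2 ^ (b * s))) ≤
      ∑ t : Fin M, 1 / ((mm j : ℝ) * 2 ^ (b * s)) * NN κ (x t.val) := by
    calc (M : ℝ) * (1 / ((mm j : ℝ) * 2 ^ (b * s)))
        = ∑ t : Fin M, 1 / ((mm j : ℝ) * 2 ^ (b * s)) := by
          rw [Finset.sum_const, Finset.card_univ, Fintype.card_fin, nsmul_eq_mul]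
      _ ≤ _ := Finset.sum_le_sum (fun t _ => by
          have h4 := h1 t.val
          have h5 : (0 : ℝ) ≤ 1 / ((mm j : ℝ) * 2 ^ (b * s)) := by positivity
          nlinarith [mul_le_mul_of_nonneg_left h4 h5])
  have h4 : (fun i => ∑ t : Fin M, x t.val i) = fun l => ∑ r ∈ range M, x r l := by
    funext l
    rw [Finset.sum_range]
  rw [h4] at h2
  have h5 := h3.trans h2
  rw [mul_one_div, div_le_iff₀ hD] at h5
  linarith

/-- Long flat sums are eventually larger than `(N/2)^h`. -/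
theorem james_exists {κ b : ℕ} {x : ℕ → ℕ → ℝ} (hx : ∀ r, Fsn (x r))
    (hs : ∀ r t, r < t → Before (x r) (x t)) (h1 : ∀ r, 1 ≤ NN κ (x r)) :
    ∃ h : ℕ, ((2 : ℝ) ^ b / 2) ^ h <
      NN κ (fun l => ∑ r ∈ range ((2 ^ b) ^ h), x r l) := by
  by_contra hcon
  push Not at hcon
  obtain ⟨j, hj⟩ : ∃ j : ℕ, j = max κ b := ⟨_, rfl⟩
  have hκj : κ ≤ j := hj ▸ le_max_left _ _
  have hbj : b ≤ j := hj ▸ le_max_right _ _
  have haj : b + 1 ≤ aa j := by
    have h2 := two_pow_le_aa j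
    have h3 : j + 1 < 2 ^ (j + 1) := Nat.lt_two_pow_self
    omega
  have hall : ∀ s : ℕ, (2 : ℝ) ^ s ≤ (mm j : ℝ) := by
    intro s
    have h2 := james_lower (s := s) (b := b) hκj hx hs h1
    have h3 := hcon (aa j * s)
    have hp : (0 : ℝ) < (mm j : ℝ) * 2 ^ (b * s) := by
      have := mm_ge j
      have h2 : 0 < mm j := by omega
      have h2' : (0 : ℝ) < (mm j : ℝ) := by exact_mod_cast h2
      positivity
    have h4 := h2.trans (mul_le_mul_of_nonneg_left h3 hp.le)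
    rw [div_pow, mul_div_assoc', le_div_iff₀ (by positivity)] at h4
    have h5 : (0 : ℝ) < ((2 : ℝ) ^ b) ^ (aa j * s) := by positivity
    have h6 : (2 : ℝ) ^ (aa j * s) ≤ (mm j : ℝ) * 2 ^ (b * s) := by
      rw [mul_comm] at h4
      exact le_of_mul_le_mul_right h4 h5
    have h7 : (2 : ℝ) ^ (b * s) * 2 ^ s ≤ 2 ^ (aa j * s) := by
      rw [← pow_add]
      refine pow_le_pow_right₀ (by norm_num) ?_
      calc b * s + s = (b + 1) * s := by ring
        _ ≤ aa j * s := Nat.mul_le_mul_right s haj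
    have h8 : (2 : ℝ) ^ s * 2 ^ (b * s) ≤ (mm j : ℝ) * 2 ^ (b * s) := by
      rw [mul_comm]
      exact h7.trans h6
    exact le_of_mul_le_mul_right h8 (by positivity)
  have h9 := hall (mm j)
  have h10 : (2 : ℕ) ^ (mm j) ≤ mm j := by exact_mod_cast h9
  exact absurd h10 (not_le.mpr Nat.lt_two_pow_self)

end BMM
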