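import Pool.Agent.BMM.JA

open Finset

namespace BMM

/-- James' argument. -/
theorem james {κ b : ℕ} {x : ℕ → ℕ → ℝ} (hx : ∀ r, Fsn (x r)) (h0 : ∀ r, x r ≠ 0)
    (hs : ∀ r t, r < t → Before (x r) (x t)) :
    ∃ (c : ℕ → ℝ) (u : ℕ → ℕ), (∀ s, 0 ≤ c s) ∧ (∀ r, u r < u (r + 1)) ∧
      (∀ r < 2 ^ b, NN κ (fun l => ∑ s ∈ Ico (u r) (u (r + 1)), c s * x s l) ≤ 1) ∧
      (2 : ℝ) ^ b / 2 < NN κ (fun l => ∑ s ∈ Ico (u 0) (u (2 ^ b)), c s * x s l) := by
  classical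
  have hNpos : ∀ r, 0 < NN κ (x r) := fun r => NN_pos (hx r) (h0 r)
  obtain ⟨N, hN⟩ : ∃ N : ℕ, N = 2 ^ b := ⟨_, rfl⟩
  have hN0 : 0 < N := by rw [hN]; positivity
  have hNR : (0 : ℝ) < (N : ℝ) := by exact_mod_cast hN0
  have hNc : (2 : ℝ) ^ b = (N : ℝ) := by rw [hN]; push_cast; rfl
  obtain ⟨y, hy⟩ : ∃ y : ℕ → ℕ → ℝ, y = fun r l => (1 / NN κ (x r)) * x r l := ⟨_, rfl⟩
  have hyF : ∀ r, Fsn (y r) := by
    intro r
    rw [hy]
    exact Fsn_smul (hx r) (by have := hNpos r; positivity)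
  have hy1 : ∀ r, NN κ (y r) = 1 := by
    intro r
    have h2 : y r = fun l => (1 / NN κ (x r)) * x r l := by rw [hy]
    rw [h2, NN_smul (hx r) (by have := hNpos r; positivity)]
    have := hNpos r
    field_simp
  have hyS : ∀ r t, r < t → Before (y r) (y t) := by
    intro r t hrt i j hi hj
    apply hs r t hrt i j
    · intro h
      apply hi
      rw [hy]
      simp [h]
    · intro h
      apply hj
      rw [hy]
      simp [h]
  obtain ⟨X, hX⟩ : ∃ X : ℕ → ℕ → ℕ → ℝ, X = fun h s l =>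
    (2 / (N : ℝ)) ^ h * ∑ r ∈ Ico (s * N ^ h) ((s + 1) * N ^ h), y r l := ⟨_, rfl⟩
  have hXF : ∀ (h : ℕ) (A B : ℕ), Fsn (fun l => ∑ r ∈ Ico A B, y r l) :=
    fun h A B => Fsn_sum (Ico A B) (fun t _ => hyF t)
  obtain ⟨P, hP⟩ : ∃ P : ℕ → Prop, P = fun h => ∃ s, 1 < NN κ (X h s) := ⟨_, rfl⟩
  have hex : ∃ h, P h := by
    obtain ⟨h, hh⟩ := james_exists (κ := κ) (b := b) hyF hyS (fun r => (hy1 r).ge)
    refine ⟨h, ?_⟩
    rw [hP]
    refine ⟨0, ?_⟩
    have h2 : X h 0 = fun l => (2 / (N : ℝ)) ^ h * ∑ r ∈ range (N ^ h), y r l := by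
      rw [hX]
      funext l
      simp
    rw [h2, NN_smul (Fsn_sum (range (N ^ h)) (fun t _ => hyF t)) (by positivity)]
    rw [hNc, ← hN] at hh
    have h3 : (2 / (N : ℝ)) ^ h * ((N : ℝ) / 2) ^ h = 1 := by
      rw [← mul_pow]
      have : (2 / (N : ℝ)) * ((N : ℝ) / 2) = 1 := by field_simp
      rw [this, one_pow]
    calc (1 : ℝ) = (2 / (N : ℝ)) ^ h * ((N : ℝ) / 2) ^ h := h3.symm
      _ < _ := by
        apply mul_lt_mul_of_pos_left hh
        positivity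
  have hP0 : ¬ P 0 := by
    rw [hP]
    rintro ⟨s, hs1⟩
    have h2 : X 0 s = y s := by
      rw [hX]
      funext l
      simp
    rw [h2, hy1] at hs1
    exact lt_irrefl _ hs1
  obtain ⟨m, hm, hPm⟩ : ∃ m, P (m + 1) ∧ ¬ P m := by
    have h1 := Nat.find_spec hex
    have h2 : Nat.find hex ≠ 0 := by
      intro h
      rw [h] at h1
      exact hP0 h1
    obtain ⟨m, hm⟩ := Nat.exists_eq_succ_of_ne_zero h2
    refine ⟨m, ?_, ?_⟩
    · rw [hm] at h1
      exact h1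
    · exact Nat.find_min hex (by omega)
  rw [hP] at hm hPm
  obtain ⟨s, hs1⟩ := hm
  push Not at hPm
  have hc : ∀ (A B : ℕ), (fun l => ∑ t ∈ Ico A B, ((2 / (N : ℝ)) ^ m / NN κ (x t)) * x t l) =
      fun l => (2 / (N : ℝ)) ^ m * ∑ t ∈ Ico A B, y t l := by
    intro A B
    funext l
    rw [Finset.mul_sum]
    apply Finset.sum_congr rfl
    intro t _
    rw [hy]
    simp only
    ring
  refine ⟨fun t => (2 / (N : ℝ)) ^ m / NN κ (x t), fun r => (s * N + r) * N ^ m, ?_, ?_, ?_, ?_⟩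
  · intro t
    have := hNpos t
    positivity
  · intro r
    have h2 : 0 < N ^ m := by positivity
    have : (s * N + (r + 1)) * N ^ m = (s * N + r) * N ^ m + N ^ m := by ring
    simp only
    omega
  · intro r _
    have h2 := hPm (s * N + r)
    simp only
    rw [hc]
    have h3 : X m (s * N + r) = fun l => (2 / (N : ℝ)) ^ m *
        ∑ t ∈ Ico ((s * N + r) * N ^ m) ((s * N + (r + 1)) * N ^ m), y t l := by
      rw [hX]
      simp only [add_assoc]
    rw [h3] at h2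
    exact h2
  · simp only
    rw [hc]
    have h3 : X (m + 1) s = fun l => (2 / (N : ℝ)) *
        ((2 / (N : ℝ)) ^ m * ∑ t ∈ Ico ((s * N + 0) * N ^ m) ((s * N + 2 ^ b) * N ^ m), y t l) := by
      rw [hX]
      funext l
      simp only
      rw [← hN]
      have e1 : (s * N + 0) * N ^ m = s * N ^ (m + 1) := by ring
      have e2 : (s * N + N) * N ^ m = (s + 1) * N ^ (m + 1) := by ring
      rw [e1, e2]
      ring
    rw [h3, NN_smul (Fsn_smul (hXF 0 _ _) (by positivity)) (by positivity)] at hs1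
    rw [hNc]
    have h4 : (N : ℝ) / 2 * (2 / (N : ℝ)) = 1 := by field_simp
    have h5 := mul_lt_mul_of_pos_left hs1 (by positivity : (0 : ℝ) < (N : ℝ) / 2)
    rw [← mul_assoc, h4, one_mul, mul_one] at h5
    exact h5

end BMM
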