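import Pool.Agent.BMM.JD

open Finset

namespace BMM

theorem JE_fsn {x : ℕ → ℕ → ℝ} (hx : ∀ r, Fsn (x r)) {c : ℕ → ℝ} (hc : ∀ s, 0 ≤ c s)
    (s t : ℕ) : Fsn (blk x c s t) :=
  Fsn_sum (Ico s t) (z := fun r l => c r * x r l) (fun r _ => Fsn_smul (hx r) (hc r))

theorem JE_bdd {z : ℕ → ℝ} (hz : Fsn z) : ∃ S : ℝ, ∀ M, ∑ l ∈ range M, z l ≤ S := by
  obtain ⟨h0, M₀, hM₀⟩ := hz
  refine ⟨∑ l ∈ range M₀, z l, fun M => ?_⟩
  rcases le_total M M₀ with h | h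
  · exact sum_le_sum_of_subset_of_nonneg (range_mono h) (fun i _ _ => h0 i)
  · apply le_of_eq
    symm
    apply sum_subset (range_mono h)
    intro i _ hi
    apply hM₀
    simpa using hi

/-- The recursive choice of a rapidly increasing sequence of averages. -/
theorem ris_seq {x : ℕ → ℕ → ℝ} (hx : ∀ r, Fsn (x r)) (h0 : ∀ r, x r ≠ 0)
    (hs : ∀ r t, r < t → Before (x r) (x t)) :
    ∃ (κ u : ℕ → ℕ) (c : ℕ → ℝ), StrictMono κ ∧ StrictMono u ∧ (∀ s, 0 ≤ c s) ∧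
      (∀ i, IsAvg (κ i) (blk x c (u i) (u (i + 1)))) ∧
      (∀ i M, ∑ l ∈ range M, blk x c (u i) (u (i + 1)) l ≤
        (1 / 2 ^ (κ i + 1)) * (mm (κ (i + 1)) : ℝ)) := by
  have hstep : ∀ p : ℕ × ℕ, ∃ (q : ℕ × ℕ) (c : ℕ → ℝ), p.1 < q.1 ∧ p.2 < q.2 ∧
      (∀ s, 0 ≤ c s) ∧ IsAvg p.1 (blk x c p.2 q.2) ∧
      ∀ M, ∑ l ∈ range M, blk x c p.2 q.2 l ≤ (1 / 2 ^ (p.1 + 1)) * (mm q.1 : ℝ) := by
    rintro ⟨k, v⟩
    obtain ⟨c, s₁, hlt, hc, hav⟩ := avg_exists k v hx h0 hs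
    obtain ⟨S, hS⟩ := JE_bdd (JE_fsn hx hc v s₁)
    obtain ⟨k', hk', hm⟩ := mm_unbounded ⌈S * 2 ^ (k + 1)⌉₊ (k + 1)
    refine ⟨(k', s₁), c, hk', hlt, hc, hav, fun M => ?_⟩
    have h1 : S * 2 ^ (k + 1) ≤ (mm k' : ℝ) :=
      (Nat.le_ceil _).trans (by exact_mod_cast hm)
    have h2 : (0 : ℝ) < 2 ^ (k + 1) := by positivity
    calc ∑ l ∈ range M, blk x c v s₁ l ≤ S := hS M
      _ = (1 / 2 ^ (k + 1)) * (S * 2 ^ (k + 1)) := by field_simp
      _ ≤ (1 / 2 ^ (k + 1)) * (mm k' : ℝ) := by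
          apply mul_le_mul_of_nonneg_left h1
          positivity
  choose F C hF using hstep
  let st : ℕ → ℕ × ℕ := fun i => Nat.rec (0, 0) (fun _ p => F p) i
  have hst : ∀ i, st (i + 1) = F (st i) := fun i => rfl
  have hκ : StrictMono (fun i => (st i).1) := by
    apply strictMono_nat_of_lt_succ
    intro i
    show (st i).1 < (st (i + 1)).1
    rw [hst]
    exact (hF (st i)).1
  have hu : StrictMono (fun i => (st i).2) := by
    apply strictMono_nat_of_lt_succ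
    intro i
    show (st i).2 < (st (i + 1)).2
    rw [hst]
    exact (hF (st i)).2.1
  let idx : ℕ → ℕ := fun s => Nat.findGreatest (fun i => (st i).2 ≤ s) s
  have hidx : ∀ i s, (st i).2 ≤ s → s < (st (i + 1)).2 → idx s = i := by
    intro i s h1 h2
    have hle : i ≤ (st i).2 := hu.le_apply
    have h3 : i ≤ idx s := Nat.le_findGreatest (hle.trans h1) h1
    have h4 : (st (idx s)).2 ≤ s :=
      Nat.findGreatest_spec (P := fun i => (st i).2 ≤ s) (hle.trans h1) h1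
    have h5 : idx s < i + 1 := hu.lt_iff_lt.1 (h4.trans_lt h2)
    omega
  have hblk : ∀ i, blk x (fun s => C (st (idx s)) s) (st i).2 (st (i + 1)).2 =
      blk x (C (st i)) (st i).2 (st (i + 1)).2 := by
    intro i
    funext l
    unfold blk
    apply sum_congr rfl
    intro r hr
    rw [mem_Ico] at hr
    show C (st (idx r)) r * x r l = C (st i) r * x r l
    rw [hidx i r hr.1 hr.2]
  refine ⟨fun i => (st i).1, fun i => (st i).2, fun s => C (st (idx s)) s, hκ, hu,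
    fun s => (hF _).2.2.1 s, fun i => ?_, fun i M => ?_⟩
  · show IsAvg (st i).1 (blk x (fun s => C (st (idx s)) s) (st i).2 (st (i + 1)).2)
    rw [hblk, hst]
    exact (hF (st i)).2.2.2.1
  · show ∑ l ∈ range M, blk x (fun s => C (st (idx s)) s) (st i).2 (st (i + 1)).2 l ≤
      (1 / 2 ^ ((st i).1 + 1)) * (mm (st (i + 1)).1 : ℝ)
    rw [hblk, hst]
    exact (hF (st i)).2.2.2.2 M

end BMM
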