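import Pool.Agent.BMM.Par

open Finset

namespace BMM

/-- At most one member of a separated family is nonzero at a given index. -/
theorem Sep_unique {ι : Type} {f : ι → ℕ → ℝ} (hs : Sep f) {s t : ι} {i : ℕ} (h1 : f s i ≠ 0)
    (h2 : f t i ≠ 0) : s = t := by
  by_contra hne
  rcases hs s t hne with h | h
  · exact absurd (h i i h1 h2) (lt_irrefl i)
  · exact absurd (h i i h2 h1) (lt_irrefl i)

/-- Restricting the members of a separated family keeps it separated. -/
theorem Sep_ind {ι : Type} {f : ι → ℕ → ℝ} (hs : Sep f) (S : ι → Set ℕ) :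
    Sep (fun t => (S t).indicator (f t)) := by
  classical
  have key : ∀ t i, (S t).indicator (f t) i ≠ 0 → f t i ≠ 0 := by
    intro t i h h0
    apply h
    rw [Set.indicator_apply, h0]
    simp
  intro s t hst
  rcases hs s t hst with h | h
  · exact Or.inl (fun i j hi hj => h i j (key s i hi) (key t j hj))
  · exact Or.inr (fun i j hi hj => h i j (key t i hi) (key s j hj))

theorem KA_sum_le {ι : Type} [Fintype ι] {lam : ι → ℝ} {f : ι → ℕ → ℝ} (hs : Sep f) {i : ℕ}
    {c : ℝ} (hc : 0 ≤ c) (h : ∀ t, lam t * f t i ≤ c) : ∑ t, lam t * f t i ≤ c := by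
  classical
  by_cases h0 : ∀ t, f t i = 0
  · have h1 : ∑ t, lam t * f t i = 0 := Finset.sum_eq_zero (fun t _ => by rw [h0 t, mul_zero])
    rw [h1]
    exact hc
  · push Not at h0
    obtain ⟨t0, ht0⟩ := h0
    rw [Finset.sum_eq_single t0]
    · exact h t0
    · intro t _ htt
      by_cases h2 : f t i = 0
      · rw [h2, mul_zero]
      · exact absurd (Sep_unique hs h2 ht0) htt
    · intro h3
      exact absurd (Finset.mem_univ _) h3

theorem KS_nonneg {k : ℕ} {f : ℕ → ℝ} (h : KS k f) (i : ℕ) : 0 ≤ f i := by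
  induction h with
  | leaf k l =>
    rw [Pi.single_apply]
    split_ifs <;> norm_num
  | node k j hkj ι inst lam f hl hf hs ih =>
    exact Finset.sum_nonneg (fun t _ => mul_nonneg (hl.1 t) (ih t))

theorem KA_mm_pos (k : ℕ) : (0 : ℝ) < (mm k : ℝ) := by
  have h := mm_ge k
  have h1 : (8 : ℝ) ≤ (mm k : ℝ) := by exact_mod_cast h
  linarith

theorem KA_lam_le {ι : Type} [Fintype ι] {j : ℕ} {lam : ι → ℝ} (h : Adm j lam) (t : ι) :
    lam t ≤ 1 := by
  have h0 := mm_ge j
  have h1 : (8 : ℝ) ≤ (mm j : ℝ) := by exact_mod_cast h0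
  have h2 := h.2.1 t
  have h3 := h.1 t
  nlinarith

theorem KS_le_one {k : ℕ} {f : ℕ → ℝ} (h : KS k f) (i : ℕ) : f i ≤ 1 := by
  induction h with
  | leaf k l =>
    rw [Pi.single_apply]
    split_ifs <;> norm_num
  | node k j hkj ι inst lam f hl hf hs ih =>
    refine KA_sum_le hs zero_le_one (fun t => ?_)
    exact mul_le_one₀ (KA_lam_le hl t) (KS_nonneg (hf t) i) (ih t)

theorem KA_node_le {k j : ℕ} (hkj : k ≤ j) {ι : Type} [Fintype ι] {lam : ι → ℝ} {f : ι → ℕ → ℝ}
    (hl : Adm j lam) (hf : ∀ t, KS (j + 1) (f t)) (hs : Sep f) (i : ℕ) :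
    (mm k : ℝ) * ∑ t, lam t * f t i ≤ 1 := by
  have hk := KA_mm_pos k
  have hmono : (mm k : ℝ) ≤ (mm j : ℝ) := by exact_mod_cast mm_mono.monotone hkj
  rw [Finset.mul_sum]
  have h1 : ∀ t, (mm k : ℝ) * (lam t * f t i) = ((mm k : ℝ) * lam t) * f t i := fun t => by ring
  rw [Finset.sum_congr rfl (fun t _ => h1 t)]
  refine KA_sum_le (lam := fun t => (mm k : ℝ) * lam t) hs zero_le_one (fun t => ?_)
  have h2 : (mm k : ℝ) * lam t ≤ 1 :=
    (mul_le_mul_of_nonneg_right hmono (hl.1 t)).trans (hl.2.1 t)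
  exact mul_le_one₀ h2 (KS_nonneg (hf t) i) (KS_le_one (hf t) i)

theorem KS_anti {k k' : ℕ} {f : ℕ → ℝ} (hk : k' ≤ k) (h : KS k f) : KS k' f := by
  cases h with
  | leaf _ l => exact KS.leaf k' _
  | node _ j hkj ι inst lam f hl hf hs => exact KS.node k' j (hk.trans hkj) ι inst lam f hl hf hs

theorem KS_zero (k : ℕ) : KS k (fun _ => 0) := by
  have h := KS.node k k le_rfl Empty inferInstance (fun _ => 0) (fun _ _ => 0)
    ⟨fun t => t.elim, fun t => t.elim, by
      simp only [Finset.univ_eq_empty, Finset.sum_empty]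
      exact Nat.cast_nonneg _⟩ (fun t => t.elim) (fun t => t.elim)
  have h1 : (fun i : ℕ => ∑ t : Empty, (0 : ℝ) * (0 : ℝ)) = fun _ => 0 := by
    funext i
    simp
  rw [h1] at h
  exact h

theorem KS_ind {k : ℕ} {f : ℕ → ℝ} (h : KS k f) (S : Set ℕ) : KS k (S.indicator f) := by
  classical
  induction h with
  | leaf k l =>
    by_cases hl : l ∈ S
    · have h1 : S.indicator (Pi.single l (1 : ℝ)) = Pi.single l 1 := by
        funext i
        rw [Set.indicator_apply]
        split_ifs with hi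
        · rfl
        · rw [Pi.single_apply, if_neg]
          rintro rfl
          exact hi hl
      rw [h1]
      exact KS.leaf k l
    · have h1 : S.indicator (Pi.single l (1 : ℝ)) = fun _ => 0 := by
        funext i
        rw [Set.indicator_apply]
        split_ifs with hi
        · rw [Pi.single_apply, if_neg]
          rintro rfl
          exact hl hi
        · rfl
      rw [h1]
      exact KS_zero k
  | node k j hkj ι inst lam f hl hf hs ih =>
    have h1 : S.indicator (fun i => ∑ t, lam t * f t i) =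
        fun i => ∑ t, lam t * (S.indicator (f t)) i := by
      funext i
      by_cases hi : i ∈ S
      · rw [Set.indicator_of_mem hi]
        exact Finset.sum_congr rfl (fun t _ => by rw [Set.indicator_of_mem hi])
      · rw [Set.indicator_of_notMem hi]
        symm
        exact Finset.sum_eq_zero (fun t _ => by rw [Set.indicator_of_notMem hi, mul_zero])
    rw [h1]
    exact KS.node k j hkj ι inst lam (fun t => S.indicator (f t)) hl ih (Sep_ind hs (fun _ => S))

theorem KS_fs {k : ℕ} {f : ℕ → ℝ} (h : KS k f) : ∃ M, ∀ i, M ≤ i → f i = 0 := by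
  induction h with
  | leaf k l =>
    refine ⟨l + 1, fun i hi => ?_⟩
    rw [Pi.single_apply, if_neg]
    omega
  | node k j hkj ι inst lam f hl hf hs ih =>
    choose M hM using ih
    refine ⟨∑ t, M t, fun i hi => ?_⟩
    refine Finset.sum_eq_zero (fun t _ => ?_)
    have h1 : M t ≤ ∑ t, M t := Finset.single_le_sum (fun _ _ => Nat.zero_le _) (Finset.mem_univ t)
    rw [hM t i (h1.trans hi), mul_zero]

theorem KS_leaf_or {k : ℕ} {f : ℕ → ℝ} (h : KS k f) :
    (∃ l, f = Pi.single l 1) ∨ ∀ i, (mm k : ℝ) * f i ≤ 1 := by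
  cases h with
  | leaf _ l => exact Or.inl ⟨_, rfl⟩
  | node _ j hkj ι inst lam f hl hf hs => exact Or.inr (fun i => KA_node_le hkj hl hf hs i)

theorem KS_cases3 {k : ℕ} {f : ℕ → ℝ} (h : KS k f) :
    (∃ l, f = Pi.single l 1) ∨
    (∃ (ι : Type) (_ : Fintype ι) (lam : ι → ℝ) (g : ι → ℕ → ℝ), Adm k lam ∧
      (∀ t, KS (k + 1) (g t)) ∧ Sep g ∧ f = fun i => ∑ t, lam t * g t i) ∨
    (∀ i, (mm (k + 1) : ℝ) * f i ≤ 1) := by
  cases h with
  | leaf _ l => exact Or.inl ⟨_, rfl⟩
  | node _ j hkj ι inst lam f hl hf hs =>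
    rcases eq_or_lt_of_le hkj with hj | hj
    · subst hj
      exact Or.inr (Or.inl ⟨ι, inst, lam, f, hl, hf, hs, rfl⟩)
    · exact Or.inr (Or.inr (fun i => KA_node_le hj hl hf hs i))

/-- A node of type `j ≥ k` is in `K_j` as well. -/
theorem KS_node' {j : ℕ} {ι : Type} [Fintype ι] {lam : ι → ℝ} {f : ι → ℕ → ℝ}
    (hl : Adm j lam) (hf : ∀ t, KS (j + 1) (f t)) (hs : Sep f) :
    KS j (fun i => ∑ t, lam t * f t i) := by
  exact KS.node j j le_rfl ι inferInstance lam f hl hf hs


end BMM
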