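import Pool.Agent.BMM.KA

open Finset

namespace BMM

theorem KB_mm_pos (j : ℕ) : (0 : ℝ) < (mm j : ℝ) := by
  have := mm_ge j
  exact_mod_cast (by omega : 0 < mm j)

theorem KB_le_one {m l : ℝ} (hm : 1 ≤ m) (h0 : 0 ≤ l) (h : m * l ≤ 1) : l ≤ 1 := by
  nlinarith

theorem KB_Adm_le_one {ι : Type} [Fintype ι] {j : ℕ} {lam : ι → ℝ} (h : Adm j lam) (t : ι) :
    lam t ≤ 1 := by
  refine KB_le_one (m := (mm j : ℝ)) ?_ (h.1 t) (h.2.1 t)
  have := mm_ge j
  exact_mod_cast (by omega : 1 ≤ mm j)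

/-- Admissible families of type `j < κ` satisfy `∑ lam^(A_κ) ≤ 1`. -/
theorem Adm_pow_le {ι : Type} [Fintype ι] {j κ : ℕ} {lam : ι → ℝ} (h : Adm j lam) (hj : j < κ) :
    ∑ t, lam t ^ (aA κ) ≤ 1 := by
  have hm := KB_mm_pos j
  have ha : aa j ≤ aA κ := by
    rw [aa_eq]
    exact aA_mono hj
  have hnn : (nn j : ℝ) ≤ (mm j : ℝ) ^ aa j := by exact_mod_cast nn_le_pow j
  have hmp : (0 : ℝ) < (mm j : ℝ) ^ aa j := pow_pos hm _
  have h1 : ∑ t, lam t ^ (aA κ) ≤ ∑ t, ((mm j : ℝ) * lam t) ^ (aa j) / (mm j : ℝ) ^ aa j := by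
    apply Finset.sum_le_sum
    intro t _
    rw [mul_pow, mul_div_cancel_left₀ _ hmp.ne']
    exact pow_le_pow_of_le_one (h.1 t) (KB_Adm_le_one h t) ha
  rw [← Finset.sum_div] at h1
  refine h1.trans ?_
  rw [div_le_one hmp]
  exact h.2.2.trans hnn

theorem Adm_le_one {ι : Type} [Fintype ι] {j : ℕ} {lam : ι → ℝ} (h : Adm j lam) (t : ι) :
    lam t ≤ 1 := KB_Adm_le_one h t

/-- Flattening a composition: if `f t` are separated and flat, `lam ≥ 0`, then `∑ lam_t f_t`
has a representation over the sigma type with coefficients `lam_t mu^t_P`. -/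
theorem Flat_comp {κ : ℕ} {ι : Type} [Fintype ι] {lam : ι → ℝ} {f : ι → ℕ → ℝ}
    (hf0 : ∀ t i, 0 ≤ f t i) (hs : Sep f) (hf : ∀ t, Flat κ (f t)) :
    ∃ (γ : ι → Type) (_ : ∀ t, Fintype (γ t)) (mu : (t : ι) → γ t → ℝ)
      (g : (t : ι) → γ t → ℕ → ℝ),
      (∀ t P, 0 ≤ mu t P ∧ mu t P ≤ 1) ∧ (∀ t, ∑ P, mu t P ^ (aA κ) ≤ 1) ∧
      (∀ t P, KS κ (g t P)) ∧
      (Sep (fun x : (t : ι) × γ t => g x.1 x.2)) ∧
      (∀ t, f t = fun i => ∑ P, mu t P * g t P i) ∧
      ((fun i => ∑ t, lam t * f t i) =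
        fun i => ∑ x : (t : ι) × γ t, (lam x.1 * mu x.1 x.2) * g x.1 x.2 i) := by
  choose γ inst mu g h1 h2 h3 h4 h5 using hf
  have hsum : ∀ t, f t = fun i => ∑ P, mu t P * ({i | f t i ≠ 0} : Set ℕ).indicator (g t P) i := by
    intro t
    funext i
    by_cases hi : f t i = 0
    · have hz : ∀ P, ({i | f t i ≠ 0} : Set ℕ).indicator (g t P) i = 0 := by
        intro P
        apply Set.indicator_of_notMem
        simp [hi]
      simp only [hz, mul_zero, Finset.sum_const_zero]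
      exact hi
    · have hz : ∀ P, ({i | f t i ≠ 0} : Set ℕ).indicator (g t P) i = g t P i := by
        intro P
        apply Set.indicator_of_mem
        exact hi
      simp only [hz]
      exact congrFun (h5 t) i
  refine ⟨γ, inst, mu, fun t P => ({i | f t i ≠ 0} : Set ℕ).indicator (g t P), h1, h2,
    fun t P => KS_ind (h3 t P) _, ?_, hsum, ?_⟩
  · have hnz : ∀ (t : ι) (P : γ t) (i : ℕ), ({i | f t i ≠ 0} : Set ℕ).indicator (g t P) i ≠ 0 →
        f t i ≠ 0 ∧ g t P i ≠ 0 := by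
      intro t P i hi
      by_cases hm : i ∈ ({i | f t i ≠ 0} : Set ℕ)
      · rw [Set.indicator_of_mem hm] at hi
        exact ⟨hm, hi⟩
      · rw [Set.indicator_of_notMem hm] at hi
        exact absurd rfl hi
    rintro ⟨s, P⟩ ⟨t, Q⟩ hne
    by_cases hst : s = t
    · subst hst
      have hPQ : P ≠ Q := fun e => hne (by rw [e])
      rcases h4 s P Q hPQ with hb | hb
      · left
        intro i j hi hj
        exact hb i j (hnz s P i hi).2 (hnz s Q j hj).2
      · right
        intro i j hi hj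
        exact hb i j (hnz s Q i hi).2 (hnz s P j hj).2
    · rcases hs s t hst with hb | hb
      · left
        intro i j hi hj
        exact hb i j (hnz s P i hi).1 (hnz t Q j hj).1
      · right
        intro i j hi hj
        exact hb i j (hnz t Q i hi).1 (hnz s P j hj).1
  · funext i
    rw [Fintype.sum_sigma]
    apply Finset.sum_congr rfl
    intro t _
    rw [congrFun (hsum t) i, Finset.mul_sum]
    apply Finset.sum_congr rfl
    intro P _
    ring

theorem KB_flat_self {κ : ℕ} {f : ℕ → ℝ} (h : KS κ f) : Flat κ f := by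
  refine ⟨Unit, inferInstance, fun _ => 1, fun _ => f, fun _ => ⟨zero_le_one, le_rfl⟩, ?_, fun _ => h, ?_, ?_⟩
  · simp
  · intro s t hst
    exact absurd (Subsingleton.elim s t) hst
  · funext i
    simp

/-- Flattening. -/
theorem KS_flat {k : ℕ} {f : ℕ → ℝ} (h : KS k f) (κ : ℕ) : Flat κ f := by
  induction h with
  | leaf k l => exact KB_flat_self (KS.leaf κ l)
  | node k j hkj ι inst lam f hl hf hs ih =>
    by_cases hj : κ ≤ j
    · exact KB_flat_self (KS.node κ j hj ι inst lam f hl hf hs)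
    · push Not at hj
      obtain ⟨γ, inst', mu, g, h1, h2, h3, h4, _, h6⟩ :=
        Flat_comp (lam := lam) (fun t i => KS_nonneg (hf t) i) hs ih
      refine ⟨(t : ι) × γ t, inferInstance, fun x => lam x.1 * mu x.1 x.2, fun x => g x.1 x.2, ?_, ?_,
        fun x => h3 x.1 x.2, h4, h6⟩
      · intro x
        have ha := hl.1 x.1
        have hb := Adm_le_one hl x.1
        have hc := h1 x.1 x.2
        exact ⟨mul_nonneg ha hc.1, mul_le_one₀ hb hc.1 hc.2⟩
      · rw [Fintype.sum_sigma]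
        refine le_trans ?_ (Adm_pow_le hl hj)
        apply Finset.sum_le_sum
        intro t _
        have e : ∑ P, (lam t * mu t P) ^ aA κ = lam t ^ aA κ * ∑ P, mu t P ^ aA κ := by
          rw [Finset.mul_sum]
          apply Finset.sum_congr rfl
          intro P _
          rw [mul_pow]
        calc ∑ P, (lam t * mu t P) ^ aA κ = lam t ^ aA κ * ∑ P, mu t P ^ aA κ := e
          _ ≤ lam t ^ aA κ * 1 := mul_le_mul_of_nonneg_left (h2 t) (pow_nonneg (hl.1 t) _)
          _ = lam t ^ aA κ := mul_one _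

end BMM
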