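import Pool.Agent.BMM.KB

open Finset

namespace BMM

/-- Closure of `K_k` under all operations of type `j ≥ k`, with arbitrary members of `K_k`. -/
theorem KS_closed {k j : ℕ} (hkj : k ≤ j) {ι : Type} [Fintype ι] {lam : ι → ℝ} {f : ι → ℕ → ℝ}
    (hl : Adm j lam) (hf : ∀ t, KS k (f t)) (hs : Sep f) :
    KS k (fun i => ∑ t, lam t * f t i) := by
  obtain ⟨γ, inst, mu, g, h1, h2, h3, h4, h5, h6⟩ :=
    Flat_comp (κ := j + 1) (lam := lam) (fun t i => KS_nonneg (hf t) i) hs
      (fun t => KS_flat (hf t) (j + 1))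
  rw [h6]
  refine KS.node k j hkj ((t : ι) × γ t) inferInstance (fun x => lam x.1 * mu x.1 x.2)
    (fun x => g x.1 x.2) ⟨?_, ?_, ?_⟩ (fun x => h3 x.1 x.2) h4
  · intro x
    exact mul_nonneg (hl.1 x.1) (h1 x.1 x.2).1
  · intro x
    have e1 : (mm j : ℝ) * (lam x.1 * mu x.1 x.2) = ((mm j : ℝ) * lam x.1) * mu x.1 x.2 := by ring
    rw [e1]
    exact mul_le_one₀ (hl.2.1 x.1) (h1 x.1 x.2).1 (h1 x.1 x.2).2
  · rw [Fintype.sum_sigma]
    refine le_trans (Finset.sum_le_sum (fun t _ => ?_)) hl.2.2
    have e1 : ∀ P : γ t, ((mm j : ℝ) * (lam t * mu t P)) ^ aa j =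
        ((mm j : ℝ) * lam t) ^ aa j * mu t P ^ aa j := fun P => by
      rw [← mul_pow]
      ring
    rw [Finset.sum_congr rfl (fun P _ => e1 P), ← Finset.mul_sum]
    have e2 : 0 ≤ ((mm j : ℝ) * lam t) ^ aa j :=
      pow_nonneg (mul_nonneg (Nat.cast_nonneg _) (hl.1 t)) _
    have e3 : ∑ P, mu t P ^ aa j ≤ 1 := h2 t
    exact mul_le_of_le_one_right e2 e3

/-- Substitution. -/
theorem KS_subst {f : ℕ → ℝ} (hf : KS 0 f) (g : ℕ → ℕ → ℝ) (hg : ∀ i, KS 0 (g i))
    (hs : ∀ i j, i < j → Before (g i) (g j)) (M : ℕ) :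
    KS 0 (fun l => ∑ i ∈ range M, f i * g i l) := by
  have key : ∀ (k : ℕ) (f : ℕ → ℝ), KS k f → KS 0 (fun l => ∑ i ∈ range M, f i * g i l) := by
    intro k f h
    induction h with
    | leaf k l =>
      by_cases hl : l < M
      · have e1 : (fun l' => ∑ i ∈ range M, (Pi.single l (1 : ℝ) : ℕ → ℝ) i * g i l') = g l := by
          funext l'
          rw [Finset.sum_eq_single l]
          · rw [Pi.single_eq_same, one_mul]
          · intro i _ hi
            rw [Pi.single_eq_of_ne hi, zero_mul]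
          · intro h1
            exact absurd (Finset.mem_range.mpr hl) h1
        rw [e1]
        exact hg l
      · have e1 : (fun l' => ∑ i ∈ range M, (Pi.single l (1 : ℝ) : ℕ → ℝ) i * g i l') =
            fun _ => 0 := by
          funext l'
          refine Finset.sum_eq_zero (fun i hi => ?_)
          rw [Finset.mem_range] at hi
          rw [Pi.single_eq_of_ne (by omega), zero_mul]
        rw [e1]
        exact KS_zero 0
    | node k j hkj ι inst lam f hl hf hs' ih =>
      have e1 : (fun l => ∑ i ∈ range M, (∑ t, lam t * f t i) * g i l) =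
          fun l => ∑ t, lam t * (∑ i ∈ range M, f t i * g i l) := by
        funext l
        simp only [Finset.sum_mul, Finset.mul_sum]
        rw [Finset.sum_comm]
        exact Finset.sum_congr rfl (fun t _ => Finset.sum_congr rfl (fun i _ => by ring))
      rw [e1]
      refine KS_closed (Nat.zero_le j) hl ih ?_
      have key2 : ∀ s t, Before (f s) (f t) →
          Before (fun l => ∑ i ∈ range M, f s i * g i l) (fun l => ∑ i ∈ range M, f t i * g i l) := by
        intro s t hst l l' h1 h2
        obtain ⟨i, _, hi⟩ := Finset.exists_ne_zero_of_sum_ne_zero h1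
        obtain ⟨i', _, hi'⟩ := Finset.exists_ne_zero_of_sum_ne_zero h2
        have a1 : f s i ≠ 0 := left_ne_zero_of_mul hi
        have a2 : g i l ≠ 0 := right_ne_zero_of_mul hi
        have a3 : f t i' ≠ 0 := left_ne_zero_of_mul hi'
        have a4 : g i' l' ≠ 0 := right_ne_zero_of_mul hi'
        exact hs i i' (hst i i' a1 a3) l l' a2 a4
      intro s t hst
      rcases hs' s t hst with h | h
      · exact Or.inl (key2 s t h)
      · exact Or.inr (key2 t s h)
  exact key 0 f hf

end BMM
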