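import Pool.Agent.BMM.Par

open Finset

namespace BMM

theorem NA_pp_pos (m : ℕ) : 0 < pp m := lt_trans two_pos (pp_gt_two m)

theorem NA_pp_ne (m : ℕ) : pp m ≠ 0 := (NA_pp_pos m).ne'

theorem NA_sum_nonneg (m : ℕ) (x : ℕ → ℝ) :
    0 ≤ ∑ i ∈ Ico (bo m) (bo (m + 1)), |x i| ^ (pp m) :=
  Finset.sum_nonneg (fun _ _ => Real.rpow_nonneg (abs_nonneg _) _)

theorem gn_nonneg (m : ℕ) (x : ℕ → ℝ) : 0 ≤ gn m x :=
  Real.rpow_nonneg (NA_sum_nonneg m x) _

theorem gn_zero (m : ℕ) : gn m (fun _ => 0) = 0 := by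
  show (∑ i ∈ Ico (bo m) (bo (m + 1)), |(0 : ℝ)| ^ pp m) ^ (1 / pp m) = 0
  rw [abs_zero, Real.zero_rpow (NA_pp_ne m), Finset.sum_const_zero,
    Real.zero_rpow (one_div_ne_zero (NA_pp_ne m))]

theorem gn_congr {m : ℕ} {x y : ℕ → ℝ} (h : ∀ i ∈ Ico (bo m) (bo (m + 1)), x i = y i) :
    gn m x = gn m y := by
  unfold gn
  rw [Finset.sum_congr rfl (fun i hi => by rw [h i hi])]

theorem gn_smul (m : ℕ) (c : ℝ) (x : ℕ → ℝ) : gn m (fun i => c * x i) = |c| * gn m x := by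
  unfold gn
  have h1 : ∀ i ∈ Ico (bo m) (bo (m + 1)), |c * x i| ^ (pp m) = |c| ^ (pp m) * |x i| ^ (pp m) := by
    intro i _
    rw [abs_mul, Real.mul_rpow (abs_nonneg _) (abs_nonneg _)]
  rw [Finset.sum_congr rfl h1, ← Finset.mul_sum,
    Real.mul_rpow (Real.rpow_nonneg (abs_nonneg _) _) (NA_sum_nonneg m x),
    ← Real.rpow_mul (abs_nonneg _), mul_one_div_cancel (NA_pp_ne m), Real.rpow_one]

theorem gn_add_le (m : ℕ) (x y : ℕ → ℝ) : gn m (fun i => x i + y i) ≤ gn m x + gn m y :=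
  Real.Lp_add_le _ _ _ (by have := pp_gt_two m; linarith)

theorem gn_sum_le (m : ℕ) {ι : Type} (s : Finset ι) (x : ι → ℕ → ℝ) :
    gn m (fun i => ∑ t ∈ s, x t i) ≤ ∑ t ∈ s, gn m (x t) := by
  classical
  induction s using Finset.induction_on with
  | empty => simp [gn_zero]
  | insert a s ha ih =>
    rw [Finset.sum_insert ha]
    have h1 : (fun i => ∑ t ∈ insert a s, x t i) = fun i => x a i + ∑ t ∈ s, x t i := by
      funext i
      rw [Finset.sum_insert ha]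
    rw [h1]
    exact (gn_add_le m _ _).trans (add_le_add le_rfl ih)

theorem le_gn {m i : ℕ} (hi : i ∈ Ico (bo m) (bo (m + 1))) (x : ℕ → ℝ) : |x i| ≤ gn m x := by
  unfold gn
  have h1 : |x i| ^ (pp m) ≤ ∑ i ∈ Ico (bo m) (bo (m + 1)), |x i| ^ (pp m) :=
    Finset.single_le_sum (f := fun i => |x i| ^ (pp m))
      (fun j _ => Real.rpow_nonneg (abs_nonneg _) _) hi
  have h2 : |x i| = (|x i| ^ (pp m)) ^ (1 / pp m) := by
    rw [← Real.rpow_mul (abs_nonneg _), mul_one_div_cancel (NA_pp_ne m), Real.rpow_one]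
  calc |x i| = (|x i| ^ (pp m)) ^ (1 / pp m) := h2
    _ ≤ _ := Real.rpow_le_rpow (Real.rpow_nonneg (abs_nonneg _) _) h1
        (one_div_nonneg.mpr (NA_pp_pos m).le)

theorem gn_eq_zero {m : ℕ} {x : ℕ → ℝ} (h : gn m x = 0) :
    ∀ i ∈ Ico (bo m) (bo (m + 1)), x i = 0 := by
  intro i hi
  have := le_gn hi x
  rw [h] at this
  exact abs_eq_zero.mp (le_antisymm this (abs_nonneg _))

theorem gn_single {m i : ℕ} (hi : i ∈ Ico (bo m) (bo (m + 1))) :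
    gn m (Pi.single i (1 : ℝ)) = 1 := by
  unfold gn
  have h1 : ∀ j ∈ Ico (bo m) (bo (m + 1)), |(Pi.single i (1 : ℝ) : ℕ → ℝ) j| ^ (pp m) =
      if j = i then 1 else 0 := by
    intro j _
    by_cases hj : j = i
    · subst hj
      simp
    · rw [Pi.single_eq_of_ne hj, abs_zero, Real.zero_rpow (NA_pp_ne m), if_neg hj]
  rw [Finset.sum_congr rfl h1, Finset.sum_ite_eq' _ _ _, if_pos hi, Real.one_rpow]

theorem gn_single_ne {m i : ℕ} (hi : i ∉ Ico (bo m) (bo (m + 1))) :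
    gn m (Pi.single i (1 : ℝ)) = 0 := by
  rw [← gn_zero m]
  refine gn_congr (fun j hj => ?_)
  rw [Pi.single_eq_of_ne]
  rintro rfl
  exact hi hj

/-- `gn` to the power `p`. -/
theorem gn_rpow (m : ℕ) (x : ℕ → ℝ) :
    gn m x ^ (pp m) = ∑ i ∈ Ico (bo m) (bo (m + 1)), |x i| ^ (pp m) := by
  unfold gn
  rw [← Real.rpow_mul (NA_sum_nonneg m x), one_div_mul_cancel (NA_pp_ne m), Real.rpow_one]

/-- The groups cover `ℕ`; a finitely supported `x` has finitely many nonzero groups. -/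
theorem gn_fs {x : ℕ → ℝ} (hx : Fs x) : ∃ M, ∀ m, M ≤ m → gn m x = 0 := by
  obtain ⟨M, hM⟩ := hx
  refine ⟨M, fun m hm => ?_⟩
  rw [← gn_zero m]
  refine gn_congr (fun j hj => ?_)
  have h1 : m ≤ bo m := bo_strictMono.le_apply
  exact hM j (hm.trans (h1.trans (Finset.mem_Ico.mp hj).1))

theorem Fsn_gn {x : ℕ → ℝ} (hx : Fs x) : Fsn (fun m => (gn m x) ^ 2) := by
  refine ⟨fun m => sq_nonneg _, ?_⟩
  obtain ⟨M, hM⟩ := gn_fs hx
  refine ⟨M, fun m hm => ?_⟩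
  simp [hM m hm]

end BMM
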