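import Pool.Agent.BMM.Defs

open Finset

namespace BMM

theorem aA_pos (k : ℕ) : 1 ≤ aA k := by
  induction k with
  | zero => exact le_refl 1
  | succ k ih =>
    show 1 ≤ 4 * (k + 1) ^ 2 * aA k
    exact Nat.one_le_iff_ne_zero.mpr (by positivity)

theorem Par_aA_succ (k : ℕ) : aA (k + 1) = 4 * (k + 1) ^ 2 * aA k := rfl

theorem Par_le_sq (k : ℕ) : k + 1 ≤ (k + 1) ^ 2 := by nlinarith

theorem aA_mono : Monotone aA := by
  refine monotone_nat_of_le_succ fun k => ?_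
  rw [Par_aA_succ]
  have h : 1 ≤ 4 * (k + 1) ^ 2 := by nlinarith [Nat.zero_le (k ^ 2), Nat.zero_le k]
  nlinarith [aA_pos k]

theorem aa_eq (k : ℕ) : aa k = aA (k + 1) := rfl

theorem aa_ge (k : ℕ) : 4 ≤ aa k := by
  rw [aa_eq, Par_aA_succ]
  have h := aA_pos k
  have h1 := Par_le_sq k
  nlinarith

theorem Par_aa_succ (k : ℕ) : aa (k + 1) = 4 * (k + 2) ^ 2 * aa k := rfl

theorem aa_mono : StrictMono aa := by
  refine strictMono_nat_of_lt_succ fun k => ?_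
  rw [Par_aa_succ]
  have h := aa_ge k
  have h1 : 2 ≤ 4 * (k + 2) ^ 2 := by nlinarith [Nat.zero_le (k ^ 2), Nat.zero_le k]
  nlinarith

theorem aA_le_aa (k : ℕ) : aA k ≤ aa k := aA_mono (Nat.le_succ k)

theorem two_pow_le_aa (k : ℕ) : 2 ^ (k + 1) ≤ aa k := by
  induction k with
  | zero => exact le_trans (by norm_num) (aa_ge 0)
  | succ k ih =>
    rw [Par_aa_succ, pow_succ]
    have h1 : 2 ≤ 4 * (k + 2) ^ 2 := by nlinarith [Nat.zero_le (k ^ 2), Nat.zero_le k]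
    nlinarith

theorem mm_ge (k : ℕ) : 8 ≤ mm k := by
  have h : 8 ^ 1 ≤ 8 ^ ((k + 1) ^ 2) := Nat.pow_le_pow_right (by norm_num) (Nat.one_le_iff_ne_zero.mpr (by positivity))
  simpa [mm] using h

theorem Par_mm_two (k : ℕ) : mm k = 2 ^ (3 * (k + 1) ^ 2) := by
  rw [mm, pow_mul]
  norm_num

theorem mm_mono : StrictMono mm := by
  refine strictMono_nat_of_lt_succ fun k => ?_
  unfold mm
  exact Nat.pow_lt_pow_right (by norm_num) (Nat.pow_lt_pow_left (by omega) (by norm_num))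

theorem TT_pos (k : ℕ) : 1 ≤ TT k := by
  unfold TT
  have h := mm_ge k
  have h1 : 0 < 2 ^ (k + 1) * mm k := by positivity
  exact Nat.one_le_iff_ne_zero.mpr (pow_pos h1 _).ne'

theorem TT_le_nn (k : ℕ) : TT k ≤ nn k := by
  unfold nn
  have h := mm_ge k
  nlinarith [TT_pos k]

theorem nn_pos (k : ℕ) : 1 ≤ nn k := (TT_pos k).trans (TT_le_nn k)

/-- (P1) -/
theorem nn_le_pow (k : ℕ) : nn k ≤ mm k ^ aa k := by
  unfold nn TT
  have h0 := mm_ge k
  have h1 : 2 ^ (k + 1) ≤ mm k := by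
    rw [Par_mm_two]
    exact Nat.pow_le_pow_right (by norm_num) (by nlinarith [Par_le_sq k])
  have h2 : 2 ^ (k + 1) * mm k ≤ mm k ^ 2 := by
    rw [pow_two]
    exact Nat.mul_le_mul_right _ h1
  calc mm k * (2 ^ (k + 1) * mm k) ^ aA k ≤ mm k * (mm k ^ 2) ^ aA k :=
        Nat.mul_le_mul_left _ (Nat.pow_le_pow_left h2 _)
    _ = mm k ^ (2 * aA k + 1) := by rw [← pow_mul, pow_succ, mul_comm]
    _ ≤ mm k ^ aa k := by
        refine Nat.pow_le_pow_right (by omega) ?_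
        rw [aa_eq, Par_aA_succ]
        have h3 := aA_pos k
        have h4 : 4 ≤ 4 * (k + 1) ^ 2 := by nlinarith [Par_le_sq k]
        nlinarith

/-- (P2) -/
theorem TT_le_pow (k : ℕ) : TT k ≤ 2 ^ aa k := by
  unfold TT
  rw [Par_mm_two, ← pow_add, ← pow_mul, aa_eq, Par_aA_succ]
  refine Nat.pow_le_pow_right (by norm_num) (Nat.mul_le_mul_right _ ?_)
  have := Par_le_sq k
  nlinarith

/-- (P4) -/
theorem LL_le_pow (k : ℕ) : LL k ≤ RR k ^ aa k := by
  have h1 : LL k = 2 ^ (1 + 2 * (k + 1) * aa k) := by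
    rw [LL, Nn, hh, pow_add, pow_one]
  have h2 : RR k ^ aa k = 2 ^ ((1 + 2 * (k + 1)) * aa k) := by
    rw [RR, pow_mul 2 (1 + 2 * (k + 1)), pow_add 2 1 (2 * (k + 1)), pow_mul 2 2 (k + 1), pow_one]
    rfl
  rw [h1, h2]
  refine Nat.pow_le_pow_right (by norm_num) ?_
  have := aa_ge k
  nlinarith

/-- (P5) -/
theorem mm_step (k : ℕ) : 2 ^ (k + 1) * mm k * RR k ≤ mm (k + 1) := by
  have h2 : RR k = 2 ^ (1 + 2 * (k + 1)) := by
    rw [RR, pow_add 2 1 (2 * (k + 1)), pow_mul 2 2 (k + 1), pow_one]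
    rfl
  rw [Par_mm_two, Par_mm_two, h2, ← pow_add, ← pow_add]
  refine Nat.pow_le_pow_right (by norm_num) ?_
  nlinarith

theorem Par_hh_step (k : ℕ) : hh k + (k + 4) ≤ hh (k + 1) := by
  unfold hh
  rw [Par_aa_succ]
  have h := aa_ge k
  have h1 : 16 ≤ 4 * (k + 2) ^ 2 := by nlinarith [Nat.zero_le (k ^ 2), Nat.zero_le k]
  have h2 : 16 * aa k ≤ 4 * (k + 2) ^ 2 * aa k := Nat.mul_le_mul_right _ h1
  have h3 : 2 * (k + 1 + 1) * (16 * aa k) ≤ 2 * (k + 1 + 1) * (4 * (k + 2) ^ 2 * aa k) := Nat.mul_le_mul_left _ h2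
  nlinarith

/-- (P6) -/
theorem Nn_le_pow {k j : ℕ} (h : k < j) : Nn k ≤ 2 ^ (aa j - 1) := by
  unfold Nn
  refine Nat.pow_le_pow_right (by norm_num) ?_
  have h1 : aa (k + 1) ≤ aa j := aa_mono.monotone h
  have h2 : hh k + 1 ≤ aa (k + 1) := by
    unfold hh
    rw [Par_aa_succ]
    have h := aa_ge k
    have h3 : 2 * (k + 1) + 1 ≤ 4 * (k + 2) ^ 2 := by nlinarith
    have h4 : (2 * (k + 1) + 1) * aa k ≤ 4 * (k + 2) ^ 2 * aa k := Nat.mul_le_mul_right _ h3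
    nlinarith
  omega

theorem Par_sq_pow (a : ℕ) (h : 5 ≤ a) : a ^ 2 + 1 ≤ 2 ^ a := by
  induction a, h using Nat.le_induction with
  | base => norm_num
  | succ n hn ih =>
    rw [pow_succ 2 n]
    nlinarith

/-- (P7) -/
theorem hh_le_pow (k : ℕ) : hh k + 1 ≤ 2 ^ aa k := by
  rcases Nat.eq_zero_or_pos k with rfl | hk
  · decide
  · have h1 : aa 0 < aa k := aa_mono hk
    have h0 := aa_ge 0
    have h2 : 2 * (k + 1) ≤ 2 ^ (k + 1) := by
      have : k + 1 ≤ 2 ^ k := Nat.lt_two_pow_self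
      rw [pow_succ]
      omega
    have h3 := two_pow_le_aa k
    have h4 : hh k ≤ aa k ^ 2 := by
      unfold hh
      rw [pow_two]
      exact Nat.mul_le_mul_right _ (h2.trans h3)
    have h5 := Par_sq_pow (aa k) (by omega)
    omega

theorem Nn_sq (k : ℕ) : Nn k = (2 ^ ((k + 1) * aa k)) ^ 2 := by
  unfold Nn hh
  rw [← pow_mul]
  congr 1
  ring

theorem Nn_pos (k : ℕ) : 1 ≤ Nn k := Nat.one_le_two_pow

theorem LL_pos (k : ℕ) : 1 ≤ LL k := by
  unfold LL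
  have := Nn_pos k
  omega

theorem bo_strictMono : StrictMono bo := by
  refine strictMono_nat_of_lt_succ fun k => ?_
  show bo k < bo k + LL k
  have := LL_pos k
  omega

theorem off_strictMono : StrictMono off := by
  refine strictMono_nat_of_lt_succ fun k => ?_
  show off k < off k + LL k * nn k
  have h1 := LL_pos k
  have h2 := nn_pos k
  nlinarith

/-- For `c : ℕ` there are arbitrarily late types with `c ≤ mm k`. -/
theorem mm_unbounded (c K : ℕ) : ∃ k, K ≤ k ∧ c ≤ mm k :=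
  ⟨max c K, le_max_right _ _, (le_max_left c K).trans (mm_mono.id_le _)⟩

theorem Par_aa_real (k : ℕ) : (4 : ℝ) ≤ (aa k : ℝ) := by exact_mod_cast aa_ge k

theorem pp_gt_two (k : ℕ) : 2 < pp k := by
  have h := Par_aa_real k
  unfold pp
  rw [lt_div_iff₀ (by linarith)]
  linarith

theorem pp_le_four (k : ℕ) : pp k ≤ 4 := by
  have h := Par_aa_real k
  unfold pp
  rw [div_le_iff₀ (by linarith)]
  linarith

theorem pp_sub_two (k : ℕ) : pp k - 2 = 2 / ((aa k : ℝ) - 1) := by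
  have h := Par_aa_real k
  have h1 : (aa k : ℝ) - 1 ≠ 0 := by linarith
  unfold pp
  rw [eq_div_iff h1, sub_mul, div_mul_cancel₀ _ h1]
  ring

theorem one_sub_two_div_pp (k : ℕ) : 1 - 2 / pp k = 1 / (aa k : ℝ) := by
  have h := Par_aa_real k
  have h1 : (aa k : ℝ) - 1 ≠ 0 := by linarith
  have h2 : (aa k : ℝ) ≠ 0 := by linarith
  unfold pp
  field_simp
  ring

/-- `N^{1/p} = √N / D`. -/
theorem Nn_rpow (k : ℕ) :
    ((Nn k : ℕ) : ℝ) ^ (1 / pp k) = (2 : ℝ) ^ ((k + 1) * aa k) / 2 ^ (k + 1) := by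
  have h := Par_aa_real k
  have h1 : (aa k : ℝ) - 1 ≠ 0 := by linarith
  have h2 : (aa k : ℝ) ≠ 0 := by linarith
  have e1 : ((Nn k : ℕ) : ℝ) = (2 : ℝ) ^ ((hh k : ℕ) : ℝ) := by
    rw [Real.rpow_natCast, Nn]
    push_cast
    rfl
  have e2 : ((hh k : ℕ) : ℝ) * (1 / pp k) = (((k + 1) * aa k : ℕ) : ℝ) - ((k + 1 : ℕ) : ℝ) := by
    unfold pp hh
    push_cast
    field_simp
  rw [e1, ← Real.rpow_mul (by norm_num), e2, Real.rpow_sub (by norm_num), Real.rpow_natCast, Real.rpow_natCast]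

end BMM
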