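import Pool.Agent.BMM.KD

open Finset

namespace BMM

theorem rho_ge_one (k : ℕ) : 1 ≤ rho k := by
  unfold rho
  exact Real.one_le_rpow (by norm_num) (by positivity)

theorem rho_zero : rho 0 = 2 := by
  unfold rho
  rw [pow_zero, Real.rpow_one]

theorem rho_anti {k j : ℕ} (h : k ≤ j) : rho j ≤ rho k := by
  unfold rho
  exact Real.rpow_le_rpow_of_exponent_le (by norm_num) (pow_le_pow_of_le_one (by norm_num) (by norm_num) h)

/-- There is a doubling constant `θ` with `2 θ^{a_j} ≤ 1` and `rho (j+1) ≤ rho j * θ`. -/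
theorem rho_step (j : ℕ) : ∃ θ : ℝ, 0 < θ ∧ θ ≤ 1 ∧ 2 * θ ^ (aa j) ≤ 1 ∧
    rho (j + 1) ≤ rho j * θ := by
  have h2 : (0 : ℝ) < 2 := by norm_num
  have he : (0 : ℝ) < (1 / 2 : ℝ) ^ (j + 1) := by positivity
  refine ⟨(2 : ℝ) ^ (-((1 / 2 : ℝ) ^ (j + 1))), Real.rpow_pos_of_pos h2 _, ?_, ?_, ?_⟩
  · exact Real.rpow_le_one_of_one_le_of_nonpos (by norm_num) (by linarith)
  · rw [← Real.rpow_natCast, ← Real.rpow_mul h2.le]
    have h3 : (2 : ℝ) * (2 : ℝ) ^ (-((1 / 2 : ℝ) ^ (j + 1)) * (aa j : ℝ)) =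
        (2 : ℝ) ^ (1 + -((1 / 2 : ℝ) ^ (j + 1)) * (aa j : ℝ)) := by
      rw [Real.rpow_add h2, Real.rpow_one]
    rw [h3]
    apply Real.rpow_le_one_of_one_le_of_nonpos (by norm_num)
    have h4 : ((2 : ℝ) ^ (j + 1)) ≤ (aa j : ℝ) := by exact_mod_cast two_pow_le_aa j
    have h5 : (1 / 2 : ℝ) ^ (j + 1) * (2 : ℝ) ^ (j + 1) = 1 := by
      rw [← mul_pow]
      norm_num
    have h6 : (1 / 2 : ℝ) ^ (j + 1) * (2 : ℝ) ^ (j + 1) ≤ (1 / 2 : ℝ) ^ (j + 1) * (aa j : ℝ) :=
      mul_le_mul_of_nonneg_left h4 he.le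
    linarith
  · unfold rho
    rw [← Real.rpow_add h2]
    apply le_of_eq
    congr 1
    rw [pow_succ]
    ring

theorem RA_pow_sum {ι : Type} [Fintype ι] {γ : ι → Type} [∀ t, Fintype (γ t)] {lam : ι → ℝ}
    {mu : (t : ι) → γ t → ℝ} {A : ℕ} (h0 : ∀ t, 0 ≤ lam t)
    (h1 : ∑ t, lam t ^ A ≤ 1) (h2 : ∀ t, ∑ P, mu t P ^ A ≤ 1) :
    ∑ x : (t : ι) × γ t, (lam x.1 * mu x.1 x.2) ^ A ≤ 1 := by
  rw [Fintype.sum_sigma]
  refine le_trans (Finset.sum_le_sum (fun t _ => ?_)) h1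
  have h3 : ∑ P, (lam t * mu t P) ^ A = lam t ^ A * ∑ P, mu t P ^ A := by
    rw [Finset.mul_sum]
    exact Finset.sum_congr rfl (fun P _ => mul_pow _ _ _)
  rw [h3]
  exact mul_le_of_le_one_right (pow_nonneg (h0 t) A) (h2 t)

/-- The cut in the case of a node of type `j < κ i`. -/
theorem cut_node {κ b : ℕ → ℕ} {i j : ℕ} (hij : j < κ i) {ι : Type} [Fintype ι] {lam : ι → ℝ}
    {f : ι → ℕ → ℝ} (hl : Adm j lam) (hf : ∀ t, KS (j + 1) (f t)) (hs : Sep f)
    {Wt : ι → ℕ → ℝ} (hc : ∀ t, CutAt κ b i (Wt t) (f t)) {W : ℕ → ℝ}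
    (hW : ∀ t, lam t * Wt t i ≤ W i) : CutAt κ b i W (fun l => ∑ t, lam t * f t l) := by
  classical
  choose γ instγ mu g h1 h2 h3 h4 h5 h6 using hc
  -- the functions, zero when the coefficient is zero
  have hzero : ∀ t P, mu t P = 0 → ∀ l, (if mu t P = 0 then (fun _ => (0 : ℝ)) else g t P) l = 0 := by
    intro t P hP l
    rw [if_pos hP]
  have hsupp : ∀ t P l, (if mu t P = 0 then (fun _ => (0 : ℝ)) else g t P) l ≠ 0 → f t l ≠ 0 := by
    intro t P l hl0
    by_cases hP : mu t P = 0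
    · exact absurd (hzero t P hP l) hl0
    · rw [if_neg hP] at hl0
      have hmu : 0 < mu t P := lt_of_le_of_ne (h1 t P).1 (Ne.symm hP)
      have hg : 0 < g t P l := lt_of_le_of_ne (KS_nonneg (h3 t P) l) (Ne.symm hl0)
      rw [h5 t]
      have hpos : 0 < ∑ Q, mu t Q * g t Q l :=
        Finset.sum_pos' (fun Q _ => mul_nonneg (h1 t Q).1 (KS_nonneg (h3 t Q) l))
          ⟨P, Finset.mem_univ P, mul_pos hmu hg⟩
      exact hpos.ne'
  refine ⟨(t : ι) × γ t, inferInstance, fun x => lam x.1 * mu x.1 x.2,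
    fun x => if mu x.1 x.2 = 0 then (fun _ => (0 : ℝ)) else g x.1 x.2, ?_, ?_, ?_, ?_, ?_, ?_⟩
  · rintro ⟨t, P⟩
    exact ⟨mul_nonneg (hl.1 t) (h1 t P).1, mul_le_one₀ (Adm_le_one hl t) (h1 t P).1 (h1 t P).2⟩
  · exact RA_pow_sum hl.1 (Adm_pow_le hl hij) h2
  · rintro ⟨t, P⟩
    dsimp only
    split_ifs
    · exact KS_zero _
    · exact h3 t P
  · rintro ⟨t, P⟩ ⟨t', P'⟩ hne
    by_cases htt : t = t'
    · subst htt
      have hPP : P ≠ P' := fun e => hne (by rw [e])
      have hsep := h4 t P P' hPP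
      dsimp only
      rcases hsep with h | h
      · left
        intro x y hx hy
        by_cases hP : mu t P = 0
        · exact absurd (hzero t P hP x) hx
        · by_cases hP' : mu t P' = 0
          · exact absurd (hzero t P' hP' y) hy
          · rw [if_neg hP] at hx
            rw [if_neg hP'] at hy
            exact h x y hx hy
      · right
        intro x y hx hy
        by_cases hP : mu t P = 0
        · exact absurd (hzero t P hP y) hy
        · by_cases hP' : mu t P' = 0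
          · exact absurd (hzero t P' hP' x) hx
          · rw [if_neg hP] at hy
            rw [if_neg hP'] at hx
            exact h x y hx hy
    · rcases hs t t' htt with h | h
      · left
        intro x y hx hy
        exact h x y (hsupp t P x hx) (hsupp t' P' y hy)
      · right
        intro x y hx hy
        exact h x y (hsupp t' P' x hx) (hsupp t P y hy)
  · funext l
    rw [Fintype.sum_sigma]
    refine Finset.sum_congr rfl (fun t _ => ?_)
    rw [h5 t]
    dsimp only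
    rw [Finset.mul_sum]
    refine Finset.sum_congr rfl (fun P _ => ?_)
    by_cases hP : mu t P = 0
    · rw [if_pos hP, hP]
      ring
    · rw [if_neg hP]
      ring
  · rintro ⟨t, P⟩
    dsimp only
    by_cases hP : mu t P = 0
    · right
      left
      rintro ⟨l, -, -, hl0⟩
      exact hl0 (hzero t P hP l)
    · rw [if_neg hP]
      rcases h6 t P with h | h | h
      · exact Or.inl h
      · exact Or.inr (Or.inl h)
      · exact Or.inr (Or.inr ((mul_le_mul_of_nonneg_left h (hl.1 t)).trans (hW t)))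

/-- The cut in the case of a node of type `j ≥ κ i` (or a leaf): the trivial decomposition. -/
theorem cut_triv {κ b : ℕ → ℕ} {i : ℕ} {f : ℕ → ℝ} (hf : KS (κ i) f) {W : ℕ → ℝ}
    (h : (∀ l, (mm (κ (i + 1)) : ℝ) * f l ≤ 1) ∨ ¬ Touch b f i ∨ 1 ≤ W i) :
    CutAt κ b i W f := by
  refine ⟨Unit, inferInstance, fun _ => 1, fun _ => f, fun _ => ⟨zero_le_one, le_rfl⟩, ?_, fun _ => hf, ?_, ?_,
    fun _ => h⟩
  · simp
  · intro s t hst
    exact absurd (Subsingleton.elim s t) hst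
  · funext l
    simp

end BMM
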