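import Pool.Agent.BMM.RA

open Finset

namespace BMM

/-- The combination step (c) of the structure lemma. -/
theorem ris_comb {κ b : ℕ → ℕ} (hκ : StrictMono κ) (hb : Monotone b) {j : ℕ} {ι : Type}
    [Fintype ι] {lam : ι → ℝ} {f : ι → ℕ → ℝ} (hl : Adm j lam) (hs : Sep f)
    {Wt w g : ι → ℕ → ℝ} (hW0 : ∀ t i, 0 ≤ Wt t i) (hWt : ∀ t i, Wt t i ≠ 0 → Touch b (f t) i)
    (hw : ∀ t, w t = 0 ∨ ∃ i0, w t = Pi.single i0 1) (hg : ∀ t, KS (j + 1) (g t))
    (hwg : ∀ t, Before (w t) (g t)) (hle : ∀ t i, Wt t i ≤ w t i + rho (j + 1) * g t i) :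
    ∃ G : ℕ → ℝ, KS j G ∧ (∀ i, G i ≠ 0 → j < κ i) ∧
      ∀ i, j < κ i → ∀ t, lam t * Wt t i ≤ rho j * G i := by
  classical
  obtain ⟨θ, hθ0, hθ1, hθ2, hθ3⟩ := rho_step j
  rcases isEmpty_or_nonempty ι with hι | hι
  · exact ⟨fun _ => 0, KS_zero j, fun i h => absurd rfl h, fun i _ t => (hι.false t).elim⟩
  have hmax : ∀ i : ℕ, ∃ t0 : ι, ∀ t, lam t * Wt t i ≤ lam t0 * Wt t0 i :=
    fun i => Finite.exists_max (fun t => lam t * Wt t i)
  choose tt htt using hmax
  let D : ι → Set ℕ := fun t => {i | j < κ i ∧ tt i = t ∧ Wt t i ≠ 0}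
  have hDlt : ∀ s t, s ≠ t → Before (f s) (f t) → ∀ i ∈ D s, ∀ i' ∈ D t, i < i' := by
    intro s t hst hbe i hi i' hi'
    obtain ⟨_, hi2, hi3⟩ := hi
    obtain ⟨_, hi2', hi3'⟩ := hi'
    obtain ⟨l, h1, h2, h3⟩ := hWt s i hi3
    obtain ⟨l', h1', h2', h3'⟩ := hWt t i' hi3'
    have hll := hbe l l' h3 h3'
    by_contra hcon
    rw [not_lt] at hcon
    rcases hcon.eq_or_lt with h | h
    · rw [h] at hi2'
      exact hst (hi2.symm.trans hi2')
    · have h4 : b (i' + 1) ≤ b i := hb h
      omega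
  let F : ι ⊕ ι → ℕ → ℝ := Sum.elim (fun t => (D t).indicator (w t)) (fun t => (D t).indicator (g t))
  let idx : ι ⊕ ι → ι := Sum.elim id id
  have hFD : ∀ x i, F x i ≠ 0 → i ∈ D (idx x) := by
    intro x i hx
    by_contra hcon
    apply hx
    rcases x with t | t
    · exact Set.indicator_of_notMem hcon _
    · exact Set.indicator_of_notMem hcon _
  have hFS : Sep F := by
    intro x y hxy
    by_cases hst : idx x = idx y
    · rcases x with t | t <;> rcases y with t' | t'
      · exact absurd (congrArg Sum.inl hst) hxy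
      · left
        have hst' : t = t' := hst
        subst hst'
        intro i i' hi hi'
        refine hwg t i i' ?_ ?_
        · intro h
          apply hi
          show (D t).indicator (w t) i = 0
          rw [Set.indicator_apply, h, ite_self]
        · intro h
          apply hi'
          show (D t).indicator (g t) i' = 0
          rw [Set.indicator_apply, h, ite_self]
      · right
        have hst' : t = t' := hst
        subst hst'
        intro i i' hi hi'
        refine hwg t i i' ?_ ?_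
        · intro h
          apply hi
          show (D t).indicator (w t) i = 0
          rw [Set.indicator_apply, h, ite_self]
        · intro h
          apply hi'
          show (D t).indicator (g t) i' = 0
          rw [Set.indicator_apply, h, ite_self]
      · exact absurd (congrArg Sum.inr hst) hxy
    · rcases hs _ _ hst with h | h
      · left
        exact fun i i' hi hi' => hDlt _ _ hst h i (hFD x i hi) i' (hFD y i' hi')
      · right
        exact fun i i' hi hi' => hDlt _ _ (Ne.symm hst) h i (hFD y i hi) i' (hFD x i' hi')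
  have hFK : ∀ x, KS (j + 1) (F x) := by
    intro x
    rcases x with t | t
    · refine KS_ind ?_ (D t)
      rcases hw t with h | ⟨i0, h⟩
      · rw [h]
        exact KS_zero _
      · rw [h]
        exact KS.leaf _ _
    · exact KS_ind (hg t) (D t)
  have hmm : (0 : ℝ) ≤ (mm j : ℝ) := Nat.cast_nonneg _
  have hFA : Adm j (fun x : ι ⊕ ι => θ * lam (idx x)) := by
    refine ⟨fun x => mul_nonneg hθ0.le (hl.1 _), fun x => ?_, ?_⟩
    · have h1 := hl.2.1 (idx x)
      have h2 : (0 : ℝ) ≤ (mm j : ℝ) * lam (idx x) := mul_nonneg hmm (hl.1 _)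
      nlinarith
    · have h3 : ∑ x : ι ⊕ ι, ((mm j : ℝ) * (θ * lam (idx x))) ^ (aa j) =
          (2 * θ ^ (aa j)) * ∑ t, ((mm j : ℝ) * lam t) ^ (aa j) := by
        rw [Fintype.sum_sum_type]
        have h4 : ∀ t : ι, ((mm j : ℝ) * (θ * lam t)) ^ (aa j) = θ ^ (aa j) * ((mm j : ℝ) * lam t) ^ (aa j) := by
          intro t
          rw [← mul_pow]
          ring
        have h5 : ∀ t : ι, ((mm j : ℝ) * (θ * lam (idx (Sum.inl t)))) ^ (aa j) =
            θ ^ (aa j) * ((mm j : ℝ) * lam t) ^ (aa j) := h4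
        have h6 : ∀ t : ι, ((mm j : ℝ) * (θ * lam (idx (Sum.inr t)))) ^ (aa j) =
            θ ^ (aa j) * ((mm j : ℝ) * lam t) ^ (aa j) := h4
        simp only [h5, h6]
        rw [← Finset.mul_sum]
        ring
      rw [h3]
      have h7 : 0 ≤ ∑ t, ((mm j : ℝ) * lam t) ^ (aa j) :=
        Finset.sum_nonneg fun t _ => pow_nonneg (mul_nonneg hmm (hl.1 t)) _
      calc (2 * θ ^ (aa j)) * ∑ t, ((mm j : ℝ) * lam t) ^ (aa j)
          ≤ 1 * ∑ t, ((mm j : ℝ) * lam t) ^ (aa j) := mul_le_mul_of_nonneg_right hθ2 h7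
        _ = ∑ t, ((mm j : ℝ) * lam t) ^ (aa j) := one_mul _
        _ ≤ (nn j : ℝ) := hl.2.2
  refine ⟨fun i => ∑ x : ι ⊕ ι, (θ * lam (idx x)) * F x i, KS_node' hFA hFK hFS, ?_, ?_⟩
  · intro i hi
    by_contra hcon
    apply hi
    refine Finset.sum_eq_zero fun x _ => ?_
    have : F x i = 0 := by
      by_contra hx
      exact hcon (hFD x i hx).1
    rw [this, mul_zero]
  · intro i hi t
    have hF0 : ∀ x, 0 ≤ F x i := fun x => KS_nonneg (hFK x) i
    have hterm : ∀ x, 0 ≤ (θ * lam (idx x)) * F x i :=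
      fun x => mul_nonneg (mul_nonneg hθ0.le (hl.1 _)) (hF0 x)
    have hG0 : 0 ≤ ∑ x : ι ⊕ ι, (θ * lam (idx x)) * F x i := Finset.sum_nonneg fun x _ => hterm x
    have hrho0 : 0 ≤ rho j := zero_le_one.trans (rho_ge_one j)
    refine (htt i t).trans ?_
    by_cases h0 : Wt (tt i) i = 0
    · rw [h0, mul_zero]
      exact mul_nonneg hrho0 hG0
    · have hiD : i ∈ D (tt i) := ⟨hi, rfl, h0⟩
      have hsum : (θ * lam (tt i)) * (w (tt i) i) + (θ * lam (tt i)) * (g (tt i) i) ≤
          ∑ x : ι ⊕ ι, (θ * lam (idx x)) * F x i := by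
        rw [Fintype.sum_sum_type]
        refine add_le_add ?_ ?_
        · have h1 : (θ * lam (tt i)) * (w (tt i) i) = (θ * lam (idx (Sum.inl (tt i)))) * F (Sum.inl (tt i)) i := by
            show _ = (θ * lam (tt i)) * (D (tt i)).indicator (w (tt i)) i
            rw [Set.indicator_of_mem hiD]
          rw [h1]
          exact Finset.single_le_sum (f := fun t => (θ * lam (idx (Sum.inl t))) * F (Sum.inl t) i)
            (fun t _ => hterm (Sum.inl t)) (Finset.mem_univ (tt i))
        · have h1 : (θ * lam (tt i)) * (g (tt i) i) = (θ * lam (idx (Sum.inr (tt i)))) * F (Sum.inr (tt i)) i := by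
            show _ = (θ * lam (tt i)) * (D (tt i)).indicator (g (tt i)) i
            rw [Set.indicator_of_mem hiD]
          rw [h1]
          exact Finset.single_le_sum (f := fun t => (θ * lam (idx (Sum.inr t))) * F (Sum.inr t) i)
            (fun t _ => hterm (Sum.inr t)) (Finset.mem_univ (tt i))
      have hw0 : 0 ≤ w (tt i) i := by
        rcases hw (tt i) with h | ⟨i0, h⟩
        · rw [h]
          exact le_rfl
        · rw [h, Pi.single_apply]
          split_ifs
          · exact zero_le_one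
          · exact le_rfl
      have hg0 : 0 ≤ g (tt i) i := KS_nonneg (hg _) i
      have hr1 : 1 ≤ rho (j + 1) := rho_ge_one _
      calc lam (tt i) * Wt (tt i) i ≤ lam (tt i) * (w (tt i) i + rho (j + 1) * g (tt i) i) :=
            mul_le_mul_of_nonneg_left (hle _ _) (hl.1 _)
        _ ≤ lam (tt i) * (rho (j + 1) * w (tt i) i + rho (j + 1) * g (tt i) i) := by
            refine mul_le_mul_of_nonneg_left (add_le_add ?_ le_rfl) (hl.1 _)
            nlinarith
        _ = rho (j + 1) * (lam (tt i) * (w (tt i) i + g (tt i) i)) := by ring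
        _ ≤ (rho j * θ) * (lam (tt i) * (w (tt i) i + g (tt i) i)) :=
            mul_le_mul_of_nonneg_right hθ3 (mul_nonneg (hl.1 _) (add_nonneg hw0 hg0))
        _ = rho j * ((θ * lam (tt i)) * (w (tt i) i) + (θ * lam (tt i)) * (g (tt i) i)) := by ring
        _ ≤ rho j * ∑ x : ι ⊕ ι, (θ * lam (idx x)) * F x i := mul_le_mul_of_nonneg_left hsum hrho0

end BMM
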