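import Pool.Agent.BMM.RB

open Finset

namespace BMM

/-- The value at a point of a node with a separated family. -/
theorem RC_node_le {j : ℕ} {ι : Type} [Fintype ι] {lam : ι → ℝ} {f : ι → ℕ → ℝ} (hl : Adm j lam)
    (hf : ∀ t, KS (j + 1) (f t)) (hs : Sep f) (l : ℕ) : (mm j : ℝ) * (∑ t, lam t * f t l) ≤ 1 := by
  classical
  by_cases h : ∀ t, f t l = 0
  · have h1 : ∑ t, lam t * f t l = 0 := Finset.sum_eq_zero fun t _ => by rw [h t, mul_zero]
    rw [h1, mul_zero]
    exact zero_le_one
  · push Not at h
    obtain ⟨t0, ht0⟩ := h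
    have h1 : ∑ t, lam t * f t l = lam t0 * f t0 l := by
      refine Finset.sum_eq_single t0 (fun t _ ht => ?_) (fun h => absurd (Finset.mem_univ _) h)
      by_cases h2 : f t l = 0
      · rw [h2, mul_zero]
      · exact absurd (Sep_unique hs h2 ht0) ht
    rw [h1]
    have h2 := hl.2.1 t0
    have h3 := KS_le_one (hf t0) l
    have h4 := KS_nonneg (hf t0) l
    have h5 : (0 : ℝ) ≤ (mm j : ℝ) * lam t0 := mul_nonneg (Nat.cast_nonneg _) (hl.1 _)
    calc (mm j : ℝ) * (lam t0 * f t0 l) = ((mm j : ℝ) * lam t0) * f t0 l := by ring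
      _ ≤ 1 * 1 := mul_le_mul h2 h3 h4 zero_le_one
      _ = 1 := one_mul _

/-- The structure lemma. -/
theorem ris_struct (κ b : ℕ → ℕ) (hκ : StrictMono κ) (hb : Monotone b) {k : ℕ} {f : ℕ → ℝ}
    (hf : KS k f) :
    ∃ W : ℕ → ℝ, (∀ i, 0 ≤ W i) ∧ (∀ i, W i ≠ 0 → Touch b f i) ∧ (∀ i, CutAt κ b i W f) ∧
      ∃ w g : ℕ → ℝ, (w = 0 ∨ ∃ i0, w = Pi.single i0 1) ∧ KS k g ∧ Before w g ∧
        ∀ i, W i ≤ w i + rho k * g i := by
  classical
  induction hf with
  | leaf k l =>
    have huniq : ∀ i i', Touch b (Pi.single l 1) i → Touch b (Pi.single l 1) i' → i = i' := by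
      rintro i i' ⟨x, h1, h2, h3⟩ ⟨y, h1', h2', h3'⟩
      have hx : x = l := by
        by_contra hne
        exact h3 (by rw [Pi.single_apply, if_neg hne])
      have hy : y = l := by
        by_contra hne
        exact h3' (by rw [Pi.single_apply, if_neg hne])
      subst hx
      rw [hy] at h1' h2'
      by_contra hne
      rcases lt_or_gt_of_ne hne with h | h
      · have : b (i + 1) ≤ b i' := hb h
        omega
      · have : b (i' + 1) ≤ b i := hb h
        omega
    refine ⟨fun i => if Touch b (Pi.single l 1) i then 1 else 0, ?_, ?_, ?_, ?_⟩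
    · intro i
      dsimp only
      split_ifs
      · exact zero_le_one
      · exact le_rfl
    · intro i hi
      by_contra hcon
      exact hi (if_neg hcon)
    · intro i
      refine cut_triv (KS.leaf _ _) ?_
      by_cases ht : Touch b (Pi.single l 1) i
      · right; right
        rw [if_pos ht]
      · right; left
        exact ht
    · by_cases hex : ∃ i0, Touch b (Pi.single l 1) i0
      · obtain ⟨i0, hi0⟩ := hex
        refine ⟨Pi.single i0 1, fun _ => 0, Or.inr ⟨i0, rfl⟩, KS_zero _, fun i i' _ h => absurd rfl h, ?_⟩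
        intro i
        dsimp only
        split_ifs with ht
        · rw [huniq i i0 ht hi0]
          simp
        · rw [mul_zero, add_zero, Pi.single_apply]
          split_ifs
          · exact zero_le_one
          · exact le_rfl
      · refine ⟨0, fun _ => 0, Or.inl rfl, KS_zero _, fun i i' _ h => absurd rfl h, ?_⟩
        intro i
        dsimp only
        rw [if_neg (fun h => hex ⟨i, h⟩)]
        simp
  | node k j hkj ι inst lam f hl hf hs ih =>
    choose Wt hW0 hWT hWC wt gt hw hg hwg hle using ih
    obtain ⟨G, hG, hG1, hG2⟩ := ris_comb hκ hb hl hs hW0 hWT hw hg hwg hle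
    -- the maximum of the children
    have hmax : ∀ i : ℕ, ∃ M : ℝ, 0 ≤ M ∧ (∀ t, lam t * Wt t i ≤ M) ∧
        (M ≠ 0 → ∃ t, lam t * Wt t i = M) := by
      intro i
      rcases isEmpty_or_nonempty ι with hι | hι
      · exact ⟨0, le_rfl, fun t => (hι.false t).elim, fun h => absurd rfl h⟩
      · obtain ⟨t0, ht0⟩ := Finite.exists_max (fun t => lam t * Wt t i)
        exact ⟨lam t0 * Wt t0 i, mul_nonneg (hl.1 _) (hW0 _ _), ht0, fun _ => ⟨t0, rfl⟩⟩
    choose M hM0 hM1 hM2 using hmax
    have hfj : KS j (fun i => ∑ t, lam t * f t i) := KS_node' hl hf hs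
    have hf0 : ∀ t l, 0 ≤ f t l := fun t l => KS_nonneg (hf t) l
    let W : ℕ → ℝ := fun i => if j < κ i then M i else
      if j < κ (i + 1) ∧ Touch b (fun l => ∑ t, lam t * f t l) i then 1 else 0
    have hWlt : ∀ i, j < κ i → W i = M i := fun i h => if_pos h
    have hWge : ∀ i, ¬ j < κ i → W i = if j < κ (i + 1) ∧ Touch b (fun l => ∑ t, lam t * f t l) i then 1 else 0 :=
      fun i h => if_neg h
    refine ⟨W, ?_, ?_, ?_, ?_⟩
    · intro i
      by_cases h : j < κ i
      · rw [hWlt i h]
        exact hM0 i
      · rw [hWge i h]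
        split_ifs
        · exact zero_le_one
        · exact le_rfl
    · intro i hi
      by_cases h : j < κ i
      · rw [hWlt i h] at hi
        obtain ⟨t, ht⟩ := hM2 i hi
        have h1 : lam t ≠ 0 := fun h0 => hi (by rw [← ht, h0, zero_mul])
        have h2 : Wt t i ≠ 0 := fun h0 => hi (by rw [← ht, h0, mul_zero])
        obtain ⟨l, h3, h4, h5⟩ := hWT t i h2
        refine ⟨l, h3, h4, ?_⟩
        have h6 : lam t * f t l ≤ ∑ t, lam t * f t l :=
          Finset.single_le_sum (f := fun t => lam t * f t l) (fun s _ => mul_nonneg (hl.1 s) (hf0 s l))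
            (Finset.mem_univ t)
        have h7 : 0 < lam t * f t l :=
          mul_pos (lt_of_le_of_ne (hl.1 t) (Ne.symm h1)) (lt_of_le_of_ne (hf0 t l) (Ne.symm h5))
        exact (h7.trans_le h6).ne'
      · rw [hWge i h] at hi
        by_contra hcon
        exact hi (if_neg (fun h' => hcon h'.2))
    · intro i
      by_cases h : j < κ i
      · refine cut_node h hl hf hs (fun t => hWC t i) ?_
        intro t
        rw [hWlt i h]
        exact hM1 i t
      · refine cut_triv (KS_anti (not_lt.mp h) hfj) ?_
        by_cases h1 : j < κ (i + 1)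
        · by_cases h2 : Touch b (fun l => ∑ t, lam t * f t l) i
          · right; right
            rw [hWge i h, if_pos ⟨h1, h2⟩]
          · right; left
            exact h2
        · left
          intro l
          have h3 := RC_node_le hl hf hs l
          have h4 : (mm (κ (i + 1)) : ℝ) ≤ (mm j : ℝ) := by
            exact_mod_cast mm_mono.monotone (not_lt.mp h1)
          have h5 : 0 ≤ ∑ t, lam t * f t l := Finset.sum_nonneg fun t _ => mul_nonneg (hl.1 t) (hf0 t l)
          exact (mul_le_mul_of_nonneg_right h4 h5).trans h3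
    · have hG0 : ∀ i, 0 ≤ G i := fun i => KS_nonneg hG i
      have hrk : rho j ≤ rho k := rho_anti hkj
      have hMG : ∀ i, j < κ i → M i ≤ rho k * G i := by
        intro i h
        by_cases h0 : M i = 0
        · rw [h0]
          exact mul_nonneg (zero_le_one.trans (rho_ge_one k)) (hG0 i)
        · obtain ⟨t, ht⟩ := hM2 i h0
          rw [← ht]
          exact (hG2 i h t).trans (mul_le_mul_of_nonneg_right hrk (hG0 i))
      have hrk0 : 0 ≤ rho k := zero_le_one.trans (rho_ge_one k)
      by_cases hex : ∃ i0, ¬ j < κ i0 ∧ j < κ (i0 + 1) ∧ Touch b (fun l => ∑ t, lam t * f t l) i0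
      · obtain ⟨i0, hi1, hi2, hi3⟩ := hex
        refine ⟨Pi.single i0 1, G, Or.inr ⟨i0, rfl⟩, KS_anti hkj hG, ?_, ?_⟩
        · intro i i' hi hi'
          have h1 : i = i0 := by
            by_contra hne
            exact hi (by rw [Pi.single_apply, if_neg hne])
          rw [h1]
          have h2 := hG1 i' hi'
          exact hκ.lt_iff_lt.mp (lt_of_le_of_lt (not_lt.mp hi1) h2)
        · intro i
          have h00 : (0 : ℝ) ≤ (Pi.single i0 1 : ℕ → ℝ) i := by
            rw [Pi.single_apply]
            split_ifs
            · exact zero_le_one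
            · exact le_rfl
          by_cases h : j < κ i
          · rw [hWlt i h]
            exact (hMG i h).trans (le_add_of_nonneg_left h00)
          · rw [hWge i h]
            split_ifs with h1
            · have h2 : i = i0 := by
                have h3 : κ i < κ (i0 + 1) := lt_of_le_of_lt (not_lt.mp h) hi2
                have h4 : κ i0 < κ (i + 1) := lt_of_le_of_lt (not_lt.mp hi1) h1.1
                have h5 := hκ.lt_iff_lt.mp h3
                have h6 := hκ.lt_iff_lt.mp h4
                omega
              rw [h2, Pi.single_eq_same]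
              exact le_add_of_nonneg_right (mul_nonneg hrk0 (hG0 _))
            · exact add_nonneg h00 (mul_nonneg hrk0 (hG0 _))
      · refine ⟨0, G, Or.inl rfl, KS_anti hkj hG, fun i i' h _ => absurd rfl h, ?_⟩
        intro i
        by_cases h : j < κ i
        · rw [hWlt i h]
          exact (hMG i h).trans (le_add_of_nonneg_left le_rfl)
        · rw [hWge i h, if_neg (fun h' => hex ⟨i, h, h'⟩)]
          exact add_nonneg le_rfl (mul_nonneg hrk0 (hG0 _))

end BMM
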