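import Pool.Agent.BMM.TDefs

open Finset

namespace BMM

variable {Ω : Type} [Fintype Ω]

theorem avg_add (F G : Ω → ℝ) : avg (fun ω => F ω + G ω) = avg F + avg G := by
  unfold avg
  rw [Finset.sum_add_distrib, add_div]

theorem avg_sum {κ : Type} (s : Finset κ) (F : κ → Ω → ℝ) :
    avg (fun ω => ∑ k ∈ s, F k ω) = ∑ k ∈ s, avg (F k) := by
  unfold avg
  rw [Finset.sum_comm, Finset.sum_div]

theorem avg_mul_left (c : ℝ) (F : Ω → ℝ) : avg (fun ω => c * F ω) = c * avg F := by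
  unfold avg
  rw [← Finset.mul_sum, mul_div_assoc]

theorem avg_nonneg {F : Ω → ℝ} (h : ∀ ω, 0 ≤ F ω) : 0 ≤ avg F := by
  unfold avg
  exact div_nonneg (Finset.sum_nonneg fun ω _ => h ω) (Nat.cast_nonneg _)

theorem avg_mono {F G : Ω → ℝ} (h : ∀ ω, F ω ≤ G ω) : avg F ≤ avg G := by
  unfold avg
  exact div_le_div_of_nonneg_right (Finset.sum_le_sum fun ω _ => h ω) (Nat.cast_nonneg _)

theorem avg_const [Nonempty Ω] (c : ℝ) : avg (fun _ : Ω => c) = c := by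
  unfold avg
  rw [Finset.sum_const, Finset.card_univ, nsmul_eq_mul]
  have : (Fintype.card Ω : ℝ) ≠ 0 := by
    exact_mod_cast Fintype.card_ne_zero
  field_simp

theorem abs_avg_le (F : Ω → ℝ) : |avg F| ≤ avg (fun ω => |F ω|) := by
  unfold avg
  rw [abs_div, abs_of_nonneg (Nat.cast_nonneg (Fintype.card Ω) : (0 : ℝ) ≤ (Fintype.card Ω : ℝ))]
  exact div_le_div_of_nonneg_right (Finset.abs_sum_le_sum_abs _ _) (Nat.cast_nonneg _)

/-- Average over a product. -/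
theorem avg_prod {Ω' : Type} [Fintype Ω'] (F : Ω × Ω' → ℝ) :
    avg F = avg (fun ω => avg (fun ω' => F (ω, ω'))) := by
  unfold avg
  rw [Fintype.sum_prod_type, Fintype.card_prod, Nat.cast_mul, ← Finset.sum_div, div_div, mul_comm]

theorem TA_cs {r f g : Ω → ℝ} (hf : ∀ ω, 0 ≤ f ω) (hg : ∀ ω, 0 ≤ g ω) (h : ∀ ω, r ω ^ 2 = f ω * g ω) :
    (avg r) ^ 2 ≤ avg f * avg g := by
  unfold avg
  rw [div_pow, div_mul_div_comm, sq (Fintype.card Ω : ℝ)]
  apply div_le_div_of_nonneg_right _ (mul_nonneg (Nat.cast_nonneg _) (Nat.cast_nonneg _))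
  exact Finset.sum_sq_le_sum_mul_sum_of_sq_le_mul _ (fun i _ => hf i) (fun i _ => hg i) (fun i _ => (h i).le)

/-- `(E S^2)^3 ≤ (E |S|)^2 E S^4`. -/
theorem avg_holder (S : Ω → ℝ) :
    (avg (fun ω => S ω ^ 2)) ^ 3 ≤ (avg (fun ω => |S ω|)) ^ 2 * avg (fun ω => S ω ^ 4) := by
  have h1 : (avg (fun ω => S ω ^ 2)) ^ 2 ≤ avg (fun ω => |S ω|) * avg (fun ω => |S ω| ^ 3) := by
    apply TA_cs
    · intro ω; exact abs_nonneg _
    · intro ω; positivity
    · intro ω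
      have e : S ω ^ 2 = |S ω| ^ 2 := (sq_abs _).symm
      rw [e]; ring
  have h2 : (avg (fun ω => |S ω| ^ 3)) ^ 2 ≤ avg (fun ω => S ω ^ 2) * avg (fun ω => S ω ^ 4) := by
    apply TA_cs
    · intro ω; positivity
    · intro ω; positivity
    · intro ω
      have e : S ω ^ 2 = |S ω| ^ 2 := (sq_abs _).symm
      have e2 : S ω ^ 4 = |S ω| ^ 4 := by
        rw [show S ω ^ 4 = (S ω ^ 2) ^ 2 by ring, e]; ring
      rw [e2, e]; ring
  set A := avg (fun ω => |S ω|) with hA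
  set B := avg (fun ω => S ω ^ 2) with hB
  set C := avg (fun ω => |S ω| ^ 3) with hC
  set D := avg (fun ω => S ω ^ 4) with hD
  have hA0 : 0 ≤ A := avg_nonneg fun ω => abs_nonneg _
  have hB0 : 0 ≤ B := avg_nonneg fun ω => by positivity
  have hC0 : 0 ≤ C := avg_nonneg fun ω => by positivity
  have hD0 : 0 ≤ D := avg_nonneg fun ω => by positivity
  rcases hB0.eq_or_lt with h | h
  · rw [← h]
    have : 0 ≤ A ^ 2 * D := by positivity
    simpa using this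
  · have h3 : B ^ 4 ≤ A ^ 2 * (B * D) := by
      calc B ^ 4 = (B ^ 2) ^ 2 := by ring
        _ ≤ (A * C) ^ 2 := pow_le_pow_left₀ (by positivity) h1 2
        _ = A ^ 2 * C ^ 2 := by ring
        _ ≤ A ^ 2 * (B * D) := mul_le_mul_of_nonneg_left h2 (by positivity)
    have h4 : B * B ^ 3 ≤ B * (A ^ 2 * D) := by
      calc B * B ^ 3 = B ^ 4 := by ring
        _ ≤ A ^ 2 * (B * D) := h3
        _ = B * (A ^ 2 * D) := by ring
    exact le_of_mul_le_mul_left h4 h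

/-- Minkowski: `(∑_k (E|F_k|)^2)^{1/2} ≤ E (∑_k F_k^2)^{1/2}`. -/
theorem avg_minkowski {κ : Type} [Fintype κ] (F : κ → Ω → ℝ) :
    √(∑ k, (avg (fun ω => |F k ω|)) ^ 2) ≤ avg (fun ω => √(∑ k, (F k ω) ^ 2)) := by
  set a : κ → ℝ := fun k => avg (fun ω => |F k ω|) with ha
  have hR0 : 0 ≤ avg (fun ω => √(∑ k, (F k ω) ^ 2)) := avg_nonneg fun ω => Real.sqrt_nonneg _
  have h1 : ∑ k, a k ^ 2 ≤ √(∑ k, a k ^ 2) * avg (fun ω => √(∑ k, (F k ω) ^ 2)) := by
    have e1 : ∑ k, a k ^ 2 = avg (fun ω => ∑ k, a k * |F k ω|) := by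
      rw [avg_sum]
      apply Finset.sum_congr rfl
      intro k _
      rw [avg_mul_left, sq]
    rw [e1, ← avg_mul_left]
    apply avg_mono
    intro ω
    have h2 := Real.sum_mul_le_sqrt_mul_sqrt Finset.univ a (fun k => |F k ω|)
    have e2 : ∑ k, |F k ω| ^ 2 = ∑ k, (F k ω) ^ 2 := by
      apply Finset.sum_congr rfl
      intro k _
      exact sq_abs _
    rw [e2] at h2
    have e3 : avg (fun ω => ∑ k, a k * |F k ω|) = ∑ k, a k ^ 2 := e1.symm
    rw [e3]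
    exact h2
  have hs0 : 0 ≤ ∑ k, a k ^ 2 := Finset.sum_nonneg fun k _ => sq_nonneg _
  rcases (Real.sqrt_nonneg (∑ k, a k ^ 2)).eq_or_lt with h | h
  · rw [← h]; exact hR0
  · have h3 : √(∑ k, a k ^ 2) * √(∑ k, a k ^ 2) ≤ √(∑ k, a k ^ 2) * avg (fun ω => √(∑ k, (F k ω) ^ 2)) := by
      rw [Real.mul_self_sqrt hs0]
      exact h1
    exact le_of_mul_le_mul_left h3 h

end BMM
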