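import Pool.Agent.BMM.TA

open Finset

namespace BMM

variable {ι : Type} [Fintype ι] [DecidableEq ι]

/-- flip of the signs at the elements outside `G` -/
def t_b_flip (G : Finset ι) : (ι → Bool) ≃ (ι → Bool) where
  toFun ε i := if i ∈ G then ε i else !(ε i)
  invFun ε i := if i ∈ G then ε i else !(ε i)
  left_inv ε := by
    funext i
    by_cases h : i ∈ G <;> simp [h]
  right_inv ε := by
    funext i
    by_cases h : i ∈ G <;> simp [h]

omit [Fintype ι] in
theorem t_b_flip_mem {G : Finset ι} {i : ι} (h : i ∈ G) (ε : ι → Bool) : t_b_flip G ε i = ε i := by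
  simp [t_b_flip, h]

omit [Fintype ι] in
theorem t_b_flip_not {G : Finset ι} {i : ι} (h : i ∉ G) (ε : ι → Bool) : t_b_flip G ε i = !(ε i) := by
  simp [t_b_flip, h]

theorem t_b_sg_not (b : Bool) : sg (!b) = - sg b := by
  cases b <;> simp [sg]

theorem t_b_sg_sq (b : Bool) : sg b * sg b = 1 := by
  cases b <;> simp [sg]

theorem t_b_equiv {Ω : Type} [Fintype Ω] (e : Ω ≃ Ω) (F : Ω → ℝ) : avg (fun ω => F (e ω)) = avg F := by
  unfold avg
  rw [Equiv.sum_comp e F]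

/-- the sign `ε i` is independent of the other signs -/
theorem t_b_odd (i : ι) (H : (ι → Bool) → ℝ) (hH : ∀ ε, H (t_b_flip (Finset.univ.erase i) ε) = H ε) :
    avg (fun ε : ι → Bool => sg (ε i) * H ε) = 0 := by
  have h1 := t_b_equiv (t_b_flip (Finset.univ.erase i)) (fun ε : ι → Bool => sg (ε i) * H ε)
  have h2 : (fun ε : ι → Bool => sg (t_b_flip (Finset.univ.erase i) ε i) * H (t_b_flip (Finset.univ.erase i) ε)) =
      fun ε : ι → Bool => (-1) * (sg (ε i) * H ε) := by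
    funext ε
    rw [hH, t_b_flip_not (by simp), t_b_sg_not]
    ring
  rw [h2, avg_mul_left] at h1
  linarith

theorem t_b_inv (i : ι) (α : ι → ℝ) (s : Finset ι) (hi : i ∉ s) (ε : ι → Bool) :
    ∑ j ∈ s, α j * sg (t_b_flip (Finset.univ.erase i) ε j) = ∑ j ∈ s, α j * sg (ε j) := by
  refine Finset.sum_congr rfl (fun j hj => ?_)
  rw [t_b_flip_mem]
  simp only [Finset.mem_erase, Finset.mem_univ, and_true]
  exact fun e => hi (e ▸ hj)

theorem t_b_moments (α : ι → ℝ) (s : Finset ι) :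
    avg (fun ε : ι → Bool => (∑ i ∈ s, α i * sg (ε i)) ^ 2) = ∑ i ∈ s, α i ^ 2 ∧
    avg (fun ε : ι → Bool => (∑ i ∈ s, α i * sg (ε i)) ^ 4) ≤ 3 * (∑ i ∈ s, α i ^ 2) ^ 2 := by
  induction s using Finset.induction_on with
  | empty =>
    constructor
    · simp [avg]
    · simp [avg]
  | insert i s hi ih =>
    obtain ⟨ih1, ih2⟩ := ih
    have o1 : avg (fun ε : ι → Bool => sg (ε i) * (∑ j ∈ s, α j * sg (ε j))) = 0 :=
      t_b_odd i _ (fun ε => t_b_inv i α s hi ε)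
    have o3 : avg (fun ε : ι → Bool => sg (ε i) * (∑ j ∈ s, α j * sg (ε j)) ^ 3) = 0 :=
      t_b_odd i _ (fun ε => by rw [t_b_inv i α s hi ε])
    constructor
    · have e : (fun ε : ι → Bool => (∑ j ∈ insert i s, α j * sg (ε j)) ^ 2) = fun ε =>
          (α i ^ 2 + (2 * α i) * (sg (ε i) * (∑ j ∈ s, α j * sg (ε j)))) +
            (∑ j ∈ s, α j * sg (ε j)) ^ 2 := by
        funext ε
        rw [Finset.sum_insert hi]
        have h1 := t_b_sg_sq (ε i)
        linear_combination (α i ^ 2) * h1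
      rw [e, avg_add, avg_add, avg_mul_left, o1, ih1, avg_const, Finset.sum_insert hi]
      ring
    · have e : (fun ε : ι → Bool => (∑ j ∈ insert i s, α j * sg (ε j)) ^ 4) = fun ε =>
          (((α i ^ 4 + (4 * α i ^ 3) * (sg (ε i) * (∑ j ∈ s, α j * sg (ε j)))) +
            (6 * α i ^ 2) * (∑ j ∈ s, α j * sg (ε j)) ^ 2) +
            (4 * α i) * (sg (ε i) * (∑ j ∈ s, α j * sg (ε j)) ^ 3)) +
            (∑ j ∈ s, α j * sg (ε j)) ^ 4 := by
        funext ε
        rw [Finset.sum_insert hi]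
        obtain ⟨S, hS⟩ : ∃ S, S = ∑ j ∈ s, α j * sg (ε j) := ⟨_, rfl⟩
        obtain ⟨t, ht⟩ : ∃ t, t = sg (ε i) := ⟨_, rfl⟩
        have h1 : t * t = 1 := by rw [ht]; exact t_b_sg_sq (ε i)
        rw [← hS, ← ht]
        have h2 : t ^ 4 = 1 := by
          have : t ^ 4 = (t * t) * (t * t) := by ring
          rw [this, h1, one_mul]
        have h3 : t ^ 3 = t := by
          have : t ^ 3 = (t * t) * t := by ring
          rw [this, h1, one_mul]
        have h4 : t ^ 2 = 1 := by rw [pow_two, h1]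
        have h5 : (α i * t + S) ^ 4 = α i ^ 4 * t ^ 4 + 4 * α i ^ 3 * t ^ 3 * S + 6 * α i ^ 2 * t ^ 2 * S ^ 2 +
            4 * α i * t * S ^ 3 + S ^ 4 := by ring
        rw [h5, h2, h3, h4]
        ring
      rw [e, avg_add, avg_add, avg_add, avg_add, avg_mul_left, avg_mul_left, avg_mul_left, o1, o3, ih1,
        avg_const, Finset.sum_insert hi]
      have h6 : 0 ≤ ∑ j ∈ s, α j ^ 2 := Finset.sum_nonneg (fun j _ => sq_nonneg _)
      nlinarith [ih2, pow_nonneg (sq_nonneg (α i)) 2]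

theorem sgn_m2 (α : ι → ℝ) :
    avg (fun ε : ι → Bool => (∑ i, α i * sg (ε i)) ^ 2) = ∑ i, α i ^ 2 := by
  exact (t_b_moments α Finset.univ).1

theorem sgn_m4 (α : ι → ℝ) :
    avg (fun ε : ι → Bool => (∑ i, α i * sg (ε i)) ^ 4) ≤ 3 * (∑ i, α i ^ 2) ^ 2 := by
  exact (t_b_moments α Finset.univ).2

/-- Khintchine's inequality with the constant `√3`. -/
theorem khin (α : ι → ℝ) :
    √(∑ i, α i ^ 2) ≤ √3 * avg (fun ε : ι → Bool => |∑ i, α i * sg (ε i)|) := by
  obtain ⟨A, hA⟩ : ∃ A, A = ∑ i, α i ^ 2 := ⟨_, rfl⟩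
  obtain ⟨m, hm⟩ : ∃ m, m = avg (fun ε : ι → Bool => |∑ i, α i * sg (ε i)|) := ⟨_, rfl⟩
  have h1 := avg_holder (fun ε : ι → Bool => ∑ i, α i * sg (ε i))
  have h2 := sgn_m2 α
  have h3 := sgn_m4 α
  rw [h2] at h1
  rw [← hA] at h1 h3
  rw [← hm] at h1
  rw [← hA, ← hm]
  have hm0 : 0 ≤ m := by
    rw [hm]
    exact avg_nonneg (fun ε => abs_nonneg _)
  have hA0 : 0 ≤ A := by
    rw [hA]
    exact Finset.sum_nonneg (fun j _ => sq_nonneg _)
  rcases hA0.eq_or_lt with h | h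
  · rw [← h, Real.sqrt_zero]
    positivity
  · have h4 : A ^ 3 ≤ m ^ 2 * (3 * A ^ 2) := h1.trans (mul_le_mul_of_nonneg_left h3 (sq_nonneg m))
    have h5 : A ≤ 3 * m ^ 2 := by
      have h6 : A ^ 2 * A ≤ A ^ 2 * (3 * m ^ 2) := by nlinarith
      exact le_of_mul_le_mul_left h6 (by positivity)
    have h6 : √3 * m = √(3 * m ^ 2) := by
      rw [Real.sqrt_mul (by norm_num), Real.sqrt_sq hm0]
    rw [h6]
    exact Real.sqrt_le_sqrt h5

/-- Symmetrization: restricting to a subset of the signs decreases the first absolute moment. -/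
theorem sgn_restrict (α : ι → ℝ) (G : Finset ι) :
    avg (fun ε : ι → Bool => |∑ i ∈ G, α i * sg (ε i)|) ≤
      avg (fun ε : ι → Bool => |∑ i, α i * sg (ε i)|) := by
  have h1 := t_b_equiv (t_b_flip G) (fun ε : ι → Bool => |∑ i, α i * sg (ε i)|)
  have hsplit : ∀ ε : ι → Bool, ∑ i, α i * sg (ε i) =
      ∑ i ∈ G, α i * sg (ε i) + ∑ i ∈ Gᶜ, α i * sg (ε i) := fun ε =>
    (Finset.sum_add_sum_compl G _).symm
  have h2 : ∀ ε : ι → Bool, ∑ i, α i * sg (t_b_flip G ε i) =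
      ∑ i ∈ G, α i * sg (ε i) - ∑ i ∈ Gᶜ, α i * sg (ε i) := by
    intro ε
    rw [← Finset.sum_add_sum_compl G, sub_eq_add_neg, ← Finset.sum_neg_distrib]
    congr 1
    · refine Finset.sum_congr rfl (fun i hi => ?_)
      rw [t_b_flip_mem hi]
    · refine Finset.sum_congr rfl (fun i hi => ?_)
      rw [t_b_flip_not (Finset.mem_compl.mp hi), t_b_sg_not]
      ring
  have h3 : avg (fun ε : ι → Bool => 2 * |∑ i ∈ G, α i * sg (ε i)|) ≤
      avg (fun ε : ι → Bool => |∑ i, α i * sg (ε i)| + |∑ i, α i * sg (t_b_flip G ε i)|) := by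
    refine avg_mono (fun ε => ?_)
    rw [h2, hsplit]
    obtain ⟨x, hx⟩ : ∃ x, x = ∑ i ∈ G, α i * sg (ε i) := ⟨_, rfl⟩
    obtain ⟨y, hy⟩ : ∃ y, y = ∑ i ∈ Gᶜ, α i * sg (ε i) := ⟨_, rfl⟩
    rw [← hx, ← hy]
    have h4 := abs_add_le (x + y) (x - y)
    have h5 : x + y + (x - y) = 2 * x := by ring
    rw [h5, abs_mul, abs_of_pos (by norm_num : (0 : ℝ) < 2)] at h4
    exact h4
  rw [avg_mul_left, avg_add] at h3
  rw [h1] at h3
  linarith

end BMM
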