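import Pool.Agent.BMM.TB

open Finset

namespace BMM

variable {ι : Type} [Fintype ι] [DecidableEq ι] {s : ℕ}

theorem tc_swap {Ω Ω' : Type} [Fintype Ω] [Fintype Ω'] (F : Ω × Ω' → ℝ) :
    avg F = avg (fun ω' => avg (fun ω => F (ω, ω'))) := by
  unfold avg
  rw [Fintype.sum_prod_type_right, Fintype.card_prod, ← Finset.sum_div, div_div]
  push_cast
  rfl

theorem tc_prod (hs : 1 ≤ s) (T : Finset ι) :
    avg (fun g : ι → Fin s => ∏ k ∈ T, xi g k) = (1 / (s : ℝ)) ^ T.card := by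
  classical
  have hs0 : (s : ℝ) ≠ 0 := by
    have : (0 : ℝ) < s := by exact_mod_cast hs
    exact this.ne'
  have h1 : ∀ g : ι → Fin s, ∏ k ∈ T, xi g k =
      ∏ k, (fun (k : ι) (x : Fin s) => if k ∈ T then (if (x : ℕ) = 0 then (1 : ℝ) else 0) else 1) k (g k) := by
    intro g
    rw [← Finset.prod_filter_mul_prod_filter_not Finset.univ (fun k => k ∈ T)]
    have e1 : ∏ k ∈ Finset.univ.filter (fun k => ¬ k ∈ T),
        (fun (k : ι) (x : Fin s) => if k ∈ T then (if (x : ℕ) = 0 then (1 : ℝ) else 0) else 1) k (g k) = 1 := by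
      refine Finset.prod_eq_one fun k hk => ?_
      simp only [Finset.mem_filter] at hk
      simp [hk.2]
    rw [e1, mul_one]
    have e2 : Finset.univ.filter (fun k => k ∈ T) = T := by ext; simp
    rw [e2]
    refine Finset.prod_congr rfl fun k hk => ?_
    simp [hk, xi]
  have h2 : ∑ g : ι → Fin s, ∏ k ∈ T, xi g k =
      ∏ k, ∑ x : Fin s, (if k ∈ T then (if (x : ℕ) = 0 then (1 : ℝ) else 0) else 1) := by
    rw [Finset.sum_congr rfl (fun g _ => h1 g), Finset.prod_univ_sum, Fintype.piFinset_univ]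
  have h3 : ∀ k : ι, ∑ x : Fin s, (if k ∈ T then (if (x : ℕ) = 0 then (1 : ℝ) else 0) else 1) =
      if k ∈ T then 1 else (s : ℝ) := by
    intro k
    split_ifs with h
    · obtain ⟨n, rfl⟩ : ∃ n, s = n + 1 := ⟨s - 1, by omega⟩
      rw [Finset.sum_eq_single (0 : Fin (n + 1))]
      · simp
      · intro b _ hb
        rw [if_neg]
        intro h'
        exact hb (Fin.ext h')
      · simp
    · simp
  have h4 : (Fintype.card (ι → Fin s) : ℝ) = ∏ _k : ι, (s : ℝ) := by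
    rw [Fintype.card_fun, Fintype.card_fin]
    push_cast
    rw [Finset.prod_const, Finset.card_univ]
  unfold avg
  rw [h2, h4, ← Finset.prod_div_distrib, Finset.prod_congr rfl (fun k _ => by rw [h3 k])]
  rw [← Finset.prod_filter_mul_prod_filter_not Finset.univ (fun k => k ∈ T)]
  have e2 : Finset.univ.filter (fun k => k ∈ T) = T := by ext; simp
  have e1 : ∏ k ∈ Finset.univ.filter (fun k => ¬ k ∈ T), (if k ∈ T then 1 else (s : ℝ)) / (s : ℝ) = 1 := by
    refine Finset.prod_eq_one fun k hk => ?_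
    simp only [Finset.mem_filter] at hk
    rw [if_neg hk.2, div_self hs0]
  rw [e1, mul_one, e2, Finset.prod_congr rfl (fun k hk => by rw [if_pos hk]), Finset.prod_const]

theorem xi_m1 (hs : 1 ≤ s) (i : ι) : avg (fun g : ι → Fin s => xi g i) = 1 / (s : ℝ) := by
  have h := tc_prod hs ({i} : Finset ι)
  simpa using h

theorem xi_sq (g : ι → Fin s) (i : ι) : xi g i ^ 2 = xi g i := by
  unfold xi
  split_ifs <;> simp

theorem xi_m2 (hs : 1 ≤ s) {i j : ι} (h : i ≠ j) :
    avg (fun g : ι → Fin s => xi g i * xi g j) = 1 / (s : ℝ) ^ 2 := by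
  have h1 := tc_prod hs ({i, j} : Finset ι)
  rw [Finset.card_pair h] at h1
  have h2 : (fun g : ι → Fin s => ∏ k ∈ ({i, j} : Finset ι), xi g k) = fun g => xi g i * xi g j := by
    funext g
    rw [Finset.prod_pair h]
  rw [h2] at h1
  rw [h1, div_pow, one_pow]

theorem tc_sum (g : ι → Fin s) (ε : ι → Bool) (a : ι → ℝ) (G : Finset ι) :
    ∑ i ∈ G, xi g i * sg (ε i) * a i = ∑ i, (if i ∈ G then xi g i * a i else 0) * sg (ε i) := by
  rw [← Finset.sum_filter_add_sum_filter_not Finset.univ (fun k => k ∈ G)]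
  have e2 : Finset.univ.filter (fun k => k ∈ G) = G := by ext; simp
  have e1 : ∑ i ∈ Finset.univ.filter (fun k => ¬ k ∈ G), (if i ∈ G then xi g i * a i else 0) * sg (ε i) = 0 := by
    refine Finset.sum_eq_zero fun k hk => ?_
    simp only [Finset.mem_filter] at hk
    rw [if_neg hk.2, zero_mul]
  rw [e1, add_zero, e2]
  refine Finset.sum_congr rfl fun k hk => ?_
  rw [if_pos hk]
  ring

theorem tc_sq (g : ι → Fin s) (a : ι → ℝ) (G : Finset ι) :
    ∑ i, (if i ∈ G then xi g i * a i else 0) ^ 2 = ∑ i ∈ G, a i ^ 2 * xi g i := by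
  rw [← Finset.sum_filter_add_sum_filter_not Finset.univ (fun k => k ∈ G)]
  have e2 : Finset.univ.filter (fun k => k ∈ G) = G := by ext; simp
  have e1 : ∑ i ∈ Finset.univ.filter (fun k => ¬ k ∈ G), (if i ∈ G then xi g i * a i else 0) ^ 2 = 0 := by
    refine Finset.sum_eq_zero fun k hk => ?_
    simp only [Finset.mem_filter] at hk
    rw [if_neg hk.2]
    norm_num
  rw [e1, add_zero, e2]
  refine Finset.sum_congr rfl fun k hk => ?_
  rw [if_pos hk, mul_pow, xi_sq]
  ring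

/-- Second moment of the sparse sum. -/
theorem sp_m2 (hs : 1 ≤ s) (a : ι → ℝ) (G : Finset ι) :
    avg (fun ω : (ι → Bool) × (ι → Fin s) => (∑ i ∈ G, xi ω.2 i * sg (ω.1 i) * a i) ^ 2) =
      (∑ i ∈ G, a i ^ 2) / s := by
  rw [tc_swap]
  have h1 : (fun g : ι → Fin s => avg (fun ε : ι → Bool =>
      (∑ i ∈ G, xi ((ε, g) : (ι → Bool) × (ι → Fin s)).2 i * sg (((ε, g) : (ι → Bool) × (ι → Fin s)).1 i) * a i) ^ 2)) =
      fun g => ∑ i ∈ G, a i ^ 2 * xi g i := by
    funext g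
    rw [← tc_sq, ← sgn_m2]
    congr 1
    funext ε
    rw [tc_sum]
  rw [h1, avg_sum]
  rw [Finset.sum_div]
  refine Finset.sum_congr rfl fun i _ => ?_
  rw [avg_mul_left, xi_m1 hs]
  ring

/-- Fourth moment of the sparse sum. -/
theorem sp_m4 (hs : 1 ≤ s) (a : ι → ℝ) (G : Finset ι) :
    avg (fun ω : (ι → Bool) × (ι → Fin s) => (∑ i ∈ G, xi ω.2 i * sg (ω.1 i) * a i) ^ 4) ≤
      3 * ((∑ i ∈ G, a i ^ 4) / s + (∑ i ∈ G, a i ^ 2) ^ 2 / (s : ℝ) ^ 2) := by
  rw [tc_swap]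
  have h1 : avg (fun g : ι → Fin s => avg (fun ε : ι → Bool =>
      (∑ i ∈ G, xi ((ε, g) : (ι → Bool) × (ι → Fin s)).2 i * sg (((ε, g) : (ι → Bool) × (ι → Fin s)).1 i) * a i) ^ 4)) ≤
      avg (fun g : ι → Fin s => 3 * ∑ i ∈ G, ∑ j ∈ G, (a i ^ 2 * a j ^ 2) * (xi g i * xi g j)) := by
    refine avg_mono fun g => ?_
    have h2 := sgn_m4 (fun i => if i ∈ G then xi g i * a i else 0)
    rw [tc_sq] at h2
    have h3 : (∑ i ∈ G, a i ^ 2 * xi g i) ^ 2 = ∑ i ∈ G, ∑ j ∈ G, (a i ^ 2 * a j ^ 2) * (xi g i * xi g j) := by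
      rw [sq, Finset.sum_mul_sum]
      refine Finset.sum_congr rfl fun i _ => Finset.sum_congr rfl fun j _ => ?_
      ring
    rw [h3] at h2
    refine le_trans (le_of_eq ?_) h2
    congr 1
    funext ε
    rw [tc_sum]
  refine h1.trans ?_
  rw [avg_mul_left]
  refine mul_le_mul_of_nonneg_left ?_ (by norm_num)
  rw [avg_sum]
  have hs0 : (0 : ℝ) < s := by exact_mod_cast hs
  have h4 : ∀ i ∈ G, avg (fun g : ι → Fin s => ∑ j ∈ G, (a i ^ 2 * a j ^ 2) * (xi g i * xi g j)) ≤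
      a i ^ 4 / s + ∑ j ∈ G, a i ^ 2 * a j ^ 2 / (s : ℝ) ^ 2 := by
    intro i hi
    rw [avg_sum]
    have h5 : ∀ j ∈ G, avg (fun g : ι → Fin s => (a i ^ 2 * a j ^ 2) * (xi g i * xi g j)) ≤
        (if j = i then a i ^ 4 / s else 0) + a i ^ 2 * a j ^ 2 / (s : ℝ) ^ 2 := by
      intro j _
      rw [avg_mul_left]
      by_cases hj : j = i
      · subst hj
        rw [if_pos rfl]
        have e : (fun g : ι → Fin s => xi g j * xi g j) = fun g => xi g j := by
          funext g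
          rw [← sq, xi_sq]
        rw [e, xi_m1 hs]
        have : 0 ≤ a j ^ 2 * a j ^ 2 / (s : ℝ) ^ 2 := by positivity
        have e3 : a j ^ 2 * a j ^ 2 * (1 / (s : ℝ)) = a j ^ 4 / s := by ring
        linarith
      · rw [if_neg hj, xi_m2 hs (fun h => hj h.symm)]
        rw [zero_add]
        exact le_of_eq (by ring)
    refine (Finset.sum_le_sum h5).trans ?_
    rw [Finset.sum_add_distrib, Finset.sum_ite_eq' G i, if_pos hi]
  refine (Finset.sum_le_sum h4).trans ?_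
  rw [Finset.sum_add_distrib, ← Finset.sum_div]
  refine le_of_eq ?_
  congr 1
  rw [sq (∑ i ∈ G, a i ^ 2), Finset.sum_mul_sum, Finset.sum_div]
  refine Finset.sum_congr rfl fun i _ => ?_
  rw [Finset.sum_div]

/-- First moment: restriction to a subset. -/
theorem sp_restrict (a : ι → ℝ) (G : Finset ι) :
    avg (fun ω : (ι → Bool) × (ι → Fin s) => |∑ i ∈ G, xi ω.2 i * sg (ω.1 i) * a i|) ≤
      avg (fun ω : (ι → Bool) × (ι → Fin s) => |∑ i, xi ω.2 i * sg (ω.1 i) * a i|) := by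
  rw [tc_swap, tc_swap]
  refine avg_mono fun g => ?_
  have h := sgn_restrict (fun i => xi g i * a i) G
  have e1 : (fun ε : ι → Bool => |∑ i ∈ G, xi ((ε, g) : (ι → Bool) × (ι → Fin s)).2 i *
      sg (((ε, g) : (ι → Bool) × (ι → Fin s)).1 i) * a i|) = fun ε => |∑ i ∈ G, xi g i * a i * sg (ε i)| := by
    funext ε
    congr 1
    refine Finset.sum_congr rfl fun i _ => ?_
    show xi g i * sg (ε i) * a i = _
    ring
  have e2 : (fun ε : ι → Bool => |∑ i, xi ((ε, g) : (ι → Bool) × (ι → Fin s)).2 i *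
      sg (((ε, g) : (ι → Bool) × (ι → Fin s)).1 i) * a i|) = fun ε => |∑ i, xi g i * a i * sg (ε i)| := by
    funext ε
    congr 1
    refine Finset.sum_congr rfl fun i _ => ?_
    show xi g i * sg (ε i) * a i = _
    ring
  rw [e1, e2]
  exact h

end BMM
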