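import Pool.Agent.BMM.TC

open Finset

namespace BMM

variable {ι : Type} [Fintype ι] [DecidableEq ι] {s : ℕ}

/-- If the part of `a` with small coordinates carries `1/16` of the mass then the sparse sum is
large in mean. -/
theorem sp_lower (hs : 1 ≤ s) (a : ι → ℝ) (ha : ∑ i, a i ^ 2 = 1)
    (h : 1 / 16 ≤ ∑ i ∈ univ.filter (fun i => a i ^ 2 ≤ 4 / (s : ℝ)), a i ^ 2) :
    1 / √(s : ℝ) ≤ 56 *
      avg (fun ω : (ι → Bool) × (ι → Fin s) => |∑ i, xi ω.2 i * sg (ω.1 i) * a i|) := by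
  set G := univ.filter (fun i => a i ^ 2 ≤ 4 / (s : ℝ)) with hG
  set g := ∑ i ∈ G, a i ^ 2 with hg
  have hs0 : (0:ℝ) < s := by exact_mod_cast hs
  set E := avg (fun ω : (ι → Bool) × (ι → Fin s) => |∑ i ∈ G, xi ω.2 i * sg (ω.1 i) * a i|) with hE
  have h2 := sp_m2 hs a G
  have h4 := sp_m4 hs a G
  have hh := avg_holder (fun ω : (ι → Bool) × (ι → Fin s) => ∑ i ∈ G, xi ω.2 i * sg (ω.1 i) * a i)
  have hr := sp_restrict (s := s) a G
  have h5 : ∑ i ∈ G, a i ^ 4 ≤ 4 / s * g := by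
    rw [hg, mul_sum]
    apply sum_le_sum
    intro i hi
    have h1 := (mem_filter.1 hi).2
    have h3 := mul_le_mul_of_nonneg_right h1 (sq_nonneg (a i))
    calc a i ^ 4 = a i ^ 2 * a i ^ 2 := by ring
      _ ≤ _ := h3
  have hE0 : 0 ≤ E := avg_nonneg (fun ω => abs_nonneg _)
  have h6 : (g / s) ^ 3 ≤ E ^ 2 * (3 * (4 / s * g / s + g ^ 2 / (s : ℝ) ^ 2)) := by
    have h7 : E ^ 2 * avg (fun ω : (ι → Bool) × (ι → Fin s) => (∑ i ∈ G, xi ω.2 i * sg (ω.1 i) * a i) ^ 4) ≤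
        E ^ 2 * (3 * (4 / s * g / s + g ^ 2 / (s : ℝ) ^ 2)) := by
      apply mul_le_mul_of_nonneg_left _ (sq_nonneg E)
      refine h4.trans ?_
      have h8 : (∑ i ∈ G, a i ^ 4) / s ≤ 4 / s * g / s := div_le_div_of_nonneg_right h5 hs0.le
      linarith
    rw [h2] at hh
    exact hh.trans h7
  have h7 : g ^ 3 ≤ E ^ 2 * s * (3 * (4 + g)) * g := by
    have h8 := mul_le_mul_of_nonneg_right h6 (by positivity : (0:ℝ) ≤ (s:ℝ) ^ 3)
    have h9 : (g / s) ^ 3 * (s:ℝ) ^ 3 = g ^ 3 := by field_simp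
    have h10 : E ^ 2 * (3 * (4 / s * g / s + g ^ 2 / (s : ℝ) ^ 2)) * (s:ℝ) ^ 3 = E ^ 2 * s * (3 * (4 + g)) * g := by
      field_simp
    rw [h9, h10] at h8
    exact h8
  have hg0 : 0 < g := by linarith
  have h8 : g ^ 2 ≤ E ^ 2 * s * (3 * (4 + g)) := by
    by_contra hcon
    push Not at hcon
    have h9 := mul_lt_mul_of_pos_right hcon hg0
    have h10 : g ^ 2 * g = g ^ 3 := by ring
    linarith
  have h9 : 3 * (4 + g) ≤ 3120 * g ^ 2 := by nlinarith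
  have hEs : 0 ≤ E ^ 2 * s := by positivity
  have h10 : g ^ 2 ≤ E ^ 2 * s * 3120 * g ^ 2 := by
    have := mul_le_mul_of_nonneg_left h9 hEs
    linarith
  have h11 : 1 ≤ E ^ 2 * s * 3120 := by
    by_contra hcon
    push Not at hcon
    have h12 := mul_lt_mul_of_pos_right hcon (by positivity : 0 < g ^ 2)
    linarith
  have hss : √(s : ℝ) ^ 2 = s := Real.sq_sqrt hs0.le
  have hsp : 0 < √(s : ℝ) := Real.sqrt_pos.2 hs0
  have h12 : 1 / √(s : ℝ) ≤ 56 * E := by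
    rw [div_le_iff₀ hsp]
    by_contra hcon
    push Not at hcon
    have h13 : 0 ≤ 56 * E * √(s : ℝ) := by positivity
    have h14 : (56 * E * √(s : ℝ)) ^ 2 < 1 := by nlinarith
    have h15 : (56 * E * √(s : ℝ)) ^ 2 = 3136 * (E ^ 2 * s) := by
      rw [mul_pow, mul_pow, hss]; ring
    rw [h15] at h14
    linarith
  linarith

/-- The uncertainty principle. -/
theorem uncertain (hs : 1 ≤ s) (O : ι → ι → ℝ) (hO1 : ∀ i j, |O i j| ≤ 1 / (s : ℝ))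
    (hO2 : ∀ a : ι → ℝ, ∑ i, (∑ j, O i j * a j) ^ 2 = ∑ j, a j ^ 2)
    (a : ι → ℝ) (ha : ∑ i, a i ^ 2 = 1) :
    1 / 16 ≤ ∑ i ∈ univ.filter (fun i => a i ^ 2 ≤ 4 / (s : ℝ)), a i ^ 2 ∨
    1 / 16 ≤ ∑ i ∈ univ.filter (fun i => (∑ j, O i j * a j) ^ 2 ≤ 4 / (s : ℝ)),
      (∑ j, O i j * a j) ^ 2 := by
  by_contra hcon
  push Not at hcon
  obtain ⟨hc1, hc2⟩ := hcon
  have hs0 : (0:ℝ) < s := by exact_mod_cast hs
  set b : ι → ℝ := fun i => ∑ j, O i j * a j with hb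
  have hb1 : ∑ i, b i ^ 2 = 1 := (hO2 a).trans ha
  -- the large coordinates
  have key : ∀ c : ι → ℝ, ∑ i, c i ^ 2 = 1 →
      ∑ i ∈ univ.filter (fun i => ¬ c i ^ 2 ≤ 4 / (s : ℝ)), |c i| ≤ √((s : ℝ) / 4) := by
    intro c hc
    set H := univ.filter (fun i => ¬ c i ^ 2 ≤ 4 / (s : ℝ)) with hH
    have h1 : ∑ i ∈ H, c i ^ 2 ≤ 1 := by
      rw [← hc]
      exact sum_le_sum_of_subset_of_nonneg (subset_univ _) (fun i _ _ => sq_nonneg _)
    have h2 : (H.card : ℝ) * (4 / s) ≤ 1 := by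
      refine le_trans ?_ h1
      have h3 : ∑ i ∈ H, (4 / s : ℝ) ≤ ∑ i ∈ H, c i ^ 2 :=
        sum_le_sum (fun i hi => le_of_lt (not_le.1 (mem_filter.1 hi).2))
      simpa using h3
    have h3 : (H.card : ℝ) ≤ s / 4 := by
      rw [le_div_iff₀ (by norm_num : (0:ℝ) < 4)]
      have h4 : (H.card : ℝ) * (4 / s) = (H.card : ℝ) * 4 / s := by ring
      rw [h4, div_le_iff₀ hs0] at h2
      linarith
    have h4 : (∑ i ∈ H, |c i|) ^ 2 ≤ H.card * ∑ i ∈ H, |c i| ^ 2 := sq_sum_le_card_mul_sum_sq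
    have h5 : ∑ i ∈ H, |c i| ^ 2 = ∑ i ∈ H, c i ^ 2 := sum_congr rfl (fun i _ => sq_abs _)
    rw [h5] at h4
    apply Real.le_sqrt_of_sq_le
    calc (∑ i ∈ H, |c i|) ^ 2 ≤ H.card * ∑ i ∈ H, c i ^ 2 := h4
      _ ≤ H.card * 1 := mul_le_mul_of_nonneg_left h1 (by positivity)
      _ ≤ s / 4 := by rw [mul_one]; exact h3
  have ka := key a ha
  have kb := key b hb1
  -- decomposition
  have e1 : (1:ℝ) = ∑ i, b i * ∑ j, O i j * a j := by
    rw [← hb1]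
    exact sum_congr rfl (fun i _ => by rw [sq])
  set G' := univ.filter (fun i => b i ^ 2 ≤ 4 / (s : ℝ)) with hG'
  set H' := univ.filter (fun i => ¬ b i ^ 2 ≤ 4 / (s : ℝ)) with hH'
  set G := univ.filter (fun i => a i ^ 2 ≤ 4 / (s : ℝ)) with hG
  set H := univ.filter (fun i => ¬ a i ^ 2 ≤ 4 / (s : ℝ)) with hH
  have e2 : ∑ i, b i * ∑ j, O i j * a j = ∑ i ∈ G', b i ^ 2 + ∑ i ∈ H', b i * ∑ j, O i j * a j := by
    rw [← sum_filter_add_sum_filter_not univ (fun i => b i ^ 2 ≤ 4 / (s : ℝ))]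
    congr 1
    exact sum_congr rfl (fun i _ => by rw [sq])
  have e3 : ∀ i, ∑ j, O i j * a j = ∑ j ∈ G, O i j * a j + ∑ j ∈ H, O i j * a j := by
    intro i
    rw [← sum_filter_add_sum_filter_not univ (fun j => a j ^ 2 ≤ 4 / (s : ℝ))]
  have e4 : ∑ i ∈ H', b i * ∑ j, O i j * a j = ∑ i ∈ H', b i * ∑ j ∈ G, O i j * a j +
      ∑ i ∈ H', b i * ∑ j ∈ H, O i j * a j := by
    rw [← sum_add_distrib]
    exact sum_congr rfl (fun i _ => by rw [e3 i]; ring)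
  -- middle part
  have m1 : ∑ i ∈ H', b i * ∑ j ∈ G, O i j * a j ≤ 1 / 4 := by
    have h1 : (∑ i ∈ H', b i * ∑ j ∈ G, O i j * a j) ^ 2 ≤
        (∑ i ∈ H', b i ^ 2) * ∑ i ∈ H', (∑ j ∈ G, O i j * a j) ^ 2 := sum_mul_sq_le_sq_mul_sq _ _ _
    have h2 : ∑ i ∈ H', b i ^ 2 ≤ 1 := by
      rw [← hb1]
      exact sum_le_sum_of_subset_of_nonneg (subset_univ _) (fun i _ _ => sq_nonneg _)
    have h3 : ∑ i ∈ H', (∑ j ∈ G, O i j * a j) ^ 2 ≤ 1 / 16 := by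
      have h4 : ∀ i, ∑ j ∈ G, O i j * a j = ∑ j, O i j * (if a j ^ 2 ≤ 4 / (s : ℝ) then a j else 0) := by
        intro i
        rw [hG, sum_filter]
        exact sum_congr rfl (fun j _ => by split_ifs <;> simp)
      have h5 : ∑ i, (∑ j ∈ G, O i j * a j) ^ 2 = ∑ j ∈ G, a j ^ 2 := by
        rw [sum_congr rfl (fun i _ => by rw [h4 i]), hO2, hG, sum_filter]
        exact sum_congr rfl (fun j _ => by split_ifs <;> simp)
      have h6 : ∑ i ∈ H', (∑ j ∈ G, O i j * a j) ^ 2 ≤ ∑ i, (∑ j ∈ G, O i j * a j) ^ 2 :=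
        sum_le_sum_of_subset_of_nonneg (subset_univ _) (fun i _ _ => sq_nonneg _)
      linarith
    have h4 : (∑ i ∈ H', b i * ∑ j ∈ G, O i j * a j) ^ 2 ≤ (1 / 4) ^ 2 := by
      refine h1.trans ?_
      have h5 : 0 ≤ ∑ i ∈ H', (∑ j ∈ G, O i j * a j) ^ 2 := sum_nonneg (fun i _ => sq_nonneg _)
      calc (∑ i ∈ H', b i ^ 2) * ∑ i ∈ H', (∑ j ∈ G, O i j * a j) ^ 2
          ≤ 1 * (1 / 16) := mul_le_mul h2 h3 h5 (by norm_num)
        _ = (1 / 4) ^ 2 := by norm_num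
    exact (le_abs_self _).trans (abs_le_of_sq_le_sq h4 (by norm_num))
  have m2 : ∑ i ∈ H', b i * ∑ j ∈ H, O i j * a j ≤ 1 / 4 := by
    have h1 : ∀ i, |∑ j ∈ H, O i j * a j| ≤ 1 / s * ∑ j ∈ H, |a j| := by
      intro i
      rw [mul_sum]
      refine (abs_sum_le_sum_abs _ _).trans (sum_le_sum (fun j _ => ?_))
      rw [abs_mul]
      exact mul_le_mul_of_nonneg_right (hO1 i j) (abs_nonneg _)
    have h2 : ∑ i ∈ H', b i * ∑ j ∈ H, O i j * a j ≤ (∑ i ∈ H', |b i|) * (1 / s * ∑ j ∈ H, |a j|) := by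
      rw [sum_mul]
      refine sum_le_sum (fun i _ => ?_)
      refine (le_abs_self _).trans ?_
      rw [abs_mul]
      exact mul_le_mul_of_nonneg_left (h1 i) (abs_nonneg _)
    refine h2.trans ?_
    have h3 : 0 ≤ ∑ j ∈ H, |a j| := sum_nonneg (fun j _ => abs_nonneg _)
    have h4 : (∑ i ∈ H', |b i|) * (1 / s * ∑ j ∈ H, |a j|) ≤ √((s : ℝ) / 4) * (1 / s * √((s : ℝ) / 4)) := by
      apply mul_le_mul kb _ (by positivity) (Real.sqrt_nonneg _)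
      exact mul_le_mul_of_nonneg_left ka (by positivity)
    refine h4.trans (le_of_eq ?_)
    have h5 : √((s : ℝ) / 4) * √((s : ℝ) / 4) = s / 4 := Real.mul_self_sqrt (by positivity)
    calc √((s : ℝ) / 4) * (1 / s * √((s : ℝ) / 4)) = 1 / s * (√((s : ℝ) / 4) * √((s : ℝ) / 4)) := by ring
      _ = 1 / 4 := by rw [h5]; field_simp
  rw [e2, e4] at e1
  linarith

end BMM
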