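import Pool.Agent.BMM.Par

open Finset

namespace BMM

/-- Average over a finite type. -/
noncomputable def avg {Ω : Type} [Fintype Ω] (F : Ω → ℝ) : ℝ := (∑ ω, F ω) / (Fintype.card Ω : ℝ)

/-- Sign of a boolean. -/
def sg (b : Bool) : ℝ := if b then 1 else -1

/-- Indicator of the event `g i = 0`. -/
noncomputable def xi {ι : Type} {s : ℕ} (g : ι → Fin s) (i : ι) : ℝ :=
  if (g i : ℕ) = 0 then 1 else 0

/-- The random functionals: `ω = ((signs, sparse set), branch)`. -/
noncomputable def phi {ι : Type} [Fintype ι] {s : ℕ} (O : ι → ι → ℝ)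
    (ω : ((ι → Bool) × (ι → Fin s)) × Bool) (r : ι) : ℝ :=
  if ω.2 then xi ω.1.2 r * sg (ω.1.1 r) else ∑ i, xi ω.1.2 i * sg (ω.1.1 i) * O i r

end BMM
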