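import Pool.Agent.BMM.TD

open Finset

namespace BMM

variable {ι : Type} [Fintype ι] [DecidableEq ι] {s : ℕ}

theorem TE_true (O : ι → ι → ℝ) (ω : (ι → Bool) × (ι → Fin s)) (a : ι → ℝ) :
    ∑ r, phi O (ω, true) r * a r = ∑ i, xi ω.2 i * sg (ω.1 i) * a i := by
  refine Finset.sum_congr rfl (fun r _ => ?_)
  simp [phi]

theorem TE_false (O : ι → ι → ℝ) (ω : (ι → Bool) × (ι → Fin s)) (a : ι → ℝ) :
    ∑ r, phi O (ω, false) r * a r = ∑ i, xi ω.2 i * sg (ω.1 i) * (∑ j, O i j * a j) := by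
  have h1 : ∀ r, phi O (ω, false) r * a r = ∑ i, xi ω.2 i * sg (ω.1 i) * (O i r * a r) := by
    intro r
    have h2 : phi O (ω, false) r = ∑ i, xi ω.2 i * sg (ω.1 i) * O i r := by simp [phi]
    rw [h2, Finset.sum_mul]
    exact Finset.sum_congr rfl (fun i _ => by ring)
  rw [Finset.sum_congr rfl (fun r _ => h1 r), Finset.sum_comm]
  exact Finset.sum_congr rfl (fun i _ => by rw [Finset.mul_sum])

theorem TE_bool (f : Bool → ℝ) : avg f = (f true + f false) / 2 := by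
  unfold avg
  simp

theorem TE_avg (O : ι → ι → ℝ) (a : ι → ℝ) :
    avg (fun ω : ((ι → Bool) × (ι → Fin s)) × Bool => |∑ r, phi O ω r * a r|) =
      (avg (fun ω : (ι → Bool) × (ι → Fin s) => |∑ i, xi ω.2 i * sg (ω.1 i) * a i|) +
        avg (fun ω : (ι → Bool) × (ι → Fin s) =>
          |∑ i, xi ω.2 i * sg (ω.1 i) * (∑ j, O i j * a j)|)) / 2 := by
  rw [avg_prod]
  have h1 : (fun ω : (ι → Bool) × (ι → Fin s) => avg (fun ω' : Bool => |∑ r, phi O (ω, ω') r * a r|)) =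
      fun ω => (1 / 2 : ℝ) * (|∑ i, xi ω.2 i * sg (ω.1 i) * a i| +
        |∑ i, xi ω.2 i * sg (ω.1 i) * (∑ j, O i j * a j)|) := by
    funext ω
    rw [TE_bool, TE_true, TE_false]
    ring
  rw [h1, avg_mul_left, avg_add]
  ring

/-- Lower bound for the random functionals. -/
theorem phi_lower (hs : 1 ≤ s) (O : ι → ι → ℝ) (hO1 : ∀ i j, |O i j| ≤ 1 / (s : ℝ))
    (hO2 : ∀ a : ι → ℝ, ∑ i, (∑ j, O i j * a j) ^ 2 = ∑ j, a j ^ 2) (a : ι → ℝ) :
    √(∑ i, a i ^ 2) ≤ 112 * √(s : ℝ) *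
      avg (fun ω : ((ι → Bool) × (ι → Fin s)) × Bool => |∑ r, phi O ω r * a r|) := by
  have hs0 : (0 : ℝ) < s := by exact_mod_cast hs
  have hss : 0 < √(s : ℝ) := Real.sqrt_pos.2 hs0
  have hav : 0 ≤ avg (fun ω : ((ι → Bool) × (ι → Fin s)) × Bool => |∑ r, phi O ω r * a r|) :=
    avg_nonneg (fun ω => abs_nonneg _)
  have hsum : 0 ≤ ∑ i, a i ^ 2 := Finset.sum_nonneg (fun i _ => sq_nonneg _)
  rcases hsum.eq_or_lt with h0 | h0
  · rw [← h0, Real.sqrt_zero]
    positivity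
  · set N : ℝ := √(∑ i, a i ^ 2) with hN
    have hNpos : 0 < N := Real.sqrt_pos.2 h0
    have hNsq : N ^ 2 = ∑ i, a i ^ 2 := Real.sq_sqrt hsum
    set b : ι → ℝ := fun i => a i / N with hb
    have hb1 : ∑ i, b i ^ 2 = 1 := by
      have h1 : ∀ i, b i ^ 2 = a i ^ 2 / N ^ 2 := fun i => by rw [hb]; exact div_pow _ _ _
      rw [Finset.sum_congr rfl (fun i _ => h1 i), ← Finset.sum_div, ← hNsq]
      exact div_self (by positivity)
    have hab : ∀ i, a i = N * b i := fun i => by rw [hb]; field_simp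
    have hscale : avg (fun ω : ((ι → Bool) × (ι → Fin s)) × Bool => |∑ r, phi O ω r * a r|) =
        N * avg (fun ω : ((ι → Bool) × (ι → Fin s)) × Bool => |∑ r, phi O ω r * b r|) := by
      rw [← avg_mul_left]
      congr 1
      funext ω
      have h1 : ∑ r, phi O ω r * a r = N * ∑ r, phi O ω r * b r := by
        rw [Finset.mul_sum]
        exact Finset.sum_congr rfl (fun r _ => by rw [hab r]; ring)
      rw [h1, abs_mul, abs_of_pos hNpos]
    have hA1 : 0 ≤ avg (fun ω : (ι → Bool) × (ι → Fin s) => |∑ i, xi ω.2 i * sg (ω.1 i) * b i|) :=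
      avg_nonneg (fun ω => abs_nonneg _)
    have hA2 : 0 ≤ avg (fun ω : (ι → Bool) × (ι → Fin s) =>
        |∑ i, xi ω.2 i * sg (ω.1 i) * (∑ j, O i j * b j)|) := avg_nonneg (fun ω => abs_nonneg _)
    have hkey : 1 / √(s : ℝ) ≤ 112 *
        avg (fun ω : ((ι → Bool) × (ι → Fin s)) × Bool => |∑ r, phi O ω r * b r|) := by
      rw [TE_avg]
      rcases uncertain hs O hO1 hO2 b hb1 with h | h
      · have := sp_lower hs b hb1 h
        linarith
      · have := sp_lower hs (fun i => ∑ j, O i j * b j) (by rw [hO2 b, hb1]) h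
        linarith
    rw [hscale]
    rw [div_le_iff₀ hss] at hkey
    calc N = N * 1 := (mul_one N).symm
      _ ≤ N * (112 * avg (fun ω : ((ι → Bool) × (ι → Fin s)) × Bool => |∑ r, phi O ω r * b r|) *
            √(s : ℝ)) := mul_le_mul_of_nonneg_left hkey hNpos.le
      _ = _ := by ring

theorem TE_xi_nonneg (g : ι → Fin s) (i : ι) : 0 ≤ xi g i := by
  unfold xi
  split_ifs <;> norm_num

theorem TE_holder {p : ℝ} (hp : 1 < p) (ω : (ι → Bool) × (ι → Fin s)) (a : ι → ℝ) :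
    |∑ i, xi ω.2 i * sg (ω.1 i) * a i| ≤
      (∑ i, xi ω.2 i) ^ (1 - 1 / p) * (∑ i, |a i| ^ p) ^ (1 / p) := by
  have hq : p.HolderConjugate (Real.conjExponent p) := Real.HolderConjugate.conjExponent hp
  set q := Real.conjExponent p with hqdef
  have hqpos : 0 < q := hq.symm.pos
  have h1q : 1 / q = 1 - 1 / p := by
    have := hq.inv_add_inv_eq_one
    rw [one_div, one_div]
    linarith
  have h1 : |∑ i, xi ω.2 i * sg (ω.1 i) * a i| ≤ ∑ i, xi ω.2 i * |a i| := by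
    refine (Finset.abs_sum_le_sum_abs _ _).trans (le_of_eq ?_)
    refine Finset.sum_congr rfl (fun i _ => ?_)
    have h2 : |sg (ω.1 i)| = 1 := by
      unfold sg
      split_ifs <;> simp
    rw [abs_mul, abs_mul, h2, abs_of_nonneg (TE_xi_nonneg _ _), mul_one]
  refine h1.trans ?_
  have h2 := Real.inner_le_Lp_mul_Lq univ (fun i => xi ω.2 i) (fun i => |a i|) hq.symm
  simp only [abs_abs] at h2
  have h3 : ∑ i, |xi ω.2 i| ^ q = ∑ i, xi ω.2 i := by
    refine Finset.sum_congr rfl (fun i _ => ?_)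
    unfold xi
    split_ifs
    · simp
    · rw [abs_zero, Real.zero_rpow hqpos.ne']
  rw [h3, h1q] at h2
  exact h2

/-- Upper bound for one random functional, `p > 1`. -/
theorem phi_upper {p : ℝ} (hp : 1 < p) (O : ι → ι → ℝ)
    (ω : ((ι → Bool) × (ι → Fin s)) × Bool) (a : ι → ℝ) {B : ℝ}
    (h1 : (∑ i, |a i| ^ p) ^ (1 / p) ≤ B) (h2 : (∑ i, |∑ j, O i j * a j| ^ p) ^ (1 / p) ≤ B) :
    |∑ r, phi O ω r * a r| ≤ (∑ i, xi ω.1.2 i) ^ (1 - 1 / p) * B := by
  obtain ⟨ω1, b⟩ := ω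
  have hx : 0 ≤ (∑ i, xi ω1.2 i) ^ (1 - 1 / p) :=
    Real.rpow_nonneg (Finset.sum_nonneg (fun i _ => TE_xi_nonneg _ _)) _
  cases b
  · rw [TE_false]
    exact (TE_holder hp ω1 _).trans (mul_le_mul_of_nonneg_left h2 hx)
  · rw [TE_true]
    exact (TE_holder hp ω1 _).trans (mul_le_mul_of_nonneg_left h1 hx)

/-- Mean of the bound. -/
theorem phi_mean {t : ℝ} (ht0 : 0 ≤ t) (ht1 : t ≤ 1) (hs : 1 ≤ s)
    (hN : Fintype.card ι = s ^ 2) :
    avg (fun ω : ((ι → Bool) × (ι → Fin s)) × Bool => (∑ i, xi ω.1.2 i) ^ t) ≤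
      2 * (s : ℝ) ^ t := by
  have hs0 : (0 : ℝ) < s := by exact_mod_cast hs
  have : Nonempty (Fin s) := ⟨⟨0, hs⟩⟩
  have h1 : avg (fun ω : ((ι → Bool) × (ι → Fin s)) × Bool => (∑ i, xi ω.1.2 i) ^ t) =
      avg (fun g : ι → Fin s => (∑ i, xi g i) ^ t) := by
    rw [avg_prod]
    have h2 : (fun ω : (ι → Bool) × (ι → Fin s) => avg (fun _ : Bool => (∑ i, xi ω.2 i) ^ t)) =
        fun ω => (∑ i, xi ω.2 i) ^ t := by
      funext ω
      rw [avg_const]
    have h3 : avg (fun ω : (ι → Bool) × (ι → Fin s) => (∑ i, xi ω.2 i) ^ t) =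
        avg (fun g : ι → Fin s => (∑ i, xi g i) ^ t) := by
      rw [avg_prod]
      exact avg_const (Ω := ι → Bool) (avg (fun g : ι → Fin s => (∑ i, xi g i) ^ t))
    exact (congrArg avg h2).trans h3
  rw [h1]
  have h4 : ∀ g : ι → Fin s, (∑ i, xi g i) ^ t ≤ (s : ℝ) ^ t * (1 + (1 / (s : ℝ)) * ∑ i, xi g i) := by
    intro g
    have hx : 0 ≤ ∑ i, xi g i := Finset.sum_nonneg (fun i _ => TE_xi_nonneg _ _)
    have h5 : ∑ i, xi g i = s * ((∑ i, xi g i) / s) := by field_simp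
    have h6 : 0 ≤ (∑ i, xi g i) / (s : ℝ) := by positivity
    have h7 : ((∑ i, xi g i) / (s : ℝ)) ^ t ≤ 1 + (∑ i, xi g i) / (s : ℝ) := by
      rcases le_total ((∑ i, xi g i) / (s : ℝ)) 1 with h8 | h8
      · have := Real.rpow_le_one h6 h8 ht0
        linarith
      · have := Real.rpow_le_rpow_of_exponent_le h8 ht1
        rw [Real.rpow_one] at this
        linarith
    calc (∑ i, xi g i) ^ t = (s * ((∑ i, xi g i) / s)) ^ t := by rw [← h5]
      _ = (s : ℝ) ^ t * ((∑ i, xi g i) / s) ^ t := Real.mul_rpow hs0.le h6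
      _ ≤ (s : ℝ) ^ t * (1 + (∑ i, xi g i) / s) :=
          mul_le_mul_of_nonneg_left h7 (Real.rpow_nonneg hs0.le _)
      _ = _ := by ring
  refine (avg_mono h4).trans ?_
  rw [avg_mul_left, avg_add, avg_const, avg_mul_left, avg_sum]
  have h9 : ∑ k : ι, avg (fun g : ι → Fin s => xi g k) = s := by
    rw [Finset.sum_congr rfl (fun i _ => xi_m1 hs i)]
    rw [Finset.sum_const, Finset.card_univ, hN, nsmul_eq_mul]
    push_cast
    field_simp
  rw [h9]
  have h10 : (s : ℝ) ^ t * (1 + 1 / (s : ℝ) * s) = 2 * (s : ℝ) ^ t := by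
    field_simp
    ring
  rw [h10]

end BMM
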