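import Pool.Agent.BMM.TA

open Finset

namespace BMM

theorem TF_cs {κ : Type} [Fintype κ] (f g : κ → ℝ) :
    |∑ k, f k * g k| ≤ √(∑ k, f k ^ 2) * √(∑ k, g k ^ 2) := by
  rw [abs_le]
  constructor
  · have h := Real.sum_mul_le_sqrt_mul_sqrt univ (fun k => - f k) g
    simp only [neg_mul, Finset.sum_neg_distrib, neg_sq] at h
    linarith
  · exact Real.sum_mul_le_sqrt_mul_sqrt univ f g

theorem TF_mink {κ Ω : Type} [Fintype κ] [Fintype Ω] {B : ℝ} (hB : 0 ≤ B) (a : κ → ℝ) (ha : ∀ k, 0 ≤ a k)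
    (F : κ → Ω → ℝ) (h : ∀ k, a k ≤ B * avg (fun ω => |F k ω|)) :
    √(∑ k, a k ^ 2) ≤ B * avg (fun ω => √(∑ k, F k ω ^ 2)) := by
  calc √(∑ k, a k ^ 2) ≤ √(∑ k, (B * avg (fun ω => |F k ω|)) ^ 2) := by
        refine Real.sqrt_le_sqrt (Finset.sum_le_sum fun k _ => ?_)
        exact pow_le_pow_left₀ (ha k) (h k) 2
    _ = √(B ^ 2 * ∑ k, (avg (fun ω => |F k ω|)) ^ 2) := by
        rw [Finset.mul_sum]
        congr 1
        exact Finset.sum_congr rfl fun k _ => mul_pow _ _ _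
    _ = B * √(∑ k, (avg (fun ω => |F k ω|)) ^ 2) := by
        rw [Real.sqrt_mul (by positivity), Real.sqrt_sq hB]
    _ ≤ B * avg (fun ω => √(∑ k, F k ω ^ 2)) := mul_le_mul_of_nonneg_left (avg_minkowski F) hB

theorem TF_dual {κ : Type} [Fintype κ] (F : ℝ) (ψ : κ → ℝ) :
    ∃ c : κ → ℝ, ∑ k, c k ^ 2 ≤ F ^ 2 ∧ ∑ k, c k * ψ k = F * √(∑ k, ψ k ^ 2) := by
  set G : ℝ := √(∑ k, ψ k ^ 2) with hG
  have hG2 : ∑ k, ψ k ^ 2 = G ^ 2 := (Real.sq_sqrt (Finset.sum_nonneg fun k _ => sq_nonneg _)).symm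
  by_cases h : G = 0
  · refine ⟨fun _ => 0, ?_, ?_⟩
    · simp only [ne_eq, OfNat.ofNat_ne_zero, not_false_eq_true, zero_pow, Finset.sum_const_zero]
      exact sq_nonneg F
    · rw [h, mul_zero]
      simp
  · refine ⟨fun k => F / G * ψ k, ?_, ?_⟩
    · have e : ∑ k, (F / G * ψ k) ^ 2 = F ^ 2 := by
        calc ∑ k, (F / G * ψ k) ^ 2 = (F / G) ^ 2 * ∑ k, ψ k ^ 2 := by
              rw [Finset.mul_sum]
              exact Finset.sum_congr rfl fun k _ => mul_pow _ _ _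
          _ = F ^ 2 := by
              rw [hG2]
              field_simp
      exact e.le
    · calc ∑ k, F / G * ψ k * ψ k = F / G * ∑ k, ψ k ^ 2 := by
            rw [Finset.mul_sum]
            exact Finset.sum_congr rfl fun k _ => by ring
        _ = F * G := by
            rw [hG2]
            field_simp

/-- Abstract Gordon-Lewis type trace inequality. -/
theorem gl_abs {ι κ Ω₁ Ω₂ P : Type} [Fintype ι] [Fintype κ] [Fintype Ω₁] [Fintype Ω₂]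
    [Fintype P] {γ : P → Type} [∀ q, Fintype (γ q)]
    (nrm : (ι → ℝ) → ℝ) (nu : (κ → ℝ) → ℝ) (A b : κ → ι → ℝ)
    (al : (q : P) → γ q → ι → ℝ) (hh : (q : P) → γ q → κ → ℝ)
    (hA : ∀ i r, A i r = ∑ q, ∑ k, al q k r * hh q k i)
    (x : Ω₁ → ι → ℝ) (φ : Ω₂ → ι → ℝ) (Mf : Ω₂ → ℝ) {B1 B2 A1 A2 K1 K2 : ℝ}
    (hB1 : 0 ≤ B1) (hA1 : 0 ≤ A1) (hK1 : 0 ≤ K1) (hK2 : 0 ≤ K2)
    (hnrm : ∀ a, 0 ≤ nrm a) (hMf : ∀ ω, 0 ≤ Mf ω)
    (hx1 : ∀ α : ι → ℝ, √(∑ r, α r ^ 2) ≤ B1 * avg (fun ω => |∑ r, α r * x ω r|))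
    (hx2 : avg (fun ω => nrm (x ω)) ≤ B2)
    (hφ1 : ∀ v : ι → ℝ, √(∑ r, v r ^ 2) ≤ A1 * avg (fun ω => |∑ r, φ ω r * v r|))
    (hφ2 : ∀ ω v, |∑ r, φ ω r * v r| ≤ Mf ω * nrm v) (hφ3 : avg Mf ≤ A2)
    (hb : ∀ t : κ → ℝ, nrm (fun r => ∑ i, t i * b i r) ≤ K2 * nu t)
    (hC : ∀ (a : ι → ℝ) (c : (q : P) → γ q → ℝ),
      (∀ q, ∑ k, c q k ^ 2 ≤ ∑ k, (∑ r, al q k r * a r) ^ 2) →
      nu (fun i => ∑ q, ∑ k, c q k * hh q k i) ≤ K1 * nrm a) :
    |∑ i, ∑ r, A i r * b i r| ≤ B1 * A1 * (B2 * A2) * (K1 * K2) := by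
  classical
  -- the vectors B h
  let v : (q : P) → γ q → ι → ℝ := fun q k r => ∑ i, hh q k i * b i r
  have hv : ∀ q k r, v q k r = ∑ i, hh q k i * b i r := fun _ _ _ => rfl
  have h0 : ∑ i, ∑ r, A i r * b i r = ∑ q, ∑ k, ∑ r, al q k r * v q k r := by
    have e1 : ∀ i, ∑ r, A i r * b i r = ∑ q, ∑ r, ∑ k, al q k r * hh q k i * b i r := by
      intro i
      rw [Finset.sum_comm]
      refine Finset.sum_congr rfl fun r _ => ?_
      rw [hA, Finset.sum_mul]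
      exact Finset.sum_congr rfl fun q _ => Finset.sum_mul _ _ _
    rw [Finset.sum_congr rfl fun i _ => e1 i, Finset.sum_comm]
    refine Finset.sum_congr rfl fun q _ => ?_
    have e2 : ∀ i, ∑ r, ∑ k, al q k r * hh q k i * b i r
        = ∑ k, ∑ r, al q k r * hh q k i * b i r := fun i => Finset.sum_comm
    rw [Finset.sum_congr rfl fun i _ => e2 i, Finset.sum_comm]
    refine Finset.sum_congr rfl fun k _ => ?_
    rw [Finset.sum_comm]
    refine Finset.sum_congr rfl fun r _ => ?_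
    rw [hv, Finset.mul_sum]
    exact Finset.sum_congr rfl fun i _ => mul_assoc _ _ _
  let F : P → Ω₁ → ℝ := fun q ω => √(∑ k, (∑ r, al q k r * x ω r) ^ 2)
  let G : P → Ω₂ → ℝ := fun q ω => √(∑ k, (∑ r, φ ω r * v q k r) ^ 2)
  have hF0 : ∀ q ω, 0 ≤ F q ω := fun q ω => Real.sqrt_nonneg _
  have hG0 : ∀ q ω, 0 ≤ G q ω := fun q ω => Real.sqrt_nonneg _
  have h3 : ∀ q, √(∑ k, √(∑ r, al q k r ^ 2) ^ 2) ≤ B1 * avg (F q) := fun q =>
    TF_mink hB1 (fun k => √(∑ r, al q k r ^ 2)) (fun k => Real.sqrt_nonneg _)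
      (fun k ω => ∑ r, al q k r * x ω r) fun k => hx1 (al q k)
  have h4 : ∀ q, √(∑ k, √(∑ r, v q k r ^ 2) ^ 2) ≤ A1 * avg (G q) := fun q =>
    TF_mink hA1 (fun k => √(∑ r, v q k r ^ 2)) (fun k => Real.sqrt_nonneg _)
      (fun k ω => ∑ r, φ ω r * v q k r) fun k => hφ1 (v q k)
  have h5 : ∀ q, |∑ k, ∑ r, al q k r * v q k r| ≤ (B1 * avg (F q)) * (A1 * avg (G q)) := by
    intro q
    calc |∑ k, ∑ r, al q k r * v q k r| ≤ ∑ k, |∑ r, al q k r * v q k r| :=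
          Finset.abs_sum_le_sum_abs _ _
      _ ≤ ∑ k, √(∑ r, al q k r ^ 2) * √(∑ r, v q k r ^ 2) :=
          Finset.sum_le_sum fun k _ => TF_cs _ _
      _ ≤ √(∑ k, √(∑ r, al q k r ^ 2) ^ 2) * √(∑ k, √(∑ r, v q k r ^ 2) ^ 2) :=
          Real.sum_mul_le_sqrt_mul_sqrt univ _ _
      _ ≤ (B1 * avg (F q)) * (A1 * avg (G q)) :=
          mul_le_mul (h3 q) (h4 q) (Real.sqrt_nonneg _) (mul_nonneg hB1 (avg_nonneg (hF0 q)))
  -- the pointwise estimate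
  have h6 : ∀ ω₁ ω₂, ∑ q, F q ω₁ * G q ω₂ ≤ (K1 * K2) * (nrm (x ω₁) * Mf ω₂) := by
    intro ω₁ ω₂
    choose c hc1 hc2 using fun q => TF_dual (F q ω₁) (fun k => ∑ r, φ ω₂ r * v q k r)
    have e1 : ∑ q, F q ω₁ * G q ω₂ = ∑ r, φ ω₂ r * ∑ i, (∑ q, ∑ k, c q k * hh q k i) * b i r := by
      have e2 : ∀ r, ∑ i, (∑ q, ∑ k, c q k * hh q k i) * b i r = ∑ q, ∑ k, c q k * v q k r := by
        intro r
        have e3 : ∀ i, (∑ q, ∑ k, c q k * hh q k i) * b i r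
            = ∑ q, ∑ k, c q k * hh q k i * b i r := by
          intro i
          rw [Finset.sum_mul]
          exact Finset.sum_congr rfl fun q _ => Finset.sum_mul _ _ _
        rw [Finset.sum_congr rfl fun i _ => e3 i, Finset.sum_comm]
        refine Finset.sum_congr rfl fun q _ => ?_
        rw [Finset.sum_comm]
        refine Finset.sum_congr rfl fun k _ => ?_
        rw [hv, Finset.mul_sum]
        exact Finset.sum_congr rfl fun i _ => mul_assoc _ _ _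
      have e4 : ∀ r, φ ω₂ r * ∑ i, (∑ q, ∑ k, c q k * hh q k i) * b i r
          = ∑ q, ∑ k, c q k * (φ ω₂ r * v q k r) := by
        intro r
        rw [e2, Finset.mul_sum]
        refine Finset.sum_congr rfl fun q _ => ?_
        rw [Finset.mul_sum]
        exact Finset.sum_congr rfl fun k _ => by ring
      rw [Finset.sum_congr rfl fun r _ => e4 r, Finset.sum_comm]
      refine Finset.sum_congr rfl fun q _ => ?_
      rw [← hc2 q, Finset.sum_comm]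
      exact Finset.sum_congr rfl fun k _ => Finset.mul_sum _ _ _
    have e5 : ∀ q, ∑ k, c q k ^ 2 ≤ ∑ k, (∑ r, al q k r * x ω₁ r) ^ 2 := by
      intro q
      have e6 := hc1 q
      have e7 : F q ω₁ ^ 2 = ∑ k, (∑ r, al q k r * x ω₁ r) ^ 2 :=
        Real.sq_sqrt (Finset.sum_nonneg fun k _ => sq_nonneg _)
      rwa [e7] at e6
    have e8 := hC (x ω₁) c e5
    have e9 := hb (fun i => ∑ q, ∑ k, c q k * hh q k i)
    have e10 := hφ2 ω₂ (fun r => ∑ i, (∑ q, ∑ k, c q k * hh q k i) * b i r)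
    rw [e1]
    calc ∑ r, φ ω₂ r * ∑ i, (∑ q, ∑ k, c q k * hh q k i) * b i r
        ≤ |∑ r, φ ω₂ r * ∑ i, (∑ q, ∑ k, c q k * hh q k i) * b i r| := le_abs_self _
      _ ≤ Mf ω₂ * nrm (fun r => ∑ i, (∑ q, ∑ k, c q k * hh q k i) * b i r) := e10
      _ ≤ Mf ω₂ * (K2 * nu (fun i => ∑ q, ∑ k, c q k * hh q k i)) :=
          mul_le_mul_of_nonneg_left e9 (hMf ω₂)
      _ ≤ Mf ω₂ * (K2 * (K1 * nrm (x ω₁))) :=
          mul_le_mul_of_nonneg_left (mul_le_mul_of_nonneg_left e8 hK2) (hMf ω₂)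
      _ = (K1 * K2) * (nrm (x ω₁) * Mf ω₂) := by ring
  have h7 : ∑ q, avg (F q) * avg (G q) ≤ (K1 * K2) * (B2 * A2) := by
    have e1 : ∑ q, avg (F q) * avg (G q) = avg (fun ω₁ => avg (fun ω₂ => ∑ q, F q ω₁ * G q ω₂)) := by
      have e2 : ∀ ω₁, avg (fun ω₂ => ∑ q, F q ω₁ * G q ω₂) = ∑ q, avg (G q) * F q ω₁ := by
        intro ω₁
        rw [avg_sum univ (fun q ω₂ => F q ω₁ * G q ω₂)]
        refine Finset.sum_congr rfl fun q _ => ?_
        rw [avg_mul_left, mul_comm]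
      have e3 : (fun ω₁ => avg (fun ω₂ => ∑ q, F q ω₁ * G q ω₂))
          = fun ω₁ => ∑ q, avg (G q) * F q ω₁ := funext e2
      rw [e3, avg_sum univ (fun q ω₁ => avg (G q) * F q ω₁)]
      refine Finset.sum_congr rfl fun q _ => ?_
      rw [avg_mul_left, mul_comm]
    rw [e1]
    have e4 : avg (fun ω₁ => avg (fun ω₂ => ∑ q, F q ω₁ * G q ω₂))
        ≤ avg (fun ω₁ => (K1 * K2 * avg Mf) * nrm (x ω₁)) := by
      refine avg_mono fun ω₁ => ?_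
      calc avg (fun ω₂ => ∑ q, F q ω₁ * G q ω₂)
          ≤ avg (fun ω₂ => (K1 * K2 * nrm (x ω₁)) * Mf ω₂) := by
            refine avg_mono fun ω₂ => ?_
            calc ∑ q, F q ω₁ * G q ω₂ ≤ (K1 * K2) * (nrm (x ω₁) * Mf ω₂) := h6 ω₁ ω₂
              _ = (K1 * K2 * nrm (x ω₁)) * Mf ω₂ := by ring
        _ = (K1 * K2 * nrm (x ω₁)) * avg Mf := avg_mul_left _ _
        _ = (K1 * K2 * avg Mf) * nrm (x ω₁) := by ring
    refine e4.trans ?_
    rw [avg_mul_left]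
    have e5 : 0 ≤ avg Mf := avg_nonneg hMf
    have e6 : 0 ≤ avg (fun ω => nrm (x ω)) := avg_nonneg fun ω => hnrm _
    have e7 : avg (fun ω => nrm (x ω)) * avg Mf ≤ B2 * A2 :=
      mul_le_mul hx2 hφ3 e5 (e6.trans hx2)
    calc K1 * K2 * avg Mf * avg (fun ω => nrm (x ω))
        = (K1 * K2) * (avg (fun ω => nrm (x ω)) * avg Mf) := by ring
      _ ≤ (K1 * K2) * (B2 * A2) := mul_le_mul_of_nonneg_left e7 (mul_nonneg hK1 hK2)
  rw [h0]
  calc |∑ q, ∑ k, ∑ r, al q k r * v q k r| ≤ ∑ q, |∑ k, ∑ r, al q k r * v q k r| :=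
        Finset.abs_sum_le_sum_abs _ _
    _ ≤ ∑ q, (B1 * avg (F q)) * (A1 * avg (G q)) := Finset.sum_le_sum fun q _ => h5 q
    _ = (B1 * A1) * ∑ q, avg (F q) * avg (G q) := by
        rw [Finset.mul_sum]
        exact Finset.sum_congr rfl fun q _ => by ring
    _ ≤ (B1 * A1) * ((K1 * K2) * (B2 * A2)) := mul_le_mul_of_nonneg_left h7 (mul_nonneg hB1 hA1)
    _ = B1 * A1 * (B2 * A2) * (K1 * K2) := by ring

end BMM
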