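import Pool.Agent.BMM.Par

open Finset Module

namespace BMM

theorem TG_update {E : Type} [NormedAddCommGroup E] [NormedSpace ℝ E] {n : ℕ} (b : Basis (Fin n) ℝ E) (x : E) (k : Fin n) :
    b.det (Function.update b k x) = b.repr x k := by
  rw [Basis.det_apply, Basis.toMatrix_update, Basis.toMatrix_self, ← Matrix.cramer_apply, Matrix.cramer_one]
  rfl

theorem TG_cont {E : Type} [NormedAddCommGroup E] [NormedSpace ℝ E] [FiniteDimensional ℝ E] {n : ℕ} (e : Basis (Fin n) ℝ E) :
    Continuous (fun v : Fin n → E => e.det v) := by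
  simp only [Basis.det_apply]
  apply Continuous.matrix_det
  apply continuous_matrix
  intro i j
  simp only [Basis.toMatrix_apply]
  exact (LinearMap.continuous_of_finiteDimensional (e.coord i)).comp (continuous_apply j)

theorem TG_pos {E : Type} [NormedAddCommGroup E] [NormedSpace ℝ E] {n : ℕ} (e : Basis (Fin n) ℝ E) :
    e.det (fun i => (‖e i‖)⁻¹ • e i) ≠ 0 := by
  have h : e.det (fun i => (‖e i‖)⁻¹ • e i) = (∏ i, (‖e i‖)⁻¹) • e.det e :=
    e.det.toMultilinearMap.map_smul_univ (fun i => (‖e i‖)⁻¹) e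
  rw [h, Basis.det_self, smul_eq_mul, mul_one]
  apply Finset.prod_ne_zero_iff.2
  intro i _
  exact inv_ne_zero (norm_ne_zero_iff.2 (e.ne_zero i))

/-- Auerbach bases. -/
theorem auerbach (E : Type) [NormedAddCommGroup E] [NormedSpace ℝ E] [FiniteDimensional ℝ E] :
    ∃ b : Basis (Fin (finrank ℝ E)) ℝ E, (∀ k, ‖b k‖ ≤ 1) ∧ ∀ x k, |b.repr x k| ≤ ‖x‖ := by
  classical
  set n := finrank ℝ E with hn
  let e : Basis (Fin n) ℝ E := finBasis ℝ E
  set S : Set (Fin n → E) := Set.univ.pi (fun _ => Metric.closedBall (0 : E) 1) with hS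
  have hSc : IsCompact S := isCompact_univ_pi (fun _ => isCompact_closedBall 0 1)
  have hmem : ∀ v : Fin n → E, v ∈ S ↔ ∀ i, ‖v i‖ ≤ 1 := by
    intro v
    simp [hS, Set.mem_pi]
  have hSn : S.Nonempty := ⟨fun _ => 0, (hmem _).2 (fun i => by simp)⟩
  obtain ⟨v, hv, hmax⟩ := hSc.exists_isMaxOn hSn ((TG_cont e).abs.continuousOn)
  have hmax' : ∀ w ∈ S, |e.det w| ≤ |e.det v| := fun w hw => hmax hw
  have hne : e.det v ≠ 0 := by
    intro h0
    have h1 := hmax' (fun i => (‖e i‖)⁻¹ • e i) ((hmem _).2 (fun i => by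
      rw [norm_smul, norm_inv, norm_norm, inv_mul_cancel₀ (norm_ne_zero_iff.2 (e.ne_zero i))]))
    rw [h0, abs_zero] at h1
    exact TG_pos e (abs_eq_zero.1 (le_antisymm h1 (abs_nonneg _)))
  obtain ⟨hli, hsp⟩ := (Module.Basis.is_basis_iff_det e).2 (isUnit_iff_ne_zero.2 hne)
  let b : Basis (Fin n) ℝ E := Basis.mk hli hsp.ge
  have hb : (b : Fin n → E) = v := Basis.coe_mk _ _
  have hdet : ∀ w : Fin n → E, e.det w = e.det v * b.det w := by
    intro w
    have h := congrArg (fun f => f w) (AlternatingMap.eq_smul_basis_det (R := ℝ) b e.det)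
    simpa [hb, smul_eq_mul] using h
  refine ⟨b, fun k => by rw [hb]; exact (hmem v).1 hv k, ?_⟩
  have key : ∀ x k, ‖x‖ ≤ 1 → |b.repr x k| ≤ 1 := by
    intro x k hx
    have h1 := hmax' (Function.update v k x) ((hmem _).2 (fun i => by
      by_cases hik : i = k
      · subst hik
        simpa using hx
      · rw [Function.update_of_ne hik]
        exact (hmem v).1 hv i))
    rw [hdet, ← hb, TG_update, hb, abs_mul] at h1
    exact (mul_le_iff_le_one_right (abs_pos.2 hne)).1 h1
  intro x k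
  rcases eq_or_ne x 0 with rfl | hx
  · simp
  · have hx' : 0 < ‖x‖ := norm_pos_iff.2 hx
    have h1 := key ((‖x‖)⁻¹ • x) k (by rw [norm_smul, norm_inv, norm_norm, inv_mul_cancel₀ hx'.ne'])
    rw [map_smul, Finsupp.smul_apply, smul_eq_mul, abs_mul, abs_inv, abs_norm, inv_mul_le_iff₀ hx', mul_one] at h1
    exact h1

end BMM
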