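import Pool.Agent.BMM.TG

open Finset Module

namespace BMM

/-- Auerbach bases for subspaces of `ℓ_p^G`. -/
theorem auerbach_lp {G : Type} [Fintype G] {p : ℝ} (hp : 1 ≤ p) (H : Submodule ℝ (G → ℝ)) :
    ∃ b : Basis (Fin (finrank ℝ H)) ℝ H,
      (∀ k, (∑ g, |(b k : G → ℝ) g| ^ p) ^ (1 / p) ≤ 1) ∧
      ∀ (x : H) k, |b.repr x k| ≤ (∑ g, |(x : G → ℝ) g| ^ p) ^ (1 / p) := by
  classical
  have hp0 : 0 < p := lt_of_lt_of_le one_pos hp
  let q : ENNReal := ENNReal.ofReal p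
  have hq : q.toReal = p := ENNReal.toReal_ofReal hp0.le
  have hfact : Fact (1 ≤ q) := ⟨by
    rw [← ENNReal.ofReal_one]
    exact ENNReal.ofReal_le_ofReal hp⟩
  let e : PiLp q (fun _ : G => ℝ) ≃ₗ[ℝ] (G → ℝ) := WithLp.linearEquiv q ℝ (G → ℝ)
  let H' : Submodule ℝ (PiLp q (fun _ : G => ℝ)) := H.comap (e : PiLp q (fun _ : G => ℝ) →ₗ[ℝ] (G → ℝ))
  let φ : H' ≃ₗ[ℝ] H := e.ofSubmodule' H
  have hnorm : ∀ y : H', ‖y‖ = (∑ g, |(φ y : G → ℝ) g| ^ p) ^ (1 / p) := by
    intro y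
    have h1 : ‖y‖ = ‖(y : PiLp q (fun _ : G => ℝ))‖ := rfl
    rw [h1, PiLp.norm_eq_sum (by rw [hq]; exact hp0), hq]
    rfl
  obtain ⟨b', hb1, hb2⟩ := auerbach H'
  let c : Fin (finrank ℝ H') ≃ Fin (finrank ℝ H) := finCongr φ.finrank_eq
  refine ⟨(b'.map φ).reindex c, ?_, ?_⟩
  · intro k
    have h1 := hb1 (c.symm k)
    rw [hnorm] at h1
    rw [Basis.reindex_apply, Basis.map_apply]
    exact h1
  · intro x k
    have h1 := hb2 (φ.symm x) (c.symm k)
    rw [hnorm, LinearEquiv.apply_symm_apply] at h1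
    rw [Basis.repr_reindex_apply, Basis.map_repr]
    exact h1

theorem TH_pos {G : Type} [Fintype G] {p : ℝ} (hp : 0 < p) {x : G → ℝ}
    (h : (∑ g, |x g| ^ p) ^ (1 / p) ≤ 0) : x = 0 := by
  have h0 : 0 ≤ ∑ g, |x g| ^ p := Finset.sum_nonneg fun g _ => Real.rpow_nonneg (abs_nonneg _) _
  have h1 : ∑ g, |x g| ^ p = 0 := by
    by_contra hne
    have h2 : 0 < ∑ g, |x g| ^ p := lt_of_le_of_ne h0 (Ne.symm hne)
    exact absurd h (not_le.2 (Real.rpow_pos_of_pos h2 _))
  have h2 := (Finset.sum_eq_zero_iff_of_nonneg fun g _ => Real.rpow_nonneg (abs_nonneg (x g)) p).1 h1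
  funext g
  have h3 := h2 g (Finset.mem_univ g)
  by_contra hne
  exact absurd h3 (Real.rpow_pos_of_pos (abs_pos.2 hne) p).ne'

/-- Change of density: a weight `v` with `‖x‖_p^2 ≤ ∑ v x^2 ≤ d^{p-2} ‖x‖_p^2` on `H`. -/
theorem lp_weight {G : Type} [Fintype G] {p : ℝ} (hp : 2 < p) (H : Submodule ℝ (G → ℝ)) :
    ∃ v : G → ℝ, (∀ g, 0 ≤ v g) ∧ ∀ x ∈ H,
      (∑ g, |x g| ^ p) ^ (1 / p) ≤ √(∑ g, v g * x g ^ 2) ∧
      √(∑ g, v g * x g ^ 2) ≤
        (finrank ℝ H : ℝ) ^ ((p - 2) / 2) * (∑ g, |x g| ^ p) ^ (1 / p) := by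
  classical
  have hp0 : 0 < p := by linarith
  obtain ⟨b, hb1, hb2⟩ := auerbach_lp (by linarith : (1 : ℝ) ≤ p) H
  let gg : G → ℝ := fun j => ∑ k, |(b k : G → ℝ) j|
  have hgg : ∀ j, 0 ≤ gg j := fun j => Finset.sum_nonneg fun k _ => abs_nonneg _
  have hggp : ∑ j, gg j ^ p ≤ (finrank ℝ H : ℝ) ^ p := by
    have h1 : ∀ k, ∑ j, |(b k : G → ℝ) j| ^ p ≤ 1 := by
      intro k
      have h2 := hb1 k
      have h3 : 0 ≤ ∑ j, |(b k : G → ℝ) j| ^ p :=
        Finset.sum_nonneg fun j _ => Real.rpow_nonneg (abs_nonneg _) _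
      have h4 := Real.rpow_le_one (Real.rpow_nonneg h3 (1 / p)) h2 hp0.le
      rwa [← Real.rpow_mul h3, one_div_mul_cancel hp0.ne', Real.rpow_one] at h4
    calc ∑ j, gg j ^ p ≤ ∑ j, (finrank ℝ H : ℝ) ^ (p - 1) * ∑ k, |(b k : G → ℝ) j| ^ p := by
          refine Finset.sum_le_sum fun j _ => ?_
          have h2 := Real.rpow_sum_le_const_mul_sum_rpow univ (fun k => (b k : G → ℝ) j)
            (by linarith : (1 : ℝ) ≤ p)
          rw [Finset.card_univ, Fintype.card_fin] at h2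
          exact h2
      _ = (finrank ℝ H : ℝ) ^ (p - 1) * ∑ k, ∑ j, |(b k : G → ℝ) j| ^ p := by
          rw [← Finset.mul_sum, Finset.sum_comm]
      _ ≤ (finrank ℝ H : ℝ) ^ (p - 1) * ∑ _k : Fin (finrank ℝ H), (1 : ℝ) :=
          mul_le_mul_of_nonneg_left (Finset.sum_le_sum fun k _ => h1 k)
            (Real.rpow_nonneg (Nat.cast_nonneg _) _)
      _ = (finrank ℝ H : ℝ) ^ p := by
          rw [Finset.sum_const, Finset.card_univ, Fintype.card_fin, nsmul_eq_mul, mul_one]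
          rcases Nat.eq_zero_or_pos (finrank ℝ H) with h0 | h0
          · rw [h0]
            push_cast
            rw [mul_zero, Real.zero_rpow hp0.ne']
          · have h5 : (0 : ℝ) < (finrank ℝ H : ℝ) := by exact_mod_cast h0
            rw [← Real.rpow_add_one h5.ne']
            congr 1
            ring
  refine ⟨fun j => gg j ^ (p - 2), fun j => Real.rpow_nonneg (hgg j) _, ?_⟩
  intro x hx
  set N : ℝ := (∑ j, |x j| ^ p) ^ (1 / p) with hN
  have hS0 : 0 ≤ ∑ j, |x j| ^ p := Finset.sum_nonneg fun j _ => Real.rpow_nonneg (abs_nonneg _) _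
  have hN0 : 0 ≤ N := Real.rpow_nonneg hS0 _
  have hNp : N ^ p = ∑ j, |x j| ^ p := by
    rw [hN, ← Real.rpow_mul hS0, one_div_mul_cancel hp0.ne', Real.rpow_one]
  have hV0 : 0 ≤ ∑ j, gg j ^ (p - 2) * x j ^ 2 :=
    Finset.sum_nonneg fun j _ => mul_nonneg (Real.rpow_nonneg (hgg j) _) (sq_nonneg _)
  have hxj : ∀ j, |x j| ≤ N * gg j := by
    intro j
    have h1 : x j = ∑ k, b.repr ⟨x, hx⟩ k * (b k : G → ℝ) j := by
      have h2 := congrArg (fun y : H => (y : G → ℝ) j) (b.sum_repr ⟨x, hx⟩)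
      simp only [Submodule.coe_sum, Submodule.coe_smul, Finset.sum_apply, Pi.smul_apply,
        smul_eq_mul] at h2
      exact h2.symm
    calc |x j| = |∑ k, b.repr ⟨x, hx⟩ k * (b k : G → ℝ) j| := by rw [← h1]
      _ ≤ ∑ k, |b.repr ⟨x, hx⟩ k * (b k : G → ℝ) j| := Finset.abs_sum_le_sum_abs _ _
      _ ≤ ∑ k, N * |(b k : G → ℝ) j| := by
          refine Finset.sum_le_sum fun k _ => ?_
          rw [abs_mul]
          exact mul_le_mul_of_nonneg_right (hb2 ⟨x, hx⟩ k) (abs_nonneg _)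
      _ = N * gg j := (Finset.mul_sum _ _ _).symm
  constructor
  · -- lower bound
    rcases hN0.eq_or_lt with h0 | hNpos
    · rw [← h0]
      exact Real.sqrt_nonneg _
    refine Real.le_sqrt_of_sq_le ?_
    have h1 : N ^ p ≤ N ^ (p - 2) * ∑ j, gg j ^ (p - 2) * x j ^ 2 := by
      rw [hNp, Finset.mul_sum]
      refine Finset.sum_le_sum fun j _ => ?_
      have h2 : |x j| ^ p = |x j| ^ (p - 2) * x j ^ 2 := by
        rcases (abs_nonneg (x j)).eq_or_lt with h3 | h3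
        · have h4 : x j = 0 := abs_eq_zero.1 h3.symm
          rw [h4]
          simp [Real.zero_rpow hp0.ne']
        · have h4 : x j ^ 2 = |x j| ^ (2 : ℝ) := by
            rw [← sq_abs]
            norm_cast
          rw [h4, ← Real.rpow_add h3]
          congr 1
          ring
      rw [h2, ← mul_assoc, ← Real.mul_rpow hN0 (hgg j)]
      exact mul_le_mul_of_nonneg_right
        (Real.rpow_le_rpow (abs_nonneg _) (hxj j) (by linarith)) (sq_nonneg _)
    have h2 : N ^ p = N ^ (p - 2) * N ^ 2 := by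
      have h3 : N ^ 2 = N ^ (2 : ℝ) := by norm_cast
      rw [h3, ← Real.rpow_add hNpos]
      congr 1
      ring
    rw [h2] at h1
    exact le_of_mul_le_mul_left h1 (Real.rpow_pos_of_pos hNpos _)
  · -- upper bound
    have hpq : (p / (p - 2)).HolderConjugate (p / 2) := by
      rw [Real.holderConjugate_iff]
      constructor
      · rw [lt_div_iff₀ (by linarith)]
        linarith
      · have : p - 2 ≠ 0 := by linarith
        field_simp
        ring
    have h1 := Real.inner_le_Lp_mul_Lq_of_nonneg univ hpq (f := fun j => gg j ^ (p - 2))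
      (g := fun j => x j ^ 2) (fun j _ => Real.rpow_nonneg (hgg j) _) (fun j _ => sq_nonneg _)
    have h2 : ∀ j, (gg j ^ (p - 2)) ^ (p / (p - 2)) = gg j ^ p := by
      intro j
      rw [← Real.rpow_mul (hgg j)]
      congr 1
      have : p - 2 ≠ 0 := by linarith
      field_simp
    have h3 : ∀ j, (x j ^ 2) ^ (p / 2) = |x j| ^ p := by
      intro j
      have h4 : x j ^ 2 = |x j| ^ (2 : ℝ) := by
        rw [← sq_abs]
        norm_cast
      rw [h4, ← Real.rpow_mul (abs_nonneg _)]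
      congr 1
      ring
    simp only [h2, h3] at h1
    have h5 : (∑ j, gg j ^ p) ^ (1 / (p / (p - 2))) ≤ (finrank ℝ H : ℝ) ^ (p - 2) := by
      calc (∑ j, gg j ^ p) ^ (1 / (p / (p - 2))) ≤ ((finrank ℝ H : ℝ) ^ p) ^ (1 / (p / (p - 2))) := by
            refine Real.rpow_le_rpow (Finset.sum_nonneg fun j _ => Real.rpow_nonneg (hgg j) _) hggp ?_
            have : 0 < p - 2 := by linarith
            positivity
        _ = (finrank ℝ H : ℝ) ^ (p - 2) := by
            rw [← Real.rpow_mul (Nat.cast_nonneg _)]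
            congr 1
            have : p - 2 ≠ 0 := by linarith
            field_simp
    have h6 : (∑ j, |x j| ^ p) ^ (1 / (p / 2)) = N ^ 2 := by
      have h7 : N ^ 2 = N ^ (2 : ℝ) := by norm_cast
      rw [h7, hN, ← Real.rpow_mul hS0]
      congr 1
      field_simp
    rw [h6] at h1
    have h8 : ∑ j, gg j ^ (p - 2) * x j ^ 2 ≤ (finrank ℝ H : ℝ) ^ (p - 2) * N ^ 2 :=
      h1.trans (mul_le_mul_of_nonneg_right h5 (sq_nonneg _))
    calc √(∑ j, gg j ^ (p - 2) * x j ^ 2) ≤ √((finrank ℝ H : ℝ) ^ (p - 2) * N ^ 2) := Real.sqrt_le_sqrt h8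
      _ = (finrank ℝ H : ℝ) ^ ((p - 2) / 2) * N := by
          rw [Real.sqrt_mul (Real.rpow_nonneg (Nat.cast_nonneg _) _), Real.sqrt_sq hN0,
            Real.sqrt_eq_rpow, ← Real.rpow_mul (Nat.cast_nonneg _)]
          congr 2
          ring

/-- Almost orthonormal bases of subspaces of `ℓ_p^G`. -/
theorem euc_basis {G : Type} [Fintype G] {p : ℝ} (hp : 2 < p) (H : Submodule ℝ (G → ℝ)) :
    ∃ b : Basis (Fin (finrank ℝ H)) ℝ H, ∀ c : Fin (finrank ℝ H) → ℝ,
      (∑ g, |∑ k, c k * (b k : G → ℝ) g| ^ p) ^ (1 / p) ≤ √(∑ k, c k ^ 2) ∧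
      √(∑ k, c k ^ 2) ≤ (finrank ℝ H : ℝ) ^ ((p - 2) / 2) *
        (∑ g, |∑ k, c k * (b k : G → ℝ) g| ^ p) ^ (1 / p) := by
  classical
  obtain ⟨v, hv0, hv⟩ := lp_weight hp H
  let T : H →ₗ[ℝ] EuclideanSpace ℝ G :=
    { toFun := fun x => WithLp.toLp 2 (fun g => √(v g) * (x : G → ℝ) g)
      map_add' := fun x y => by
        ext g
        simp [mul_add]
      map_smul' := fun c x => by
        ext g
        simp
        ring }
  have hT : ∀ x : H, ‖T x‖ = √(∑ g, v g * (x : G → ℝ) g ^ 2) := by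
    intro x
    rw [EuclideanSpace.norm_eq]
    congr 1
    refine Finset.sum_congr rfl fun g _ => ?_
    show ‖√(v g) * (x : G → ℝ) g‖ ^ 2 = _
    rw [Real.norm_eq_abs, sq_abs, mul_pow, Real.sq_sqrt (hv0 g)]
  have hinj : Function.Injective T := by
    rw [← LinearMap.ker_eq_bot, LinearMap.ker_eq_bot']
    intro x hx
    have h1 := (hv x x.2).1
    rw [← hT, hx, norm_zero] at h1
    exact Subtype.ext (TH_pos (by linarith) h1)
  let e : H ≃ₗ[ℝ] LinearMap.range T := LinearEquiv.ofInjective T hinj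
  have he : ∀ x : H, ‖e x‖ = √(∑ g, v g * (x : G → ℝ) g ^ 2) := fun x => hT x
  let o := stdOrthonormalBasis ℝ (LinearMap.range T)
  let c₀ : Fin (finrank ℝ (LinearMap.range T)) ≃ Fin (finrank ℝ H) := finCongr e.finrank_eq.symm
  refine ⟨(o.toBasis.map e.symm).reindex c₀, ?_⟩
  intro c
  set b := (o.toBasis.map e.symm).reindex c₀ with hb
  let x : H := ∑ k, c k • b k
  have hx : ∀ g, ∑ k, c k * (b k : G → ℝ) g = (x : G → ℝ) g := by
    intro g
    simp only [x, Submodule.coe_sum, Submodule.coe_smul, Finset.sum_apply, Pi.smul_apply,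
      smul_eq_mul]
  have hrepr : ∀ k, b.repr x k = c k := by
    intro k
    simp only [x]
    rw [Basis.repr_sum_self]
  have hnorm : ‖e x‖ = √(∑ k, c k ^ 2) := by
    rw [← o.repr.norm_map, EuclideanSpace.norm_eq]
    congr 1
    rw [← Equiv.sum_comp c₀ (fun k => c k ^ 2)]
    refine Finset.sum_congr rfl fun k _ => ?_
    rw [Real.norm_eq_abs, sq_abs]
    congr 1
    have h1 := hrepr (c₀ k)
    rw [hb, Basis.repr_reindex_apply, Basis.map_repr, Equiv.symm_apply_apply] at h1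
    rw [← h1]
    rfl
  have h1 := hv x x.2
  rw [← he, hnorm] at h1
  simp only [hx]
  exact h1

end BMM
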