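import Pool.Agent.BMM.Par

open Finset

namespace BMM

theorem wal_abs (h j i : ℕ) : |wal h j i| = 1 := by
  unfold wal
  rw [Finset.abs_prod]
  refine Finset.prod_eq_one fun b _ => ?_
  split_ifs <;> simp

theorem wal_symm (h j i : ℕ) : wal h j i = wal h i j := by
  unfold wal
  refine Finset.prod_congr rfl fun b _ => ?_
  rw [Bool.and_comm]

theorem wal_low {h j : ℕ} (hj : j < 2 ^ h) (i : ℕ) : wal (h + 1) j i = wal h j i := by
  unfold wal
  rw [Finset.prod_range_succ, Nat.testBit_lt_two_pow hj]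
  simp

theorem wa_bit {h b : ℕ} (hb : b < h) (i : ℕ) : (i + 2 ^ h).testBit b = i.testBit b := by
  rw [Nat.add_comm, Nat.testBit_two_pow_add_gt hb]

theorem wal_shift (h j i : ℕ) : wal h j (i + 2 ^ h) = wal h j i := by
  unfold wal
  refine Finset.prod_congr rfl fun b hb => ?_
  rw [wa_bit (Finset.mem_range.1 hb)]

theorem wal_high_low {h j i : ℕ} (hj : j < 2 ^ h) (hi : i < 2 ^ h) :
    wal (h + 1) (j + 2 ^ h) i = wal h j i := by
  rw [wal_symm, wal_low hi, wal_shift, wal_symm]

theorem wal_high_high {h j i : ℕ} (hj : j < 2 ^ h) (hi : i < 2 ^ h) :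
    wal (h + 1) (j + 2 ^ h) (i + 2 ^ h) = - wal h j i := by
  have h1 : wal h (j + 2 ^ h) (i + 2 ^ h) = wal h j i := by
    rw [wal_shift, wal_symm, wal_shift, wal_symm]
  rw [← h1]
  have h2 : (j + 2 ^ h).testBit h = true := by
    rw [Nat.add_comm, Nat.testBit_two_pow_add_eq, Nat.testBit_lt_two_pow hj]
    rfl
  have h3 : (i + 2 ^ h).testBit h = true := by
    rw [Nat.add_comm, Nat.testBit_two_pow_add_eq, Nat.testBit_lt_two_pow hi]
    rfl
  unfold wal
  rw [Finset.prod_range_succ, h2, h3]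
  simp

/-- Orthogonality of the Walsh functions. -/
theorem wal_orth {h j j' : ℕ} (hj : j < 2 ^ h) (hj' : j' < 2 ^ h) :
    ∑ i ∈ range (2 ^ h), wal h j i * wal h j' i = if j = j' then (2 : ℝ) ^ h else 0 := by
  induction h generalizing j j' with
  | zero =>
    have e1 : j = 0 := by simpa using hj
    have e2 : j' = 0 := by simpa using hj'
    subst e1 e2
    simp [wal]
  | succ h ih =>
    have hs : ∑ i ∈ range (2 ^ (h + 1)), wal (h + 1) j i * wal (h + 1) j' i =
        ∑ i ∈ range (2 ^ h), wal (h + 1) j i * wal (h + 1) j' i +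
          ∑ i ∈ range (2 ^ h), wal (h + 1) j (i + 2 ^ h) * wal (h + 1) j' (i + 2 ^ h) := by
      have e : 2 ^ (h + 1) = 2 ^ h + 2 ^ h := by ring
      rw [e, Finset.sum_range_add]
      congr 1
      refine Finset.sum_congr rfl fun i _ => ?_
      rw [Nat.add_comm (2 ^ h) i]
    rw [hs]
    rcases lt_or_ge j (2 ^ h) with h1 | h1
    · have a1 : ∀ i ∈ range (2 ^ h), wal (h + 1) j i = wal h j i := fun i _ => wal_low h1 i
      have a2 : ∀ i ∈ range (2 ^ h), wal (h + 1) j (i + 2 ^ h) = wal h j i := fun i _ => by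
        rw [wal_low h1, wal_shift]
      rcases lt_or_ge j' (2 ^ h) with h2 | h2
      · have b1 : ∀ i ∈ range (2 ^ h), wal (h + 1) j' i = wal h j' i := fun i _ => wal_low h2 i
        have b2 : ∀ i ∈ range (2 ^ h), wal (h + 1) j' (i + 2 ^ h) = wal h j' i := fun i _ => by
          rw [wal_low h2, wal_shift]
        rw [Finset.sum_congr rfl (fun i hi => by rw [a1 i hi, b1 i hi]),
          Finset.sum_congr (s₁ := range (2 ^ h)) rfl (g := fun i => wal h j i * wal h j' i)
            (f := fun i => wal (h + 1) j (i + 2 ^ h) * wal (h + 1) j' (i + 2 ^ h))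
            (fun i hi => by rw [a2 i hi, b2 i hi]), ih h1 h2]
        split_ifs
        · ring
        · ring
      · obtain ⟨l, rfl⟩ : ∃ l, j' = l + 2 ^ h := ⟨j' - 2 ^ h, by omega⟩
        have hl : l < 2 ^ h := by rw [pow_succ] at hj'; omega
        have b1 : ∀ i ∈ range (2 ^ h), wal (h + 1) (l + 2 ^ h) i = wal h l i := fun i hi =>
          wal_high_low hl (Finset.mem_range.1 hi)
        have b2 : ∀ i ∈ range (2 ^ h), wal (h + 1) (l + 2 ^ h) (i + 2 ^ h) = - wal h l i := fun i hi =>
          wal_high_high hl (Finset.mem_range.1 hi)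
        rw [Finset.sum_congr rfl (fun i hi => by rw [a1 i hi, b1 i hi]),
          Finset.sum_congr (s₁ := range (2 ^ h)) rfl (g := fun i => - (wal h j i * wal h l i))
            (f := fun i => wal (h + 1) j (i + 2 ^ h) * wal (h + 1) (l + 2 ^ h) (i + 2 ^ h))
            (fun i hi => by rw [a2 i hi, b2 i hi]; ring), Finset.sum_neg_distrib, add_neg_cancel]
        rw [if_neg (by omega)]
    · obtain ⟨m, rfl⟩ : ∃ m, j = m + 2 ^ h := ⟨j - 2 ^ h, by omega⟩
      have hm : m < 2 ^ h := by rw [pow_succ] at hj; omega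
      have a1 : ∀ i ∈ range (2 ^ h), wal (h + 1) (m + 2 ^ h) i = wal h m i := fun i hi =>
        wal_high_low hm (Finset.mem_range.1 hi)
      have a2 : ∀ i ∈ range (2 ^ h), wal (h + 1) (m + 2 ^ h) (i + 2 ^ h) = - wal h m i := fun i hi =>
        wal_high_high hm (Finset.mem_range.1 hi)
      rcases lt_or_ge j' (2 ^ h) with h2 | h2
      · have b1 : ∀ i ∈ range (2 ^ h), wal (h + 1) j' i = wal h j' i := fun i _ => wal_low h2 i
        have b2 : ∀ i ∈ range (2 ^ h), wal (h + 1) j' (i + 2 ^ h) = wal h j' i := fun i _ => by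
          rw [wal_low h2, wal_shift]
        rw [Finset.sum_congr rfl (fun i hi => by rw [a1 i hi, b1 i hi]),
          Finset.sum_congr (s₁ := range (2 ^ h)) rfl (g := fun i => - (wal h m i * wal h j' i))
            (f := fun i => wal (h + 1) (m + 2 ^ h) (i + 2 ^ h) * wal (h + 1) j' (i + 2 ^ h))
            (fun i hi => by rw [a2 i hi, b2 i hi]; ring), Finset.sum_neg_distrib, add_neg_cancel]
        rw [if_neg (by omega)]
      · obtain ⟨l, rfl⟩ : ∃ l, j' = l + 2 ^ h := ⟨j' - 2 ^ h, by omega⟩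
        have hl : l < 2 ^ h := by rw [pow_succ] at hj'; omega
        have b1 : ∀ i ∈ range (2 ^ h), wal (h + 1) (l + 2 ^ h) i = wal h l i := fun i hi =>
          wal_high_low hl (Finset.mem_range.1 hi)
        have b2 : ∀ i ∈ range (2 ^ h), wal (h + 1) (l + 2 ^ h) (i + 2 ^ h) = - wal h l i := fun i hi =>
          wal_high_high hl (Finset.mem_range.1 hi)
        rw [Finset.sum_congr rfl (fun i hi => by rw [a1 i hi, b1 i hi]),
          Finset.sum_congr (s₁ := range (2 ^ h)) rfl (g := fun i => wal h m i * wal h l i)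
            (f := fun i => wal (h + 1) (m + 2 ^ h) (i + 2 ^ h) * wal (h + 1) (l + 2 ^ h) (i + 2 ^ h))
            (fun i hi => by rw [a2 i hi, b2 i hi]; ring), ih hm hl]
        by_cases he : m = l
        · rw [if_pos he, if_pos (by omega)]
          ring
        · rw [if_neg he, if_neg (by omega)]
          ring

end BMM
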