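import Pool.Agent.BMM.EA
import Pool.Agent.BMM.NA
import Pool.Agent.BMM.WA

open Finset

namespace BMM

/-- The orthogonal Walsh matrix of the group `n`. -/
noncomputable def Om (n : ℕ) (i r : Fin (Nn n)) : ℝ := wal (hh n) (r : ℕ) (i : ℕ) / √(Nn n)

/-- The square root of `N_n`. -/
def sn (n : ℕ) : ℕ := 2 ^ ((n + 1) * aa n)

theorem sn_pos (n : ℕ) : 1 ≤ sn n := Nat.one_le_two_pow

theorem sn_sq (n : ℕ) : sn n ^ 2 = Nn n := (Nn_sq n).symm

theorem TI_sqrt (n : ℕ) : √(Nn n : ℝ) = (sn n : ℝ) := by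
  rw [← sn_sq, Nat.cast_pow, Real.sqrt_sq (Nat.cast_nonneg _)]

theorem TI_pos (n : ℕ) : (0 : ℝ) < (sn n : ℝ) := by
  exact_mod_cast sn_pos n

theorem TI_wal_sq (h j i : ℕ) : wal h j i ^ 2 = 1 := by
  rw [← sq_abs, wal_abs, one_pow]

theorem TI_bo (n : ℕ) : bo (n + 1) = bo n + 2 * Nn n := rfl

theorem Om_abs (n : ℕ) (i r : Fin (Nn n)) : |Om n i r| ≤ 1 / (sn n : ℝ) := by
  unfold Om
  rw [abs_div, wal_abs, TI_sqrt, abs_of_pos (TI_pos n)]

theorem Om_orth (n : ℕ) (a : Fin (Nn n) → ℝ) :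
    ∑ i, (∑ r, Om n i r * a r) ^ 2 = ∑ r, a r ^ 2 := by
  have hN : ((sn n : ℝ)) ^ 2 = (2 : ℝ) ^ (hh n) := by
    have h1 : sn n ^ 2 = 2 ^ (hh n) := sn_sq n
    exact_mod_cast h1
  have hs := TI_pos n
  have h1 : ∀ i : Fin (Nn n), (∑ r, Om n i r * a r) ^ 2 =
      ∑ r, ∑ r', (a r * a r' / (sn n : ℝ) ^ 2) * (wal (hh n) (r : ℕ) (i : ℕ) * wal (hh n) (r' : ℕ) (i : ℕ)) := by
    intro i
    rw [sq, Finset.sum_mul_sum]
    refine Finset.sum_congr rfl (fun r _ => Finset.sum_congr rfl (fun r' _ => ?_))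
    unfold Om
    rw [TI_sqrt]
    field_simp
  rw [Finset.sum_congr rfl (fun i _ => h1 i), Finset.sum_comm]
  refine Finset.sum_congr rfl (fun r _ => ?_)
  rw [Finset.sum_comm]
  have h2 : ∀ r' : Fin (Nn n), ∑ i : Fin (Nn n), (a r * a r' / (sn n : ℝ) ^ 2) *
      (wal (hh n) (r : ℕ) (i : ℕ) * wal (hh n) (r' : ℕ) (i : ℕ)) = if r = r' then a r * a r' else 0 := by
    intro r'
    rw [← Finset.mul_sum]
    have h3 : ∑ i : Fin (Nn n), wal (hh n) (r : ℕ) (i : ℕ) * wal (hh n) (r' : ℕ) (i : ℕ) =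
        ∑ i ∈ range (2 ^ (hh n)), wal (hh n) (r : ℕ) i * wal (hh n) (r' : ℕ) i :=
      Fin.sum_univ_eq_sum_range (fun i => wal (hh n) (r : ℕ) i * wal (hh n) (r' : ℕ) i) (Nn n)
    rw [h3, wal_orth r.2 r'.2]
    by_cases hc : r = r'
    · rw [if_pos hc, if_pos (congrArg Fin.val hc), ← hN]
      field_simp
    · rw [if_neg hc, if_neg (fun h4 => hc (Fin.ext h4)), mul_zero]
  rw [Finset.sum_congr rfl (fun r' _ => h2 r'), Finset.sum_ite_eq]
  simp [sq]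

/-- Rows have `ℓ_2` norm one. -/
theorem Om_row (n : ℕ) (i : Fin (Nn n)) : ∑ r, Om n i r ^ 2 = 1 := by
  have hs := TI_pos n
  have h1 : ∀ r, Om n i r ^ 2 = 1 / (sn n : ℝ) ^ 2 := by
    intro r
    unfold Om
    rw [div_pow, TI_wal_sq, TI_sqrt]
  have h2 : ((Nn n : ℕ) : ℝ) = (sn n : ℝ) ^ 2 := by
    rw [← sn_sq, Nat.cast_pow]
  rw [Finset.sum_congr rfl (fun r _ => h1 r), Finset.sum_const, Finset.card_univ, Fintype.card_fin,
    nsmul_eq_mul, h2]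
  field_simp

/-- The norm of `F_n`. -/
theorem nF_eq (n : ℕ) (a : Fin (Nn n) → ℝ) :
    nF n a = (∑ r, |a r| ^ (pp n) + ∑ i, |∑ r, Om n i r * a r| ^ (pp n)) ^ (1 / pp n) := by
  unfold nF gn
  congr 1
  have hb := TI_bo n
  rw [← Finset.sum_Ico_consecutive _ (show bo n ≤ bo n + Nn n by omega)
    (show bo n + Nn n ≤ bo (n + 1) by omega)]
  congr 1
  · rw [Finset.sum_Ico_eq_sum_range, show bo n + Nn n - bo n = Nn n by omega]
    rw [← Fin.sum_univ_eq_sum_range (fun i => |∑ r : Fin (Nn n), a r * fvec n r (bo n + i)| ^ (pp n)) (Nn n)]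
    refine Finset.sum_congr rfl (fun i _ => ?_)
    congr 2
    have h1 : ∀ r : Fin (Nn n), a r * fvec n r (bo n + (i : ℕ)) = if i = r then a r else 0 := by
      intro r
      unfold fvec
      rw [evec_even r.2, evec_odd r.2]
      have h2 : ¬ (bo n + Nn n ≤ bo n + (i : ℕ) ∧ bo n + (i : ℕ) < bo (n + 1)) := by
        have := i.2
        omega
      simp only [h2, if_false, add_zero]
      by_cases hc : i = r
      · rw [if_pos hc, hc, Pi.single_eq_same, mul_one]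
      · rw [if_neg hc, Pi.single_eq_of_ne, mul_zero]
        intro h3
        apply hc
        apply Fin.ext
        omega
    rw [Finset.sum_congr rfl (fun r _ => h1 r), Finset.sum_ite_eq]
    simp
  · rw [Finset.sum_Ico_eq_sum_range, show bo (n + 1) - (bo n + Nn n) = Nn n by omega]
    rw [← Fin.sum_univ_eq_sum_range
      (fun i => |∑ r : Fin (Nn n), a r * fvec n r (bo n + Nn n + i)| ^ (pp n)) (Nn n)]
    refine Finset.sum_congr rfl (fun i _ => ?_)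
    congr 2
    refine Finset.sum_congr rfl (fun r _ => ?_)
    unfold fvec Om
    rw [evec_even r.2, evec_odd r.2]
    have h2 : bo n + Nn n ≤ bo n + Nn n + (i : ℕ) ∧ bo n + Nn n + (i : ℕ) < bo (n + 1) := by
      have := i.2
      omega
    have h3 : bo n + Nn n + (i : ℕ) ≠ bo n + (r : ℕ) := by
      have := r.2
      omega
    rw [Pi.single_eq_of_ne h3]
    simp only [h2, and_self, if_true, zero_add]
    rw [show bo n + Nn n + (i : ℕ) - (bo n + Nn n) = (i : ℕ) by omega]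
    ring

theorem TI_nn1 (n : ℕ) (a : Fin (Nn n) → ℝ) : 0 ≤ ∑ r, |a r| ^ (pp n) :=
  Finset.sum_nonneg (fun _ _ => Real.rpow_nonneg (abs_nonneg _) _)

theorem TI_p0 (n : ℕ) : 0 ≤ 1 / pp n := by
  have := pp_gt_two n
  positivity

theorem nF_ge1 (n : ℕ) (a : Fin (Nn n) → ℝ) : (∑ r, |a r| ^ (pp n)) ^ (1 / pp n) ≤ nF n a := by
  rw [nF_eq]
  refine Real.rpow_le_rpow (TI_nn1 n a) ?_ (TI_p0 n)
  have := TI_nn1 n (fun i => ∑ r, Om n i r * a r)
  linarith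

theorem nF_ge2 (n : ℕ) (a : Fin (Nn n) → ℝ) :
    (∑ i, |∑ r, Om n i r * a r| ^ (pp n)) ^ (1 / pp n) ≤ nF n a := by
  rw [nF_eq]
  refine Real.rpow_le_rpow (TI_nn1 n (fun i => ∑ r, Om n i r * a r)) ?_ (TI_p0 n)
  have := TI_nn1 n a
  linarith

theorem nF_le (n : ℕ) (a : Fin (Nn n) → ℝ) :
    nF n a ≤ (∑ r, |a r| ^ (pp n)) ^ (1 / pp n) +
      (∑ i, |∑ r, Om n i r * a r| ^ (pp n)) ^ (1 / pp n) := by
  rw [nF_eq]
  refine Real.rpow_add_le_add_rpow (TI_nn1 n a) (TI_nn1 n (fun i => ∑ r, Om n i r * a r)) (TI_p0 n) ?_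
  have := pp_gt_two n
  rw [div_le_one (by linarith)]
  linarith

theorem nF_nonneg (n : ℕ) (a : Fin (Nn n) → ℝ) : 0 ≤ nF n a := gn_nonneg n _

theorem le_nF (n : ℕ) (a : Fin (Nn n) → ℝ) (r : Fin (Nn n)) : |a r| ≤ nF n a := by
  refine le_trans ?_ (nF_ge1 n a)
  have hp := pp_gt_two n
  have h1 : |a r| ^ (pp n) ≤ ∑ r, |a r| ^ (pp n) :=
    Finset.single_le_sum (f := fun r => |a r| ^ (pp n))
      (fun _ _ => Real.rpow_nonneg (abs_nonneg _) _) (Finset.mem_univ r)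
  have h2 := Real.rpow_le_rpow (Real.rpow_nonneg (abs_nonneg _) _) h1 (TI_p0 n)
  rwa [← Real.rpow_mul (abs_nonneg _), mul_one_div_cancel (by linarith), Real.rpow_one] at h2

end BMM
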