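import Pool.Agent.BMM.TI
import Pool.Agent.BMM.TB

open Finset

namespace BMM

theorem TJ_rpow {p x : ℝ} (hp : 1 ≤ p) (hx : 0 ≤ x) : x ^ (1 / p) ≤ 1 + x := by
  have h0 : 0 ≤ 1 / p := by positivity
  have h1 : 1 / p ≤ 1 := by
    rw [div_le_one (by linarith)]
    exact hp
  rcases le_total x 1 with h | h
  · have := Real.rpow_le_one hx h h0
    linarith
  · have h2 : x ^ (1 / p) ≤ x ^ (1 : ℝ) := Real.rpow_le_rpow_of_exponent_le h h1
    rw [Real.rpow_one] at h2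
    linarith

theorem TJ_pow {p x : ℝ} (hp : 2 ≤ p) (hp4 : p ≤ 4) : |x| ^ p ≤ x ^ 2 + x ^ 4 := by
  have h0 : 0 ≤ |x| := abs_nonneg x
  rcases le_total |x| 1 with h | h
  · rcases h0.eq_or_lt with h1 | h1
    · have hx : x = 0 := abs_eq_zero.mp h1.symm
      rw [hx, abs_zero, Real.zero_rpow (by linarith)]
      norm_num
    · have h2 : |x| ^ p ≤ |x| ^ ((2 : ℕ) : ℝ) := Real.rpow_le_rpow_of_exponent_ge h1 h (by exact_mod_cast hp)
      rw [Real.rpow_natCast, sq_abs] at h2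
      have h3 : 0 ≤ x ^ 4 := by positivity
      linarith
  · have h2 : |x| ^ p ≤ |x| ^ ((4 : ℕ) : ℝ) := Real.rpow_le_rpow_of_exponent_le h (by exact_mod_cast hp4)
    rw [Real.rpow_natCast] at h2
    have h4 : |x| ^ 4 = x ^ 4 := by
      rw [show (4 : ℕ) = 2 * 2 from rfl, pow_mul, sq_abs, ← pow_mul]
    rw [h4] at h2
    have h3 : 0 ≤ x ^ 2 := by positivity
    linarith

/-- Mean of the norm of a random sign vector. -/
theorem nF_signs (n : ℕ) :
    avg (fun ε : Fin (Nn n) → Bool => nF n (fun r => sg (ε r))) ≤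
      6 * ((Nn n : ℕ) : ℝ) ^ (1 / pp n) := by
  classical
  have hp2 := (pp_gt_two n).le
  have hp4 := pp_le_four n
  have hN : (1 : ℝ) ≤ ((Nn n : ℕ) : ℝ) := by exact_mod_cast Nn_pos n
  set N : ℝ := ((Nn n : ℕ) : ℝ) with hNdef
  set p : ℝ := pp n with hp
  have hN0 : 0 < N := by linarith
  have hQ : 0 ≤ N ^ (1 / p) := Real.rpow_nonneg hN0.le _
  have hsg : ∀ b : Bool, |sg b| = 1 := by
    intro b
    cases b <;> simp [sg]
  let X : (Fin (Nn n) → Bool) → ℝ := fun ε =>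
    ∑ i, ((∑ r, Om n i r * sg (ε r)) ^ 2 + (∑ r, Om n i r * sg (ε r)) ^ 4)
  have hX0 : ∀ ε, 0 ≤ X ε := fun ε => Finset.sum_nonneg fun i _ => by positivity
  have h1 : ∀ ε : Fin (Nn n) → Bool, nF n (fun r => sg (ε r)) ≤ 2 * N ^ (1 / p) + (N ^ (1 / p) / N) * X ε := by
    intro ε
    refine (nF_le n _).trans ?_
    have e1 : (∑ r : Fin (Nn n), |sg (ε r)| ^ (pp n)) = N := by
      rw [Finset.sum_congr rfl (fun r _ => by rw [hsg, Real.one_rpow])]
      simp [hNdef]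
    rw [e1]
    have e2 : (∑ i : Fin (Nn n), |∑ r, Om n i r * sg (ε r)| ^ (pp n)) ≤ X ε :=
      Finset.sum_le_sum fun i _ => TJ_pow hp2 hp4
    have e3 : 0 ≤ (∑ i : Fin (Nn n), |∑ r, Om n i r * sg (ε r)| ^ (pp n)) :=
      Finset.sum_nonneg fun i _ => Real.rpow_nonneg (abs_nonneg _) _
    have e4 : (∑ i : Fin (Nn n), |∑ r, Om n i r * sg (ε r)| ^ (pp n)) ^ (1 / pp n) ≤ (X ε) ^ (1 / p) :=
      Real.rpow_le_rpow e3 e2 (by positivity)
    have e5 : (X ε) ^ (1 / p) = N ^ (1 / p) * (X ε / N) ^ (1 / p) := by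
      rw [← Real.mul_rpow hN0.le (div_nonneg (hX0 ε) hN0.le), mul_div_cancel₀ _ hN0.ne']
    have e6 := mul_le_mul_of_nonneg_left (TJ_rpow (p := p) (x := X ε / N) (by linarith)
      (div_nonneg (hX0 ε) hN0.le)) hQ
    have e7 : N ^ (1 / p) * (1 + X ε / N) = N ^ (1 / p) + (N ^ (1 / p) / N) * X ε := by ring
    linarith
  have h2 : avg X ≤ 4 * N := by
    have e1 : avg X = ∑ i : Fin (Nn n), (avg (fun ε : Fin (Nn n) → Bool => (∑ r, Om n i r * sg (ε r)) ^ 2) +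
        avg (fun ε : Fin (Nn n) → Bool => (∑ r, Om n i r * sg (ε r)) ^ 4)) := by
      rw [avg_sum]
      exact Finset.sum_congr rfl fun i _ => avg_add _ _
    rw [e1]
    have e2 : ∀ i : Fin (Nn n), (avg (fun ε : Fin (Nn n) → Bool => (∑ r, Om n i r * sg (ε r)) ^ 2) +
        avg (fun ε : Fin (Nn n) → Bool => (∑ r, Om n i r * sg (ε r)) ^ 4)) ≤ 4 := by
      intro i
      have e3 := sgn_m2 (fun r => Om n i r)
      have e4 := sgn_m4 (fun r => Om n i r)
      rw [Om_row] at e3 e4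
      linarith
    calc _ ≤ ∑ i : Fin (Nn n), (4 : ℝ) := Finset.sum_le_sum fun i _ => e2 i
      _ = 4 * N := by
        rw [Finset.sum_const, Finset.card_univ, Fintype.card_fin, nsmul_eq_mul, mul_comm]
  calc avg (fun ε : Fin (Nn n) → Bool => nF n (fun r => sg (ε r)))
      ≤ avg (fun ε : Fin (Nn n) → Bool => 2 * N ^ (1 / p) + (N ^ (1 / p) / N) * X ε) := avg_mono h1
    _ = 2 * N ^ (1 / p) + (N ^ (1 / p) / N) * avg X := by
        rw [avg_add, avg_const, avg_mul_left]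
    _ ≤ 2 * N ^ (1 / p) + (N ^ (1 / p) / N) * (4 * N) := by
        have := mul_le_mul_of_nonneg_left h2 (div_nonneg hQ hN0.le)
        linarith
    _ = 6 * N ^ (1 / p) := by
        field_simp
        ring

end BMM
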