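import Pool.Agent.BMM.TJ
import Pool.Agent.BMM.TE
import Pool.Agent.BMM.TF

open Finset

namespace BMM

theorem TK_sn_rpow (n : ℕ) : (sn n : ℝ) ^ (1 - 1 / pp n) = √(sn n : ℝ) * √(2 ^ (n + 1)) := by
  have hs0 : (0 : ℝ) < (sn n : ℝ) := by exact_mod_cast sn_pos n
  have ha0 : (0 : ℝ) < (aa n : ℝ) := by
    have h1 : 4 ≤ aa n := aa_ge n
    have h2 : (4 : ℝ) ≤ (aa n : ℝ) := by exact_mod_cast h1
    linarith
  have hp := one_sub_two_div_pp n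
  have hexp : 1 - 1 / pp n = 1 / 2 + 1 / (2 * (aa n : ℝ)) := by
    have h1 : 2 / pp n = 2 * (1 / pp n) := by ring
    have h2 : 1 / (2 * (aa n : ℝ)) = (1 / (aa n : ℝ)) / 2 := by
      field_simp
    rw [h1] at hp
    rw [h2]
    linarith
  rw [hexp, Real.rpow_add hs0, ← Real.sqrt_eq_rpow]
  congr 1
  have h3 : (sn n : ℝ) = ((2 : ℝ) ^ (n + 1)) ^ (aa n) := by
    unfold sn
    push_cast
    rw [pow_mul]
  rw [h3, ← Real.rpow_natCast ((2 : ℝ) ^ (n + 1)) (aa n), ← Real.rpow_mul (by positivity), Real.sqrt_eq_rpow]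
  congr 1
  field_simp

/-- The product of the constants. -/
theorem gl_const (n : ℕ) :
    √3 * (112 * √(sn n : ℝ)) * ((6 * ((Nn n : ℕ) : ℝ) ^ (1 / pp n)) *
      (2 * (sn n : ℝ) ^ (1 - 1 / pp n))) ≤ 2400 * (Nn n : ℝ) / √(2 ^ (n + 1)) := by
  have hs0 : (0 : ℝ) < (sn n : ℝ) := by exact_mod_cast sn_pos n
  have hN : (Nn n : ℝ) = (sn n : ℝ) ^ 2 := by exact_mod_cast (sn_sq n).symm
  have h1 : ((Nn n : ℕ) : ℝ) ^ (1 / pp n) = (sn n : ℝ) / 2 ^ (n + 1) := by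
    rw [Nn_rpow]
    unfold sn
    push_cast
    rfl
  rw [TK_sn_rpow, h1, hN]
  have hD0 : (0 : ℝ) < 2 ^ (n + 1) := by positivity
  have hD : √((2 : ℝ) ^ (n + 1)) * √((2 : ℝ) ^ (n + 1)) = 2 ^ (n + 1) := Real.mul_self_sqrt hD0.le
  have hS : √(sn n : ℝ) * √(sn n : ℝ) = (sn n : ℝ) := Real.mul_self_sqrt hs0.le
  have hDs : 0 < √((2 : ℝ) ^ (n + 1)) := Real.sqrt_pos.mpr hD0
  have h3 : √(3 : ℝ) ≤ 1.78 := by
    rw [Real.sqrt_le_left (by norm_num)]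
    norm_num
  have hkey : √3 * (112 * √(sn n : ℝ)) * ((6 * ((sn n : ℝ) / 2 ^ (n + 1))) *
      (2 * (√(sn n : ℝ) * √(2 ^ (n + 1))))) = √3 * 1344 * ((sn n : ℝ) ^ 2 / √(2 ^ (n + 1))) := by
    have h4 : (sn n : ℝ) / 2 ^ (n + 1) = (sn n : ℝ) / (√((2 : ℝ) ^ (n + 1)) * √((2 : ℝ) ^ (n + 1))) := by
      rw [hD]
    rw [h4]
    have h5 : √3 * (112 * √(sn n : ℝ)) * ((6 * ((sn n : ℝ) / (√((2 : ℝ) ^ (n + 1)) * √((2 : ℝ) ^ (n + 1))))) *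
      (2 * (√(sn n : ℝ) * √(2 ^ (n + 1))))) = √3 * 1344 * ((√(sn n : ℝ) * √(sn n : ℝ)) * (sn n : ℝ) *
        (√(2 ^ (n + 1)) / (√((2 : ℝ) ^ (n + 1)) * √((2 : ℝ) ^ (n + 1))))) := by ring
    rw [h5, hS]
    have h6 : √((2 : ℝ) ^ (n + 1)) / (√((2 : ℝ) ^ (n + 1)) * √((2 : ℝ) ^ (n + 1))) = 1 / √((2 : ℝ) ^ (n + 1)) := by
      field_simp
    rw [h6]
    ring
  rw [hkey]
  have h7 : 0 ≤ (sn n : ℝ) ^ 2 / √(2 ^ (n + 1)) := by positivity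
  have h8 : 2400 * (sn n : ℝ) ^ 2 / √(2 ^ (n + 1)) = 2400 * ((sn n : ℝ) ^ 2 / √(2 ^ (n + 1))) := by ring
  rw [h8]
  apply mul_le_mul_of_nonneg_right _ h7
  linarith

/-- The Gordon-Lewis type inequality for `F_n`. -/
theorem gl_nF {κ P : Type} [Fintype κ] [Fintype P] {γ : P → Type} [∀ q, Fintype (γ q)] (n : ℕ)
    (nu : (κ → ℝ) → ℝ) (A b : κ → Fin (Nn n) → ℝ)
    (al : (q : P) → γ q → Fin (Nn n) → ℝ) (hh : (q : P) → γ q → κ → ℝ)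
    (hA : ∀ i r, A i r = ∑ q, ∑ k, al q k r * hh q k i) {K1 K2 : ℝ}
    (hK1 : 0 ≤ K1) (hK2 : 0 ≤ K2)
    (hb : ∀ t : κ → ℝ, nF n (fun r => ∑ i, t i * b i r) ≤ K2 * nu t)
    (hC : ∀ (a : Fin (Nn n) → ℝ) (c : (q : P) → γ q → ℝ),
      (∀ q, ∑ k, c q k ^ 2 ≤ ∑ k, (∑ r, al q k r * a r) ^ 2) →
      nu (fun i => ∑ q, ∑ k, c q k * hh q k i) ≤ K1 * nF n a) :
    |∑ i, ∑ r, A i r * b i r| ≤ 2400 * (Nn n : ℝ) / √(2 ^ (n + 1)) * (K1 * K2) := by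
  have hp2 := pp_gt_two n
  have hp1 : 1 < pp n := by linarith
  have hp0 : 0 < pp n := by linarith
  have hinv : 1 / pp n ≤ 1 := by
    rw [div_le_one hp0]
    exact hp1.le
  have hinv0 : 0 ≤ 1 / pp n := by positivity
  have hxi : ∀ ω : ((Fin (Nn n) → Bool) × (Fin (Nn n) → Fin (sn n))) × Bool, 0 ≤ ∑ i, xi ω.1.2 i := by
    intro ω
    refine Finset.sum_nonneg fun i _ => ?_
    unfold xi
    split_ifs
    · exact zero_le_one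
    · exact le_rfl
  have hmain := gl_abs (Ω₁ := Fin (Nn n) → Bool)
    (Ω₂ := ((Fin (Nn n) → Bool) × (Fin (Nn n) → Fin (sn n))) × Bool)
    (nF n) nu A b al hh hA (fun ε r => sg (ε r)) (fun ω => phi (Om n) ω)
    (fun ω => (∑ i, xi ω.1.2 i) ^ (1 - 1 / pp n))
    (B1 := √3) (B2 := 6 * ((Nn n : ℕ) : ℝ) ^ (1 / pp n)) (A1 := 112 * √(sn n : ℝ))
    (A2 := 2 * (sn n : ℝ) ^ (1 - 1 / pp n)) (K1 := K1) (K2 := K2)
    (Real.sqrt_nonneg _) (by positivity) hK1 hK2 (nF_nonneg n)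
    (fun ω => Real.rpow_nonneg (hxi ω) _)
    (fun α => khin α) (nF_signs n)
    (fun v => phi_lower (sn_pos n) (Om n) (Om_abs n) (Om_orth n) v)
    (fun ω v => phi_upper hp1 (Om n) ω v (nF_ge1 n v) (nF_ge2 n v))
    (phi_mean (by linarith) (by linarith) (sn_pos n) (by rw [Fintype.card_fin, sn_sq]))
    hb hC
  exact hmain.trans (mul_le_mul_of_nonneg_right (gl_const n) (mul_nonneg hK1 hK2))

end BMM
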