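import Pool.Agent.BMM.EC

open Finset

namespace BMM

/-- The block vectors with cut points `u` and coefficients `c`. -/
noncomputable def zz (u : ℕ → ℕ) (c : ℕ → ℝ) (i : ℕ) : ℕ → ℝ := cmb (Ico (u i) (u (i + 1))) c

/-- Combination of block vectors. -/
noncomputable def zc (u : ℕ → ℕ) (c : ℕ → ℝ) (s : Finset ℕ) (t : ℕ → ℝ) : ℕ → ℝ :=
  fun l => ∑ i ∈ s, t i * zz u c i l

theorem zc_fs (u : ℕ → ℕ) (c : ℕ → ℝ) (s : Finset ℕ) (t : ℕ → ℝ) : Fs (zc u c s t) :=
  Fs_sum s fun _ _ => Fs_smul (cmb_fs _ _) _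

theorem TL_sum_blocks {v : ℕ → ℕ} (hv : StrictMono v) (F : ℕ → ℝ) {a b : ℕ} (hab : a ≤ b) :
    ∑ i ∈ Ico a b, ∑ s ∈ Ico (v i) (v (i + 1)), F s = ∑ s ∈ Ico (v a) (v b), F s := by
  induction b, hab using Nat.le_induction with
  | base => simp
  | succ n hn ih =>
    rw [Finset.sum_Ico_succ_top hn, ih,
      Finset.sum_Ico_consecutive F (hv.monotone hn) (hv.monotone (Nat.le_succ n))]

/-- The index of the block of `k`. -/
noncomputable def TL_idx (u : ℕ → ℕ) (k : ℕ) : ℕ := by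
  classical
  exact Nat.findGreatest (fun i => u i ≤ k) k

theorem TL_idx_eq {u : ℕ → ℕ} (hu : StrictMono u) {i k : ℕ} (hk : k ∈ Ico (u i) (u (i + 1))) :
    TL_idx u k = i := by
  classical
  rw [Finset.mem_Ico] at hk
  unfold TL_idx
  rw [Nat.findGreatest_eq_iff]
  refine ⟨(hu.id_le i).trans hk.1, fun _ => hk.1, fun n hn _ hle => ?_⟩
  have h1 : u (i + 1) ≤ u n := hu.monotone hn
  omega

/-- A combination of block vectors over an interval of indices is an interval combination of the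
basis. -/
theorem zc_eq {u : ℕ → ℕ} (hu : StrictMono u) (c t : ℕ → ℝ) (M : ℕ) :
    ∃ c' : ℕ → ℝ, ∀ i1 i2, i1 ≤ i2 → i2 ≤ M →
      zc u c (Ico i1 i2) t = cmb (Ico (u i1) (u i2)) c' := by
  refine ⟨fun k => t (TL_idx u k) * c k, fun i1 i2 h1 _ => ?_⟩
  funext l
  unfold zc zz cmb
  rw [← TL_sum_blocks hu (fun k => t (TL_idx u k) * c k * evec k l) h1]
  refine Finset.sum_congr rfl fun i _ => ?_
  rw [Finset.mul_sum]
  refine Finset.sum_congr rfl fun k hk => ?_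
  rw [TL_idx_eq hu hk]
  ring

theorem TL_cut {c' : ℕ → ℝ} {a b m : ℕ} (h : a ≤ b) :
    cmb (Ico b m) (fun k => if a ≤ k then c' k else 0) = cmb (Ico b m) c' := by
  funext l
  unfold cmb
  refine Finset.sum_congr rfl fun k hk => ?_
  rw [Finset.mem_Ico] at hk
  have h1 : (fun k => if a ≤ k then c' k else 0) k = c' k := if_pos (h.trans hk.1)
  rw [h1]

theorem TL_cut_range {c' : ℕ → ℝ} {a m : ℕ} :
    cmb (range m) (fun k => if a ≤ k then c' k else 0) = cmb (Ico a m) c' := by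
  funext l
  unfold cmb
  have h1 : ∑ k ∈ Ico a m, c' k * evec k l = ∑ k ∈ Ico a m, (if a ≤ k then c' k else 0) * evec k l := by
    refine Finset.sum_congr rfl fun k hk => ?_
    rw [Finset.mem_Ico] at hk
    rw [if_pos hk.1]
  rw [h1]
  symm
  apply Finset.sum_subset
  · intro k hk
    rw [Finset.mem_Ico] at hk
    exact Finset.mem_range.mpr hk.2
  · intro k hk hk'
    rw [Finset.mem_range] at hk
    rw [Finset.mem_Ico] at hk'
    rw [if_neg (fun h => hk' ⟨h, hk⟩), zero_mul]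

/-- Interval projections in the indices of the blocks, group version. -/
theorem gn_zc_interval {u : ℕ → ℕ} (hu : StrictMono u) (c t : ℕ → ℝ) (m : ℕ) {i0 i1 i2 M : ℕ}
    (h0 : i0 ≤ i1) (h1 : i1 ≤ i2) (h2 : i2 ≤ M) :
    gn m (zc u c (Ico i1 i2) t) ≤ 4 * gn m (zc u c (Ico i0 M) t) := by
  obtain ⟨c', hc'⟩ := zc_eq hu c t M
  have e1 := TL_cut (c' := c') (a := u i0) (b := u i1) (m := u i2) (hu.monotone h0)
  have e2 := TL_cut_range (c' := c') (a := u i0) (m := u M)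
  rw [hc' i1 i2 h1 h2, hc' i0 M (h0.trans (h1.trans h2)) le_rfl, ← e1, ← e2]
  exact gn_interval m (hu.monotone h1) (hu.monotone h2) _

theorem nX_zc_interval {u : ℕ → ℕ} (hu : StrictMono u) (c t : ℕ → ℝ) {i0 i1 i2 M : ℕ}
    (h0 : i0 ≤ i1) (h1 : i1 ≤ i2) (h2 : i2 ≤ M) :
    nX (zc u c (Ico i1 i2) t) ≤ 4 * nX (zc u c (Ico i0 M) t) := by
  obtain ⟨c', hc'⟩ := zc_eq hu c t M
  have e1 := TL_cut (c' := c') (a := u i0) (b := u i1) (m := u i2) (hu.monotone h0)
  have e2 := TL_cut_range (c' := c') (a := u i0) (m := u M)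
  rw [hc' i1 i2 h1 h2, hc' i0 M (h0.trans (h1.trans h2)) le_rfl, ← e1, ← e2]
  exact nX_interval (hu.monotone h1) (hu.monotone h2) _

/-- A block vector whose cut interval does not meet the group `m` vanishes there. -/
theorem gn_zz_zero {u : ℕ → ℕ} (c : ℕ → ℝ) {m i : ℕ}
    (h : u (i + 1) ≤ bo m ∨ bo (m + 1) ≤ u i) : gn m (zz u c i) = 0 := by
  rw [← gn_zero m]
  apply gn_congr
  intro l hl
  rw [Finset.mem_Ico] at hl
  unfold zz
  rw [cmb_grp hl.1 hl.2]
  have h1 : Ico (u i) (u (i + 1)) ∩ Ico (bo m) (bo (m + 1)) = ∅ := by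
    ext k
    simp only [Finset.mem_inter, Finset.mem_Ico, Finset.notMem_empty, iff_false]
    omega
  rw [h1]
  simp [cmb]

end BMM
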