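import Pool.Agent.BMM.TL

open Finset

namespace BMM

/-- The indices of the blocks inside the group `m` (indices in `[i0, M)`). -/
def inG (u : ℕ → ℕ) (i0 M m : ℕ) : Finset ℕ :=
  (Ico i0 M).filter (fun i => bo m ≤ u i ∧ u (i + 1) ≤ bo (m + 1))

/-- `i` is crossing: it is inside no group. -/
def Cross (u : ℕ → ℕ) (i : ℕ) : Prop := ∀ m, ¬ (bo m ≤ u i ∧ u (i + 1) ≤ bo (m + 1))

theorem tm_bo : Monotone bo := monotone_nat_of_le_succ (fun k => by
  show bo k ≤ bo k + LL k
  exact Nat.le_add_right _ _)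

theorem tm_ico {s : Finset ℕ} {i0 M : ℕ} (h0 : i0 ≤ M) (hs : s ⊆ Ico i0 M)
    (hc : ∀ i ∈ s, ∀ k ∈ s, ∀ x, i ≤ x → x ≤ k → x ∈ s) :
    ∃ j1 j2, i0 ≤ j1 ∧ j1 ≤ j2 ∧ j2 ≤ M ∧ s = Ico j1 j2 := by
  rcases s.eq_empty_or_nonempty with h | h
  · exact ⟨i0, i0, le_rfl, le_rfl, h0, by rw [h, Finset.Ico_self]⟩
  · have h1 := Finset.mem_Ico.1 (hs (s.min'_mem h))
    have h2 := Finset.mem_Ico.1 (hs (s.max'_mem h))
    have h3 : s.min' h ≤ s.max' h := s.min'_le _ (s.max'_mem h)
    refine ⟨s.min' h, s.max' h + 1, h1.1, by omega, by omega, ?_⟩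
    ext x
    rw [Finset.mem_Ico]
    constructor
    · intro hx
      have := s.min'_le x hx
      have := s.le_max' x hx
      omega
    · rintro ⟨hx1, hx2⟩
      exact hc _ (s.min'_mem h) _ (s.max'_mem h) x hx1 (by omega)

theorem tm_cross {u : ℕ → ℕ} {i m : ℕ} (h1 : u i < bo m) (h2 : bo m < u (i + 1)) : Cross u i := by
  rintro m' ⟨h3, h4⟩
  have h5 : bo m' < bo m := h3.trans_lt h1
  have h6 : m' < m := by
    by_contra hc
    exact absurd (tm_bo (not_lt.1 hc)) (not_le.2 h5)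
  have h7 : bo (m' + 1) ≤ bo m := tm_bo h6
  omega

/-- At most one crossing vector at a given boundary. -/
theorem tm_one {u : ℕ → ℕ} (hu : StrictMono u) (c : ℕ → ℝ) {i0 M : ℕ} {t h : ℕ → ℝ} (m b : ℕ)
    (s : Finset ℕ) (hs : s ⊆ Ico i0 M) (hb : ∀ i ∈ s, u i < b ∧ b < u (i + 1))
    (h1 : ∀ i ∈ s, |h i| ≤ |t i|) :
    gn m (zc u c s h) ≤ 4 * gn m (zc u c (Ico i0 M) t) := by
  rcases s.eq_empty_or_nonempty with he | ⟨i, hi⟩
  · have h2 : gn m (zc u c s h) = 0 := by
      rw [he]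
      show gn m (fun l => ∑ i ∈ (∅ : Finset ℕ), h i * zz u c i l) = 0
      have : (fun l : ℕ => ∑ i ∈ (∅ : Finset ℕ), h i * zz u c i l) = fun _ => 0 := by
        funext l
        simp
      rw [this, gn_zero]
    rw [h2]
    have := gn_nonneg m (zc u c (Ico i0 M) t)
    linarith
  · have hsi : s = {i} := by
      ext j
      rw [Finset.mem_singleton]
      constructor
      · intro hj
        by_contra hne
        have a1 := hb i hi
        have a2 := hb j hj
        rcases Nat.lt_or_gt_of_ne hne with h3 | h3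
        · have : u (j + 1) ≤ u i := hu.monotone h3
          omega
        · have : u (i + 1) ≤ u j := hu.monotone h3
          omega
      · intro hj
        rw [hj]
        exact hi
    have hI := Finset.mem_Ico.1 (hs hi)
    have e1 : ∀ w : ℕ → ℝ, gn m (zc u c {i} w) = |w i| * gn m (zz u c i) := by
      intro w
      rw [← gn_smul]
      congr 1
      funext l
      show ∑ i ∈ {i}, w i * zz u c i l = _
      rw [Finset.sum_singleton]
    have e2 : Ico i (i + 1) = {i} := by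
      ext x
      rw [Finset.mem_Ico, Finset.mem_singleton]
      omega
    have h4 := gn_zc_interval hu c t m (i0 := i0) (i1 := i) (i2 := i + 1) (M := M) hI.1 (by omega) (by omega)
    rw [e2, e1] at h4
    rw [hsi, e1]
    refine le_trans ?_ h4
    exact mul_le_mul_of_nonneg_right (h1 i hi) (gn_nonneg _ _)

/-- The domination property of the block vectors. -/
theorem dom_grp {u : ℕ → ℕ} (hu : StrictMono u) (c : ℕ → ℝ) {i0 M : ℕ} (h0 : i0 ≤ M) {t h : ℕ → ℝ}
    (h1 : ∀ i ∈ Ico i0 M, Cross u i → |h i| ≤ |t i|) (m : ℕ)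
    (h2 : gn m (zc u c (inG u i0 M m) h) ≤ 2 * gn m (zc u c (inG u i0 M m) t)) :
    gn m (zc u c (Ico i0 M) h) ≤ 16 * gn m (zc u c (Ico i0 M) t) := by
  classical
  set A : Finset ℕ := (Ico i0 M).filter (fun i => u i < bo m ∧ bo m < u (i + 1)) with hA
  set B : Finset ℕ := (Ico i0 M).filter
    (fun i => ¬ (u i < bo m ∧ bo m < u (i + 1)) ∧ u i < bo (m + 1) ∧ bo (m + 1) < u (i + 1)) with hB
  have hsplit : gn m (zc u c (Ico i0 M) h) =
      gn m (fun l => (zc u c (inG u i0 M m) h l + zc u c A h l) + zc u c B h l) := by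
    refine gn_congr ?_
    intro l hl
    show ∑ i ∈ Ico i0 M, h i * zz u c i l = (∑ i ∈ inG u i0 M m, h i * zz u c i l +
      ∑ i ∈ A, h i * zz u c i l) + ∑ i ∈ B, h i * zz u c i l
    rw [inG, hA, hB, Finset.sum_filter, Finset.sum_filter, Finset.sum_filter, ← Finset.sum_add_distrib,
      ← Finset.sum_add_distrib]
    refine Finset.sum_congr rfl fun i _ => ?_
    by_cases c1 : bo m ≤ u i ∧ u (i + 1) ≤ bo (m + 1)
    · rw [if_pos c1, if_neg (by omega), if_neg (by omega)]
      ring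
    · rw [if_neg c1]
      by_cases c2 : u i < bo m ∧ bo m < u (i + 1)
      · rw [if_pos c2, if_neg (by tauto)]
        ring
      · rw [if_neg c2]
        by_cases c3 : u i < bo (m + 1) ∧ bo (m + 1) < u (i + 1)
        · rw [if_pos ⟨c2, c3⟩]
          ring
        · rw [if_neg (by tauto)]
          have h3 : u (i + 1) ≤ bo m ∨ bo (m + 1) ≤ u i := by
            have : u i < u (i + 1) := hu (Nat.lt_succ_self i)
            omega
          rw [gn_eq_zero (gn_zz_zero c h3) l hl]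
          ring
  have hG : gn m (zc u c (inG u i0 M m) t) ≤ 4 * gn m (zc u c (Ico i0 M) t) := by
    obtain ⟨j1, j2, h3, h4, h5, h6⟩ := tm_ico h0 (s := inG u i0 M m) (Finset.filter_subset _ _) (by
      intro i hi k hk x hx1 hx2
      rw [inG, Finset.mem_filter, Finset.mem_Ico] at hi hk ⊢
      have h3 : u i ≤ u x := hu.monotone hx1
      have h4 : u (x + 1) ≤ u (k + 1) := hu.monotone (by omega)
      omega)
    rw [h6]
    exact gn_zc_interval hu c t m h3 h4 h5
  have hA' : gn m (zc u c A h) ≤ 4 * gn m (zc u c (Ico i0 M) t) := by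
    refine tm_one hu c m (bo m) A (Finset.filter_subset _ _) ?_ ?_
    · intro i hi
      exact (Finset.mem_filter.1 hi).2
    · intro i hi
      have := Finset.mem_filter.1 hi
      exact h1 i this.1 (tm_cross this.2.1 this.2.2)
  have hB' : gn m (zc u c B h) ≤ 4 * gn m (zc u c (Ico i0 M) t) := by
    refine tm_one hu c m (bo (m + 1)) B (Finset.filter_subset _ _) ?_ ?_
    · intro i hi
      exact (Finset.mem_filter.1 hi).2.2
    · intro i hi
      have := Finset.mem_filter.1 hi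
      exact h1 i this.1 (tm_cross this.2.2.1 this.2.2.2)
  rw [hsplit]
  have h3 := gn_add_le m (fun l => zc u c (inG u i0 M m) h l + zc u c A h l) (zc u c B h)
  have h4 := gn_add_le m (zc u c (inG u i0 M m) h) (zc u c A h)
  linarith

theorem dom_nX {u : ℕ → ℕ} (hu : StrictMono u) (c : ℕ → ℝ) {i0 M : ℕ} (h0 : i0 ≤ M) {t h : ℕ → ℝ}
    (h1 : ∀ i ∈ Ico i0 M, Cross u i → |h i| ≤ |t i|)
    (h2 : ∀ m, gn m (zc u c (inG u i0 M m) h) ≤ 2 * gn m (zc u c (inG u i0 M m) t)) :
    nX (zc u c (Ico i0 M) h) ≤ 16 * nX (zc u c (Ico i0 M) t) :=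
  nX_mono (zc_fs _ _ _ _) (zc_fs _ _ _ _) (by norm_num) (fun m => dom_grp hu c h0 h1 m (h2 m))

end BMM
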