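import Pool.Agent.BMM.TM
import Pool.Agent.BMM.TH

open Finset

namespace BMM

theorem TN_zz_out {m : ℕ} {u : ℕ → ℕ} (c : ℕ → ℝ) {i : ℕ} (hi1 : bo m ≤ u i)
    (hi2 : u (i + 1) ≤ bo (m + 1)) {l : ℕ} (hl : l ∉ Ico (bo m) (bo (m + 1))) :
    zz u c i l = 0 := by
  unfold zz cmb
  refine Finset.sum_eq_zero (fun k hk => ?_)
  rw [Finset.mem_Ico] at hk
  by_contra h0
  have h1 : evec k l ≠ 0 := right_ne_zero_of_mul h0
  have h2 := evec_supp h1
  have h3 : grp k = m := grp_eq (by omega) (by omega)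
  rw [h3] at h2
  apply hl
  rw [Finset.mem_Ico]
  exact h2

theorem TN_inj {m : ℕ} {u : ℕ → ℕ} (hu : StrictMono u) (c : ℕ → ℝ)
    (hne : ∀ i, zz u c i ≠ fun _ => 0) (J : Finset ℕ)
    (hJ : ∀ i ∈ J, bo m ≤ u i ∧ u (i + 1) ≤ bo (m + 1)) (t : ℕ → ℝ)
    (h : ∀ l ∈ Ico (bo m) (bo (m + 1)), zc u c J t l = 0) : ∀ i ∈ J, t i = 0 := by
  classical
  have hz : ∀ l, zc u c J t l = 0 := by
    intro l
    by_cases hl : l ∈ Ico (bo m) (bo (m + 1))
    · exact h l hl
    · unfold zc
      refine Finset.sum_eq_zero (fun i hi => ?_)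
      rw [TN_zz_out c (hJ i hi).1 (hJ i hi).2 hl, mul_zero]
  have hc : cmb (range (bo (m + 1)))
      (fun k => ∑ i ∈ J, if k ∈ Ico (u i) (u (i + 1)) then t i * c k else 0) = fun _ => 0 := by
    funext l
    have e1 : cmb (range (bo (m + 1)))
        (fun k => ∑ i ∈ J, if k ∈ Ico (u i) (u (i + 1)) then t i * c k else 0) l =
        zc u c J t l := by
      unfold cmb zc zz cmb
      simp only [Finset.sum_mul]
      rw [Finset.sum_comm]
      refine Finset.sum_congr rfl (fun i hi => ?_)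
      rw [Finset.mul_sum]
      have e2 : ∀ k, (if k ∈ Ico (u i) (u (i + 1)) then t i * c k else 0) * evec k l =
          if k ∈ Ico (u i) (u (i + 1)) then t i * (c k * evec k l) else 0 := by
        intro k
        split_ifs
        · ring
        · ring
      rw [Finset.sum_congr rfl (fun k _ => e2 k), Finset.sum_ite_mem]
      refine Finset.sum_congr ?_ (fun _ _ => rfl)
      ext k
      rw [Finset.mem_inter, Finset.mem_range, Finset.mem_Ico]
      have h3 := (hJ i hi).2
      constructor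
      · exact fun h4 => h4.2
      · exact fun h4 => ⟨by omega, h4⟩
    rw [e1, hz l]
  have hck := cmb_eq_zero hc
  intro i hi
  by_contra hti
  apply hne i
  have hzero : ∀ k ∈ Ico (u i) (u (i + 1)), c k = 0 := by
    intro k hk
    have hk' := Finset.mem_Ico.mp hk
    have h1 := hck k (by have := (hJ i hi).2; omega)
    have h2 : (∑ i' ∈ J, if k ∈ Ico (u i') (u (i' + 1)) then t i' * c k else 0) = t i * c k := by
      rw [Finset.sum_eq_single i]
      · rw [if_pos hk]
      · intro i' _ hii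
        refine if_neg (fun hk2 => ?_)
        have hk2' := Finset.mem_Ico.mp hk2
        rcases lt_or_gt_of_ne hii with hlt | hlt
        · have h5 : u (i' + 1) ≤ u i := hu.monotone hlt
          omega
        · have h5 : u (i + 1) ≤ u i' := hu.monotone hlt
          omega
      · intro h3
        exact absurd hi h3
    have h1' : (∑ i' ∈ J, if k ∈ Ico (u i') (u (i' + 1)) then t i' * c k else 0) = 0 := h1
    rw [h2] at h1'
    rcases mul_eq_zero.mp h1' with h4 | h4
    · exact absurd h4 hti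
    · exact h4
  funext l
  unfold zz cmb
  exact Finset.sum_eq_zero (fun k hk => by rw [hzero k hk, zero_mul])

/-- The linear map `a ↦ ∑ (A_i a) z_i` on the coordinates of the group `m`. -/
noncomputable def TN_Psi (n m : ℕ) (u : ℕ → ℕ) (c : ℕ → ℝ) (J : Finset ℕ)
    (A : ℕ → Fin (Nn n) → ℝ) :
    (Fin (Nn n) → ℝ) →ₗ[ℝ] ({l // l ∈ Ico (bo m) (bo (m + 1))} → ℝ) where
  toFun a := fun g => zc u c J (fun i => ∑ r, A i r * a r) g
  map_add' a b := by
    funext g
    show zc u c J (fun i => ∑ r, A i r * (a + b) r) g =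
      zc u c J (fun i => ∑ r, A i r * a r) g + zc u c J (fun i => ∑ r, A i r * b r) g
    unfold zc
    rw [← Finset.sum_add_distrib]
    refine Finset.sum_congr rfl (fun i _ => ?_)
    rw [← add_mul, ← Finset.sum_add_distrib]
    congr 1
    refine Finset.sum_congr rfl (fun r _ => ?_)
    rw [Pi.add_apply]
    ring
  map_smul' x a := by
    funext g
    show zc u c J (fun i => ∑ r, A i r * (x • a) r) g =
      x * zc u c J (fun i => ∑ r, A i r * a r) g
    unfold zc
    rw [Finset.mul_sum]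
    refine Finset.sum_congr rfl (fun i _ => ?_)
    rw [← mul_assoc, Finset.mul_sum]
    congr 1
    refine Finset.sum_congr rfl (fun r _ => ?_)
    rw [Pi.smul_apply, smul_eq_mul]
    ring

theorem TN_Psi_apply (n m : ℕ) (u : ℕ → ℕ) (c : ℕ → ℝ) (J : Finset ℕ)
    (A : ℕ → Fin (Nn n) → ℝ) (a : Fin (Nn n) → ℝ) (g : {l // l ∈ Ico (bo m) (bo (m + 1))}) :
    TN_Psi n m u c J A a g = zc u c J (fun i => ∑ r, A i r * a r) g := rfl

theorem TN_pow {n m d : ℕ} (hnm : n < m) (hd : d ≤ Nn n) :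
    (d : ℝ) ^ ((pp m - 2) / 2) ≤ 2 := by
  have ha : 4 ≤ aa m := aa_ge m
  have h1 : (d : ℝ) ≤ (2 : ℝ) ^ (((aa m - 1 : ℕ)) : ℝ) := by
    rw [Real.rpow_natCast]
    exact_mod_cast hd.trans (Nn_le_pow hnm)
  have ha' : (4 : ℝ) ≤ (aa m : ℝ) := by exact_mod_cast ha
  have h2 : ((aa m - 1 : ℕ) : ℝ) = (aa m : ℝ) - 1 := by
    rw [Nat.cast_sub (by omega)]
    norm_num
  have h3 : (pp m - 2) / 2 = 1 / ((aa m : ℝ) - 1) := by
    rw [pp_sub_two]
    have h4 : (aa m : ℝ) - 1 ≠ 0 := by linarith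
    field_simp
  rw [h3]
  have h5 : (0 : ℝ) ≤ 1 / ((aa m : ℝ) - 1) := div_nonneg zero_le_one (by linarith)
  refine (Real.rpow_le_rpow (Nat.cast_nonneg d) h1 h5).trans (le_of_eq ?_)
  rw [← Real.rpow_mul (by norm_num), h2]
  have h6 : ((aa m : ℝ) - 1) * (1 / ((aa m : ℝ) - 1)) = 1 := by
    have h4 : (aa m : ℝ) - 1 ≠ 0 := by linarith
    field_simp
  rw [h6, Real.rpow_one]

/-- Decomposition of the part of `A` inside a later group through an almost orthonormal basis. -/
theorem grp_decomp {n m : ℕ} (hnm : n < m) {u : ℕ → ℕ} (hu : StrictMono u) (c : ℕ → ℝ)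
    (hne : ∀ i, zz u c i ≠ fun _ => 0) (J : Finset ℕ)
    (hJ : ∀ i ∈ J, bo m ≤ u i ∧ u (i + 1) ≤ bo (m + 1)) (A : ℕ → Fin (Nn n) → ℝ) :
    ∃ (d : ℕ) (al : Fin d → Fin (Nn n) → ℝ) (hh : Fin d → ℕ → ℝ),
      (∀ k i, i ∉ J → hh k i = 0) ∧ (∀ i ∈ J, ∀ r, A i r = ∑ k, al k r * hh k i) ∧
      (∀ c' : Fin d → ℝ, gn m (zc u c J (fun i => ∑ k, c' k * hh k i)) ≤ √(∑ k, c' k ^ 2)) ∧
      (∀ a : Fin (Nn n) → ℝ, √(∑ k, (∑ r, al k r * a r) ^ 2) ≤
        2 * gn m (zc u c J (fun i => ∑ r, A i r * a r))) := by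
  classical
  have hpp := pp_gt_two m
  obtain ⟨b, hb⟩ := euc_basis hpp (LinearMap.range (TN_Psi n m u c J A))
  have hpre : ∀ k, ∃ a : Fin (Nn n) → ℝ, TN_Psi n m u c J A a =
      (b k : {l // l ∈ Ico (bo m) (bo (m + 1))} → ℝ) := fun k => (b k).2
  choose ak hak using hpre
  have hdN : Module.finrank ℝ (LinearMap.range (TN_Psi n m u c J A)) ≤ Nn n := by
    refine (LinearMap.finrank_range_le (TN_Psi n m u c J A)).trans (le_of_eq ?_)
    rw [Module.finrank_fin_fun]
  let L : Fin (Module.finrank ℝ (LinearMap.range (TN_Psi n m u c J A))) →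
      ((Fin (Nn n) → ℝ) →ₗ[ℝ] ℝ) :=
    fun k => (b.coord k).comp (TN_Psi n m u c J A).rangeRestrict
  have hL : ∀ (a : Fin (Nn n) → ℝ) (g : {l // l ∈ Ico (bo m) (bo (m + 1))}),
      ∑ k, L k a * (b k : {l // l ∈ Ico (bo m) (bo (m + 1))} → ℝ) g =
      zc u c J (fun i => ∑ r, A i r * a r) g := by
    intro a g
    have h1 := b.sum_repr ((TN_Psi n m u c J A).rangeRestrict a)
    have h2 := congrArg (fun x : LinearMap.range (TN_Psi n m u c J A) =>
      (x : {l // l ∈ Ico (bo m) (bo (m + 1))} → ℝ) g) h1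
    simp only [Submodule.coe_sum, Submodule.coe_smul, Finset.sum_apply, Pi.smul_apply,
      smul_eq_mul] at h2
    rw [← TN_Psi_apply]
    exact h2
  have hLs : ∀ k (a : Fin (Nn n) → ℝ), ∑ r, L k (fun j => if r = j then 1 else 0) * a r = L k a := by
    intro k a
    rw [LinearMap.pi_apply_eq_sum_univ (L k) a]
    exact Finset.sum_congr rfl (fun r _ => by rw [smul_eq_mul, mul_comm])
  have hzh : ∀ k (g : {l // l ∈ Ico (bo m) (bo (m + 1))}),
      zc u c J (fun i => if i ∈ J then ∑ r, A i r * ak k r else 0) g =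
        (b k : {l // l ∈ Ico (bo m) (bo (m + 1))} → ℝ) g := by
    intro k g
    rw [← hak k, TN_Psi_apply]
    unfold zc
    exact Finset.sum_congr rfl (fun i hi => by simp only [if_pos hi])
  have hzs : ∀ (c' : Fin (Module.finrank ℝ (LinearMap.range (TN_Psi n m u c J A))) → ℝ)
      (g : {l // l ∈ Ico (bo m) (bo (m + 1))}),
      zc u c J (fun i => ∑ k, c' k * (if i ∈ J then ∑ r, A i r * ak k r else 0)) g =
        ∑ k, c' k * (b k : {l // l ∈ Ico (bo m) (bo (m + 1))} → ℝ) g := by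
    intro c' g
    have e1 : ∀ k, c' k * (b k : {l // l ∈ Ico (bo m) (bo (m + 1))} → ℝ) g =
        ∑ i ∈ J, c' k * ((if i ∈ J then ∑ r, A i r * ak k r else 0) * zz u c i g) := by
      intro k
      rw [← hzh k g]
      unfold zc
      rw [Finset.mul_sum]
    rw [Finset.sum_congr rfl (fun k _ => e1 k), Finset.sum_comm]
    unfold zc
    refine Finset.sum_congr rfl (fun i _ => ?_)
    rw [Finset.sum_mul]
    exact Finset.sum_congr rfl (fun k _ => by ring)
  refine ⟨Module.finrank ℝ (LinearMap.range (TN_Psi n m u c J A)),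
    fun k r => L k (fun j => if r = j then 1 else 0),
    fun k i => if i ∈ J then ∑ r, A i r * ak k r else 0, ?_, ?_, ?_, ?_⟩
  · intro k i hi
    exact if_neg hi
  · intro i hi r
    have h1 := TN_inj hu c hne J hJ (fun i => A i r - ∑ k, L k (fun j => if r = j then 1 else 0) *
      (if i ∈ J then ∑ r', A i r' * ak k r' else 0)) (by
        intro l hl
        have e1 : zc u c J (fun i => A i r - ∑ k, L k (fun j => if r = j then 1 else 0) *
            (if i ∈ J then ∑ r', A i r' * ak k r' else 0)) l =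
            zc u c J (fun i => A i r) l - zc u c J (fun i => ∑ k,
              L k (fun j => if r = j then 1 else 0) *
              (if i ∈ J then ∑ r', A i r' * ak k r' else 0)) l := by
          unfold zc
          rw [← Finset.sum_sub_distrib]
          exact Finset.sum_congr rfl (fun i _ => by ring)
        rw [e1, hzs (fun k => L k (fun j => if r = j then 1 else 0)) ⟨l, hl⟩,
          hL (fun j => if r = j then 1 else 0) ⟨l, hl⟩, sub_eq_zero]
        congr 1
        funext i
        simp) i hi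
    linarith
  · intro c'
    have h1 := (hb c').1
    refine le_trans (le_of_eq ?_) h1
    unfold gn
    congr 1
    rw [← Finset.sum_coe_sort (Ico (bo m) (bo (m + 1)))]
    exact Finset.sum_congr rfl (fun g _ => by rw [hzs c' g])
  · intro a
    have h1 := (hb (fun k => L k a)).2
    have e1 : ∀ k, (∑ r, L k (fun j => if r = j then 1 else 0) * a r) = L k a := fun k => hLs k a
    simp only [e1]
    refine h1.trans ?_
    refine mul_le_mul (TN_pow hnm hdN) (le_of_eq ?_) ?_ (by norm_num)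
    · unfold gn
      congr 1
      rw [← Finset.sum_coe_sort (Ico (bo m) (bo (m + 1)))]
      exact Finset.sum_congr rfl (fun g _ => by rw [hL a g])
    · exact Real.rpow_nonneg (Finset.sum_nonneg (fun g _ => Real.rpow_nonneg (abs_nonneg _) _)) _

end BMM
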