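import Pool.Agent.BMM.TN
import Pool.Agent.BMM.TK

open Finset

namespace BMM

theorem TO_inG_empty {n i0 M : ℕ} {u : ℕ → ℕ} (hu : StrictMono u) (hi0 : bo (n + 1) ≤ u i0)
    {m : ℕ} (hm : m ∉ Ioo n (u M + 1)) : inG u i0 M m = ∅ := by
  rw [Finset.eq_empty_iff_forall_notMem]
  intro i hi
  unfold inG at hi
  rw [Finset.mem_filter, Finset.mem_Ico] at hi
  obtain ⟨⟨h1, h2⟩, h3, h4⟩ := hi
  apply hm
  rw [Finset.mem_Ioo]
  constructor
  · by_contra h5
    push Not at h5
    have h6 : bo (m + 1) ≤ bo (n + 1) := bo_strictMono.monotone (by omega)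
    have h7 : u i0 ≤ u i := hu.monotone h1
    have h8 : u i < u (i + 1) := hu (Nat.lt_succ_self i)
    omega
  · have h5 : m ≤ bo m := bo_strictMono.le_apply
    have h6 : u i ≤ u M := hu.monotone h2.le
    omega

theorem TO_inG_unique {i0 M : ℕ} {u : ℕ → ℕ} (hu : StrictMono u) {m m' i : ℕ}
    (h : i ∈ inG u i0 M m) (h' : i ∈ inG u i0 M m') : m = m' := by
  unfold inG at h h'
  rw [Finset.mem_filter] at h h'
  have h8 : u i < u (i + 1) := hu (Nat.lt_succ_self i)
  have e1 : grp (u i) = m := grp_eq h.2.1 (by have := h.2.2; omega)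
  have e2 : grp (u i) = m' := grp_eq h'.2.1 (by have := h'.2.2; omega)
  rw [← e1, ← e2]

theorem TO_zc_congr (u : ℕ → ℕ) (c : ℕ → ℝ) (s : Finset ℕ) {t t' : ℕ → ℝ}
    (h : ∀ i ∈ s, t i = t' i) : zc u c s t = zc u c s t' := by
  funext l
  unfold zc
  exact Finset.sum_congr rfl (fun i hi => by rw [h i hi])

/-- The index type of a family: crossing indices and groups. -/
abbrev TO_P (n i0 M : ℕ) (u : ℕ → ℕ) : Type := {i // i ∈ Ico i0 M} ⊕ {m // m ∈ Ioo n (u M + 1)}

/-- The far part. -/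
theorem far_part {n i0 M : ℕ} (h0 : i0 ≤ M) {u : ℕ → ℕ} (hu : StrictMono u) (c : ℕ → ℝ)
    (hne : ∀ i, zz u c i ≠ fun _ => 0) (hi0 : bo (n + 1) ≤ u i0) (A B : ℕ → Fin (Nn n) → ℝ)
    {K1 K2 : ℝ} (hK1 : 0 ≤ K1) (hK2 : 0 ≤ K2)
    (hA : ∀ a : Fin (Nn n) → ℝ, nX (zc u c (Ico i0 M) (fun i => ∑ r, A i r * a r)) ≤ K1 * nF n a)
    (hB : ∀ t : ℕ → ℝ, nF n (fun r => ∑ i ∈ Ico i0 M, t i * B i r) ≤
      K2 * nX (zc u c (Ico i0 M) t)) :
    |∑ i ∈ Ico i0 M, ∑ r, A i r * B i r| ≤
      2400 * (Nn n : ℝ) / √(2 ^ (n + 1)) * (16 * K1 * K2) := by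
  classical
  have hdec : ∀ q : {m // m ∈ Ioo n (u M + 1)}, ∃ (d : ℕ) (al : Fin d → Fin (Nn n) → ℝ)
      (hh : Fin d → ℕ → ℝ),
      (∀ k i, i ∉ inG u i0 M q → hh k i = 0) ∧
      (∀ i ∈ inG u i0 M q, ∀ r, A i r = ∑ k, al k r * hh k i) ∧
      (∀ c' : Fin d → ℝ, gn q (zc u c (inG u i0 M q) (fun i => ∑ k, c' k * hh k i)) ≤
        √(∑ k, c' k ^ 2)) ∧
      (∀ a : Fin (Nn n) → ℝ, √(∑ k, (∑ r, al k r * a r) ^ 2) ≤
        2 * gn q (zc u c (inG u i0 M q) (fun i => ∑ r, A i r * a r))) := by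
    intro q
    exact grp_decomp (Finset.mem_Ioo.mp q.2).1 hu c hne (inG u i0 M q) (fun i hi => by
      unfold inG at hi
      exact (Finset.mem_filter.mp hi).2) A
  choose d alg hhg hg1 hg2 hg3 hg4 using hdec
  let γ : TO_P n i0 M u → Type := fun q => match q with
    | Sum.inl _ => Unit
    | Sum.inr q => Fin (d q)
  let inst : ∀ q, Fintype (γ q) := fun q => match q with
    | Sum.inl _ => (inferInstance : Fintype Unit)
    | Sum.inr q => (inferInstance : Fintype (Fin (d q)))
  let al : (q : TO_P n i0 M u) → γ q → Fin (Nn n) → ℝ := fun q => match q with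
    | Sum.inl j => fun _ r => if Cross u j then A j r else 0
    | Sum.inr q => fun k r => alg q k r
  let hh : (q : TO_P n i0 M u) → γ q → ℕ → ℝ := fun q => match q with
    | Sum.inl j => fun _ i => if i = (j : ℕ) then 1 else 0
    | Sum.inr q => fun k i => hhg q k i
  let ext : ({i // i ∈ Ico i0 M} → ℝ) → ℕ → ℝ := fun t i => if h : i ∈ Ico i0 M then t ⟨i, h⟩ else 0
  have hext : ∀ (t : {i // i ∈ Ico i0 M} → ℝ) (i : {i // i ∈ Ico i0 M}), ext t i = t i := by
    intro t i
    exact dif_pos i.2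
  -- the sum over all `P` of a coefficient family
  have hsum : ∀ (cc : (q : TO_P n i0 M u) → γ q → ℝ) (i : ℕ),
      ∑ q, ∑ k, cc q k * hh q k i =
        (∑ j : {i // i ∈ Ico i0 M}, cc (Sum.inl j) () * (if i = (j : ℕ) then 1 else 0)) +
        ∑ q : {m // m ∈ Ioo n (u M + 1)}, ∑ k : Fin (d q), cc (Sum.inr q) k * hhg q k i := by
    intro cc i
    rw [Fintype.sum_sum_type]
    congr 1
    refine Finset.sum_congr rfl (fun j _ => ?_)
    exact Fintype.sum_unique (fun k : Unit => cc (Sum.inl j) k * (if i = (j : ℕ) then 1 else 0))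
  have hsum1 : ∀ (cc : {i // i ∈ Ico i0 M} → ℝ) (i : {i // i ∈ Ico i0 M}),
      (∑ j : {i // i ∈ Ico i0 M}, cc j * (if (i : ℕ) = (j : ℕ) then 1 else 0)) = cc i := by
    intro cc i
    rw [Finset.sum_eq_single i]
    · rw [if_pos rfl, mul_one]
    · intro j _ hj
      rw [if_neg (fun h => hj (Subtype.ext h.symm)), mul_zero]
    · intro h
      exact absurd (Finset.mem_univ _) h
  -- group part at an index
  have hgin : ∀ (cc : (q : {m // m ∈ Ioo n (u M + 1)}) → Fin (d q) → ℝ)
      (q : {m // m ∈ Ioo n (u M + 1)}) (i : ℕ), i ∈ inG u i0 M q →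
      ∑ q' : {m // m ∈ Ioo n (u M + 1)}, ∑ k : Fin (d q'), cc q' k * hhg q' k i =
        ∑ k, cc q k * hhg q k i := by
    intro cc q i hi
    rw [Finset.sum_eq_single q]
    · intro q' _ hq
      refine Finset.sum_eq_zero (fun k _ => ?_)
      rw [hg1 q' k i (fun hi' => hq (Subtype.ext (TO_inG_unique hu hi' hi))), mul_zero]
    · intro h
      exact absurd (Finset.mem_univ _) h
  have hgout : ∀ (cc : (q : {m // m ∈ Ioo n (u M + 1)}) → Fin (d q) → ℝ) (i : ℕ),
      (∀ q : {m // m ∈ Ioo n (u M + 1)}, i ∉ inG u i0 M q) →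
      ∑ q' : {m // m ∈ Ioo n (u M + 1)}, ∑ k : Fin (d q'), cc q' k * hhg q' k i = 0 := by
    intro cc i hi
    refine Finset.sum_eq_zero (fun q' _ => Finset.sum_eq_zero (fun k _ => ?_))
    rw [hg1 q' k i (hi q'), mul_zero]
  have hcross : ∀ i, Cross u i → ∀ m, i ∉ inG u i0 M m := by
    intro i hi m hm
    unfold inG at hm
    exact hi m (Finset.mem_filter.mp hm).2
  have hncross : ∀ i ∈ Ico i0 M, ¬ Cross u i →
      ∃ q : {m // m ∈ Ioo n (u M + 1)}, i ∈ inG u i0 M q := by
    intro i hi hc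
    unfold Cross at hc
    push Not at hc
    obtain ⟨m, hm1, hm2⟩ := hc
    have h1 : i ∈ inG u i0 M m := by
      unfold inG
      rw [Finset.mem_filter]
      exact ⟨hi, hm1, hm2⟩
    have h2 : m ∈ Ioo n (u M + 1) := by
      by_contra h3
      rw [TO_inG_empty hu hi0 h3] at h1
      exact absurd h1 (Finset.notMem_empty i)
    exact ⟨⟨m, h2⟩, h1⟩
  have hmain := gl_nF (κ := {i // i ∈ Ico i0 M}) (P := TO_P n i0 M u) (γ := γ) n
    (fun t => nX (zc u c (Ico i0 M) (ext t))) (fun i => A i) (fun i => B i) al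
    (fun q k i => hh q k i) (by
      intro i r
      have h1 := hsum (fun q k => al q k r) i
      show A i r = ∑ q, ∑ k, al q k r * hh q k i
      rw [h1]
      by_cases hc : Cross u i
      · have h2 := hgout (fun q k => alg q k r) i (fun q => hcross i hc q)
        have h3 : (∑ q : {m // m ∈ Ioo n (u M + 1)}, ∑ k : Fin (d q),
            al (Sum.inr q) k r * hhg q k i) = 0 := h2
        rw [h3, add_zero]
        have h4 := hsum1 (fun j => if Cross u j then A j r else 0) i
        have h5 : (∑ j : {i // i ∈ Ico i0 M}, al (Sum.inl j) () r *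
            (if (i : ℕ) = (j : ℕ) then 1 else 0)) = if Cross u i then A i r else 0 := h4
        rw [h5, if_pos hc]
      · obtain ⟨q, hq⟩ := hncross i i.2 hc
        have h2 := hgin (fun q k => alg q k r) q i hq
        have h3 : (∑ q : {m // m ∈ Ioo n (u M + 1)}, ∑ k : Fin (d q),
            al (Sum.inr q) k r * hhg q k i) = ∑ k, alg q k r * hhg q k i := h2
        have h4 := hsum1 (fun j => if Cross u j then A j r else 0) i
        have h5 : (∑ j : {i // i ∈ Ico i0 M}, al (Sum.inl j) () r *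
            (if (i : ℕ) = (j : ℕ) then 1 else 0)) = if Cross u i then A i r else 0 := h4
        rw [h3, h5, if_neg hc, zero_add]
        exact hg2 q i hq r)
    (K1 := 16 * K1) (K2 := K2) (by positivity) hK2 (by
      intro t
      have h1 := hB (ext t)
      refine le_trans (le_of_eq ?_) h1
      congr 1
      funext r
      rw [← Finset.sum_coe_sort (Ico i0 M) (fun i => ext t i * B i r)]
      exact Finset.sum_congr rfl (fun i _ => by rw [hext t i]))
    (by
      intro a cc hcc
      have h1 : ∀ q : {i // i ∈ Ico i0 M}, cc (Sum.inl q) () ^ 2 ≤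
          (∑ r, (if Cross u q then A q r else 0) * a r) ^ 2 := by
        intro q
        have h2 := hcc (Sum.inl q)
        have e1 : ∑ k : γ (Sum.inl q), cc (Sum.inl q) k ^ 2 = cc (Sum.inl q) () ^ 2 :=
          Fintype.sum_unique (fun k : Unit => cc (Sum.inl q) k ^ 2)
        have e2 : ∑ k : γ (Sum.inl q), (∑ r, al (Sum.inl q) k r * a r) ^ 2 =
            (∑ r, (if Cross u q then A q r else 0) * a r) ^ 2 :=
          Fintype.sum_unique (fun k : Unit => (∑ r, (if Cross u q then A q r else 0) * a r) ^ 2)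
        rw [e1, e2] at h2
        exact h2
      have h2 : ∀ q : {m // m ∈ Ioo n (u M + 1)}, ∑ k : Fin (d q), cc (Sum.inr q) k ^ 2 ≤
          ∑ k, (∑ r, alg q k r * a r) ^ 2 := fun q => hcc (Sum.inr q)
      have h3 : ∀ i : {i // i ∈ Ico i0 M}, ext (fun i => ∑ q, ∑ k, cc q k * hh q k i) i =
          ∑ q, ∑ k, cc q k * hh q k i := fun i =>
        hext (fun i : {i // i ∈ Ico i0 M} => ∑ q, ∑ k, cc q k * hh q k i) i
      have hval : ∀ i ∈ Ico i0 M, ext (fun i => ∑ q, ∑ k, cc q k * hh q k i) i =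
          ∑ q, ∑ k, cc q k * hh q k i := fun i hi => h3 ⟨i, hi⟩
      have h4 := dom_nX hu c h0 (t := fun i => ∑ r, A i r * a r)
        (h := ext (fun i => ∑ q, ∑ k, cc q k * hh q k i)) (by
          intro i hi hc
          rw [hval i hi, hsum cc i]
          have e1 := hgout (fun q k => cc (Sum.inr q) k) i (fun q => hcross i hc q)
          rw [e1, add_zero, hsum1 (fun j => cc (Sum.inl j) ()) ⟨i, hi⟩]
          have e2 := h1 ⟨i, hi⟩
          simp only [if_pos hc] at e2
          exact sq_le_sq.mp e2) (by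
          intro m
          by_cases hm : m ∈ Ioo n (u M + 1)
          · have e1 : zc u c (inG u i0 M m) (ext (fun i => ∑ q, ∑ k, cc q k * hh q k i)) =
                zc u c (inG u i0 M m) (fun i => ∑ k : Fin (d ⟨m, hm⟩),
                  cc (Sum.inr ⟨m, hm⟩) k * hhg ⟨m, hm⟩ k i) := by
              refine TO_zc_congr u c _ (fun i hi => ?_)
              have hi' : i ∈ Ico i0 M := by
                unfold inG at hi
                exact (Finset.mem_filter.mp hi).1
              rw [hval i hi', hsum cc i]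
              have e3 := hgin (fun q k => cc (Sum.inr q) k) ⟨m, hm⟩ i hi
              rw [e3, hsum1 (fun j => cc (Sum.inl j) ()) ⟨i, hi'⟩]
              have e4 := h1 ⟨i, hi'⟩
              have hnc : ¬ Cross u i := fun hc => hcross i hc m hi
              simp only [if_neg hnc, zero_mul, Finset.sum_const_zero] at e4
              have e5 : cc (Sum.inl ⟨i, hi'⟩) () = 0 := by
                have e6 : cc (Sum.inl ⟨i, hi'⟩) () ^ 2 ≤ 0 := by simpa using e4
                exact pow_eq_zero_iff (two_ne_zero) |>.mp (le_antisymm e6 (sq_nonneg _))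
              rw [e5, zero_add]
            rw [e1]
            refine (hg3 ⟨m, hm⟩ (fun k => cc (Sum.inr ⟨m, hm⟩) k)).trans ?_
            exact (Real.sqrt_le_sqrt (h2 ⟨m, hm⟩)).trans (hg4 ⟨m, hm⟩ a)
          · have e1 := TO_inG_empty (n := n) (i0 := i0) (M := M) hu hi0 hm
            rw [e1]
            have e2 : ∀ t : ℕ → ℝ, zc u c ∅ t = fun _ => 0 := by
              intro t
              funext l
              unfold zc
              exact Finset.sum_empty
            rw [e2, e2, gn_zero]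
            norm_num)
      refine h4.trans ?_
      have h5 := hA a
      calc 16 * nX (zc u c (Ico i0 M) (fun i => ∑ r, A i r * a r))
          ≤ 16 * (K1 * nF n a) := by linarith
        _ = 16 * K1 * nF n a := by ring)
  rw [← Finset.sum_coe_sort (Ico i0 M) (fun i => ∑ r, A i r * B i r)]
  exact hmain

end BMM
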