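import Pool.Agent.BMM.TL
import Pool.Agent.BMM.TI

open Finset

namespace BMM

/-- One term of the near part. -/
theorem near_term {n M : ℕ} {u : ℕ → ℕ} (hu : StrictMono u) (c : ℕ → ℝ)
    (hne : ∀ i, zz u c i ≠ fun _ => 0) (A B : ℕ → Fin (Nn n) → ℝ)
    {K1 K2 : ℝ} (hK1 : 0 ≤ K1) (hK2 : 0 ≤ K2)
    (hA : ∀ a : Fin (Nn n) → ℝ, nX (zc u c (range M) (fun i => ∑ r, A i r * a r)) ≤ K1 * nF n a)
    (hB : ∀ t : ℕ → ℝ, nF n (fun r => ∑ i ∈ range M, t i * B i r) ≤
      K2 * nX (zc u c (range M) t)) {i : ℕ} (hi : i < M) :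
    |∑ r, A i r * B i r| ≤ 4 * (K1 * K2) := by
  have hzfs : Fs (zz u c i) := cmb_fs _ _
  have hz0 : 0 < nX (zz u c i) := by
    rcases lt_or_eq_of_le (nX_nonneg (zz u c i)) with h | h
    · exact h
    · exact absurd (nX_eq_zero hzfs h.symm) (hne i)
  have h1 := hA (B i)
  have h2 := nX_zc_interval hu c (fun j => ∑ r, A j r * B i r) (i0 := 0) (Nat.zero_le i) (Nat.le_succ i) hi
  have h3 : zc u c (Ico i (i + 1)) (fun j => ∑ r, A j r * B i r) =
      fun l => (∑ r, A i r * B i r) * zz u c i l := by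
    funext l
    unfold zc
    rw [Nat.Ico_succ_singleton, sum_singleton]
  rw [show (i.succ) = i + 1 from rfl, h3, nX_smul hzfs, ← range_eq_Ico] at h2
  have h4 := hB (Pi.single i 1)
  have h5 : (fun r => ∑ j ∈ range M, (Pi.single i (1 : ℝ) : ℕ → ℝ) j * B j r) = B i := by
    funext r
    rw [sum_eq_single_of_mem i (mem_range.2 hi) (fun j _ hj => by rw [Pi.single_eq_of_ne hj, zero_mul])]
    rw [Pi.single_eq_same, one_mul]
  have h6 : zc u c (range M) (Pi.single i 1) = zz u c i := by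
    funext l
    unfold zc
    rw [sum_eq_single_of_mem i (mem_range.2 hi) (fun j _ hj => by rw [Pi.single_eq_of_ne hj, zero_mul])]
    rw [Pi.single_eq_same, one_mul]
  rw [h5, h6] at h4
  have h7 : |∑ r, A i r * B i r| * nX (zz u c i) ≤ 4 * (K1 * K2) * nX (zz u c i) := by
    calc |∑ r, A i r * B i r| * nX (zz u c i)
        ≤ 4 * nX (zc u c (range M) (fun i_1 => ∑ r, A i_1 r * B i r)) := h2
      _ ≤ 4 * (K1 * nF n (B i)) := by linarith
      _ ≤ 4 * (K1 * (K2 * nX (zz u c i))) := by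
          have := mul_le_mul_of_nonneg_left h4 hK1
          linarith
      _ = 4 * (K1 * K2) * nX (zz u c i) := by ring
  exact le_of_mul_le_mul_right h7 hz0

end BMM
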