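import Pool.Agent.BMM.TO
import Pool.Agent.BMM.TP

open Finset

namespace BMM

/-- The trace inequality (cut point form): `z_i = cmb (Ico (u i) (u (i+1))) c`. -/
theorem trace_ineq : ∃ C : ℝ, 0 ≤ C ∧ ∀ (n M i0 : ℕ) (u : ℕ → ℕ) (c : ℕ → ℝ), StrictMono u →
    (∀ i < i0, u i < bo n) → bo (n + 1) ≤ u i0 →
    (∀ i, cmb (Ico (u i) (u (i + 1))) c ≠ fun _ => 0) →
    ∀ (A B : ℕ → Fin (Nn n) → ℝ) (K1 K2 : ℝ), 0 ≤ K1 → 0 ≤ K2 →
    (∀ a : Fin (Nn n) → ℝ, nX (fun l => ∑ i ∈ range M,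
      (∑ r, A i r * a r) * cmb (Ico (u i) (u (i + 1))) c l) ≤ K1 * nF n a) →
    (∀ t : ℕ → ℝ, nF n (fun r => ∑ i ∈ range M, t i * B i r) ≤
      K2 * nX (fun l => ∑ i ∈ range M, t i * cmb (Ico (u i) (u (i + 1))) c l)) →
    |∑ i ∈ range M, ∑ r, A i r * B i r| ≤
      (4 * (bo n : ℝ) + C * (Nn n : ℝ) / √(2 ^ (n + 1))) * (K1 * K2) := by
  refine ⟨153600, by norm_num, ?_⟩
  intro n M i0 u c hu hnear hfar hne A B K1 K2 hK1 hK2 hA hB
  have hKK : 0 ≤ K1 * K2 := mul_nonneg hK1 hK2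
  have hA' : ∀ a : Fin (Nn n) → ℝ,
      nX (zc u c (range M) (fun i => ∑ r, A i r * a r)) ≤ K1 * nF n a := hA
  have hB' : ∀ t : ℕ → ℝ, nF n (fun r => ∑ i ∈ range M, t i * B i r) ≤
      K2 * nX (zc u c (range M) t) := hB
  have hne' : ∀ i, zz u c i ≠ fun _ => 0 := hne
  have hi0 : i0 ≤ bo n := by
    rcases Nat.eq_zero_or_pos i0 with h | h
    · omega
    · have h1 := hnear (i0 - 1) (by omega)
      have h2 : i0 - 1 ≤ u (i0 - 1) := hu.id_le (i0 - 1)
      omega
  have hterm : ∀ i, i < M → |∑ r, A i r * B i r| ≤ 4 * (K1 * K2) := fun i hi =>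
    near_term hu c hne' A B hK1 hK2 hA' hB' hi
  have hD : 0 ≤ 153600 * (Nn n : ℝ) / √(2 ^ (n + 1)) := by positivity
  rcases le_total M i0 with hM | hM
  · calc |∑ i ∈ range M, ∑ r, A i r * B i r|
        ≤ ∑ i ∈ range M, |∑ r, A i r * B i r| := abs_sum_le_sum_abs _ _
      _ ≤ ∑ i ∈ range M, 4 * (K1 * K2) :=
          sum_le_sum fun i hi => hterm i (mem_range.1 hi)
      _ = (M : ℝ) * (4 * (K1 * K2)) := by rw [sum_const, card_range, nsmul_eq_mul]
      _ ≤ (bo n : ℝ) * (4 * (K1 * K2)) := by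
          apply mul_le_mul_of_nonneg_right _ (by positivity)
          exact_mod_cast le_trans hM hi0
      _ ≤ (4 * (bo n : ℝ) + 153600 * (Nn n : ℝ) / √(2 ^ (n + 1))) * (K1 * K2) := by
          nlinarith [mul_nonneg hD hKK]
  · have hfarA : ∀ a : Fin (Nn n) → ℝ,
        nX (zc u c (Ico i0 M) (fun i => ∑ r, A i r * a r)) ≤ (4 * K1) * nF n a := by
      intro a
      have h1 := nX_zc_interval hu c (fun i => ∑ r, A i r * a r) (Nat.zero_le i0) hM le_rfl
      have h2 := hA' a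
      rw [range_eq_Ico] at h2
      calc _ ≤ 4 * nX (zc u c (Ico 0 M) (fun i => ∑ r, A i r * a r)) := h1
        _ ≤ 4 * (K1 * nF n a) := by linarith
        _ = _ := by ring
    have hfarB : ∀ t : ℕ → ℝ, nF n (fun r => ∑ i ∈ Ico i0 M, t i * B i r) ≤
        K2 * nX (zc u c (Ico i0 M) t) := by
      intro t
      have hsub : Ico i0 M ⊆ range M := by
        intro i hi
        rw [mem_Ico] at hi
        exact mem_range.2 hi.2
      have h := hB' (fun i => if i ∈ Ico i0 M then t i else 0)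
      have e1 : (fun r => ∑ i ∈ range M, (if i ∈ Ico i0 M then t i else 0) * B i r) =
          fun r => ∑ i ∈ Ico i0 M, t i * B i r := by
        funext r
        rw [← sum_subset hsub]
        · exact sum_congr rfl fun i hi => by rw [if_pos hi]
        · intro i _ hi
          rw [if_neg hi, zero_mul]
      have e2 : zc u c (range M) (fun i => if i ∈ Ico i0 M then t i else 0) =
          zc u c (Ico i0 M) t := by
        unfold zc
        funext l
        rw [← sum_subset hsub]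
        · exact sum_congr rfl fun i hi => by simp only [if_pos hi]
        · intro i _ hi
          simp only [if_neg hi, zero_mul]
      rw [e1, e2] at h
      exact h
    have hF := far_part hM hu c hne' hfar A B (mul_nonneg (by norm_num) hK1) hK2 hfarA hfarB
    have hsplit : ∑ i ∈ range M, ∑ r, A i r * B i r =
        ∑ i ∈ range i0, ∑ r, A i r * B i r + ∑ i ∈ Ico i0 M, ∑ r, A i r * B i r :=
      (sum_range_add_sum_Ico _ hM).symm
    have hN : |∑ i ∈ range i0, ∑ r, A i r * B i r| ≤ (bo n : ℝ) * (4 * (K1 * K2)) := by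
      calc |∑ i ∈ range i0, ∑ r, A i r * B i r|
          ≤ ∑ i ∈ range i0, |∑ r, A i r * B i r| := abs_sum_le_sum_abs _ _
        _ ≤ ∑ i ∈ range i0, 4 * (K1 * K2) :=
            sum_le_sum fun i hi => hterm i (lt_of_lt_of_le (mem_range.1 hi) hM)
        _ = (i0 : ℝ) * (4 * (K1 * K2)) := by rw [sum_const, card_range, nsmul_eq_mul]
        _ ≤ (bo n : ℝ) * (4 * (K1 * K2)) := by
            apply mul_le_mul_of_nonneg_right _ (by positivity)
            exact_mod_cast hi0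
    rw [hsplit]
    calc _ ≤ |∑ i ∈ range i0, ∑ r, A i r * B i r| + |∑ i ∈ Ico i0 M, ∑ r, A i r * B i r| :=
          abs_add_le _ _
      _ ≤ (bo n : ℝ) * (4 * (K1 * K2)) +
          2400 * (Nn n : ℝ) / √(2 ^ (n + 1)) * (16 * (4 * K1) * K2) := add_le_add hN hF
      _ = (4 * (bo n : ℝ) + 153600 * (Nn n : ℝ) / √(2 ^ (n + 1))) * (K1 * K2) := by ring

end BMM
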