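import Pool.Agent.BMM.WA

open Finset

namespace BMM

/-- The partial sum operators of the Walsh system. -/
noncomputable def wS (h r : ℕ) (x : ℕ → ℝ) : ℕ → ℝ := fun i =>
  ∑ j ∈ range r, (∑ i' ∈ range (2 ^ h), wal h j i' * x i') * wal h j i / 2 ^ h

/-- The coefficients of a Walsh polynomial. -/
theorem WB_inner {h R j : ℕ} (hR : R ≤ 2 ^ h) (hj : j < 2 ^ h) (c : ℕ → ℝ) :
    ∑ i ∈ range (2 ^ h), wal h j i * (∑ j' ∈ range R, c j' * wal h j' i) =
      if j < R then c j * 2 ^ h else 0 := by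
  have h1 : ∀ i, wal h j i * (∑ j' ∈ range R, c j' * wal h j' i) =
      ∑ j' ∈ range R, c j' * (wal h j i * wal h j' i) := by
    intro i
    rw [Finset.mul_sum]
    exact Finset.sum_congr rfl (fun j' _ => by ring)
  simp only [h1]
  rw [Finset.sum_comm]
  have h2 : ∀ j' ∈ range R, ∑ i ∈ range (2 ^ h), c j' * (wal h j i * wal h j' i) =
      if j = j' then c j' * 2 ^ h else 0 := by
    intro j' hj'
    rw [← Finset.mul_sum, wal_orth hj (lt_of_lt_of_le (Finset.mem_range.1 hj') hR)]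
    split_ifs <;> simp
  rw [Finset.sum_congr rfl h2, Finset.sum_ite_eq]
  simp [Finset.mem_range]

/-- `wS` tested against `y`. -/
theorem WB_test (h r : ℕ) (x y : ℕ → ℝ) :
    ∑ i ∈ range (2 ^ h), wS h r x i * y i =
      ∑ j ∈ range r, (∑ i ∈ range (2 ^ h), wal h j i * x i) *
        (∑ i ∈ range (2 ^ h), wal h j i * y i) / 2 ^ h := by
  unfold wS
  have h1 : ∀ i, (∑ j ∈ range r, (∑ i' ∈ range (2 ^ h), wal h j i' * x i') * wal h j i / 2 ^ h) * y i =
      ∑ j ∈ range r, ((∑ i' ∈ range (2 ^ h), wal h j i' * x i') / 2 ^ h) * (wal h j i * y i) := by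
    intro i
    rw [Finset.sum_mul]
    exact Finset.sum_congr rfl (fun j' _ => by ring)
  simp only [h1]
  rw [Finset.sum_comm]
  refine Finset.sum_congr rfl (fun j _ => ?_)
  rw [← Finset.mul_sum]
  ring

/-- `|S_r|_{2→2} ≤ 1`. -/
theorem wS_l2 {h r : ℕ} (hr : r ≤ 2 ^ h) (x : ℕ → ℝ) :
    ∑ i ∈ range (2 ^ h), (wS h r x i) ^ 2 ≤ ∑ i ∈ range (2 ^ h), (x i) ^ 2 := by
  have h1 := WB_test h r x x
  have h2 := WB_test h r x (wS h r x)
  have h3 : ∀ j ∈ range r, (∑ i ∈ range (2 ^ h), wal h j i * x i) *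
        (∑ i ∈ range (2 ^ h), wal h j i * wS h r x i) / 2 ^ h =
      (∑ i ∈ range (2 ^ h), wal h j i * x i) * (∑ i ∈ range (2 ^ h), wal h j i * x i) / 2 ^ h := by
    intro j hj
    have hjr := Finset.mem_range.1 hj
    have h4 := WB_inner hr (lt_of_lt_of_le hjr hr)
      (fun j => (∑ i' ∈ range (2 ^ h), wal h j i' * x i') / 2 ^ h)
    rw [if_pos hjr] at h4
    have h5 : ∑ i ∈ range (2 ^ h), wal h j i * wS h r x i =
        ∑ i ∈ range (2 ^ h), wal h j i * (∑ j' ∈ range r,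
          ((∑ i' ∈ range (2 ^ h), wal h j' i' * x i') / 2 ^ h) * wal h j' i) := by
      refine Finset.sum_congr rfl (fun i _ => ?_)
      congr 1
      unfold wS
      exact Finset.sum_congr rfl (fun j' _ => by ring)
    rw [h5, h4]
    field_simp
  rw [Finset.sum_congr rfl h3, ← h1] at h2
  have h6 : 0 ≤ ∑ i ∈ range (2 ^ h), (x i - wS h r x i) ^ 2 :=
    Finset.sum_nonneg (fun i _ => sq_nonneg _)
  have h7 : ∑ i ∈ range (2 ^ h), (x i - wS h r x i) ^ 2 =
      ∑ i ∈ range (2 ^ h), (x i) ^ 2 - 2 * ∑ i ∈ range (2 ^ h), wS h r x i * x i +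
        ∑ i ∈ range (2 ^ h), wS h r x i * wS h r x i := by
    rw [Finset.mul_sum, ← Finset.sum_sub_distrib, ← Finset.sum_add_distrib]
    exact Finset.sum_congr rfl (fun i _ => by ring)
  have h8 : ∑ i ∈ range (2 ^ h), (wS h r x i) ^ 2 = ∑ i ∈ range (2 ^ h), wS h r x i * wS h r x i :=
    Finset.sum_congr rfl (fun i _ => by ring)
  rw [h8]
  linarith

theorem WB_split (h : ℕ) (f : ℕ → ℝ) : ∑ i ∈ range (2 ^ (h + 1)), f i =
    ∑ i ∈ range (2 ^ h), f i + ∑ i ∈ range (2 ^ h), f (i + 2 ^ h) := by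
  have h1 : 2 ^ (h + 1) = 2 ^ h + 2 ^ h := by ring
  rw [h1, Finset.sum_range_add]
  congr 1
  exact Finset.sum_congr rfl (fun i _ => by rw [add_comm])

theorem WB_low {h j : ℕ} (hj : j < 2 ^ h) (x : ℕ → ℝ) :
    ∑ i ∈ range (2 ^ (h + 1)), wal (h + 1) j i * x i =
      ∑ i ∈ range (2 ^ h), wal h j i * (x i + x (i + 2 ^ h)) := by
  rw [WB_split, ← Finset.sum_add_distrib]
  refine Finset.sum_congr rfl (fun i _ => ?_)
  rw [wal_low hj, wal_low hj, wal_shift]
  ring

theorem WB_high {h j : ℕ} (hj : j < 2 ^ h) (x : ℕ → ℝ) :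
    ∑ i ∈ range (2 ^ (h + 1)), wal (h + 1) (j + 2 ^ h) i * x i =
      ∑ i ∈ range (2 ^ h), wal h j i * (x i - x (i + 2 ^ h)) := by
  rw [WB_split, ← Finset.sum_add_distrib]
  refine Finset.sum_congr rfl (fun i hi => ?_)
  have hi' := Finset.mem_range.1 hi
  rw [wal_high_low hj hi', wal_high_high hj hi']
  ring

theorem WB_half {h : ℕ} (j : ℕ) (a : ℕ → ℝ) (w : ℝ) :
    (∑ i ∈ range (2 ^ h), wal h j i * a i) * w / 2 ^ (h + 1) =
      (∑ i ∈ range (2 ^ h), wal h j i * (a i / 2)) * w / 2 ^ h := by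
  have h1 : ∑ i ∈ range (2 ^ h), wal h j i * (a i / 2) = (∑ i ∈ range (2 ^ h), wal h j i * a i) / 2 := by
    rw [Finset.sum_div]
    exact Finset.sum_congr rfl (fun i _ => by ring)
  rw [h1, pow_succ]
  field_simp

theorem WB_rlow {h r : ℕ} (hr : r ≤ 2 ^ h) (x : ℕ → ℝ) (i : ℕ) :
    wS (h + 1) r x i = wS h r (fun i => (x i + x (i + 2 ^ h)) / 2) i := by
  unfold wS
  refine Finset.sum_congr rfl (fun j hj => ?_)
  have hj' : j < 2 ^ h := lt_of_lt_of_le (Finset.mem_range.1 hj) hr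
  rw [WB_low hj', wal_low hj', WB_half]

theorem WB_per (h r : ℕ) (x : ℕ → ℝ) (i : ℕ) : wS h r x (i + 2 ^ h) = wS h r x i := by
  unfold wS
  exact Finset.sum_congr rfl (fun j _ => by rw [wal_shift])

theorem WB_full {h : ℕ} (x : ℕ → ℝ) {i : ℕ} (hi : i < 2 ^ h) : wS h (2 ^ h) x i = x i := by
  unfold wS
  have h1 : ∀ j, (∑ i' ∈ range (2 ^ h), wal h j i' * x i') * wal h j i / 2 ^ h =
      ∑ i' ∈ range (2 ^ h), (x i' / 2 ^ h) * (wal h i j * wal h i' j) := by
    intro j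
    rw [Finset.sum_mul, Finset.sum_div]
    refine Finset.sum_congr rfl (fun i' _ => ?_)
    rw [wal_symm h i j, wal_symm h i' j]
    ring
  simp only [h1]
  rw [Finset.sum_comm]
  have h2 : ∀ i' ∈ range (2 ^ h), ∑ j ∈ range (2 ^ h), (x i' / 2 ^ h) * (wal h i j * wal h i' j) =
      if i = i' then x i' else 0 := by
    intro i' hi'
    rw [← Finset.mul_sum, wal_orth hi (Finset.mem_range.1 hi')]
    split_ifs with hc
    · field_simp
    · simp
  rw [Finset.sum_congr rfl h2, Finset.sum_ite_eq, if_pos (Finset.mem_range.2 hi)]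

theorem WB_rhigh {h r : ℕ} (hr : r ≤ 2 ^ h) (x : ℕ → ℝ) (i : ℕ) :
    wS (h + 1) (2 ^ h + r) x i = wS h (2 ^ h) (fun i => (x i + x (i + 2 ^ h)) / 2) i +
      ∑ j ∈ range r, (∑ i' ∈ range (2 ^ h), wal h j i' * ((x i' - x (i' + 2 ^ h)) / 2)) *
        wal (h + 1) (j + 2 ^ h) i / 2 ^ h := by
  have h1 : wS (h + 1) (2 ^ h + r) x i = wS (h + 1) (2 ^ h) x i +
      ∑ j ∈ range r, (∑ i' ∈ range (2 ^ (h + 1)), wal (h + 1) (j + 2 ^ h) i' * x i') *
        wal (h + 1) (j + 2 ^ h) i / 2 ^ (h + 1) := by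
    unfold wS
    rw [Finset.sum_range_add]
    congr 1
    exact Finset.sum_congr rfl (fun j _ => by rw [add_comm (2 ^ h) j])
  rw [h1, WB_rlow le_rfl]
  congr 1
  refine Finset.sum_congr rfl (fun j hj => ?_)
  have hj' : j < 2 ^ h := lt_of_lt_of_le (Finset.mem_range.1 hj) hr
  rw [WB_high hj', WB_half]

theorem WB_sup (h : ℕ) : ∀ (r : ℕ) (_ : r ≤ 2 ^ h) (x : ℕ → ℝ) (C : ℝ) (_ : 0 ≤ C)
    (_ : ∀ i < 2 ^ h, |x i| ≤ C), ∀ i < 2 ^ h, |wS h r x i| ≤ ((h : ℝ) + 1) * C := by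
  induction h with
  | zero =>
    intro r hr x C hC hx i hi
    have hi0 : i = 0 := by simpa using hi
    subst hi0
    have hx0 := hx 0 (by norm_num)
    rcases Nat.le_one_iff_eq_zero_or_eq_one.1 (by simpa using hr) with rfl | rfl
    · simp [wS, hC]
    · simpa [wS, wal] using hx0
  | succ h ih =>
    intro r hr x C hC hx i hi
    have e1 : 2 ^ (h + 1) = 2 ^ h + 2 ^ h := by ring
    have hav : ∀ i < 2 ^ h, |(x i + x (i + 2 ^ h)) / 2| ≤ C := by
      intro i hi
      have h1 := hx i (by omega)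
      have h2 := hx (i + 2 ^ h) (by omega)
      rw [abs_le] at h1 h2 ⊢
      constructor <;> linarith [h1.1, h1.2, h2.1, h2.2]
    have hdf : ∀ i < 2 ^ h, |(x i - x (i + 2 ^ h)) / 2| ≤ C := by
      intro i hi
      have h1 := hx i (by omega)
      have h2 := hx (i + 2 ^ h) (by omega)
      rw [abs_le] at h1 h2 ⊢
      constructor <;> linarith [h1.1, h1.2, h2.1, h2.2]
    -- reduction to the first half
    obtain ⟨i', hi', hii⟩ : ∃ i', i' < 2 ^ h ∧ (i = i' ∨ i = i' + 2 ^ h) := by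
      by_cases hc : i < 2 ^ h
      · exact ⟨i, hc, Or.inl rfl⟩
      · exact ⟨i - 2 ^ h, by omega, Or.inr (by omega)⟩
    by_cases hr' : r ≤ 2 ^ h
    · have h3 : wS (h + 1) r x i = wS h r (fun i => (x i + x (i + 2 ^ h)) / 2) i' := by
        rw [WB_rlow hr']
        rcases hii with rfl | rfl
        · rfl
        · rw [WB_per]
      have h4 := ih r hr' _ C hC hav i' hi'
      rw [h3]
      push_cast
      linarith
    · obtain ⟨r', rfl⟩ : ∃ r', r = 2 ^ h + r' := ⟨r - 2 ^ h, by omega⟩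
      have hr'' : r' ≤ 2 ^ h := by omega
      have h4 := ih r' hr'' _ C hC hdf i' hi'
      have h5 : |wS h (2 ^ h) (fun i => (x i + x (i + 2 ^ h)) / 2) i| ≤ C := by
        have h6 : wS h (2 ^ h) (fun i => (x i + x (i + 2 ^ h)) / 2) i =
            wS h (2 ^ h) (fun i => (x i + x (i + 2 ^ h)) / 2) i' := by
          rcases hii with rfl | rfl
          · rfl
          · rw [WB_per]
        rw [h6, WB_full _ hi']
        exact hav i' hi'
      have h7 : |∑ j ∈ range r', (∑ i' ∈ range (2 ^ h), wal h j i' * ((x i' - x (i' + 2 ^ h)) / 2)) *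
          wal (h + 1) (j + 2 ^ h) i / 2 ^ h| =
          |wS h r' (fun i => (x i - x (i + 2 ^ h)) / 2) i'| := by
        rcases hii with rfl | rfl
        · congr 1
          unfold wS
          refine Finset.sum_congr rfl (fun j hj => ?_)
          rw [wal_high_low (lt_of_lt_of_le (Finset.mem_range.1 hj) hr'') hi']
        · rw [← abs_neg (wS h r' _ i')]
          congr 1
          unfold wS
          rw [← Finset.sum_neg_distrib]
          refine Finset.sum_congr rfl (fun j hj => ?_)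
          rw [wal_high_high (lt_of_lt_of_le (Finset.mem_range.1 hj) hr'') hi']
          ring
      rw [WB_rhigh hr'']
      refine (abs_add_le _ _).trans ?_
      rw [h7]
      push_cast
      linarith

/-- `|S_r|_{∞→∞} ≤ h + 1`. -/
theorem wS_sup {h r : ℕ} (hr : r ≤ 2 ^ h) {x : ℕ → ℝ} {C : ℝ} (hC : 0 ≤ C)
    (hx : ∀ i < 2 ^ h, |x i| ≤ C) : ∀ i < 2 ^ h, |wS h r x i| ≤ ((h : ℝ) + 1) * C := by
  exact WB_sup h r hr x C hC hx

/-- `S_r` of a Walsh polynomial is its partial sum. -/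
theorem wS_poly {h r R : ℕ} (hr : r ≤ R) (hR : R ≤ 2 ^ h) (c : ℕ → ℝ) :
    ∀ i, wS h r (fun i => ∑ j ∈ range R, c j * wal h j i) i =
      ∑ j ∈ range r, c j * wal h j i := by
  intro i
  unfold wS
  refine Finset.sum_congr rfl (fun j hj => ?_)
  have hjr := Finset.mem_range.1 hj
  have hjR : j < R := lt_of_lt_of_le hjr hr
  rw [WB_inner hR (lt_of_lt_of_le hjR hR) c, if_pos hjR]
  field_simp

theorem wS_add (h r : ℕ) (x y : ℕ → ℝ) :
    wS h r (fun i => x i + y i) = fun i => wS h r x i + wS h r y i := by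
  funext i
  unfold wS
  rw [← Finset.sum_add_distrib]
  refine Finset.sum_congr rfl (fun j _ => ?_)
  have h1 : ∑ i' ∈ range (2 ^ h), wal h j i' * (x i' + y i') =
      ∑ i' ∈ range (2 ^ h), wal h j i' * x i' + ∑ i' ∈ range (2 ^ h), wal h j i' * y i' := by
    rw [← Finset.sum_add_distrib]
    exact Finset.sum_congr rfl (fun i _ => by ring)
  rw [h1]
  ring

theorem wS_smul (h r : ℕ) (c : ℝ) (x : ℕ → ℝ) :
    wS h r (fun i => c * x i) = fun i => c * wS h r x i := by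
  funext i
  unfold wS
  rw [Finset.mul_sum]
  refine Finset.sum_congr rfl (fun j _ => ?_)
  have h1 : ∑ i' ∈ range (2 ^ h), wal h j i' * (c * x i') =
      c * ∑ i' ∈ range (2 ^ h), wal h j i' * x i' := by
    rw [Finset.mul_sum]
    exact Finset.sum_congr rfl (fun i _ => by ring)
  rw [h1]
  ring

end BMM
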