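import Pool.Agent.BMM.Par

open Finset MeasureTheory

namespace BMM

theorem WC_zero {p s τ : ℝ} (h : s ≤ τ) : τ ^ (p - 3) * (max (s - τ) 0) ^ 2 = 0 := by
  rw [max_eq_right (by linarith)]
  ring

theorem WC_poly {p s τ : ℝ} (h0 : 0 < τ) (h : τ ≤ s) :
    τ ^ (p - 3) * (max (s - τ) 0) ^ 2 = s ^ 2 * τ ^ (p - 3) - 2 * s * τ ^ (p - 2) + τ ^ (p - 1) := by
  rw [max_eq_left (by linarith)]
  have e1 : τ ^ (p - 2) = τ ^ (p - 3) * τ := by
    rw [← Real.rpow_add_one h0.ne']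
    congr 1
    ring
  have e2 : τ ^ (p - 1) = τ ^ (p - 3) * τ * τ := by
    rw [← e1, ← Real.rpow_add_one h0.ne']
    congr 1
    ring
  rw [e2, e1]
  ring

/-- The scaling integral. -/
theorem int_scale {p : ℝ} (hp : 2 < p) : ∃ c : ℝ, 0 < c ∧ ∀ s : ℝ, 0 ≤ s →
    IntegrableOn (fun τ : ℝ => τ ^ (p - 3) * (max (s - τ) 0) ^ 2) (Set.Ioi 0) ∧
    ∫ τ in Set.Ioi (0 : ℝ), τ ^ (p - 3) * (max (s - τ) 0) ^ 2 = c * s ^ p := by
  refine ⟨2 / ((p - 2) * (p - 1) * p), ?_, ?_⟩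
  · have h1 : 0 < p - 2 := by linarith
    have h2 : 0 < p - 1 := by linarith
    have h3 : 0 < p := by linarith
    positivity
  intro s hs
  have hi1 : IntervalIntegrable (fun τ : ℝ => s ^ 2 * τ ^ (p - 3)) volume 0 s :=
    (intervalIntegral.intervalIntegrable_rpow' (by linarith)).const_mul _
  have hi2 : IntervalIntegrable (fun τ : ℝ => 2 * s * τ ^ (p - 2)) volume 0 s :=
    (intervalIntegral.intervalIntegrable_rpow' (by linarith)).const_mul _
  have hi3 : IntervalIntegrable (fun τ : ℝ => τ ^ (p - 1)) volume 0 s :=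
    intervalIntegral.intervalIntegrable_rpow' (by linarith)
  have hi : IntervalIntegrable (fun τ : ℝ => s ^ 2 * τ ^ (p - 3) - 2 * s * τ ^ (p - 2) + τ ^ (p - 1)) volume 0 s :=
    (hi1.sub hi2).add hi3
  have hon1 : IntegrableOn (fun τ : ℝ => τ ^ (p - 3) * (max (s - τ) 0) ^ 2) (Set.Ioc 0 s) := by
    refine ((intervalIntegrable_iff_integrableOn_Ioc_of_le hs).1 hi).congr_fun ?_ measurableSet_Ioc
    intro τ hτ
    exact (WC_poly hτ.1 hτ.2).symm
  have hz : Set.EqOn (fun τ : ℝ => τ ^ (p - 3) * (max (s - τ) 0) ^ 2) (fun _ => 0) (Set.Ioi s) :=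
    fun τ hτ => WC_zero (le_of_lt hτ)
  have hon2 : IntegrableOn (fun τ : ℝ => τ ^ (p - 3) * (max (s - τ) 0) ^ 2) (Set.Ioi s) :=
    (integrableOn_zero (μ := volume) (s := Set.Ioi s) : IntegrableOn (fun _ : ℝ => (0 : ℝ)) (Set.Ioi s)).congr_fun
      (fun τ hτ => (hz hτ).symm) measurableSet_Ioi
  have hun : Set.Ioi (0 : ℝ) = Set.Ioc 0 s ∪ Set.Ioi s := (Set.Ioc_union_Ioi_eq_Ioi hs).symm
  refine ⟨by rw [hun]; exact hon1.union hon2, ?_⟩
  rw [hun, setIntegral_union (Set.Ioc_disjoint_Ioi le_rfl) measurableSet_Ioi hon1 hon2]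
  rw [setIntegral_congr_fun measurableSet_Ioi hz, integral_zero, add_zero]
  have e1 : ∫ τ in Set.Ioc 0 s, τ ^ (p - 3) * (max (s - τ) 0) ^ 2 =
      ∫ τ in Set.Ioc 0 s, (s ^ 2 * τ ^ (p - 3) - 2 * s * τ ^ (p - 2) + τ ^ (p - 1)) :=
    setIntegral_congr_fun measurableSet_Ioc fun τ hτ => WC_poly hτ.1 hτ.2
  rw [e1, ← intervalIntegral.integral_of_le hs, intervalIntegral.integral_add (hi1.sub hi2) hi3,
    intervalIntegral.integral_sub hi1 hi2, intervalIntegral.integral_const_mul, intervalIntegral.integral_const_mul,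
    integral_rpow (Or.inl (by linarith)), integral_rpow (Or.inl (by linarith)), integral_rpow (Or.inl (by linarith))]
  have h2 : p - 2 ≠ 0 := by linarith
  have h1 : p - 1 ≠ 0 := by linarith
  have h0 : p ≠ 0 := by linarith
  rw [show p - 3 + 1 = p - 2 by ring, show p - 2 + 1 = p - 1 by ring, show p - 1 + 1 = p by ring,
    Real.zero_rpow h2, Real.zero_rpow h1, Real.zero_rpow h0]
  rcases hs.eq_or_lt with h | h
  · subst h
    rw [Real.zero_rpow h2, Real.zero_rpow h1, Real.zero_rpow h0]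
    ring
  · have e1 : s ^ (p - 1) = s ^ (p - 2) * s := by
      rw [← Real.rpow_add_one h.ne']
      congr 1
      ring
    have e2 : s ^ p = s ^ (p - 2) * s * s := by
      rw [← e1, ← Real.rpow_add_one h.ne']
      congr 1
      ring
    rw [e2, e1]
    field_simp
    ring

theorem WC_trunc {x τ : ℝ} (hτ : 0 ≤ τ) :
    |max (-τ) (min x τ)| ≤ τ ∧ |x - max (-τ) (min x τ)| = max (|x| - τ) 0 := by
  constructor
  · rw [abs_le]
    exact ⟨le_max_left _ _, max_le (by linarith) (min_le_right _ _)⟩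
  · rcases le_total x τ with h | h
    · rw [min_eq_left h]
      rcases le_total (-τ) x with h' | h'
      · rw [max_eq_right h', sub_self, abs_zero, max_eq_right]
        rw [sub_nonpos, abs_le]
        exact ⟨h', h⟩
      · rw [max_eq_left h']
        have hx : x ≤ 0 := by linarith
        rw [abs_of_nonpos (by linarith : x - -τ ≤ 0), abs_of_nonpos hx, max_eq_left (by linarith)]
        ring
    · rw [min_eq_right h, max_eq_right (by linarith)]
      rw [abs_of_nonneg (by linarith : 0 ≤ x - τ), abs_of_nonneg (by linarith : 0 ≤ x), max_eq_left (by linarith)]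

/-- Truncation: `∑ (|Tx|_i - Λτ)_+^2 ≤ ∑ (|x|_i - τ)_+^2`. -/
theorem trunc_le {N : ℕ} (T : (Fin N → ℝ) →ₗ[ℝ] (Fin N → ℝ)) {Λ : ℝ} (hΛ : 0 ≤ Λ)
    (h2 : ∀ x, ∑ i, (T x i) ^ 2 ≤ ∑ i, (x i) ^ 2)
    (hinf : ∀ x C, 0 ≤ C → (∀ i, |x i| ≤ C) → ∀ i, |T x i| ≤ Λ * C)
    (x : Fin N → ℝ) {τ : ℝ} (hτ : 0 ≤ τ) :
    ∑ i, (max (|T x i| - Λ * τ) 0) ^ 2 ≤ ∑ i, (max (|x i| - τ) 0) ^ 2 := by
  have _ := hΛ
  obtain ⟨y, hy⟩ : ∃ y : Fin N → ℝ, y = fun i => max (-τ) (min (x i) τ) := ⟨_, rfl⟩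
  have hyb : ∀ i, |y i| ≤ τ := fun i => by
    rw [hy]
    exact (WC_trunc hτ).1
  have hTy := hinf y τ hτ hyb
  have e : ∑ i, (max (|x i| - τ) 0) ^ 2 = ∑ i, ((x - y) i) ^ 2 := by
    refine Finset.sum_congr rfl fun i _ => ?_
    rw [← (WC_trunc (x := x i) hτ).2, sq_abs, hy]
    rfl
  rw [e]
  refine le_trans (Finset.sum_le_sum fun i _ => ?_) (h2 (x - y))
  rw [← sq_abs (T (x - y) i)]
  refine pow_le_pow_left₀ (le_max_right _ _) (max_le ?_ (abs_nonneg _)) 2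
  have h1 : T x i = T (x - y) i + T y i := by
    rw [map_sub]
    simp
  have h3 : |T x i| ≤ |T (x - y) i| + |T y i| := by
    rw [h1]
    exact abs_add_le _ _
  have := hTy i
  linarith

end BMM
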